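import Pool.Agent.S5.E.B2.Cls

/-!
# Mixed chains, block E: vertices with two twists, elementary lemmas
-/

set_option autoImplicit false

namespace Pool.Agent.S5.E.B2

open Complex

theorem InR.t1' {r : Rg} {x y : ℝ} (h : InR r x y) {T : ℕ} (hT : r.t1 ≤ T) :
    y ≤ (T : ℝ) / 1000 * x := by
  have h1 : (r.t1 : ℝ) ≤ T := by exact_mod_cast hT
  refine h.a1.trans (mul_le_mul_of_nonneg_right ?_ h.x0)
  linarith

theorem InR.t0' {r : Rg} {x y : ℝ} (h : InR r x y) {T : ℕ} (hT : T ≤ r.t0) :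
    (T : ℝ) / 1000 * x ≤ y := by
  have h1 : (T : ℝ) ≤ r.t0 := by exact_mod_cast hT
  refine le_trans (mul_le_mul_of_nonneg_right ?_ h.x0) h.a0
  linarith

theorem InR.k0' {r : Rg} {x y : ℝ} (h : InR r x y) {K : ℕ} (hK : K ≤ r.k0) :
    ((K : ℝ) / 1000) ^ 2 ≤ x ^ 2 + y ^ 2 := by
  have h1 : (K : ℝ) ≤ r.k0 := by exact_mod_cast hK
  refine le_trans (pow_le_pow_left₀ (by positivity) ?_ 2) h.lo
  linarith

theorem InR.k1' {r : Rg} {x y : ℝ} (h : InR r x y) {K : ℕ} (hK : r.k1 ≤ K) :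
    x ^ 2 + y ^ 2 ≤ ((K : ℝ) / 1000) ^ 2 := by
  have h1 : (r.k1 : ℝ) ≤ K := by exact_mod_cast hK
  refine h.hi.trans (pow_le_pow_left₀ (by positivity) ?_ 2)
  linarith

theorem InR.xlo {r : Rg} {x y : ℝ} (h : InR r x y) (h1 : 570 ≤ r.k0) (h2 : r.t1 ≤ 900) :
    0.4 ≤ x := by
  have a := h.k0' h1
  have b := h.t1' h2
  have x0 := h.x0
  have y0 := h.y0
  norm_num at a b ⊢
  by_contra hc
  push Not at hc
  nlinarith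

/-- The branch condition, two `A` slots. -/
theorem br_T {r₁ r₂ : Rg} {x₁ y₁ x₂ y₂ u v : ℝ} (g1 : InR r₁ x₁ y₁) (g2 : InR r₂ x₂ y₂)
    (hx₁ : 0 < x₁) (hx₂ : 0 < x₂) (hv : 0 < v) (huv : v ≤ u) :
    0 < (u ^ 2 - v ^ 2) * (y₁ + sgy false y₂) + 2 * u * v * (x₁ + x₂) := by
  have h1 : 0 ≤ y₁ + sgy false y₂ := by
    simp only [sgy, Bool.false_eq_true, if_false]
    linarith [g1.y0, g2.y0]
  have h2 : 0 ≤ u ^ 2 - v ^ 2 := by nlinarith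
  have hu : 0 < u := by linarith
  have : 0 < 2 * u * v * (x₁ + x₂) := by positivity
  have := mul_nonneg h2 h1
  linarith

/-- The branch condition, an `A` slot and an `S` slot. -/
theorem br_S {r₁ r₂ : Rg} {x₁ y₁ x₂ y₂ u v : ℝ} (g1 : InR r₁ x₁ y₁) (g2 : InR r₂ x₂ y₂)
    (h1 : 570 ≤ r₁.k0) (h2 : r₁.t1 ≤ 900) (h3 : r₂.t1 ≤ 777) (h4 : r₂.k1 ≤ 1020)
    (hx₂ : 0 < x₂) (hu : 0 < u) (hv : 0.34 * u ≤ v) (huv : v ≤ 1.04 * u) :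
    0 < (u ^ 2 - v ^ 2) * (y₁ + sgy true y₂) + 2 * u * v * (x₁ + x₂) := by
  have e : sgy true y₂ = -y₂ := by simp [sgy]
  rw [e]
  have a1 := g1.xlo h1 h2
  have a2 := g1.t1' (T := 1000) (h2.trans (by norm_num))
  have a3 := g2.t1' h3
  have a4 := g2.k1' h4
  have y1 := g1.y0
  have y2 := g2.y0
  norm_num at a1 a2 a3 a4 hv huv
  have a5 : x₂ ≤ 1.02 := by norm_num; nlinarith
  norm_num at a5
  have hv0 : 0 < v := by nlinarith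
  have huv0 : 0 < u * v := mul_pos hu hv0
  have hu2 : 0 < u ^ 2 := by positivity
  rcases le_total v u with h | h
  · -- `(u² - v²) y₂ < 2 u v (x₁ + x₂)`
    have b1 : 0 ≤ u ^ 2 - v ^ 2 := by nlinarith
    have b2 : 0 ≤ (u ^ 2 - v ^ 2) * y₁ := mul_nonneg b1 y1
    have b3 : u ^ 2 - v ^ 2 ≤ 2211 / 2500 * u ^ 2 := by nlinarith
    have b4 : 17 / 50 * u ^ 2 ≤ u * v := by nlinarith
    have b5 : (u ^ 2 - v ^ 2) * y₂ ≤ (2211 / 2500 * u ^ 2) * (777 / 1000 * x₂) :=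
      mul_le_mul b3 a3 y2 (by positivity)
    have b6 : 17 / 50 * u ^ 2 * (2 * (x₁ + x₂)) ≤ u * v * (2 * (x₁ + x₂)) :=
      mul_le_mul_of_nonneg_right b4 (by linarith)
    have b7 : 0 < u ^ 2 * (17 / 25 * x₁ - 1 / 100 * x₂) := mul_pos hu2 (by linarith)
    nlinarith
  · have b1 : v ^ 2 - u ^ 2 ≤ 51 / 625 * u ^ 2 := by nlinarith
    have b0 : 0 ≤ v ^ 2 - u ^ 2 := by nlinarith
    have b2 : (v ^ 2 - u ^ 2) * y₁ ≤ 51 / 625 * u ^ 2 * x₁ :=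
      mul_le_mul b1 a2 y1 (by positivity)
    have b3 : 0 ≤ (v ^ 2 - u ^ 2) * y₂ := mul_nonneg b0 y2
    have b4 : u ^ 2 ≤ u * v := by nlinarith
    have b5 : u ^ 2 * (2 * (x₁ + x₂)) ≤ u * v * (2 * (x₁ + x₂)) :=
      mul_le_mul_of_nonneg_right b4 (by linarith)
    have b6 : 0 < u ^ 2 * x₁ := mul_pos hu2 (by linarith)
    have b7 : 0 < u ^ 2 * x₂ := mul_pos hu2 hx₂
    nlinarith

/-- Symmetry for two `A` slots. -/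
theorem V2.swap {x₁ y₁ x₂ y₂ u v : ℝ} (h : V2 false x₁ y₁ x₂ y₂ u v) : V2 false x₂ y₂ x₁ y₁ u v := by
  have hq := h.q
  have hb := h.br
  simp only [sgy, Bool.false_eq_true, if_false] at hq hb
  refine ⟨h.x20, h.x10, h.u0, h.v0, ?_, ?_⟩
  · simp only [sgy, Bool.false_eq_true, if_false]
    linear_combination hq
  · simp only [sgy, Bool.false_eq_true, if_false]
    linarith

theorem Imp.swap {r₁ r₂ : Rg} {C : ℝ → ℝ → Prop} (h : Imp false r₁ r₂ C) : Imp false r₂ r₁ C :=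
  fun x₁ y₁ x₂ y₂ u v g1 g2 hv => h x₂ y₂ x₁ y₁ u v g2 g1 hv.swap

/-- `|κ|⁴ ≤ |s|² / 4` if `Im (p conj s) ≥ 0`. -/
theorem V2.k_le {so : Bool} {x₁ y₁ x₂ y₂ u v : ℝ} (h : V2 so x₁ y₁ x₂ y₂ u v)
    (hI : 0 ≤ Ir so x₁ y₁ x₂ y₂) :
    4 * (u ^ 2 + v ^ 2) ^ 2 ≤ (x₁ + x₂) ^ 2 + (y₁ + sgy so y₂) ^ 2 := by
  set n := (x₁ + x₂) ^ 2 + (y₁ + sgy so y₂) ^ 2 with hn
  have hQ := h.qd rfl hn
  have hn0 : 0 < n := by
    have := h.x10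
    have := h.x20
    rw [hn]; positivity
  have hJ : 0 ≤ ((x₁ ^ 2 + y₁ ^ 2) * sgy so y₂ + (x₂ ^ 2 + y₂ ^ 2) * y₁) / n :=
    div_nonneg hI hn0.le
  have hj := hQ.j
  have hb := hQ.b0
  have hk : 0 < 4 * (u ^ 2 + v ^ 2) ^ 2 := by
    have := h.u0
    positivity
  by_contra hc
  push Not at hc
  have h1 : n / (4 * (u ^ 2 + v ^ 2) ^ 2) < 1 := by rw [div_lt_one hk]; exact hc
  rw [hj] at hJ
  have h2 := mul_neg_of_pos_of_neg hb (show n / (4 * (u ^ 2 + v ^ 2) ^ 2) - 1 < 0 by linarith)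
  linarith

/-- `|κ|² ≤ (|b₁| + |b₂|) / 2`. -/
theorem V2.k_le' {so : Bool} {x₁ y₁ x₂ y₂ u v ρ₁ ρ₂ : ℝ} (h : V2 so x₁ y₁ x₂ y₂ u v)
    (hI : 0 ≤ Ir so x₁ y₁ x₂ y₂) (h1 : x₁ ^ 2 + y₁ ^ 2 = ρ₁ ^ 2) (h2 : x₂ ^ 2 + y₂ ^ 2 = ρ₂ ^ 2)
    (p1 : 0 ≤ ρ₁) (p2 : 0 ≤ ρ₂) : u ^ 2 + v ^ 2 ≤ (ρ₁ + ρ₂) / 2 := by
  have h3 := h.k_le hI
  have hs : sgy so y₂ ^ 2 = y₂ ^ 2 := by unfold sgy; cases so <;> simp
  obtain ⟨t, ht⟩ : ∃ t, t = sgy so y₂ := ⟨_, rfl⟩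
  rw [← ht] at h3 hs
  have h4 : (x₁ * x₂ + y₁ * t) ^ 2 ≤ (ρ₁ * ρ₂) ^ 2 := by
    rw [mul_pow, ← h1, ← h2, ← hs]
    nlinarith [sq_nonneg (x₁ * t - y₁ * x₂)]
  have h5 : x₁ * x₂ + y₁ * t ≤ ρ₁ * ρ₂ := by
    have := abs_le_of_sq_le_sq h4 (mul_nonneg p1 p2)
    exact (le_abs_self _).trans this
  have h6 : (x₁ + x₂) ^ 2 + (y₁ + t) ^ 2 ≤ (ρ₁ + ρ₂) ^ 2 := by nlinarith
  have h7 : (2 * (u ^ 2 + v ^ 2)) ^ 2 ≤ (ρ₁ + ρ₂) ^ 2 := by nlinarith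
  have h8 := (pow_le_pow_iff_left₀ (by positivity) (by linarith) (by norm_num)).1 h7
  linarith

end Pool.Agent.S5.E.B2
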