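import Pool.Agent.S5.E.B2.Slots

/-!
# Mixed chains, block E: vertices with two twists, the classes
-/

set_option autoImplicit false

namespace Pool.Agent.S5.E

open Complex
open Pool.Agent.S5.E.B2

namespace B2

def rS3T : Rg := ⟨690, 1060, 340, 900, 0⟩
def rS33 : Rg := ⟨670, 1080, 400, 1035, 0⟩
def rS3E : Rg := ⟨660, 1020, 370, 930, 0⟩
def rFree : Rg := ⟨0, 1200, 0, 1100, 0⟩

variable {ι : Type*}

/-- A vertex with two `A` edges. -/
def IsT (nl nr : ι → Option (ι × Bool)) (i j k : ι) : Prop :=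
  nl i = some (j, false) ∧ nr i = some (k, false)

/-- A vertex with an `A` edge (to `j`) and an `S` edge (to `l`). -/
def Sp (nl nr : ι → Option (ι × Bool)) (i j l : ι) : Prop :=
  (nl i = some (j, false) ∧ nr i = some (l, true)) ∨ (nl i = some (l, true) ∧ nr i = some (j, false))

/-- An end vertex with an `A` edge. -/
def IsE (nl nr : ι → Option (ι × Bool)) (i j : ι) : Prop :=
  (nl i = some (j, false) ∧ nr i = none) ∨ (nl i = none ∧ nr i = some (j, false))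

/-- The combinatorics of the chain. -/
structure Ch (a : ι → ℝ) (nl nr : ι → Option (ι × Bool)) : Prop where
  N : Nbr nl nr
  a2 : ∀ i, a i = 2 ∨ 3 ≤ a i
  two : ∀ i, a i = 2 → (∃ j k, IsT nl nr i j k) ∨ (∃ j l, Sp nl nr i j l) ∨ ∃ j, IsE nl nr i j
  le3 : ∀ i j l, a i = 2 → Sp nl nr i j l → 3 ≤ a j → 3 ≤ a l
  ss : ∀ i j l, a i = 2 → Sp nl nr i j l → a l = 2 → a j = 2 ∧ ∃ k, Sp nl nr j i k

open Classical in
/-- The region of a vertex. -/
noncomputable def cls (a : ι → ℝ) (nl nr : ι → Option (ι × Bool)) (i : ι) : Rg :=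
  if a i = 2 then
    if ∃ j k, IsT nl nr i j k then rT
    else if ∃ j l, Sp nl nr i j l ∧ 3 ≤ a j then rS33
    else if ∃ j l, Sp nl nr i j l ∧ IsE nl nr j i then rS3E
    else if ∃ j l, Sp nl nr i j l ∧ ∃ k, Sp nl nr j i k then rP
    else if ∃ j l, Sp nl nr i j l then rS3T
    else rFree
  else rFree

section comb

variable {a : ι → ℝ} {nl nr : ι → Option (ι × Bool)} {i j k l j' l' : ι}

theorem Sp.uniq (h : Sp nl nr i j l) (h' : Sp nl nr i j' l') : j' = j ∧ l' = l := by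
  rcases h with ⟨h1, h2⟩ | ⟨h1, h2⟩ <;> rcases h' with ⟨h3, h4⟩ | ⟨h3, h4⟩ <;> simp_all

theorem IsT.not_Sp (h : IsT nl nr i j k) : ¬ Sp nl nr i j' l' := by
  rintro (⟨h3, h4⟩ | ⟨h3, h4⟩) <;> simp_all [IsT]

theorem IsT.not_E (h : IsT nl nr i j k) : ¬ IsE nl nr i j' := by
  rintro (⟨h3, h4⟩ | ⟨h3, h4⟩) <;> simp_all [IsT]

theorem Sp.not_E (h : Sp nl nr i j l) : ¬ IsE nl nr i j' := by
  rcases h with ⟨h1, h2⟩ | ⟨h1, h2⟩ <;> rintro (⟨h3, h4⟩ | ⟨h3, h4⟩) <;> simp_all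

theorem Sp.nbA (h : Sp nl nr i j l) : nl i = some (j, false) ∨ nr i = some (j, false) := by
  rcases h with ⟨h1, h2⟩ | ⟨h1, h2⟩ <;> simp_all

theorem Sp.nbS (h : Sp nl nr i j l) : nl i = some (l, true) ∨ nr i = some (l, true) := by
  rcases h with ⟨h1, h2⟩ | ⟨h1, h2⟩ <;> simp_all

theorem Sp.eqA (h : Sp nl nr i j l) (h' : nl i = some (k, false) ∨ nr i = some (k, false)) :
    k = j := by
  rcases h with ⟨h1, h2⟩ | ⟨h1, h2⟩ <;> rcases h' with h' | h' <;> simp_all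

theorem Sp.eqS (h : Sp nl nr i j l) (h' : nl i = some (k, true) ∨ nr i = some (k, true)) :
    k = l := by
  rcases h with ⟨h1, h2⟩ | ⟨h1, h2⟩ <;> rcases h' with h' | h' <;> simp_all

theorem IsE.eqA (h : IsE nl nr i j) (h' : nl i = some (k, false) ∨ nr i = some (k, false)) :
    k = j := by
  rcases h with ⟨h1, h2⟩ | ⟨h1, h2⟩ <;> rcases h' with h' | h' <;> simp_all

theorem IsE.noS (h : IsE nl nr i j) : ¬ (nl i = some (k, true) ∨ nr i = some (k, true)) := by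
  rcases h with ⟨h1, h2⟩ | ⟨h1, h2⟩ <;> simp_all

theorem IsT.noS (h : IsT nl nr i j l) : ¬ (nl i = some (k, true) ∨ nr i = some (k, true)) := by
  simp_all [IsT]

theorem cls_T (hi : a i = 2) (h : IsT nl nr i j k) : cls a nl nr i = rT := by
  unfold cls
  rw [if_pos hi, if_pos ⟨j, k, h⟩]

theorem cls_S33 (hi : a i = 2) (h : Sp nl nr i j l) (hj : 3 ≤ a j) : cls a nl nr i = rS33 := by
  unfold cls
  rw [if_pos hi, if_neg (by rintro ⟨x, y, h'⟩; exact h'.not_Sp h), if_pos ⟨j, l, h, hj⟩]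

theorem cls_S3E (hi : a i = 2) (h : Sp nl nr i j l) (hj : a j = 2) (he : IsE nl nr j i) :
    cls a nl nr i = rS3E := by
  unfold cls
  rw [if_pos hi, if_neg (by rintro ⟨x, y, h'⟩; exact h'.not_Sp h), if_neg ?_, if_pos ⟨j, l, h, he⟩]
  rintro ⟨x, y, h', h''⟩
  rw [(h.uniq h').1, hj] at h''
  norm_num at h''

theorem cls_P (hi : a i = 2) (h : Sp nl nr i j l) (hj : a j = 2) (hk : Sp nl nr j i k) :
    cls a nl nr i = rP := by
  unfold cls
  rw [if_pos hi, if_neg (by rintro ⟨x, y, h'⟩; exact h'.not_Sp h), if_neg ?_, if_neg ?_,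
    if_pos ⟨j, l, h, k, hk⟩]
  · rintro ⟨x, y, h', h''⟩
    rw [(h.uniq h').1] at h''
    exact hk.not_E h''
  · rintro ⟨x, y, h', h''⟩
    rw [(h.uniq h').1, hj] at h''
    norm_num at h''

theorem cls_S3T (hi : a i = 2) (h : Sp nl nr i j l) (hj : a j = 2) (ht : IsT nl nr j k l') :
    cls a nl nr i = rS3T := by
  unfold cls
  rw [if_pos hi, if_neg (by rintro ⟨x, y, h'⟩; exact h'.not_Sp h), if_neg ?_, if_neg ?_, if_neg ?_,
    if_pos ⟨j, l, h⟩]
  · rintro ⟨x, y, h', w, h''⟩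
    rw [(h.uniq h').1] at h''
    exact ht.not_Sp h''
  · rintro ⟨x, y, h', h''⟩
    rw [(h.uniq h').1] at h''
    exact ht.not_E h''
  · rintro ⟨x, y, h', h''⟩
    rw [(h.uniq h').1, hj] at h''
    norm_num at h''

theorem cls_E (h : IsE nl nr i j) : cls a nl nr i = rFree := by
  unfold cls
  by_cases hi : a i = 2
  · rw [if_pos hi, if_neg (by rintro ⟨x, y, h'⟩; exact h'.not_E h),
      if_neg (by rintro ⟨x, y, h', -⟩; exact h'.not_E h),
      if_neg (by rintro ⟨x, y, h', -⟩; exact h'.not_E h),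
      if_neg (by rintro ⟨x, y, h', -⟩; exact h'.not_E h),
      if_neg (by rintro ⟨x, y, h'⟩; exact h'.not_E h)]
  · rw [if_neg hi]

theorem cls_3 (h : 3 ≤ a i) : cls a nl nr i = rFree := by
  unfold cls
  rw [if_neg (by intro h'; rw [h'] at h; norm_num at h)]

/-- The types of the vertices with two twists. -/
inductive Ty (a : ι → ℝ) (nl nr : ι → Option (ι × Bool)) (i : ι) : Prop
  | T (j k : ι) (h : IsT nl nr i j k) (c : cls a nl nr i = rT)
  | S33 (j l : ι) (h : Sp nl nr i j l) (hj : 3 ≤ a j) (hl : 3 ≤ a l) (c : cls a nl nr i = rS33)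
  | S3E (j l : ι) (h : Sp nl nr i j l) (hj : a j = 2) (he : IsE nl nr j i) (hl : 3 ≤ a l)
      (c : cls a nl nr i = rS3E)
  | P (j l : ι) (h : Sp nl nr i j l) (hj : cls a nl nr j = rP) (hl : 3 ≤ a l ∨ cls a nl nr l = rP)
      (c : cls a nl nr i = rP)
  | S3T (j l : ι) (h : Sp nl nr i j l) (hj : cls a nl nr j = rT) (hl : 3 ≤ a l)
      (c : cls a nl nr i = rS3T)
  | En (j : ι) (h : IsE nl nr i j)

theorem Ch.ty (h : Ch a nl nr) (hi : a i = 2) : Ty a nl nr i := by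
  rcases h.two i hi with ⟨j, k, h1⟩ | ⟨j, l, h1⟩ | ⟨j, h1⟩
  · exact .T j k h1 (cls_T hi h1)
  · have hji := h.N.symm i j false h1.nbA
    rcases h.a2 j with hj | hj
    · rcases h.a2 l with hl | hl
      · -- `a l = 2`
        obtain ⟨-, k, hk⟩ := h.ss i j l hi h1 hl
        have hli := h.N.symm i l true h1.nbS
        refine .P j l h1 (cls_P hj hk hi h1) (Or.inr ?_) (cls_P hi h1 hj hk)
        rcases h.two l hl with ⟨x, y, h2⟩ | ⟨x, y, h2⟩ | ⟨x, h2⟩
        · exact absurd hli h2.noS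
        · have e := h2.eqS hli
          subst e
          obtain ⟨hx, w, hw⟩ := h.ss l x i hl h2 hi
          exact cls_P hl h2 hx hw
        · exact absurd hli h2.noS
      · rcases h.two j hj with ⟨x, y, h2⟩ | ⟨x, y, h2⟩ | ⟨x, h2⟩
        · exact .S3T j l h1 (cls_T hj h2) hl (cls_S3T hi h1 hj h2)
        · have e := h2.eqA hji
          subst e
          exact .P j l h1 (cls_P hj h2 hi h1) (Or.inl hl) (cls_P hi h1 hj h2)
        · have e := h2.eqA hji
          subst e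
          exact .S3E j l h1 hj h2 hl (cls_S3E hi h1 hj h2)
    · exact .S33 j l h1 hj (h.le3 i j l hi h1 hj) (cls_S33 hi h1 hj)
  · exact .En j h1

/-- The neighbours of a vertex with two `A` edges. -/
theorem Ch.nbT (h : Ch a nl nr) (hi : a i = 2) (hT : IsT nl nr i j k) {o : ι}
    (ho : nl i = some (o, false) ∨ nr i = some (o, false)) :
    3 ≤ a o ∨ cls a nl nr o = rT ∨ cls a nl nr o = rS3T ∨ (a o = 2 ∧ IsE nl nr o i) := by
  have hoi := h.N.symm i o false ho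
  rcases h.a2 o with h1 | h1
  · right
    rcases h.two o h1 with ⟨x, y, h2⟩ | ⟨x, y, h2⟩ | ⟨x, h2⟩
    · exact Or.inl (cls_T h1 h2)
    · have e := h2.eqA hoi
      subst e
      exact Or.inr (Or.inl (cls_S3T h1 h2 hi hT))
    · have e := h2.eqA hoi
      subst e
      exact Or.inr (Or.inr ⟨h1, h2⟩)
  · exact Or.inl h1

end comb

/-- Strict inequalities of a region. -/
structure StR (r : Rg) (u v : ℝ) : Prop where
  lo : ((r.k0 : ℝ) / 1000) ^ 2 < u ^ 2 + v ^ 2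
  hi : u ^ 2 + v ^ 2 < ((r.k1 : ℝ) / 1000) ^ 2
  a0 : (r.t0 : ℝ) / 1000 * u < v
  a1 : v < (r.t1 : ℝ) / 1000 * u
  m0 : (r.m : ℝ) / 1000 < u * v

/-- The constraints of a region. -/
noncomputable def gR (r : Rg) (k : Fin 5) (w : ℂ) : ℝ :=
  match k with
  | 0 => (cos w).re ^ 2 + (-(cos w).im) ^ 2 - ((r.k0 : ℝ) / 1000) ^ 2
  | 1 => ((r.k1 : ℝ) / 1000) ^ 2 - ((cos w).re ^ 2 + (-(cos w).im) ^ 2)
  | 2 => -(cos w).im - (r.t0 : ℝ) / 1000 * (cos w).re
  | 3 => (r.t1 : ℝ) / 1000 * (cos w).re - (-(cos w).im)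
  | 4 => (cos w).re * (-(cos w).im) - (r.m : ℝ) / 1000

theorem continuous_gR (r : Rg) (k : Fin 5) : Continuous (gR r k) := by
  have h1 : Continuous fun w : ℂ => (cos w).re := Complex.continuous_re.comp Complex.continuous_cos
  have h2 : Continuous fun w : ℂ => (cos w).im := Complex.continuous_im.comp Complex.continuous_cos
  fin_cases k
  · show Continuous fun w : ℂ => (cos w).re ^ 2 + (-(cos w).im) ^ 2 - ((r.k0 : ℝ) / 1000) ^ 2
    fun_prop
  · show Continuous fun w : ℂ => ((r.k1 : ℝ) / 1000) ^ 2 - ((cos w).re ^ 2 + (-(cos w).im) ^ 2)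
    fun_prop
  · show Continuous fun w : ℂ => -(cos w).im - (r.t0 : ℝ) / 1000 * (cos w).re
    fun_prop
  · show Continuous fun w : ℂ => (r.t1 : ℝ) / 1000 * (cos w).re - (-(cos w).im)
    fun_prop
  · show Continuous fun w : ℂ => (cos w).re * (-(cos w).im) - (r.m : ℝ) / 1000
    fun_prop

theorem StR.g {r : Rg} {w : ℂ} (h : StR r (cos w).re (-(cos w).im)) (k : Fin 5) : 0 < gR r k w := by
  have h1 := h.lo
  have h2 := h.hi
  have h3 := h.a0
  have h4 := h.a1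
  have h5 := h.m0
  fin_cases k
  · show 0 < (cos w).re ^ 2 + (-(cos w).im) ^ 2 - ((r.k0 : ℝ) / 1000) ^ 2
    linarith
  · show 0 < ((r.k1 : ℝ) / 1000) ^ 2 - ((cos w).re ^ 2 + (-(cos w).im) ^ 2)
    linarith
  · show 0 < -(cos w).im - (r.t0 : ℝ) / 1000 * (cos w).re
    linarith
  · show 0 < (r.t1 : ℝ) / 1000 * (cos w).re - (-(cos w).im)
    linarith
  · show 0 < (cos w).re * (-(cos w).im) - (r.m : ℝ) / 1000
    linarith

theorem InR.of_g {r : Rg} {w : ℂ} (hu : 0 ≤ (cos w).re) (hv : 0 ≤ -(cos w).im)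
    (h : ∀ k, 0 ≤ gR r k w) : InR r (cos w).re (-(cos w).im) := by
  have h0 : 0 ≤ (cos w).re ^ 2 + (-(cos w).im) ^ 2 - ((r.k0 : ℝ) / 1000) ^ 2 := h 0
  have h1 : 0 ≤ ((r.k1 : ℝ) / 1000) ^ 2 - ((cos w).re ^ 2 + (-(cos w).im) ^ 2) := h 1
  have h2 : 0 ≤ -(cos w).im - (r.t0 : ℝ) / 1000 * (cos w).re := h 2
  have h3 : 0 ≤ (r.t1 : ℝ) / 1000 * (cos w).re - (-(cos w).im) := h 3
  have h4 : 0 ≤ (cos w).re * (-(cos w).im) - (r.m : ℝ) / 1000 := h 4
  exact ⟨hu, hv, by linarith, by linarith, by linarith, by linarith, by linarith⟩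

end B2

end Pool.Agent.S5.E
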