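import Pool.Agent.S3.NIW
import Mathlib

/-!
# Mixed chains, block E: vertices with two twists, the set-up of the box tests

A slot is `b = x ± i y` with `x, y ≥ 0`; `InR r x y`: the region of a slot, described by
`k0 ≤ |b| ≤ k1`, `t0 ≤ y / x ≤ t1`, `m ≤ x y`.  `Rg`: the same constants in units of `1 / 1000`.
-/

set_option autoImplicit false

namespace Pool.Agent.S5.E.B2

open Pool.Agent.S3.NI

/-- Constants of a region, in units of `1 / 1000`. -/
structure Rg where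
  k0 : ℕ
  k1 : ℕ
  t0 : ℕ
  t1 : ℕ
  m : ℕ

/-- The region of a slot. -/
structure InR (r : Rg) (x y : ℝ) : Prop where
  x0 : 0 ≤ x
  y0 : 0 ≤ y
  lo : ((r.k0 : ℝ) / 1000) ^ 2 ≤ x ^ 2 + y ^ 2
  hi : x ^ 2 + y ^ 2 ≤ ((r.k1 : ℝ) / 1000) ^ 2
  a0 : (r.t0 : ℝ) / 1000 * x ≤ y
  a1 : y ≤ (r.t1 : ℝ) / 1000 * x
  m0 : (r.m : ℝ) / 1000 ≤ x * y

/-! ### More interval operations -/

theorem mx_mem {x : ℝ} {a b : ℕ} (h1 : (a : ℝ) ≤ x) (h2 : (b : ℝ) ≤ x) : ((mx a b : ℕ) : ℝ) ≤ x := by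
  rcases mx_cases a b with h | h <;> rw [h] <;> assumption

theorem mn_cases (a b : ℕ) : mn a b = a ∨ mn a b = b := by
  unfold mn
  rcases Nat.ble a b with _ | _
  · exact Or.inr rfl
  · exact Or.inl rfl

theorem mn_mem {x : ℝ} {a b : ℕ} (h1 : x ≤ (a : ℝ)) (h2 : x ≤ (b : ℝ)) : x ≤ ((mn a b : ℕ) : ℝ) := by
  rcases mn_cases a b with h | h <;> rw [h] <;> assumption

/-- Intersection. -/
def cap (A B : N) : N := ⟨mx A.lo B.lo, mn A.hi B.hi⟩

theorem Mem.cap {x : ℝ} {A B : N} (h1 : Mem x A) (h2 : Mem x B) : Mem x (B2.cap A B) :=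
  ⟨mx_mem h1.1 h2.1, mn_mem h1.2 h2.2⟩

/-- Truncated difference. -/
theorem Mem.subp {x y : ℝ} {A B : N} (h1 : Mem x A) (h2 : Mem y B) :
    Mem (max (x - y) 0) (A.sub B) := by
  have hU : (0 : ℝ) < 1073741824 := by norm_num
  rcases le_total y x with h | h
  · rw [max_eq_left (by linarith)]
    exact h1.sub h2 h
  · rw [max_eq_right (by linarith)]
    constructor
    · exact nsub_le (by nlinarith [h1.1, h2.2]) (by norm_num)
    · have h3 : (0 : ℝ) ≤ ((Nat.sub A.hi B.lo : ℕ) : ℝ) := Nat.cast_nonneg _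
      show (0 : ℝ) * 1073741824 ≤ _
      rw [zero_mul]
      exact h3

/-- A constant in units of `1 / 1000`. -/
def th (n : ℕ) : N := cst n 1000

theorem mem_th (n : ℕ) : Mem ((n : ℝ) / 1000) (th n) := by
  have h := mem_cst (n := n) (d := 1000) (by norm_num)
  push_cast at h
  exact h

/-- The square of the length of a slot. -/
def R2 (r : Rg) (A B : N) : N :=
  cap (A.sq.add B.sq) ⟨(th r.k0).sq.lo, (th r.k1).sq.hi⟩

theorem mem_R2 {r : Rg} {x y : ℝ} {A B : N} (h : InR r x y) (hx : Mem x A) (hy : Mem y B) :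
    Mem (x ^ 2 + y ^ 2) (R2 r A B) := by
  apply Mem.cap (hx.sq.add hy.sq)
  constructor
  · refine le_trans (mem_th r.k0).sq.1 ?_
    exact mul_le_mul_of_nonneg_right h.lo (by norm_num)
  · refine le_trans ?_ (mem_th r.k1).sq.2
    exact mul_le_mul_of_nonneg_right h.hi (by norm_num)

/-- The box does not meet the region. -/
def inf (r : Rg) (A B : N) : Bool :=
  (A.sq.add B.sq).lt (th r.k0).sq || ((th r.k1).sq.lt (A.sq.add B.sq) ||
    (B.lt ((th r.t0).mul A) || (((th r.t1).mul A).lt B || (A.mul B).lt (th r.m))))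

theorem inf_sound {r : Rg} {x y : ℝ} {A B : N} (h : InR r x y) (hx : Mem x A) (hy : Mem y B)
    (hi : inf r A B = true) : False := by
  unfold inf at hi
  rw [Bool.or_eq_true, Bool.or_eq_true, Bool.or_eq_true, Bool.or_eq_true] at hi
  rcases hi with hi | hi | hi | hi | hi
  · have := (hx.sq.add hy.sq).lt (mem_th r.k0).sq hi
    linarith [h.lo]
  · have := (mem_th r.k1).sq.lt (hx.sq.add hy.sq) hi
    linarith [h.hi]
  · have := hy.lt ((mem_th r.t0).mul hx) hi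
    linarith [h.a0]
  · have := ((mem_th r.t1).mul hx).lt hy hi
    linarith [h.a1]
  · have := (hx.mul hy).lt (mem_th r.m) hi
    linarith [h.m0]

/-! ### The quadratic data of a vertex

`s = b₁ + b₂`, `N = |s|²`, `Rp = Re (b₁ b₂ conj s) = |b₁|² x₂ + |b₂|² x₁`.
`so = true`: `b₂ = x₂ - i y₂` (an `S` slot); `so = false`: `b₂ = x₂ + i y₂`. -/

def Nn (so : Bool) (A B C D : N) : N :=
  (A.add C).sq.add (bif so then (B.ad D).sq else (B.add D).sq)

/-- signed second coordinate. -/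
def sgy (so : Bool) (y : ℝ) : ℝ := if so then -y else y

theorem mem_Nn {so : Bool} {x₁ y₁ x₂ y₂ : ℝ} {A B C D : N} (h1 : Mem x₁ A) (h2 : Mem y₁ B)
    (h3 : Mem x₂ C) (h4 : Mem y₂ D) :
    Mem ((x₁ + x₂) ^ 2 + (y₁ + sgy so y₂) ^ 2) (Nn so A B C D) := by
  unfold Nn sgy
  cases so
  · exact (h1.add h3).sq.add (h2.add h4).sq
  · have h := Mem.sq_abs (h2.ad h4)
    exact (h1.add h3).sq.add (by simpa [sub_eq_add_neg] using h)

def Rp (r₁ r₂ : Rg) (A B C D : N) : N := ((R2 r₁ A B).mul C).add ((R2 r₂ C D).mul A)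

theorem mem_Rp {r₁ r₂ : Rg} {x₁ y₁ x₂ y₂ : ℝ} {A B C D : N} (g1 : InR r₁ x₁ y₁) (g2 : InR r₂ x₂ y₂)
    (h1 : Mem x₁ A) (h2 : Mem y₁ B) (h3 : Mem x₂ C) (h4 : Mem y₂ D) :
    Mem ((x₁ ^ 2 + y₁ ^ 2) * x₂ + (x₂ ^ 2 + y₂ ^ 2) * x₁) (Rp r₁ r₂ A B C D) :=
  ((mem_R2 g1 h1 h2).mul h3).add ((mem_R2 g2 h3 h4).mul h1)

end Pool.Agent.S5.E.B2
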