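import Pool.Agent.S5.E.B2.Base

/-!
# Mixed chains, block E: vertices with two twists, bounds from the quartic

`X = κ²`, `κ = u - i v`, `s = b₁ + b₂`, `p = b₁ b₂`, `4 X² - 4 p X + s² = 0`.  With `X = s (a - i b)`,
`p / s = H + i J`, `q = |s|² / (4 |X|²)`: `H = a (1 + q)`, `J = b (q - 1)`, `4 q (a² + b²) = 1`.
-/

set_option autoImplicit false

namespace Pool.Agent.S5.E.B2

open Pool.Agent.S3.NI

/-- The real form of the quartic. -/
structure QD (a b q H J : ℝ) : Prop where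
  a0 : 0 < a
  b0 : 0 < b
  q0 : 0 < q
  h : H = a * (1 + q)
  j : J = b * (q - 1)
  n : 4 * q * (a ^ 2 + b ^ 2) = 1

variable {a b q H J : ℝ}

/-- Upper bound of the angle. -/
theorem QD.ang_lt (h : QD a b q H J) {C S : ℝ} (hS : 0 < S)
    (ht : (0 < C → C ^ 2 * S ^ 2 < (C ^ 2 + S ^ 2) * (H ^ 2 * S ^ 2 - J ^ 2 * C ^ 2))) :
    C * b < S * a := by
  by_contra hc
  push Not at hc
  have hSa : 0 < S * a := mul_pos hS h.a0
  have hC : 0 < C := (pos_iff_pos_of_mul_pos (lt_of_lt_of_le hSa hc)).2 h.b0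
  have ht' := ht hC
  -- `a² S² ≤ b² C²`
  have h1 : (S * a) ^ 2 ≤ (C * b) ^ 2 := pow_le_pow_left₀ hSa.le hc 2
  have hq := h.q0
  have h2 : H ^ 2 * S ^ 2 - J ^ 2 * C ^ 2 =
      (1 + q) ^ 2 * (S * a) ^ 2 - (q - 1) ^ 2 * (C * b) ^ 2 := by
    rw [h.h, h.j]; ring
  have h3 : H ^ 2 * S ^ 2 - J ^ 2 * C ^ 2 ≤ 4 * q * (S * a) ^ 2 := by
    rw [h2]
    have := mul_le_mul_of_nonneg_left h1 (sq_nonneg (q - 1))
    nlinarith
  have hN : 0 < C ^ 2 + S ^ 2 := by positivity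
  have h4 : (C ^ 2 + S ^ 2) * (H ^ 2 * S ^ 2 - J ^ 2 * C ^ 2) ≤
      (C ^ 2 + S ^ 2) * (4 * q * (S * a) ^ 2) := mul_le_mul_of_nonneg_left h3 hN.le
  -- `(C² + S²) 4 q a² ≤ C²`
  have h5 : (C ^ 2 + S ^ 2) * (4 * q * a ^ 2) ≤ C ^ 2 := by
    have h6 : C ^ 2 = C ^ 2 * (4 * q * (a ^ 2 + b ^ 2)) := by rw [h.n, mul_one]
    have h7 : 4 * q * (S * a) ^ 2 ≤ 4 * q * (C * b) ^ 2 :=
      mul_le_mul_of_nonneg_left h1 (by linarith)
    rw [h6]
    nlinarith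
  have h8 : (C ^ 2 + S ^ 2) * (4 * q * (S * a) ^ 2) ≤ C ^ 2 * S ^ 2 := by
    have := mul_le_mul_of_nonneg_right h5 (sq_nonneg S)
    nlinarith
  linarith

/-- Lower bound of the angle. -/
theorem QD.lt_ang (h : QD a b q H J) {C S : ℝ} (hC : 0 < C) (hS : 0 < S)
    (ht : (C ^ 2 + S ^ 2) * (H ^ 2 * S ^ 2 - J ^ 2 * C ^ 2) < C ^ 2 * S ^ 2) :
    S * a < C * b := by
  by_contra hc
  push Not at hc
  have hCb : 0 < C * b := mul_pos hC h.b0
  have h1 : (C * b) ^ 2 ≤ (S * a) ^ 2 := pow_le_pow_left₀ hCb.le hc 2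
  have hq := h.q0
  have h2 : H ^ 2 * S ^ 2 - J ^ 2 * C ^ 2 =
      (1 + q) ^ 2 * (S * a) ^ 2 - (q - 1) ^ 2 * (C * b) ^ 2 := by
    rw [h.h, h.j]; ring
  have h3 : 4 * q * (S * a) ^ 2 ≤ H ^ 2 * S ^ 2 - J ^ 2 * C ^ 2 := by
    rw [h2]
    have := mul_le_mul_of_nonneg_left h1 (sq_nonneg (q - 1))
    nlinarith
  have hN : 0 < C ^ 2 + S ^ 2 := by positivity
  have h4 := mul_le_mul_of_nonneg_left h3 hN.le
  have h5 : C ^ 2 ≤ (C ^ 2 + S ^ 2) * (4 * q * a ^ 2) := by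
    have h6 : C ^ 2 = C ^ 2 * (4 * q * (a ^ 2 + b ^ 2)) := by rw [h.n, mul_one]
    have h7 : 4 * q * (C * b) ^ 2 ≤ 4 * q * (S * a) ^ 2 :=
      mul_le_mul_of_nonneg_left h1 (by linarith)
    rw [h6]
    nlinarith
  have h8 : C ^ 2 * S ^ 2 ≤ (C ^ 2 + S ^ 2) * (4 * q * (S * a) ^ 2) := by
    have := mul_le_mul_of_nonneg_right h5 (sq_nonneg S)
    nlinarith
  linarith

/-- `4 q H² / (1 + q)² + 4 q J² / (1 - q)² = 1`. -/
theorem QD.circle (h : QD a b q H J) : 4 * q * (H ^ 2 * (1 - q) ^ 2 + J ^ 2 * (1 + q) ^ 2) =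
    (1 - q ^ 2) ^ 2 := by
  rw [h.h, h.j]
  have := h.n
  linear_combination (1 - q ^ 2) ^ 2 * this

private theorem Core_frac {x A B H J : ℝ} (hA : 0 < A) (hB : 0 < B) :
    4 * (H ^ 2 * (x / A) + J ^ 2 * (x / B)) = 4 * x * (H ^ 2 * B + J ^ 2 * A) / (A * B) := by
  field_simp

private theorem mono1 {x y : ℝ} (hx : 0 < x) (hxy : x ≤ y) (hy : y ≤ 1) :
    x / (1 + x) ^ 2 ≤ y / (1 + y) ^ 2 := by
  have hy0 : 0 < y := lt_of_lt_of_le hx hxy
  rw [div_le_div_iff₀ (by positivity) (by positivity)]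
  have e : y * (1 + x) ^ 2 - x * (1 + y) ^ 2 = (y - x) * (1 - x * y) := by ring
  have : 0 ≤ (y - x) * (1 - x * y) := mul_nonneg (by linarith) (by nlinarith)
  linarith

private theorem mono2 {x y : ℝ} (hx : 0 < x) (hxy : x ≤ y) (hy : y < 1) :
    x / (1 - x) ^ 2 ≤ y / (1 - y) ^ 2 := by
  have h1 : 0 < 1 - x := by linarith
  have h2 : 0 < 1 - y := by linarith
  rw [div_le_div_iff₀ (pow_pos h1 2) (pow_pos h2 2)]
  have e : y * (1 - x) ^ 2 - x * (1 - y) ^ 2 = (y - x) * (1 - x * y) := by ring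
  have : 0 ≤ (y - x) * (1 - x * y) := mul_nonneg (by linarith) (by nlinarith)
  linarith

/-- Lower bound of `q` (upper bound of `|X|`). -/
theorem QD.lt_q (h : QD a b q H J) {Q : ℝ} (hQ1 : Q < 1)
    (ht : 0 ≤ J ∨ 4 * Q * (H ^ 2 * (1 - Q) ^ 2 + J ^ 2 * (1 + Q) ^ 2) < (1 - Q ^ 2) ^ 2) :
    Q < q := by
  by_contra hc
  push Not at hc
  have hq := h.q0
  have hQ0 : 0 < Q := lt_of_lt_of_le hq hc
  rcases ht with hJ | ht
  · have : J < 0 := by
      rw [h.j]; exact mul_neg_of_pos_of_neg h.b0 (by linarith)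
    linarith
  · have h1 := mono1 hq hc hQ1.le
    have h2 := mono2 hq hc hQ1
    have hq1 : q < 1 := lt_of_le_of_lt hc hQ1
    have k1 : 0 < 1 - q := by linarith
    have k2 : 0 < 1 - Q := by linarith
    have e1 : 1 = 4 * (H ^ 2 * (q / (1 + q) ^ 2) + J ^ 2 * (q / (1 - q) ^ 2)) := by
      have h3 := h.circle
      have h4 : (1 - q ^ 2) ^ 2 = (1 + q) ^ 2 * (1 - q) ^ 2 := by ring
      rw [h4] at h3
      have h5 : 0 < (1 + q) ^ 2 := by positivity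
      have h6 : 0 < (1 - q) ^ 2 := by positivity
      field_simp
      linarith
    have e2 : 4 * (H ^ 2 * (Q / (1 + Q) ^ 2) + J ^ 2 * (Q / (1 - Q) ^ 2)) < 1 := by
      have h4 : (1 - Q ^ 2) ^ 2 = (1 + Q) ^ 2 * (1 - Q) ^ 2 := by ring
      rw [h4] at ht
      have h5 : 0 < (1 + Q) ^ 2 := by positivity
      have h6 : 0 < (1 - Q) ^ 2 := by positivity
      have e3 : 4 * (H ^ 2 * (Q / (1 + Q) ^ 2) + J ^ 2 * (Q / (1 - Q) ^ 2)) =
          (4 * Q * (H ^ 2 * (1 - Q) ^ 2 + J ^ 2 * (1 + Q) ^ 2)) / ((1 + Q) ^ 2 * (1 - Q) ^ 2) := by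
        field_simp
      rw [e3, div_lt_one (by positivity)]
      exact ht
    have := mul_le_mul_of_nonneg_left h1 (sq_nonneg H)
    have := mul_le_mul_of_nonneg_left h2 (sq_nonneg J)
    linarith

/-- Upper bound of `q` (lower bound of `|X|`). -/
theorem QD.q_lt (h : QD a b q H J) {Q : ℝ} (hQ1 : 1 < Q)
    (ht : J ≤ 0 ∨ 4 * Q * (H ^ 2 * (1 - Q) ^ 2 + J ^ 2 * (1 + Q) ^ 2) < (1 - Q ^ 2) ^ 2) :
    q < Q := by
  by_contra hc
  push Not at hc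
  have hq := h.q0
  have hQ0 : 0 < Q := by linarith
  rcases ht with hJ | ht
  · have : 0 < J := by
      rw [h.j]; exact mul_pos h.b0 (by linarith)
    linarith
  · have h1 : q / (1 + q) ^ 2 ≤ Q / (1 + Q) ^ 2 := by
      rw [div_le_div_iff₀ (by positivity) (by positivity)]
      have e : Q * (1 + q) ^ 2 - q * (1 + Q) ^ 2 = (q - Q) * (q * Q - 1) := by ring
      have : 0 ≤ (q - Q) * (q * Q - 1) := mul_nonneg (by linarith) (by nlinarith)
      linarith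
    have k1 : 0 < q - 1 := by linarith
    have k2 : 0 < Q - 1 := by linarith
    have h2 : q / (1 - q) ^ 2 ≤ Q / (1 - Q) ^ 2 := by
      have j1 : 0 < (1 - q) ^ 2 := by
        have : (1 - q) ^ 2 = (q - 1) ^ 2 := by ring
        rw [this]; positivity
      have j2 : 0 < (1 - Q) ^ 2 := by
        have : (1 - Q) ^ 2 = (Q - 1) ^ 2 := by ring
        rw [this]; positivity
      rw [div_le_div_iff₀ j1 j2]
      have e : Q * (1 - q) ^ 2 - q * (1 - Q) ^ 2 = (q - Q) * (q * Q - 1) := by ring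
      have : 0 ≤ (q - Q) * (q * Q - 1) := mul_nonneg (by linarith) (by nlinarith)
      linarith
    have j1 : 0 < (1 - q) ^ 2 := by
      have : (1 - q) ^ 2 = (q - 1) ^ 2 := by ring
      rw [this]; positivity
    have j2 : 0 < (1 - Q) ^ 2 := by
      have : (1 - Q) ^ 2 = (Q - 1) ^ 2 := by ring
      rw [this]; positivity
    have e1 : 1 = 4 * (H ^ 2 * (q / (1 + q) ^ 2) + J ^ 2 * (q / (1 - q) ^ 2)) := by
      have h3 := h.circle
      have h4 : (1 - q ^ 2) ^ 2 = (1 + q) ^ 2 * (1 - q) ^ 2 := by ring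
      rw [h4] at h3
      rw [Core_frac (by positivity) j1, h3, div_self (by positivity)]
    have e2 : 4 * (H ^ 2 * (Q / (1 + Q) ^ 2) + J ^ 2 * (Q / (1 - Q) ^ 2)) < 1 := by
      have h4 : (1 - Q ^ 2) ^ 2 = (1 + Q) ^ 2 * (1 - Q) ^ 2 := by ring
      rw [h4] at ht
      rw [Core_frac (by positivity) j2, div_lt_one (by positivity)]
      exact ht
    have := mul_le_mul_of_nonneg_left h1 (sq_nonneg H)
    have := mul_le_mul_of_nonneg_left h2 (sq_nonneg J)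
    linarith

end Pool.Agent.S5.E.B2
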