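import Pool.Agent.S3.E.Defs
import Pool.Agent.S3.E.TwoA
import Pool.Agent.S5.E.B2.Base

/-!
# Mixed chains, block E: dominance at a vertex with two twists

`|b₁|, |b₂| ∈ [0.53, 1.06]`, `Re (b₁ conj b₂) ≥ 0.247 |b₁| |b₂|`.  With `s = b₁ + b₂`,
`W = 2 cos² z - b₁ b₂`, `W² = (b₁ b₂)² - s²`, `|s| |cosh q_k| = |b_k² + W|` the inequality is
`|b₁| |b₂² + W| + |b₂| |b₁² + W| < 2 |s| |W|`.  By Cauchy-Schwarz it follows from
`(R₁ + R₂) (R₁² + R₂² + 2 w² + 2 g w) < 4 |s|² w²`, `R_k = |b_k|²`, `w = |W|`, `g = |b₁² + b₂²|`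
(`Dom_key`).  With `2 g w ≤ 13/20 w² + 20/13 g²`, `w² ≥ |s|² - R₁ R₂` this is a polynomial
inequality for `|b₁|`, `|b₂|`, `e = Re (b₁ conj b₂)`, increasing in `e`; for `e = 0.247 |b₁| |b₂|` it is
increasing in `P = |b₁| |b₂|` for fixed `S = R₁ + R₂`, and `P` is at least the maximum of two linear
functions of `S`.
-/

set_option autoImplicit false

namespace Pool.Agent.S5.E.B2

open Complex

/-- The polynomial inequality for `e = 0.247 P`. -/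
private theorem Dom_poly {P S : ℝ} (h1 : 0.2809 + 1 / 3 * (S - 0.5618) ≤ P)
    (h2 : 0.5618 + 2 / 3 * (S - 1.4045) ≤ P) (h3 : 2 * P ≤ S) (hS : 0.5618 ≤ S)
    (hS' : S ≤ 2.2472) :
    S * (13 * (S ^ 2 - 2 * P ^ 2) + 20 * (S ^ 2 - 4 * P ^ 2 + 4 * (0.247 * P) ^ 2)) <
      13 * ((1.35 * S + 8 * (0.247 * P)) * (S + 2 * (0.247 * P) - P ^ 2)) := by
  have hP : 0 < P := by linarith only [h3, h1]
  -- monotonicity in `P`
  have mono : ∀ L : ℝ, 0 ≤ L → L ≤ P →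
      0 < 13 * ((1.35 * S + 8 * (0.247 * L)) * (S + 2 * (0.247 * L) - L ^ 2)) -
        S * (13 * (S ^ 2 - 2 * L ^ 2) + 20 * (S ^ 2 - 4 * L ^ 2 + 4 * (0.247 * L) ^ 2)) →
      S * (13 * (S ^ 2 - 2 * P ^ 2) + 20 * (S ^ 2 - 4 * P ^ 2 + 4 * (0.247 * P) ^ 2)) <
      13 * ((1.35 * S + 8 * (0.247 * P)) * (S + 2 * (0.247 * P) - P ^ 2)) := by
    intro L hL0 hLP hL
    have hd : 0 ≤ (P - L) * (2.6429 * 13 * S - 1.976 * 13 * (P ^ 2 + P * L + L ^ 2) +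
        6.3 * 13 * S * (P + L)) := by
      refine mul_nonneg (by linarith only [hLP]) ?_
      linarith only [mul_nonneg hL0 (by linarith : 0 ≤ P - L),
        mul_nonneg hL0 (by linarith : 0 ≤ S - 2 * P),
        mul_nonneg hP.le (by linarith : 0 ≤ S - 2 * P), hP, h3, sq_nonneg (1 * P),
        sq_nonneg (1 * 247 * (1 * L))]
    linarith only [mul_nonneg (mul_nonneg (by linarith : 0 ≤ P - L) (by linarith : 0 ≤ P + L)) (by linarith : 0 ≤ S),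
      mul_nonneg (by linarith : 0 ≤ P - L) (by linarith : 0 ≤ P + L), hd, hL]
  rcases le_total S 1.4045 with hc | hc
  · refine mono (0.2809 + 1 / 3 * (S - 0.5618)) (by linarith only [h3, h1]) h1 ?_
    linarith only [mul_nonneg (mul_nonneg (by linarith : 0 ≤ S - 0.5618) (by linarith : 0 ≤ 1.4045 - S)) (by linarith : 0 ≤ S),
      mul_nonneg (by linarith : 0 ≤ S - 0.5618) (by linarith : 0 ≤ 1.4045 - S), h3, h2]
  · refine mono (0.5618 + 2 / 3 * (S - 1.4045)) (by linarith only [h3, h1]) h2 ?_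
    linarith only [mul_nonneg (mul_nonneg (by linarith : 0 ≤ S - 1.4045) (by linarith : 0 ≤ 2.2472 - S)) (by linarith : 0 ≤ S),
      hP, h3, sq_nonneg (1 * 247 * (6 * 2809 + 1 * 2 * (10000 * S - 5 * 2809)))]

/-- The real inequality. -/
theorem Dom_key {k l e w g : ℝ} (hk : 53 / 100 ≤ k) (hk' : k ≤ 53 / 50) (hl : 53 / 100 ≤ l)
    (hl' : l ≤ 53 / 50) (he : 0.247 * (k * l) ≤ e)
    (hw : k ^ 2 + l ^ 2 + 2 * e - (k * l) ^ 2 ≤ w ^ 2) (hg : g ^ 2 = (k ^ 2 - l ^ 2) ^ 2 + 4 * e ^ 2) :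
    (k ^ 2 + l ^ 2) * (k ^ 4 + l ^ 4 + 2 * w ^ 2 + 2 * g * w) <
      4 * (k ^ 2 + l ^ 2 + 2 * e) * w ^ 2 := by
  have hkl : 0 < k * l := mul_pos (by linarith only [hk]) (by linarith only [hl])
  obtain ⟨P, hP⟩ : ∃ P, P = k * l := ⟨_, rfl⟩
  obtain ⟨S, hS⟩ : ∃ S, S = k ^ 2 + l ^ 2 := ⟨_, rfl⟩
  have a1 : 0 ≤ (k - 53 / 100) * (l - 53 / 100) := mul_nonneg (by linarith only [hk]) (by linarith only [hl])
  have a2 : 0 ≤ (53 / 50 - k) * (53 / 50 - l) := mul_nonneg (by linarith only [hk']) (by linarith only [hl'])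
  have a3 : 0 ≤ (53 / 50 - k) * (k - 53 / 100) := mul_nonneg (by linarith only [hk']) (by linarith only [hk])
  have a4 : 0 ≤ (53 / 50 - l) * (l - 53 / 100) := mul_nonneg (by linarith only [hl']) (by linarith only [hl])
  have h1 : 0.2809 + 1 / 3 * (S - 0.5618) ≤ P := by rw [hP, hS]; linarith only [a4, a3, a1]
  have h2 : 0.5618 + 2 / 3 * (S - 1.4045) ≤ P := by rw [hP, hS]; linarith only [a4, a3, a2]
  have h3 : 2 * P ≤ S := by rw [hP, hS]; linarith only [sq_nonneg (k - l)]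
  have h4 : 0.5618 ≤ S := by rw [hS]; linarith only [h3, a1, hS, hP, hl, hk]
  have h5 : S ≤ 2.2472 := by rw [hS]; linarith only [a4, a3, hl', hk']
  have hp := Dom_poly h1 h2 h3 h4 h5
  have hP0 : 0 < P := by rw [hP]; exact hkl
  rw [← hP] at he hw
  have e4 : k ^ 4 + l ^ 4 = S ^ 2 - 2 * P ^ 2 := by rw [hP, hS]; ring
  have eg : g ^ 2 = S ^ 2 - 4 * P ^ 2 + 4 * e ^ 2 := by rw [hg, hP, hS]; ring
  rw [← hS] at hw
  rw [← hS, e4]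
  -- monotonicity in `e`
  have hpe : S * (13 * (S ^ 2 - 2 * P ^ 2) + 20 * (S ^ 2 - 4 * P ^ 2 + 4 * e ^ 2)) <
      13 * ((1.35 * S + 8 * e) * (S + 2 * e - P ^ 2)) := by
    have hA : 0 ≤ S - P ^ 2 := by (refine le_of_not_gt fun hng => ?_; linarith only [hng, eg, e4,
                                    hS, hg, sq_nonneg (k ^ 2 - l ^ 2), sq_nonneg (k),
                                    mul_nonneg (sq_nonneg (k)) (sub_nonneg.2 hS.le),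
                                    mul_nonneg (sq_nonneg (k)) (sub_nonneg.2 hS.ge),
                                    mul_nonneg (sq_nonneg (k)) (sub_nonneg.2 hng.le),
                                    mul_nonneg (sq_nonneg (l)) (sub_nonneg.2 a3),
                                    mul_nonneg (sq_nonneg (l)) (sub_nonneg.2 hS.le),
                                    mul_nonneg (sq_nonneg (l)) (sub_nonneg.2 hS.ge),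
                                    mul_nonneg (sq_nonneg (l)) (sub_nonneg.2 hk'),
                                    mul_nonneg (sq_nonneg (l)) (sub_nonneg.2 hng.le),
                                    mul_nonneg (sq_nonneg (P)) (sub_nonneg.2 a4),
                                    mul_nonneg (sq_nonneg (P)) (sub_nonneg.2 a3),
                                    mul_nonneg (sq_nonneg (P)) (sub_nonneg.2 hl'),
                                    mul_nonneg (sq_nonneg (P)) (sub_nonneg.2 hk')])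
    have hd : 0 ≤ (e - 0.247 * P) * (13 * (2.7 * S + 8 * (S - P ^ 2)) +
        (208 - 80 * S) * (e + 0.247 * P)) := by
      refine mul_nonneg (by linarith only [he]) (add_nonneg (by linarith only [hA, h3, hP, hkl]) (mul_nonneg (by linarith only [a4,
                                                                                                                   a3,
                                                                                                                   hS,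
                                                                                                                   hl',
                                                                                                                   hk']) ?_))
      linarith only [hP, he, hkl]
    linarith only [hd, hp]
  -- the estimate of `2 g w`
  have hgw : 260 * (2 * g * w) ≤ 169 * w ^ 2 + 400 * g ^ 2 := by
    linarith only [sq_nonneg (13 * w - 20 * g)]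
  have hc : 0 < 1.35 * S + 8 * e := by linarith only [h3, hP, he, hkl]
  have hww : 13 * ((1.35 * S + 8 * e) * (S + 2 * e - P ^ 2)) ≤ 13 * ((1.35 * S + 8 * e) * w ^ 2) := by
    have := mul_le_mul_of_nonneg_left hw hc.le
    linarith only [this]
  rw [eg] at hgw
  have hS0 : 0 ≤ S := by linarith only [h3, hP, hkl]
  have h6 := mul_le_mul_of_nonneg_left hgw hS0
  linarith only [h6, hww, hpe]

theorem dom_gen {z q₁ q₂ b₁ b₂ : ℂ} (h : 2 * z = (Real.pi : ℂ) + I * (q₁ + q₂))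
    (h₁ : sinh q₁ * cos z = b₁ * sin z) (h₂ : sinh q₂ * cos z = b₂ * sin z)
    (hc : cos z ≠ 0) (hs : sin z ≠ 0) (hq₁ : cosh q₁ ≠ 0) (hq₂ : cosh q₂ ≠ 0)
    (hb₁ : 53 / 100 ≤ ‖b₁‖) (hb₁' : ‖b₁‖ ≤ 53 / 50) (hb₂ : 53 / 100 ≤ ‖b₂‖)
    (hb₂' : ‖b₂‖ ≤ 53 / 50)
    (he : 0.247 * (‖b₁‖ * ‖b₂‖) ≤ b₁.re * b₂.re + b₁.im * b₂.im) :
    ‖sin z‖ ^ 2 * (‖tanh q₁‖ + ‖tanh q₂‖) <
      ‖2 * (cos z * sin z) - I * (tanh q₁ + tanh q₂)‖ := by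
  obtain ⟨k₁, k₂⟩ := S3.E.two_cosh h h₁ h₂ hc hs
  have hq := S3.E.two_quartic h h₁ h₂ hc hs
  have hcs : cos z ^ 2 + sin z ^ 2 = 1 := by rw [add_comm]; exact sin_sq_add_cos_sq z
  have hX : (2 * cos z ^ 2 : ℂ) ≠ 0 := mul_ne_zero two_ne_zero (pow_ne_zero 2 hc)
  -- the denominator
  have hD : (2 * (cos z * sin z) - I * (tanh q₁ + tanh q₂)) * (cos z * (cosh q₁ * cosh q₂)) =
      2 * sin z ^ 3 * (2 * cos z ^ 2 - b₁ * b₂) := by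
    have e : (2 * (cos z * sin z) - I * (tanh q₁ + tanh q₂)) * (cos z * (cosh q₁ * cosh q₂)) =
        sin z * (2 * cos z ^ 2 * (cosh q₁ * cosh q₂) - I * (b₁ * cosh q₂ + b₂ * cosh q₁)) := by
      rw [tanh_eq_sinh_div_cosh, tanh_eq_sinh_div_cosh]
      field_simp
      linear_combination (-I * cosh q₂) * h₁ + (-I * cosh q₁) * h₂
    rw [e]
    apply mul_left_cancel₀ hX
    have hs2 : sin z ^ 2 = 1 - cos z ^ 2 := by linear_combination hcs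
    have e2 : (2 * cos z ^ 2) * (2 * cos z ^ 2 * (cosh q₁ * cosh q₂) -
        I * (b₁ * cosh q₂ + b₂ * cosh q₁)) =
        4 * cos z ^ 2 * (1 - cos z ^ 2) * (2 * cos z ^ 2 - b₁ * b₂) := by
      have hI : I ^ 2 = -1 := I_sq
      have e3 : (2 * cos z ^ 2 * cosh q₁) * (2 * cos z ^ 2 * cosh q₂) =
          -((2 * cos z ^ 2 * b₁ - (b₁ + b₂)) * (2 * cos z ^ 2 * b₂ - (b₁ + b₂))) := by
        rw [k₁, k₂]
        linear_combination ((2 * cos z ^ 2 * b₁ - (b₁ + b₂)) * (2 * cos z ^ 2 * b₂ - (b₁ + b₂))) * hI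
      have e4 : I * (b₁ * (2 * cos z ^ 2 * cosh q₂) + b₂ * (2 * cos z ^ 2 * cosh q₁)) =
          -(b₁ * (2 * cos z ^ 2 * b₂ - (b₁ + b₂)) + b₂ * (2 * cos z ^ 2 * b₁ - (b₁ + b₂))) := by
        rw [k₁, k₂]
        linear_combination (b₁ * (2 * cos z ^ 2 * b₂ - (b₁ + b₂)) +
          b₂ * (2 * cos z ^ 2 * b₁ - (b₁ + b₂))) * hI
      linear_combination e3 - e4 + (2 * cos z ^ 2 - 2) * hq
    have e5 : 2 * sin z ^ 3 * (2 * cos z ^ 2 - b₁ * b₂) =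
        sin z * (2 * (1 - cos z ^ 2) * (2 * cos z ^ 2 - b₁ * b₂)) := by rw [← hs2]; ring
    rw [e5]
    linear_combination sin z * e2
  -- the hyperbolic cosines
  have hC₂ : (b₁ + b₂) * cosh q₂ = I * (b₂ ^ 2 + (2 * cos z ^ 2 - b₁ * b₂)) := by
    apply mul_left_cancel₀ hX
    linear_combination (b₁ + b₂) * k₂ - I * hq
  have hC₁ : (b₁ + b₂) * cosh q₁ = I * (b₁ ^ 2 + (2 * cos z ^ 2 - b₁ * b₂)) := by
    apply mul_left_cancel₀ hX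
    linear_combination (b₁ + b₂) * k₁ - I * hq
  have hW : (2 * cos z ^ 2 - b₁ * b₂) ^ 2 = (b₁ * b₂) ^ 2 - (b₁ + b₂) ^ 2 := by
    linear_combination hq
  generalize (2 * cos z ^ 2 - b₁ * b₂ : ℂ) = W at hD hC₁ hC₂ hW
  -- real quantities
  have nsq : ∀ x : ℂ, ‖x‖ ^ 2 = x.re ^ 2 + x.im ^ 2 := fun x => by
    rw [← Complex.normSq_eq_norm_sq, Complex.normSq_apply]; ring
  have hSn : ‖b₁ + b₂‖ ^ 2 = ‖b₁‖ ^ 2 + ‖b₂‖ ^ 2 + 2 * (b₁.re * b₂.re + b₁.im * b₂.im) := by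
    rw [nsq, nsq, nsq, Complex.add_re, Complex.add_im]; ring
  have hWn : ‖b₁‖ ^ 2 + ‖b₂‖ ^ 2 + 2 * (b₁.re * b₂.re + b₁.im * b₂.im) - (‖b₁‖ * ‖b₂‖) ^ 2 ≤
      ‖W‖ ^ 2 := by
    have e : ‖W‖ ^ 2 = ‖(b₁ * b₂) ^ 2 - (b₁ + b₂) ^ 2‖ := by rw [← norm_pow, hW]
    rw [← hSn, e, ← norm_mul, ← norm_pow, ← norm_pow, norm_sub_rev]
    exact norm_sub_norm_le _ _
  have hgn : ‖b₁ ^ 2 + b₂ ^ 2‖ ^ 2 = (‖b₁‖ ^ 2 - ‖b₂‖ ^ 2) ^ 2 +
      4 * (b₁.re * b₂.re + b₁.im * b₂.im) ^ 2 := by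
    rw [nsq (b₁ ^ 2 + b₂ ^ 2), nsq b₁, nsq b₂]
    simp only [Complex.add_re, Complex.add_im, pow_two, Complex.mul_re, Complex.mul_im]
    ring
  have hkey := Dom_key hb₁ hb₁' hb₂ hb₂' he hWn hgn
  have hsum : ‖b₁ ^ 2 + W‖ ^ 2 + ‖b₂ ^ 2 + W‖ ^ 2 ≤
      ‖b₁‖ ^ 4 + ‖b₂‖ ^ 4 + 2 * ‖W‖ ^ 2 + 2 * ‖b₁ ^ 2 + b₂ ^ 2‖ * ‖W‖ := by
    have e1 : ‖b₁ ^ 2 + W‖ ^ 2 + ‖b₂ ^ 2 + W‖ ^ 2 = ‖b₁ ^ 2‖ ^ 2 + ‖b₂ ^ 2‖ ^ 2 + 2 * ‖W‖ ^ 2 +
        2 * ((b₁ ^ 2 + b₂ ^ 2) * (starRingEnd ℂ) W).re := by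
      rw [nsq (b₁ ^ 2 + W), nsq (b₂ ^ 2 + W), nsq (b₁ ^ 2), nsq (b₂ ^ 2), nsq W]
      simp only [Complex.add_re, Complex.add_im, Complex.mul_re, Complex.conj_re, Complex.conj_im]
      ring
    have e2 : ((b₁ ^ 2 + b₂ ^ 2) * (starRingEnd ℂ) W).re ≤ ‖b₁ ^ 2 + b₂ ^ 2‖ * ‖W‖ := by
      refine (Complex.re_le_norm _).trans ?_
      rw [norm_mul, Complex.norm_conj]
    rw [e1, norm_pow, norm_pow]
    linarith only [e2]
  have hu : (0 : ℝ) < ‖b₁‖ := by linarith only [hb₁]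
  have hv : (0 : ℝ) < ‖b₂‖ := by linarith only [hb₂]
  have hS0 : 0 ≤ ‖b₁ + b₂‖ := norm_nonneg _
  have hW0 : 0 ≤ ‖W‖ := norm_nonneg _
  have hS : 0 < ‖b₁ + b₂‖ := by
    rcases hS0.lt_or_eq with h | h
    · exact h
    · rw [← h] at hSn
      have := mul_pos hu hv
      linarith only [this, hSn, he, sq_nonneg (‖b₂‖), sq_nonneg (‖b₁‖)]
  have key : ‖b₁‖ * ‖b₂ ^ 2 + W‖ + ‖b₂‖ * ‖b₁ ^ 2 + W‖ < 2 * ‖b₁ + b₂‖ * ‖W‖ := by
    refine lt_of_pow_lt_pow_left₀ 2 (by positivity) ?_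
    have cs : (‖b₁‖ * ‖b₂ ^ 2 + W‖ + ‖b₂‖ * ‖b₁ ^ 2 + W‖) ^ 2 ≤
        (‖b₁‖ ^ 2 + ‖b₂‖ ^ 2) * (‖b₁ ^ 2 + W‖ ^ 2 + ‖b₂ ^ 2 + W‖ ^ 2) := by
      linarith only [sq_nonneg (‖b₁‖ * ‖b₁ ^ 2 + W‖ - ‖b₂‖ * ‖b₂ ^ 2 + W‖)]
    have h3 : (‖b₁‖ ^ 2 + ‖b₂‖ ^ 2) * (‖b₁ ^ 2 + W‖ ^ 2 + ‖b₂ ^ 2 + W‖ ^ 2) ≤
        (‖b₁‖ ^ 2 + ‖b₂‖ ^ 2) *
          (‖b₁‖ ^ 4 + ‖b₂‖ ^ 4 + 2 * ‖W‖ ^ 2 + 2 * ‖b₁ ^ 2 + b₂ ^ 2‖ * ‖W‖) :=
      mul_le_mul_of_nonneg_left hsum (by positivity)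
    have h4 : (2 * ‖b₁ + b₂‖ * ‖W‖) ^ 2 =
        4 * (‖b₁‖ ^ 2 + ‖b₂‖ ^ 2 + 2 * (b₁.re * b₂.re + b₁.im * b₂.im)) * ‖W‖ ^ 2 := by
      rw [← hSn]; ring
    rw [h4]
    exact lt_of_le_of_lt (cs.trans h3) hkey
  have hfin : ‖b₁‖ * ‖cosh q₂‖ + ‖b₂‖ * ‖cosh q₁‖ < 2 * ‖W‖ := by
    apply lt_of_mul_lt_mul_left _ hS.le
    have c2 : ‖b₁ + b₂‖ * ‖cosh q₂‖ = ‖b₂ ^ 2 + W‖ := by
      rw [← norm_mul, hC₂, norm_mul, norm_I, one_mul]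
    have c1 : ‖b₁ + b₂‖ * ‖cosh q₁‖ = ‖b₁ ^ 2 + W‖ := by
      rw [← norm_mul, hC₁, norm_mul, norm_I, one_mul]
    calc ‖b₁ + b₂‖ * (‖b₁‖ * ‖cosh q₂‖ + ‖b₂‖ * ‖cosh q₁‖)
        = ‖b₁‖ * (‖b₁ + b₂‖ * ‖cosh q₂‖) + ‖b₂‖ * (‖b₁ + b₂‖ * ‖cosh q₁‖) := by ring
      _ = ‖b₁‖ * ‖b₂ ^ 2 + W‖ + ‖b₂‖ * ‖b₁ ^ 2 + W‖ := by rw [c1, c2]
      _ < 2 * ‖b₁ + b₂‖ * ‖W‖ := key
      _ = ‖b₁ + b₂‖ * (2 * ‖W‖) := by ring
  have hκ : 0 < ‖cos z‖ := norm_pos_iff.2 hc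
  have hσ : 0 < ‖sin z‖ := norm_pos_iff.2 hs
  have hn₁ : 0 < ‖cosh q₁‖ := norm_pos_iff.2 hq₁
  have hn₂ : 0 < ‖cosh q₂‖ := norm_pos_iff.2 hq₂
  have hT₁ : ‖tanh q₁‖ * (‖cos z‖ * ‖cosh q₁‖) = ‖b₁‖ * ‖sin z‖ := by
    rw [← norm_mul, ← norm_mul, ← norm_mul, ← h₁, tanh_eq_sinh_div_cosh]
    congr 1
    field_simp
  have hT₂ : ‖tanh q₂‖ * (‖cos z‖ * ‖cosh q₂‖) = ‖b₂‖ * ‖sin z‖ := by
    rw [← norm_mul, ← norm_mul, ← norm_mul, ← h₂, tanh_eq_sinh_div_cosh]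
    congr 1
    field_simp
  have hDn : ‖2 * (cos z * sin z) - I * (tanh q₁ + tanh q₂)‖ *
      (‖cos z‖ * (‖cosh q₁‖ * ‖cosh q₂‖)) = 2 * ‖sin z‖ ^ 3 * ‖W‖ := by
    rw [← norm_mul, ← norm_mul, ← norm_mul, hD, norm_mul, norm_mul, norm_pow, Complex.norm_ofNat]
  have hP : 0 < ‖cos z‖ * (‖cosh q₁‖ * ‖cosh q₂‖) := by positivity
  apply lt_of_mul_lt_mul_right _ hP.le
  rw [hDn]
  calc ‖sin z‖ ^ 2 * (‖tanh q₁‖ + ‖tanh q₂‖) * (‖cos z‖ * (‖cosh q₁‖ * ‖cosh q₂‖))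
      = ‖sin z‖ ^ 2 * ((‖tanh q₁‖ * (‖cos z‖ * ‖cosh q₁‖)) * ‖cosh q₂‖ +
          (‖tanh q₂‖ * (‖cos z‖ * ‖cosh q₂‖)) * ‖cosh q₁‖) := by ring
    _ = ‖sin z‖ ^ 3 * (‖b₁‖ * ‖cosh q₂‖ + ‖b₂‖ * ‖cosh q₁‖) := by rw [hT₁, hT₂]; ring
    _ < ‖sin z‖ ^ 3 * (2 * ‖W‖) := mul_lt_mul_of_pos_left hfin (by positivity)
    _ = 2 * ‖sin z‖ ^ 3 * ‖W‖ := by ring

/-- Dominance in terms of the real coordinates: `b₁ = x₁ + i y₁`, `b₂ = x₂ - i y₂` (`so = true`) or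
`b₂ = x₂ + i y₂` (`so = false`). -/
theorem dom_xy {z q₁ q₂ : ℂ} {x₁ y₁ x₂ y₂ : ℝ} (so : Bool)
    (h : 2 * z = (Real.pi : ℂ) + I * (q₁ + q₂))
    (h₁ : sinh q₁ * cos z = ((x₁ : ℂ) + I * y₁) * sin z)
    (h₂ : sinh q₂ * cos z = ((x₂ : ℂ) + I * (sgy so y₂ : ℝ)) * sin z)
    (hc : cos z ≠ 0) (hs : sin z ≠ 0) (hq₁ : cosh q₁ ≠ 0) (hq₂ : cosh q₂ ≠ 0)
    (hx₁ : 0 ≤ x₁) (hy₁ : 0 ≤ y₁) (hx₂ : 0 ≤ x₂) (hy₂ : 0 ≤ y₂)
    (ht₁ : y₁ ≤ (if so then 0.777 else 0.9) * x₁) (ht₂ : y₂ ≤ (if so then 0.777 else 0.9) * x₂)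
    (hb₁ : (53 / 100) ^ 2 ≤ x₁ ^ 2 + y₁ ^ 2) (hb₁' : x₁ ^ 2 + y₁ ^ 2 ≤ (53 / 50) ^ 2)
    (hb₂ : (53 / 100) ^ 2 ≤ x₂ ^ 2 + y₂ ^ 2) (hb₂' : x₂ ^ 2 + y₂ ^ 2 ≤ (53 / 50) ^ 2) :
    ‖sin z‖ ^ 2 * (‖tanh q₁‖ + ‖tanh q₂‖) <
      ‖2 * (cos z * sin z) - I * (tanh q₁ + tanh q₂)‖ := by
  have r1 : ((x₁ : ℂ) + I * y₁).re = x₁ := by simp
  have i1 : ((x₁ : ℂ) + I * y₁).im = y₁ := by simp
  have r2 : ((x₂ : ℂ) + I * (sgy so y₂ : ℝ)).re = x₂ := by simp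
  have i2 : ((x₂ : ℂ) + I * (sgy so y₂ : ℝ)).im = sgy so y₂ := by simp
  have nsq : ∀ x : ℂ, ‖x‖ ^ 2 = x.re ^ 2 + x.im ^ 2 := fun x => by
    rw [← Complex.normSq_eq_norm_sq, Complex.normSq_apply]; ring
  have n1 : ‖(x₁ : ℂ) + I * y₁‖ ^ 2 = x₁ ^ 2 + y₁ ^ 2 := by rw [nsq, r1, i1]
  have sy : sgy so y₂ ^ 2 = y₂ ^ 2 := by unfold sgy; cases so <;> simp
  have n2 : ‖(x₂ : ℂ) + I * (sgy so y₂ : ℝ)‖ ^ 2 = x₂ ^ 2 + y₂ ^ 2 := by rw [nsq, r2, i2, sy]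
  have m1 : 0 ≤ ‖(x₁ : ℂ) + I * y₁‖ := norm_nonneg _
  have m2 : 0 ≤ ‖(x₂ : ℂ) + I * (sgy so y₂ : ℝ)‖ := norm_nonneg _
  have hxx : 0 ≤ x₁ * x₂ := mul_nonneg hx₁ hx₂
  refine dom_gen h h₁ h₂ hc hs hq₁ hq₂
    ((sq_le_sq₀ (by norm_num) m1).1 (by rw [n1]; exact hb₁))
    ((sq_le_sq₀ m1 (by norm_num)).1 (by rw [n1]; exact hb₁'))
    ((sq_le_sq₀ (by norm_num) m2).1 (by rw [n2]; exact hb₂))
    ((sq_le_sq₀ m2 (by norm_num)).1 (by rw [n2]; exact hb₂')) ?_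
  rw [r1, i1, r2, i2]
  have hprod : ∀ c : ℝ, 0 ≤ c → y₁ ≤ c * x₁ → y₂ ≤ c * x₂ →
      ‖(x₁ : ℂ) + I * y₁‖ * ‖(x₂ : ℂ) + I * (sgy so y₂ : ℝ)‖ ≤ (1 + c ^ 2) * (x₁ * x₂) := by
    intro c hc0 c1 c2
    refine (sq_le_sq₀ (mul_nonneg m1 m2) (mul_nonneg (by positivity) hxx)).1 ?_
    rw [mul_pow, n1, n2]
    have d1 : x₁ ^ 2 + y₁ ^ 2 ≤ (1 + c ^ 2) * x₁ ^ 2 := by
      have := pow_le_pow_left₀ hy₁ c1 2
      linarith only [this]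
    have d2 : x₂ ^ 2 + y₂ ^ 2 ≤ (1 + c ^ 2) * x₂ ^ 2 := by
      have := pow_le_pow_left₀ hy₂ c2 2
      linarith only [this]
    calc (x₁ ^ 2 + y₁ ^ 2) * (x₂ ^ 2 + y₂ ^ 2) ≤
        ((1 + c ^ 2) * x₁ ^ 2) * ((1 + c ^ 2) * x₂ ^ 2) :=
          mul_le_mul d1 d2 (by positivity) (by positivity)
      _ = ((1 + c ^ 2) * (x₁ * x₂)) ^ 2 := by ring
  generalize ‖(x₁ : ℂ) + I * y₁‖ * ‖(x₂ : ℂ) + I * (sgy so y₂ : ℝ)‖ = R at hprod ⊢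
  unfold sgy
  cases so
  · simp only [Bool.false_eq_true, if_false] at ht₁ ht₂ hprod ⊢
    have h3 := hprod 0.9 (by norm_num) ht₁ ht₂
    have h4 : 0 ≤ y₁ * y₂ := mul_nonneg hy₁ hy₂
    linarith only [h4, h3, hxx]
  · simp only [if_true] at ht₁ ht₂ hprod ⊢
    have h3 := hprod 0.777 (by norm_num) ht₁ ht₂
    have h4 : y₁ * y₂ ≤ (0.777 * x₁) * (0.777 * x₂) := mul_le_mul ht₁ ht₂ hy₂ (by positivity)
    linarith only [h4, h3, hxx]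

/-- The condition on a region (`by decide` for concrete regions). -/
def okR (so : Bool) (r : Rg) : Bool :=
  decide (530 ≤ r.k0) && (decide (r.k1 ≤ 1060) && decide (r.t1 ≤ if so then 777 else 900))

private theorem Dom_okR {so : Bool} {r : Rg} {x y : ℝ} (h : okR so r = true) (g : InR r x y) :
    y ≤ (if so then 0.777 else 0.9) * x ∧ (53 / 100) ^ 2 ≤ x ^ 2 + y ^ 2 ∧
      x ^ 2 + y ^ 2 ≤ (53 / 50) ^ 2 := by
  unfold okR at h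
  rw [Bool.and_eq_true, Bool.and_eq_true, decide_eq_true_eq, decide_eq_true_eq,
    decide_eq_true_eq] at h
  obtain ⟨h1, h2, h3⟩ := h
  have h1' : (530 : ℝ) ≤ r.k0 := by exact_mod_cast h1
  have h2' : (r.k1 : ℝ) ≤ 1060 := by exact_mod_cast h2
  refine ⟨g.a1.trans (mul_le_mul_of_nonneg_right ?_ g.x0), ?_, ?_⟩
  · cases so
    · simp only [Bool.false_eq_true, if_false] at h3 ⊢
      have h3' : (r.t1 : ℝ) ≤ 900 := by exact_mod_cast h3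
      linarith only [h3']
    · simp only [if_true] at h3 ⊢
      have h3' : (r.t1 : ℝ) ≤ 777 := by exact_mod_cast h3
      linarith only [h3']
  · refine le_trans ?_ g.lo
    exact pow_le_pow_left₀ (by norm_num) (by linarith only [h1']) 2
  · refine g.hi.trans ?_
    exact pow_le_pow_left₀ (by positivity) (by linarith only [h2']) 2

/-- Dominance for slots in regions. -/
theorem dom_InR {z q₁ q₂ : ℂ} {x₁ y₁ x₂ y₂ : ℝ} {so : Bool} {r₁ r₂ : Rg}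
    (g₁ : InR r₁ x₁ y₁) (g₂ : InR r₂ x₂ y₂) (o₁ : okR so r₁ = true) (o₂ : okR so r₂ = true)
    (h : 2 * z = (Real.pi : ℂ) + I * (q₁ + q₂))
    (h₁ : sinh q₁ * cos z = ((x₁ : ℂ) + I * y₁) * sin z)
    (h₂ : sinh q₂ * cos z = ((x₂ : ℂ) + I * (sgy so y₂ : ℝ)) * sin z)
    (hc : cos z ≠ 0) (hs : sin z ≠ 0) (hq₁ : cosh q₁ ≠ 0) (hq₂ : cosh q₂ ≠ 0) :
    ‖sin z‖ ^ 2 * (‖tanh q₁‖ + ‖tanh q₂‖) <
      ‖2 * (cos z * sin z) - I * (tanh q₁ + tanh q₂)‖ := by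
  obtain ⟨a1, a2, a3⟩ := Dom_okR o₁ g₁
  obtain ⟨c1, c2, c3⟩ := Dom_okR o₂ g₂
  exact dom_xy so h h₁ h₂ hc hs hq₁ hq₂ g₁.x0 g₁.y0 g₂.x0 g₂.y0 a1 c1 a2 a3 c2 c3

example : okR true ⟨700, 1020, 365, 760, 200⟩ = true := by decide

end Pool.Agent.S5.E.B2
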