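import Pool.Agent.S5.E.B2.Geo

/-!
# Mixed chains, block E: end vertices with two twists
-/

set_option autoImplicit false

namespace Pool.Agent.S5.E

open Complex
open Pool.Agent.S3.E (al ph tt k2 s2 cc gg ch norm_cos_eq norm_cos_sq cos_polar al_pos al_lt tt_pos
  ph_pos ph_lt two_quartic two_cosh two_end al_eq chi_phi_le chi_phi_lt k2_pos sinh_two_pos dom_end
  norm_sin_sq)
open Pool.Agent.S5.E.B2

variable {ι κ : Type*} {m : Bool}

namespace Zr

variable {a : ι → ℝ} {nl nr : ι → Option (ι × Bool)} {g : ι → κ → ℂ → ℝ} {τ : ℝ} {z : ι → ℂ}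

theorem norm_sq_cos (h : Zr m a nl nr g τ z) (i : ι) :
    (cos (z i)).re ^ 2 + (-(cos (z i)).im) ^ 2 = ‖cos (z i)‖ ^ 2 := by
  rw [h.cos_re, h.cos_im]
  have := Real.sin_sq_add_cos_sq (ph (z i).re (z i).im)
  linear_combination ‖cos (z i)‖ ^ 2 * this

theorem k2_eq (h : Zr m a nl nr g τ z) (i : ι) : k2 (z i).re (z i).im = ‖cos (z i)‖ ^ 2 := by
  rw [norm_cos_eq, Real.sq_sqrt (h.k2pos i).le]

theorem eqE (h : Zr m a nl nr g τ z) {j i : ι} (hj : a j = 2) (he : IsE nl nr j i) :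
    2 * z j = (Real.pi : ℂ) + I * as (bo m τ z (some (i, false)) * tan (z j)) := by
  have h1 := h.eqn j
  rw [hj] at h1
  push_cast at h1
  rcases he with ⟨h2, h3⟩ | ⟨h2, h3⟩
  · rw [h2, h3] at h1
    have e : bo m τ z (none : Option (ι × Bool)) = 0 := rfl
    rw [e, zero_mul, as_zero, add_zero] at h1
    exact h1
  · rw [h2, h3] at h1
    have e : bo m τ z (none : Option (ι × Bool)) = 0 := rfl
    rw [e, zero_mul, as_zero, zero_add] at h1
    exact h1

theorem sinhE (h : Zr m a nl nr g τ z) {j i : ι} (he : IsE nl nr j i) :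
    sinh (as (bo m τ z (some (i, false)) * tan (z j))) * cos (z j) =
      bo m τ z (some (i, false)) * sin (z j) := by
  rcases he with ⟨h2, h3⟩ | ⟨h2, h3⟩
  · have := h.sinh_l j
    rwa [h2] at this
  · have := h.sinh_r j
    rwa [h3] at this

theorem end2 (h : Zr m a nl nr g τ z) {j i : ι} (hj : a j = 2) (he : IsE nl nr j i) :
    2 * cos (z j) ^ 2 = -I * bo m τ z (some (i, false)) :=
  two_end (h.eqE hj he) (h.sinhE he) (h.cos_ne j) (h.sin_ne j)

theorem cos_sq_polar (h : Zr m a nl nr g τ z) (i : ι) :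
    cos (z i) ^ 2 = ((‖cos (z i)‖ ^ 2 : ℝ) : ℂ) *
      exp (((-(2 * ph (z i).re (z i).im) : ℝ) : ℂ) * I) := by
  conv_lhs => rw [cos_polar (h.pos i).1 (h.pos i).2.1]
  rw [mul_pow, ← Complex.exp_nat_mul]
  push_cast
  congr 2
  ring

/-- Length and angle of an end vertex with two twists. -/
theorem k_end (h : Zr m a nl nr g τ z) {j i : ι} (hj : a j = 2) (he : IsE nl nr j i) :
    2 * ‖cos (z j)‖ ^ 2 = ro m τ z (some (i, false)) ∧
      ph (z j).re (z j).im = Real.pi / 4 - be m τ z (some (i, false)) / 2 := by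
  have h1 := h.end2 hj he
  rw [h.cos_sq_polar j, h.bo_eq] at h1
  have hI : -I = exp (((-(Real.pi / 2) : ℝ) : ℂ) * I) := by
    rw [exp_mul_I, ← ofReal_cos, ← ofReal_sin, Real.cos_neg, Real.sin_neg, Real.cos_pi_div_two,
      Real.sin_pi_div_two]
    simp
  rw [hI] at h1
  have h2 : ((2 * ‖cos (z j)‖ ^ 2 : ℝ) : ℂ) *
      exp (((-(2 * ph (z j).re (z j).im) : ℝ) : ℂ) * I) =
      ((ro m τ z (some (i, false)) : ℝ) : ℂ) *
        exp (((be m τ z (some (i, false)) - Real.pi / 2 : ℝ) : ℂ) * I) := by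
    have e1 : exp (((be m τ z (some (i, false)) - Real.pi / 2 : ℝ) : ℂ) * I) =
        exp (((-(Real.pi / 2) : ℝ) : ℂ) * I) *
          exp (((be m τ z (some (i, false)) : ℝ) : ℂ) * I) := by
      rw [← Complex.exp_add]
      push_cast
      congr 1
      ring
    rw [e1]
    push_cast at h1 ⊢
    linear_combination h1
  have hk := h.norm_pos j
  have h3 : 2 * ‖cos (z j)‖ ^ 2 = ro m τ z (some (i, false)) := by
    have h4 := congrArg norm h2
    rw [norm_mul, norm_mul, norm_exp_ofReal_mul_I, norm_exp_ofReal_mul_I, norm_real, norm_real,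
      Real.norm_eq_abs, Real.norm_eq_abs, abs_of_pos (by positivity),
      abs_of_pos (h.ro_pos i false)] at h4
    linarith
  refine ⟨h3, ?_⟩
  rw [h3] at h2
  have h5 := mul_left_cancel₀ (by exact_mod_cast (h.ro_pos i false).ne') h2
  have h6 := congrArg im h5
  rw [exp_ofReal_mul_I_im, exp_ofReal_mul_I_im] at h6
  have hbe : be m τ z (some (i, false)) = ex m false τ * ph (z i).re (z i).im := by
    simp [be, sg]
  have hbe0 : 0 ≤ be m τ z (some (i, false)) := by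
    rw [hbe]; exact mul_nonneg (h.ex_mem false).1 (h.phpos i).le
  have hbe1 : be m τ z (some (i, false)) ≤ Real.pi / 2 := by
    rw [hbe]
    have := (h.ex_mem false).2
    have := h.phlt i
    have := (h.phpos i).le
    nlinarith
  have h8 : -(2 * ph (z j).re (z j).im) = be m τ z (some (i, false)) - Real.pi / 2 := by
    have hphj : ph (z j).re (z j).im ≤ Real.pi / 4 := by
      -- from the real parts: `cos (2 φ) ≥ 0`
      have h7 := congrArg re h5
      rw [exp_ofReal_mul_I_re, exp_ofReal_mul_I_re] at h7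
      by_contra hc
      push Not at hc
      have e1 : Real.cos (-(2 * ph (z j).re (z j).im)) < 0 := by
        rw [Real.cos_neg]
        apply Real.cos_neg_of_pi_div_two_lt_of_lt
        · linarith
        · linarith [h.phlt j, Real.pi_pos]
      have e2 : 0 ≤ Real.cos (be m τ z (some (i, false)) - Real.pi / 2) :=
        Real.cos_nonneg_of_mem_Icc ⟨by linarith, by linarith [Real.pi_pos]⟩
      linarith
    apply Real.injOn_sin _ _ h6
    · constructor <;> linarith [hphj, h.phpos j, Real.pi_pos]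
    · constructor <;> linarith [Real.pi_pos]
  linarith

/-- `t`, the exponent of the `A` slots. -/
theorem be_A (_ : Zr m a nl nr g τ z) (i : ι) :
    be m τ z (some (i, false)) = ex m false τ * ph (z i).re (z i).im := by
  simp [be, sg]

/-- The wall of an end vertex. -/
theorem wall_end (h : Zr m a nl nr g τ z) {j i : ι} (hj : a j = 2) (he : IsE nl nr j i)
    (hk : ‖cos (z i)‖ ≤ 1.2) : 0 < (bo m τ z (some (i, false)) * tan (z j)).re := by
  have h1 := h.end2 hj he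
  have hb : bo m τ z (some (i, false)) = 2 * I * cos (z j) ^ 2 := by
    have hI : I * I = -1 := I_mul_I
    linear_combination (-I) * h1 + bo m τ z (some (i, false)) * hI
  have e : bo m τ z (some (i, false)) * tan (z j) = I * sin (2 * z j) := by
    rw [hb, tan_eq_sin_div_cos, sin_two_mul]
    have := h.cos_ne j
    field_simp
  have hz : (2 * z j) = ((2 * (z j).re : ℝ) : ℂ) + ((2 * (z j).im : ℝ) : ℂ) * I := by
    apply Complex.ext <;> simp
  have e2 : (I * sin (2 * z j)).re = -(Real.cos (2 * (z j).re) * Real.sinh (2 * (z j).im)) := by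
    rw [I_mul_re, hz, sin_add_mul_I, ← ofReal_sin, ← ofReal_cos, ← ofReal_sinh, ← ofReal_cosh]
    simp only [add_im, mul_im, ofReal_re, ofReal_im, mul_re, I_re, I_im]
    ring
  rw [e, e2]
  -- `cos 2R cosh 2I = 2 Re κ² - 1 = Im b - 1`
  have e3 : (cos (2 * z j)).re = Real.cos (2 * (z j).re) * Real.cosh (2 * (z j).im) := by
    rw [hz, cos_add_mul_I, ← ofReal_sin, ← ofReal_cos, ← ofReal_sinh, ← ofReal_cosh]
    simp only [sub_re, mul_im, ofReal_re, ofReal_im, mul_re, I_re, I_im]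
    ring
  have e4 : (cos (2 * z j)).re = (bo m τ z (some (i, false))).im - 1 := by
    rw [cos_two_mul, h1, sub_re, one_re, neg_mul, neg_re, I_mul_re, neg_neg]
  have hro : ro m τ z (some (i, false)) ≤ 1.2 := by
    have hk0 := h.norm_pos i
    show ‖cos (z i)‖ ^ (ex m false τ) ≤ 1.2
    rcases le_total ‖cos (z i)‖ 1 with h5 | h5
    · have := Real.rpow_le_one hk0.le h5 (h.ex_mem false).1
      norm_num
      linarith
    · have h6 := Real.rpow_le_rpow_of_exponent_le h5 (h.ex_mem false).2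
      rw [Real.rpow_one] at h6
      linarith
  have hbe1 : be m τ z (some (i, false)) ≤ ph (z i).re (z i).im := by
    rw [h.be_A]
    have := (h.ex_mem false).2
    have := (h.phpos i).le
    nlinarith
  have hbe0 : 0 ≤ be m τ z (some (i, false)) := by
    rw [h.be_A]; exact mul_nonneg (h.ex_mem false).1 (h.phpos i).le
  have hsin : Real.sin (be m τ z (some (i, false))) ≤ 0.73 := by
    -- `v ≤ 1.04 u`
    have h5 : Real.sin (be m τ z (some (i, false))) ≤ Real.sin (ph (z i).re (z i).im) :=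
      Real.sin_le_sin_of_le_of_le_pi_div_two (by linarith [Real.pi_pos]) (h.phlt i).le hbe1
    have h6 : -(cos (z i)).im ≤ 1.04 * (cos (z i)).re := (h.K.1.2 i).2.2.2
    rw [h.cos_im, h.cos_re] at h6
    have h7 : Real.sin (ph (z i).re (z i).im) ≤ 1.04 * Real.cos (ph (z i).re (z i).im) := by
      have : ‖cos (z i)‖ * Real.sin (ph (z i).re (z i).im) ≤
          ‖cos (z i)‖ * (1.04 * Real.cos (ph (z i).re (z i).im)) := by linarith
      exact le_of_mul_le_mul_left this (h.norm_pos i)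
    have h8 := Real.sin_sq_add_cos_sq (ph (z i).re (z i).im)
    have h9 : 0 ≤ Real.sin (ph (z i).re (z i).im) :=
      Real.sin_nonneg_of_nonneg_of_le_pi (h.phpos i).le (by linarith [h.phlt i, Real.pi_pos])
    refine h5.trans ?_
    norm_num at h7 ⊢
    by_contra hc
    push Not at hc
    nlinarith
  have him : (bo m τ z (some (i, false))).im < 1 := by
    rw [h.bo_im]
    have h5 : 0 ≤ Real.sin (be m τ z (some (i, false))) :=
      Real.sin_nonneg_of_nonneg_of_le_pi hbe0 (by linarith [h.phlt i, Real.pi_pos])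
    have h6 := (h.ro_pos i false).le
    norm_num at hro hsin
    nlinarith
  have hs := sinh_two_pos (h.pos j).2.2
  have hc := Real.cosh_pos (2 * (z j).im)
  have h5 : Real.cos (2 * (z j).re) < 0 := by
    rw [e3] at e4
    by_contra hcon
    push Not at hcon
    have := mul_nonneg hcon hc.le
    linarith
  have := mul_neg_of_neg_of_pos h5 hs
  linarith

/-- Dominance at an end vertex. -/
theorem dom_E (h : Zr m a nl nr g τ z) {j i : ι} (hj : a j = 2) (he : IsE nl nr j i)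
    (hk : ‖cos (z i)‖ ≤ 1.2) :
    s2 (z j).re (z j).im * (‖tanh (as (bo m τ z (nl j) * tan (z j)))‖ +
        ‖tanh (as (bo m τ z (nr j) * tan (z j)))‖) <
      ‖(a j : ℂ) * (cos (z j) * sin (z j)) - I * (tanh (as (bo m τ z (nl j) * tan (z j))) +
          tanh (as (bo m τ z (nr j) * tan (z j))))‖ := by
  have hw := h.wall_end hj he hk
  have h5 := h.eqE hj he
  have h6 := h.sinhE he
  have hc : cosh (as (bo m τ z (some (i, false)) * tan (z j))) ≠ 0 := cosh_as_ne hw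
  have h4 := dom_end h5 h6 (h.cos_ne j) (h.sin_ne j) hc
  rw [norm_sin_sq] at h4
  have e0 : bo m τ z (none : Option (ι × Bool)) = 0 := rfl
  rcases he with ⟨h2, h3⟩ | ⟨h2, h3⟩
  · rw [hj, h2, h3, e0, zero_mul, as_zero, tanh_zero, add_zero, norm_zero, add_zero]
    push_cast
    exact h4
  · rw [hj, h2, h3, e0, zero_mul, as_zero, tanh_zero, zero_add, norm_zero, zero_add]
    push_cast
    exact h4

/-! ### The slot of the neighbour of an end vertex -/

/-- Comparison of angles. -/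
theorem sin_le_of_le {θ ψ T : ℝ} (h0 : 0 ≤ θ) (h1 : θ ≤ ψ) (h2 : ψ < Real.pi / 2)
    (h : Real.sin ψ ≤ T * Real.cos ψ) : Real.sin θ ≤ T * Real.cos θ := by
  have hc : 0 < Real.cos ψ := Real.cos_pos_of_mem_Ioo ⟨by linarith [Real.pi_pos], h2⟩
  have hct : 0 ≤ Real.cos θ :=
    Real.cos_nonneg_of_mem_Icc ⟨by linarith [Real.pi_pos], by linarith⟩
  have e1 : 0 ≤ Real.sin (ψ - θ) :=
    Real.sin_nonneg_of_nonneg_of_le_pi (by linarith) (by linarith [Real.pi_pos])
  rw [Real.sin_sub] at e1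
  have e4 : Real.sin θ * Real.cos ψ ≤ (T * Real.cos θ) * Real.cos ψ := by
    have := mul_le_mul_of_nonneg_right h hct
    nlinarith
  exact le_of_mul_le_mul_right e4 hc

/-- The angle `π/4 - φ/2`. -/
theorem half_le {φ t T : ℝ} (h0 : 0 ≤ φ) (h1 : φ ≤ Real.pi / 4) (ht : t * Real.cos φ ≤ Real.sin φ)
    (hT : 0 ≤ T) (hc : 1 - T ^ 2 ≤ 2 * t * T) :
    Real.sin (Real.pi / 4 - φ / 2) ≤ T * Real.cos (Real.pi / 4 - φ / 2) := by
  obtain ⟨ψ, hψ⟩ : ∃ ψ, ψ = Real.pi / 4 - φ / 2 := ⟨_, rfl⟩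
  have e1 : Real.sin φ = Real.cos (2 * ψ) := by
    rw [hψ, ← Real.cos_pi_div_two_sub]; congr 1; ring
  have e2 : Real.cos φ = Real.sin (2 * ψ) := by
    rw [hψ, ← Real.sin_pi_div_two_sub]; congr 1; ring
  rw [e1, e2, Real.cos_two_mul', Real.sin_two_mul] at ht
  rw [← hψ]
  have hs : 0 ≤ Real.sin ψ :=
    Real.sin_nonneg_of_nonneg_of_le_pi (by rw [hψ]; linarith) (by rw [hψ]; linarith [Real.pi_pos])
  have hc0 : 0 < Real.cos ψ :=
    Real.cos_pos_of_mem_Ioo ⟨by rw [hψ]; linarith [Real.pi_pos], by rw [hψ]; linarith [Real.pi_pos]⟩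
  by_contra hcon
  push Not at hcon
  have h3 : 0 ≤ T * Real.cos ψ := mul_nonneg hT hc0.le
  have h4 : (T * Real.cos ψ) ^ 2 < Real.sin ψ ^ 2 := pow_lt_pow_left₀ hcon h3 (by norm_num)
  rcases le_or_gt 0 t with ht0 | ht0
  · have h5 : t * (T * Real.cos ψ * Real.cos ψ) ≤ t * (Real.sin ψ * Real.cos ψ) :=
      mul_le_mul_of_nonneg_left (mul_le_mul_of_nonneg_right hcon.le hc0.le) ht0
    have h6 : (1 - T ^ 2) * Real.cos ψ ^ 2 ≤ 2 * t * T * Real.cos ψ ^ 2 :=
      mul_le_mul_of_nonneg_right hc (sq_nonneg _)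
    nlinarith
  · -- `t < 0`: then `1 ≤ T`
    have h7 : Real.cos ψ ≤ Real.sin ψ := by
      have h8 : 1 ≤ T := by
        by_contra h9
        push Not at h9
        nlinarith [mul_nonneg hT (neg_nonneg.2 ht0.le)]
      nlinarith
    have h10 : Real.sin ψ ≤ Real.cos ψ :=
      Pool.Agent.S3.E.Zr.sin_le_cos (by rw [hψ]; linarith) (by rw [hψ]; linarith)
    have h11 : Real.sin ψ = Real.cos ψ := le_antisymm h10 h7
    rw [h11] at hcon
    have h12 : T < 1 := by
      by_contra h13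
      push Not at h13
      nlinarith
    nlinarith [mul_nonneg hT (neg_nonneg.2 ht0.le)]

theorem half_ge {φ t T : ℝ} (h0 : 0 ≤ φ) (h1 : φ ≤ Real.pi / 4) (ht : Real.sin φ ≤ t * Real.cos φ)
    (ht0 : 0 ≤ t) (hc : 2 * t * T ≤ 1 - T ^ 2) :
    T * Real.cos (Real.pi / 4 - φ / 2) ≤ Real.sin (Real.pi / 4 - φ / 2) := by
  obtain ⟨ψ, hψ⟩ : ∃ ψ, ψ = Real.pi / 4 - φ / 2 := ⟨_, rfl⟩
  have e1 : Real.sin φ = Real.cos (2 * ψ) := by
    rw [hψ, ← Real.cos_pi_div_two_sub]; congr 1; ring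
  have e2 : Real.cos φ = Real.sin (2 * ψ) := by
    rw [hψ, ← Real.sin_pi_div_two_sub]; congr 1; ring
  rw [e1, e2, Real.cos_two_mul', Real.sin_two_mul] at ht
  rw [← hψ]
  have hs : 0 ≤ Real.sin ψ :=
    Real.sin_nonneg_of_nonneg_of_le_pi (by rw [hψ]; linarith) (by rw [hψ]; linarith [Real.pi_pos])
  have hc0 : 0 < Real.cos ψ :=
    Real.cos_pos_of_mem_Ioo ⟨by rw [hψ]; linarith [Real.pi_pos], by rw [hψ]; linarith [Real.pi_pos]⟩
  by_contra hcon
  push Not at hcon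
  have h4 : Real.sin ψ ^ 2 < (T * Real.cos ψ) ^ 2 := pow_lt_pow_left₀ hcon hs (by norm_num)
  have h5 : t * (Real.sin ψ * Real.cos ψ) ≤ t * (T * Real.cos ψ * Real.cos ψ) :=
    mul_le_mul_of_nonneg_left (mul_le_mul_of_nonneg_right hcon.le hc0.le) ht0
  have h6 : 2 * t * T * Real.cos ψ ^ 2 ≤ (1 - T ^ 2) * Real.cos ψ ^ 2 :=
    mul_le_mul_of_nonneg_right hc (sq_nonneg _)
  nlinarith

/-- The conditions for the slot of a vertex in `r` next to an end vertex to be in `r'`. -/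
def EE (r r' : Rg) : Bool :=
  Nat.ble (r'.k0 ^ 2) (500 * r.k0) && (Nat.ble (r'.k0 ^ 2) 500000 && (Nat.ble r.k1 2000 &&
    (Nat.ble 1000 r'.k1 && (Nat.ble 1000000 (2 * r.t0 * r'.t1 + r'.t1 ^ 2) &&
      (Nat.ble r.t1 1000 && (Nat.ble r'.t0 0 && Nat.ble r'.m 0))))))

/-- The facts about the end neighbour. -/
theorem end_facts (h : Zr m a nl nr g τ z) {i : ι} {r : Rg}
    (hr : InR r (cos (z i)).re (-(cos (z i)).im)) (h1 : r.t1 ≤ 1000) :
    ph (z i).re (z i).im ≤ Real.pi / 4 ∧ (r.t0 : ℝ) / 1000 * Real.cos (ph (z i).re (z i).im) ≤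
      Real.sin (ph (z i).re (z i).im) ∧ Real.sin (ph (z i).re (z i).im) ≤
      (r.t1 : ℝ) / 1000 * Real.cos (ph (z i).re (z i).im) ∧ (r.k0 : ℝ) / 1000 ≤ ‖cos (z i)‖ ∧
      ‖cos (z i)‖ ≤ (r.k1 : ℝ) / 1000 := by
  have hk := h.norm_pos i
  have a0 := hr.a0
  have a1 := hr.a1
  have lo := hr.lo
  have hi := hr.hi
  rw [h.norm_sq_cos] at lo hi
  rw [h.cos_re, h.cos_im] at a0 a1
  have b0 : (r.t0 : ℝ) / 1000 * Real.cos (ph (z i).re (z i).im) ≤ Real.sin (ph (z i).re (z i).im) := by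
    have : ‖cos (z i)‖ * ((r.t0 : ℝ) / 1000 * Real.cos (ph (z i).re (z i).im)) ≤
      ‖cos (z i)‖ * Real.sin (ph (z i).re (z i).im) := by linarith
    exact le_of_mul_le_mul_left this hk
  have b1 : Real.sin (ph (z i).re (z i).im) ≤ (r.t1 : ℝ) / 1000 * Real.cos (ph (z i).re (z i).im) := by
    have : ‖cos (z i)‖ * Real.sin (ph (z i).re (z i).im) ≤
      ‖cos (z i)‖ * ((r.t1 : ℝ) / 1000 * Real.cos (ph (z i).re (z i).im)) := by linarith
    exact le_of_mul_le_mul_left this hk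
  refine ⟨?_, b0, b1, (pow_le_pow_iff_left₀ (by positivity) hk.le (by norm_num)).1 lo,
    (pow_le_pow_iff_left₀ hk.le (by positivity) (by norm_num)).1 hi⟩
  by_contra hc
  push Not at hc
  have hcos : 0 < Real.cos (ph (z i).re (z i).im) :=
    Real.cos_pos_of_mem_Ioo ⟨by linarith [h.phpos i, Real.pi_pos], h.phlt i⟩
  have h2 : Real.sin (ph (z i).re (z i).im) ≤ Real.cos (ph (z i).re (z i).im) := by
    refine b1.trans ?_
    have h3 : (r.t1 : ℝ) ≤ 1000 := by exact_mod_cast h1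
    have h4 : (r.t1 : ℝ) / 1000 ≤ 1 := by linarith
    nlinarith
  have h3 : Real.cos (ph (z i).re (z i).im) < Real.cos (Real.pi / 4) :=
    Real.cos_lt_cos_of_nonneg_of_le_pi_div_two (by linarith [Real.pi_pos]) (h.phlt i).le hc
  have h4 : Real.sin (Real.pi / 4) < Real.sin (ph (z i).re (z i).im) :=
    Real.sin_lt_sin_of_lt_of_le_pi_div_two (by linarith [Real.pi_pos]) (h.phlt i).le hc
  rw [Real.cos_pi_div_four] at h3
  rw [Real.sin_pi_div_four] at h4
  linarith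

/-- `θ = t (π/4 - tφ/2) ≤ π/4 - φ/2`. -/
theorem th_le {t φ : ℝ} (h1 : t ≤ 1) (hφ : φ ≤ Real.pi / 4) (hφ0 : 0 ≤ φ) :
    t * (Real.pi / 4 - t * φ / 2) ≤ Real.pi / 4 - φ / 2 := by
  have h2 : 0 ≤ (1 - t) * (Real.pi / 4 - φ * (1 + t) / 2) := by
    apply mul_nonneg (by linarith)
    nlinarith
  nlinarith

theorem slotE (h : Zr m a nl nr g τ z) {j i : ι} (hj : a j = 2) (he : IsE nl nr j i) {r r' : Rg}
    (hr : InR r (cos (z i)).re (-(cos (z i)).im)) (hs : EE r r' = true) :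
    ∃ x y, SR false r' (bo m τ z (some (j, false))) x y ∧
      x ^ 2 + y ^ 2 = ro m τ z (some (j, false)) ^ 2 := by
  unfold EE at hs
  simp only [Bool.and_eq_true, Nat.ble_eq] at hs
  obtain ⟨c1, c2, c3, c4, c5, c6, c7, c8⟩ := hs
  have c1' : (r'.k0 : ℝ) ^ 2 ≤ 500 * r.k0 := by exact_mod_cast c1
  have c2' : (r'.k0 : ℝ) ^ 2 ≤ 500000 := by exact_mod_cast c2
  have c3' : (r.k1 : ℝ) ≤ 2000 := by exact_mod_cast c3
  have c4' : (1000 : ℝ) ≤ r'.k1 := by exact_mod_cast c4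
  have c5' : (1000000 : ℝ) ≤ 2 * r.t0 * r'.t1 + (r'.t1 : ℝ) ^ 2 := by exact_mod_cast c5
  have c7' : (r'.t0 : ℝ) = 0 := by
    have : r'.t0 = 0 := by omega
    rw [this]; norm_num
  have c8' : (r'.m : ℝ) = 0 := by
    have : r'.m = 0 := by omega
    rw [this]; norm_num
  obtain ⟨f1, f2, f3, f4, f5⟩ := h.end_facts hr c6
  obtain ⟨e1, e2⟩ := h.k_end hj he
  rw [h.be_A] at e2
  obtain ⟨t, ht⟩ : ∃ t, t = ex m false τ := ⟨_, rfl⟩
  have t0 : 0 ≤ t := by rw [ht]; exact (h.ex_mem false).1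
  have t1 : t ≤ 1 := by rw [ht]; exact (h.ex_mem false).2
  have hro : ro m τ z (some (j, false)) = ‖cos (z j)‖ ^ t := by rw [ht]; rfl
  have hroi : ro m τ z (some (i, false)) = ‖cos (z i)‖ ^ t := by rw [ht]; rfl
  have hkj := h.norm_pos j
  have hki := h.norm_pos i
  rw [hroi] at e1
  rw [← ht] at e2
  -- bounds of `|cos z_j|`
  have hu : ‖cos (z i)‖ ^ t ≤ 2 := by
    rcases le_total ‖cos (z i)‖ 1 with h5 | h5
    · have := Real.rpow_le_one hki.le h5 t0
      linarith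
    · have h6 := Real.rpow_le_rpow_of_exponent_le h5 t1
      rw [Real.rpow_one] at h6
      linarith
  have hl : ((r'.k0 : ℝ) / 1000) ^ 2 ≤ ‖cos (z j)‖ ^ 2 := by
    have e : ((r'.k0 : ℝ) / 1000) ^ 2 = (r'.k0 : ℝ) ^ 2 / 1000000 := by ring
    rw [e, div_le_iff₀ (by norm_num)]
    rcases le_total ‖cos (z i)‖ 1 with h5 | h5
    · have h6 := Real.rpow_le_rpow_of_exponent_ge hki h5 t1
      rw [Real.rpow_one] at h6
      linarith
    · have h6 := Real.one_le_rpow h5 t0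
      linarith
  have hkj1 : ‖cos (z j)‖ ≤ 1 := by
    have : ‖cos (z j)‖ ^ 2 ≤ 1 ^ 2 := by linarith
    exact (pow_le_pow_iff_left₀ hkj.le (by norm_num) (by norm_num)).1 this
  have hkj0 : (r'.k0 : ℝ) / 1000 ≤ ‖cos (z j)‖ :=
    (pow_le_pow_iff_left₀ (by positivity) hkj.le (by norm_num)).1 hl
  have hρ0 : (r'.k0 : ℝ) / 1000 ≤ ‖cos (z j)‖ ^ t := by
    have h6 := Real.rpow_le_rpow_of_exponent_ge hkj hkj1 t1
    rw [Real.rpow_one] at h6
    linarith
  have hρ1 : ‖cos (z j)‖ ^ t ≤ 1 := Real.rpow_le_one hkj.le hkj1 t0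
  have hρ : 0 < ‖cos (z j)‖ ^ t := Real.rpow_pos_of_pos hkj t
  -- the angle
  have hθ : t * ph (z j).re (z j).im ≤ Real.pi / 4 - ph (z i).re (z i).im / 2 := by
    rw [e2]; exact th_le t1 f1 (h.phpos i).le
  have hθ0 : 0 ≤ t * ph (z j).re (z j).im := mul_nonneg t0 (h.phpos j).le
  have hψ := half_le (h.phpos i).le f1 f2 (T := (r'.t1 : ℝ) / 1000) (by positivity) (by
    have e : 2 * ((r.t0 : ℝ) / 1000) * ((r'.t1 : ℝ) / 1000) =
      (2 * r.t0 * r'.t1) / 1000000 := by ring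
    have e' : 1 - ((r'.t1 : ℝ) / 1000) ^ 2 = (1000000 - (r'.t1 : ℝ) ^ 2) / 1000000 := by ring
    rw [e, e']
    exact div_le_div_of_nonneg_right (by linarith) (by norm_num))
  have hsin := sin_le_of_le hθ0 hθ (by linarith [h.phpos i, Real.pi_pos]) hψ
  have hcos : 0 < Real.cos (t * ph (z j).re (z j).im) :=
    Real.cos_pos_of_mem_Ioo ⟨by linarith [Real.pi_pos], by linarith [h.phpos i, Real.pi_pos]⟩
  have hsin0 : 0 ≤ Real.sin (t * ph (z j).re (z j).im) :=
    Real.sin_nonneg_of_nonneg_of_le_pi hθ0 (by linarith [h.phpos i, Real.pi_pos])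
  have hsq : (‖cos (z j)‖ ^ t * Real.cos (t * ph (z j).re (z j).im)) ^ 2 +
      (‖cos (z j)‖ ^ t * Real.sin (t * ph (z j).re (z j).im)) ^ 2 = (‖cos (z j)‖ ^ t) ^ 2 := by
    have := Real.sin_sq_add_cos_sq (t * ph (z j).re (z j).im)
    linear_combination (‖cos (z j)‖ ^ t) ^ 2 * this
  refine ⟨‖cos (z j)‖ ^ t * Real.cos (t * ph (z j).re (z j).im),
    ‖cos (z j)‖ ^ t * Real.sin (t * ph (z j).re (z j).im), ⟨by positivity, ⟨by positivity,
    by positivity, ?_, ?_, ?_, ?_, ?_⟩, ?_⟩, ?_⟩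
  · rw [hsq]; exact pow_le_pow_left₀ (by positivity) hρ0 2
  · rw [hsq]
    apply pow_le_pow_left₀ hρ.le
    linarith
  · rw [c7']
    have : 0 ≤ ‖cos (z j)‖ ^ t * Real.sin (t * ph (z j).re (z j).im) := by positivity
    linarith
  · calc ‖cos (z j)‖ ^ t * Real.sin (t * ph (z j).re (z j).im) ≤
        ‖cos (z j)‖ ^ t * ((r'.t1 : ℝ) / 1000 * Real.cos (t * ph (z j).re (z j).im)) :=
          mul_le_mul_of_nonneg_left hsin hρ.le
      _ = _ := by ring
  · rw [c8']
    have : 0 ≤ (‖cos (z j)‖ ^ t * Real.cos (t * ph (z j).re (z j).im)) *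
      (‖cos (z j)‖ ^ t * Real.sin (t * ph (z j).re (z j).im)) := by positivity
    linarith
  · apply Complex.ext
    · rw [h.bo_re, h.be_A, hro, ← ht]
      simp only [add_re, ofReal_re, mul_re, I_re, I_im, ofReal_im, mul_zero, mul_one,
        sub_zero, add_zero]
    · rw [h.bo_im, h.be_A, hro, ← ht]
      simp only [add_im, ofReal_im, mul_im, ofReal_re, I_re, I_im, mul_zero, mul_one,
        zero_add, add_zero, sgy, Bool.false_eq_true, if_false]
  · rw [hsq, hro]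

/-- Second stage: the sharper region. -/
def EB (r r' : Rg) : Bool :=
  Nat.ble (r'.k0 ^ 2) (500 * r.k0) && (Nat.ble (500 * r.k1) (r'.k1 ^ 2) &&
    (Nat.ble 1000000 (2 * r.t0 * r'.t1 + r'.t1 ^ 2) && (Nat.ble r.t1 1000 &&
      (Nat.ble (2 * r.t1 * r'.t0 + r'.t0 ^ 2) 1000000 && Nat.ble r'.m 0))))

theorem slotE1 (h : Zr m a nl nr g τ z) (hm : ex m false τ = 1) {j i : ι} (hj : a j = 2)
    (he : IsE nl nr j i) {r r' : Rg}
    (hr : InR r (cos (z i)).re (-(cos (z i)).im)) (hs : EB r r' = true) :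
    InR r' (cos (z j)).re (-(cos (z j)).im) := by
  unfold EB at hs
  simp only [Bool.and_eq_true, Nat.ble_eq] at hs
  obtain ⟨c1, c2, c5, c6, c7, c8⟩ := hs
  have c1' : (r'.k0 : ℝ) ^ 2 ≤ 500 * r.k0 := by exact_mod_cast c1
  have c2' : 500 * (r.k1 : ℝ) ≤ (r'.k1 : ℝ) ^ 2 := by exact_mod_cast c2
  have c5' : (1000000 : ℝ) ≤ 2 * r.t0 * r'.t1 + (r'.t1 : ℝ) ^ 2 := by exact_mod_cast c5
  have c7' : 2 * (r.t1 : ℝ) * r'.t0 + (r'.t0 : ℝ) ^ 2 ≤ 1000000 := by exact_mod_cast c7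
  have c8' : (r'.m : ℝ) = 0 := by
    have : r'.m = 0 := by omega
    rw [this]; norm_num
  obtain ⟨f1, f2, f3, f4, f5⟩ := h.end_facts hr c6
  obtain ⟨e1, e2⟩ := h.k_end hj he
  rw [h.be_A, hm, one_mul] at e2
  have hroi : ro m τ z (some (i, false)) = ‖cos (z i)‖ := by
    show ‖cos (z i)‖ ^ (ex m false τ) = _
    rw [hm, Real.rpow_one]
  rw [hroi] at e1
  have hkj := h.norm_pos j
  have hψ := half_le (h.phpos i).le f1 f2 (T := (r'.t1 : ℝ) / 1000) (by positivity) (by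
    have e : 2 * ((r.t0 : ℝ) / 1000) * ((r'.t1 : ℝ) / 1000) =
      (2 * r.t0 * r'.t1) / 1000000 := by ring
    have e' : 1 - ((r'.t1 : ℝ) / 1000) ^ 2 = (1000000 - (r'.t1 : ℝ) ^ 2) / 1000000 := by ring
    rw [e, e']
    exact div_le_div_of_nonneg_right (by linarith) (by norm_num))
  have hψ' := half_ge (h.phpos i).le f1 f3 (T := (r'.t0 : ℝ) / 1000)
    (by positivity) (by
    have e : 2 * ((r.t1 : ℝ) / 1000) * ((r'.t0 : ℝ) / 1000) =
      (2 * r.t1 * r'.t0) / 1000000 := by ring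
    have e' : 1 - ((r'.t0 : ℝ) / 1000) ^ 2 = (1000000 - (r'.t0 : ℝ) ^ 2) / 1000000 := by ring
    rw [e, e']
    exact div_le_div_of_nonneg_right (by linarith) (by norm_num))
  rw [← e2] at hψ hψ'
  refine ⟨(h.re_pos j).le, (h.v0 j).le, ?_, ?_, ?_, ?_, ?_⟩
  · rw [h.norm_sq_cos]
    have e : ((r'.k0 : ℝ) / 1000) ^ 2 = (r'.k0 : ℝ) ^ 2 / 1000000 := by ring
    rw [e, div_le_iff₀ (by norm_num)]
    linarith
  · rw [h.norm_sq_cos]
    have e : ((r'.k1 : ℝ) / 1000) ^ 2 = (r'.k1 : ℝ) ^ 2 / 1000000 := by ring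
    rw [e, le_div_iff₀ (by norm_num)]
    linarith
  · rw [h.cos_re, h.cos_im]
    calc (r'.t0 : ℝ) / 1000 * (‖cos (z j)‖ * Real.cos (ph (z j).re (z j).im)) =
        ‖cos (z j)‖ * ((r'.t0 : ℝ) / 1000 * Real.cos (ph (z j).re (z j).im)) := by ring
      _ ≤ _ := mul_le_mul_of_nonneg_left hψ' hkj.le
  · rw [h.cos_re, h.cos_im]
    calc ‖cos (z j)‖ * Real.sin (ph (z j).re (z j).im) ≤
        ‖cos (z j)‖ * ((r'.t1 : ℝ) / 1000 * Real.cos (ph (z j).re (z j).im)) :=
          mul_le_mul_of_nonneg_left hψ hkj.le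
      _ = _ := by ring
  · rw [c8']
    have := mul_nonneg (h.re_pos j).le (h.v0 j).le
    linarith

/-- The wall of a vertex next to an end vertex. -/
theorem wall_nb (h : Zr m a nl nr g τ z) {j i : ι} (hj : a j = 2) (he : IsE nl nr j i)
    (hφ : ph (z i).re (z i).im ≤ Real.pi / 4) (hk : ‖cos (z i)‖ ≤ 1)
    (hk' : ex m false τ = 1 → ‖cos (z i)‖ < 1) :
    0 < (bo m τ z (some (j, false)) * tan (z i)).re := by
  obtain ⟨e1, e2⟩ := h.k_end hj he
  rw [h.be_A] at e2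
  have t0 := (h.ex_mem false).1
  have t1 := (h.ex_mem false).2
  have hp := h.phpos i
  have hk0 := h.norm_pos i
  have hpi := Real.pi_pos
  apply h.w_re_pos
  · rw [h.be_A, e2, al_eq (h.pos i).1 (h.pos i).2.1 (h.pos i).2.2]
    rcases lt_or_eq_of_le t1 with h11 | h11
    · have h7 := chi_phi_le (h.pos i).1 (h.pos i).2.1 (h.pos i).2.2 (by
        rw [h.k2_eq]; nlinarith)
      obtain ⟨t, ht⟩ : ∃ t, t = ex m false τ := ⟨_, rfl⟩
      rw [← ht] at t0 t1 h11 ⊢
      have h13 : 0 ≤ 1 - t ^ 2 := by nlinarith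
      have h14 : ph (z i).re (z i).im * (1 - t ^ 2) ≤ Real.pi / 4 * (1 - t ^ 2) :=
        mul_le_mul_of_nonneg_right hφ h13
      have h15 : 0 < Real.pi * (1 - t) ^ 2 := mul_pos hpi (pow_pos (by linarith) 2)
      nlinarith
    · have h12 := chi_phi_lt (h.pos i).1 (h.pos i).2.1 (h.pos i).2.2 (by
        rw [h.k2_eq]; nlinarith [hk' h11])
      rw [h11]
      linarith
  · rw [h.be_A]
    have := mul_nonneg t0 (h.phpos j).le
    have := h.alpos i
    linarith

end Zr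

end Pool.Agent.S5.E
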