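import Pool.Agent.S5.E.B2.Tests3

/-!
# Mixed chains, block E: vertices with two twists, tests in polar coordinates

A slot is `b = k (cos φ ± i sin φ)`, `τ = tan (φ / 2)`: `cos φ = (1 - τ²) / (1 + τ²)`,
`sin φ = 2 τ / (1 + τ²)`.  The regions are products in the coordinates `k`, `τ`.
-/

set_option autoImplicit false

namespace Pool.Agent.S5.E.B2

open Complex Pool.Agent.S3.NI

/-- `cos φ` for `tan (φ / 2)` in `A`. -/
def cT (A : N) : N :=
  ⟨Nat.div (Nat.mul (Nat.sub 1152921504606846976 (Nat.mul A.hi A.hi)) 1073741824)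
      (Nat.add 1152921504606846976 (Nat.mul A.hi A.hi)),
    Nat.succ (Nat.div (Nat.mul (Nat.sub 1152921504606846976 (Nat.mul A.lo A.lo)) 1073741824)
      (Nat.add 1152921504606846976 (Nat.mul A.lo A.lo)))⟩

/-- `sin φ` for `tan (φ / 2)` in `A`. -/
def sT (A : N) : N :=
  ⟨Nat.div (Nat.mul (Nat.mul 2 A.lo) 1152921504606846976)
      (Nat.add 1152921504606846976 (Nat.mul A.lo A.lo)),
    Nat.succ (Nat.div (Nat.mul (Nat.mul 2 (mn A.hi 1073741824)) 1152921504606846976)
      (Nat.add 1152921504606846976 (Nat.mul (mn A.hi 1073741824) (mn A.hi 1073741824))))⟩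

theorem mem_cT {τ : ℝ} {A : N} (h0 : 0 ≤ τ) (h1 : τ ≤ 1) (h : Mem τ A) :
    Mem ((1 - τ ^ 2) / (1 + τ ^ 2)) (cT A) := by
  have hp : 0 < 1 + τ ^ 2 := by positivity
  have hm : 0 ≤ 1 - τ ^ 2 := by linarith only [h1, mul_nonneg (sub_nonneg.2 h0) (sub_nonneg.2 h1)]
  have hhi := h.2
  have hlo := h.1
  have hτ : 0 ≤ τ * 1073741824 := by positivity
  constructor
  · refine (nat_div_le _ _).trans ?_
    have hden : (0 : ℝ) < ((Nat.add 1152921504606846976 (Nat.mul A.hi A.hi) : ℕ) : ℝ) := by
      have : 0 < Nat.add 1152921504606846976 (Nat.mul A.hi A.hi) := by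
        show 0 < 1152921504606846976 + A.hi * A.hi
        omega
      exact_mod_cast this
    rw [div_le_iff₀ hden, div_mul_eq_mul_div, div_mul_eq_mul_div, le_div_iff₀ hp]
    have hd : ((Nat.add 1152921504606846976 (Nat.mul A.hi A.hi) : ℕ) : ℝ) =
        1152921504606846976 + (A.hi : ℝ) * A.hi := by
      show ((1152921504606846976 + A.hi * A.hi : ℕ) : ℝ) = _
      push_cast; rfl
    have hn : ((Nat.mul (Nat.sub 1152921504606846976 (Nat.mul A.hi A.hi)) 1073741824 : ℕ) : ℝ) ≤
        max (1152921504606846976 - (A.hi : ℝ) * A.hi) 0 * 1073741824 := by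
      show (((1152921504606846976 - A.hi * A.hi) * 1073741824 : ℕ) : ℝ) ≤ _
      rw [Nat.cast_mul]
      have hc : ((1152921504606846976 - A.hi * A.hi : ℕ) : ℝ) ≤
          max (1152921504606846976 - (A.hi : ℝ) * A.hi) 0 := by
        rcases Nat.le_total (A.hi * A.hi) 1152921504606846976 with h2 | h2
        · rw [Nat.cast_sub h2]
          push_cast
          exact le_max_left _ _
        · rw [Nat.sub_eq_zero_of_le h2]
          simp
      push_cast at hc ⊢
      linarith only [hc]
    rw [hd]
    have hsq : τ ^ 2 * 1152921504606846976 ≤ (A.hi : ℝ) * A.hi := by linarith only [mul_self_le_mul_self hτ hhi]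
    have hh : 0 ≤ (A.hi : ℝ) * A.hi := by positivity
    have key : max (1152921504606846976 - (A.hi : ℝ) * A.hi) 0 * (1 + τ ^ 2) ≤
        (1 - τ ^ 2) * (1152921504606846976 + (A.hi : ℝ) * A.hi) := by
      rcases le_total ((1152921504606846976 : ℝ) - (A.hi : ℝ) * A.hi) 0 with h2 | h2
      · rw [max_eq_right h2, zero_mul]
        positivity
      · rw [max_eq_left h2]
        linarith only [hsq]
    linarith only [mul_le_mul_of_nonneg_right hn hp.le, key]
  · have hden : (0 : ℝ) < ((Nat.add 1152921504606846976 (Nat.mul A.lo A.lo) : ℕ) : ℝ) := by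
      have : 0 < Nat.add 1152921504606846976 (Nat.mul A.lo A.lo) := by
        show 0 < 1152921504606846976 + A.lo * A.lo
        omega
      exact_mod_cast this
    refine le_trans ?_ (le_succ_div _ (by exact_mod_cast hden))
    rw [le_div_iff₀ hden, div_mul_eq_mul_div, div_mul_eq_mul_div, div_le_iff₀ hp]
    have hd : ((Nat.add 1152921504606846976 (Nat.mul A.lo A.lo) : ℕ) : ℝ) =
        1152921504606846976 + (A.lo : ℝ) * A.lo := by
      show ((1152921504606846976 + A.lo * A.lo : ℕ) : ℝ) = _
      push_cast; rfl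
    have hlU : (A.lo : ℝ) ≤ 1073741824 := by linarith only [hlo, h1]
    have hlU' : A.lo * A.lo ≤ 1152921504606846976 := by
      have : A.lo ≤ 1073741824 := by exact_mod_cast hlU
      exact (Nat.mul_le_mul this this).trans (by norm_num)
    have hn : ((Nat.mul (Nat.sub 1152921504606846976 (Nat.mul A.lo A.lo)) 1073741824 : ℕ) : ℝ) =
        (1152921504606846976 - (A.lo : ℝ) * A.lo) * 1073741824 := by
      show (((1152921504606846976 - A.lo * A.lo) * 1073741824 : ℕ) : ℝ) = _
      rw [Nat.cast_mul, Nat.cast_sub hlU']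
      push_cast
      rfl
    rw [hd, hn]
    have hl0 : (0 : ℝ) ≤ A.lo := Nat.cast_nonneg _
    have hsq : (A.lo : ℝ) * A.lo ≤ τ ^ 2 * 1152921504606846976 := by linarith only [mul_self_le_mul_self hl0 hlo]
    linarith only [hsq]

theorem mem_sT {τ : ℝ} {A : N} (h0 : 0 ≤ τ) (h1 : τ ≤ 1) (h : Mem τ A) :
    Mem (2 * τ / (1 + τ ^ 2)) (sT A) := by
  have hp : 0 < 1 + τ ^ 2 := by positivity
  have hhi := h.2
  have hlo := h.1
  have hτ : 0 ≤ τ * 1073741824 := by positivity
  constructor
  · refine (nat_div_le _ _).trans ?_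
    have hden : (0 : ℝ) < ((Nat.add 1152921504606846976 (Nat.mul A.lo A.lo) : ℕ) : ℝ) := by
      have : 0 < Nat.add 1152921504606846976 (Nat.mul A.lo A.lo) := by
        show 0 < 1152921504606846976 + A.lo * A.lo
        omega
      exact_mod_cast this
    rw [div_le_iff₀ hden, div_mul_eq_mul_div, div_mul_eq_mul_div, le_div_iff₀ hp]
    have hd : ((Nat.add 1152921504606846976 (Nat.mul A.lo A.lo) : ℕ) : ℝ) =
        1152921504606846976 + (A.lo : ℝ) * A.lo := by
      show ((1152921504606846976 + A.lo * A.lo : ℕ) : ℝ) = _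
      push_cast; rfl
    have hn : ((Nat.mul (Nat.mul 2 A.lo) 1152921504606846976 : ℕ) : ℝ) =
        2 * (A.lo : ℝ) * 1152921504606846976 := by
      show ((2 * A.lo * 1152921504606846976 : ℕ) : ℝ) = _
      push_cast; rfl
    rw [hd, hn]
    have hl0 : (0 : ℝ) ≤ A.lo := Nat.cast_nonneg _
    -- `(T - l) (U² - T l) ≥ 0`
    have hl1 : (A.lo : ℝ) ≤ 1073741824 := by linarith only [hlo, h1]
    have hTl : τ * 1073741824 * A.lo ≤ 1152921504606846976 := by
      have : τ * 1073741824 * A.lo ≤ 1073741824 * A.lo := by linarith only [mul_le_mul_of_nonneg_right h1 hl0]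
      linarith only [this, hlo, h1]
    have key : 0 ≤ (τ * 1073741824 - A.lo) * (1152921504606846976 - τ * 1073741824 * A.lo) :=
      mul_nonneg (by linarith only [hlo]) (by linarith only [hTl])
    linarith only [key]
  · have hmn := mn_cases A.hi 1073741824
    have hge : τ * 1073741824 ≤ ((mn A.hi 1073741824 : ℕ) : ℝ) := mn_mem hhi (by push_cast; linarith only [h1])
    have hle : ((mn A.hi 1073741824 : ℕ) : ℝ) ≤ 1073741824 := by
      have := (mn_le (a := A.hi) (b := 1073741824)).2
      exact_mod_cast this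
    show _ ≤ ((Nat.succ (Nat.div (Nat.mul (Nat.mul 2 (mn A.hi 1073741824)) 1152921504606846976)
      (Nat.add 1152921504606846976 (Nat.mul (mn A.hi 1073741824) (mn A.hi 1073741824)))) : ℕ) : ℝ)
    clear hmn
    generalize mn A.hi 1073741824 = m at hge hle ⊢
    have hden : (0 : ℝ) < ((Nat.add 1152921504606846976 (Nat.mul m m) : ℕ) : ℝ) := by
      have : 0 < Nat.add 1152921504606846976 (Nat.mul m m) := by
        show 0 < 1152921504606846976 + m * m
        omega
      exact_mod_cast this
    refine le_trans ?_ (le_succ_div _ (by exact_mod_cast hden))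
    rw [le_div_iff₀ hden, div_mul_eq_mul_div, div_mul_eq_mul_div, div_le_iff₀ hp]
    have hd : ((Nat.add 1152921504606846976 (Nat.mul m m) : ℕ) : ℝ) =
        1152921504606846976 + (m : ℝ) * m := by
      show ((1152921504606846976 + m * m : ℕ) : ℝ) = _
      push_cast; rfl
    have hn : ((Nat.mul (Nat.mul 2 m) 1152921504606846976 : ℕ) : ℝ) =
        2 * (m : ℝ) * 1152921504606846976 := by
      show ((2 * m * 1152921504606846976 : ℕ) : ℝ) = _
      push_cast; rfl
    rw [hd, hn]
    have hm0 : (0 : ℝ) ≤ m := Nat.cast_nonneg _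
    have hTl : τ * 1073741824 * m ≤ 1152921504606846976 := by
      have : τ * 1073741824 * m ≤ 1073741824 * m := by linarith only [mul_le_mul_of_nonneg_right h1 hm0]
      linarith only [this, hle]
    have key : 0 ≤ ((m : ℝ) - τ * 1073741824) * (1152921504606846976 - τ * 1073741824 * m) :=
      mul_nonneg (by linarith only [hge]) (by linarith only [hTl])
    linarith only [key]

end Pool.Agent.S5.E.B2
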