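import Pool.Agent.S5.E.B2.PolT

/-!
# Mixed chains, block E: vertices with two twists, tests in polar coordinates (intervals)
-/

set_option autoImplicit false

namespace Pool.Agent.S5.E.B2

open Complex Pool.Agent.S3.NI

/-- `max (Re (s e^{2 i φ₀})) 0 / (k₁ k₂)` -/
def angC (so : Bool) (w d c1 s1 c2 s2 i1 i2 : N) : N :=
  bif so then
    ((((c1.mul w).sub (s1.mul d)).mul i2).add (((c2.mul w).add (s2.mul d)).mul i1)).sub
      (((s1.mul d).sub (c1.mul w)).mul i2)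
  else
    ((((c1.mul w).sub (s1.mul d)).mul i2).add (((c2.mul w).sub (s2.mul d)).mul i1)).sub
      ((((s1.mul d).sub (c1.mul w)).mul i2).add (((s2.mul d).sub (c2.mul w)).mul i1))

/-- `max (Im (s e^{2 i φ₀})) 0` -/
def angS (so : Bool) (w d c1 s1 c2 s2 k1 k2 : N) : N :=
  bif so then
    ((k1.mul ((c1.mul d).add (s1.mul w))).add (k2.mul ((c2.mul d).sub (s2.mul w)))).sub
      (k2.mul ((s2.mul w).sub (c2.mul d)))
  else
    (k1.mul ((c1.mul d).add (s1.mul w))).add (k2.mul ((c2.mul d).add (s2.mul w)))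

/-- `|k₂ sin φ₁ ± k₁ sin φ₂|` -/
def angQ (so : Bool) (s1 s2 k1 k2 : N) : N :=
  bif so then (k2.mul s1).ad (k1.mul s2) else (k2.mul s1).add (k1.mul s2)

section mem

variable {so : Bool} {w d c₁ s₁ c₂ s₂ k₁ k₂ : ℝ} {W D C1 S1 C2 S2 K1 K2 : N}

theorem max_sub_max (x : ℝ) : max x 0 - max (-x) 0 = x := by
  rcases le_total x 0 with h | h
  · rw [max_eq_right h, max_eq_left (by linarith)]; ring
  · rw [max_eq_left h, max_eq_right (by linarith)]; ring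

theorem mem_angC (hw : Mem w W) (hd : Mem d D) (h1 : Mem c₁ C1) (h2 : Mem s₁ S1) (h3 : Mem c₂ C2)
    (h4 : Mem s₂ S2) {I1 I2 : N} (h5 : Mem k₁⁻¹ I1) (h6 : Mem k₂⁻¹ I2) :
    Mem (max ((c₁ * w - s₁ * d) * k₂⁻¹ + (c₂ * w - sgn so * s₂ * d) * k₁⁻¹) 0)
      (angC so W D C1 S1 C2 S2 I1 I2) := by
  have e1 := max_sub_max (c₁ * w - s₁ * d)
  have m1 := Mem.subp (h1.mul hw) (h2.mul hd)
  have m1' := Mem.subp (h2.mul hd) (h1.mul hw)
  have e1' : s₁ * d - c₁ * w = -(c₁ * w - s₁ * d) := by ring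
  rw [e1'] at m1'
  unfold angC
  cases so
  · have e2 := max_sub_max (c₂ * w - s₂ * d)
    have m2 := Mem.subp (h3.mul hw) (h4.mul hd)
    have m2' := Mem.subp (h4.mul hd) (h3.mul hw)
    have e2' : s₂ * d - c₂ * w = -(c₂ * w - s₂ * d) := by ring
    rw [e2'] at m2'
    have h := Mem.subp ((m1.mul h6).add (m2.mul h5)) ((m1'.mul h6).add (m2'.mul h5))
    have e : (max (c₁ * w - s₁ * d) 0 * k₂⁻¹ + max (c₂ * w - s₂ * d) 0 * k₁⁻¹) -
        (max (-(c₁ * w - s₁ * d)) 0 * k₂⁻¹ + max (-(c₂ * w - s₂ * d)) 0 * k₁⁻¹) =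
        (c₁ * w - s₁ * d) * k₂⁻¹ + (c₂ * w - sgn false * s₂ * d) * k₁⁻¹ := by
      simp only [sgn, Bool.false_eq_true, if_false, one_mul]
      linear_combination k₂⁻¹ * e1 + k₁⁻¹ * e2
    rw [e] at h
    exact h
  · have h := Mem.subp ((m1.mul h6).add (((h3.mul hw).add (h4.mul hd)).mul h5)) (m1'.mul h6)
    have e : (max (c₁ * w - s₁ * d) 0 * k₂⁻¹ + (c₂ * w + s₂ * d) * k₁⁻¹) -
        max (-(c₁ * w - s₁ * d)) 0 * k₂⁻¹ =
        (c₁ * w - s₁ * d) * k₂⁻¹ + (c₂ * w - sgn true * s₂ * d) * k₁⁻¹ := by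
      simp only [sgn, if_true]
      linear_combination k₂⁻¹ * e1
    rw [e] at h
    exact h

theorem mem_angS (hw : Mem w W) (hd : Mem d D) (h1 : Mem c₁ C1) (h2 : Mem s₁ S1) (h3 : Mem c₂ C2)
    (h4 : Mem s₂ S2) (h5 : Mem k₁ K1) (h6 : Mem k₂ K2) :
    Mem (max (k₁ * (c₁ * d + s₁ * w) + k₂ * (c₂ * d + sgn so * s₂ * w)) 0)
      (angS so W D C1 S1 C2 S2 K1 K2) := by
  have m1 := h5.mul ((h1.mul hd).add (h2.mul hw))
  unfold angS
  cases so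
  · have h := m1.add (h6.mul ((h3.mul hd).add (h4.mul hw)))
    have h0 := h.nonneg
    have e : k₁ * (c₁ * d + s₁ * w) + k₂ * (c₂ * d + s₂ * w) =
        k₁ * (c₁ * d + s₁ * w) + k₂ * (c₂ * d + sgn false * s₂ * w) := by
      simp only [sgn, Bool.false_eq_true, if_false, one_mul]
    rw [e] at h h0
    rw [max_eq_left h0]
    exact h
  · have e2 := max_sub_max (c₂ * d - s₂ * w)
    have m2 := Mem.subp (h3.mul hd) (h4.mul hw)
    have m2' := Mem.subp (h4.mul hw) (h3.mul hd)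
    have e2' : s₂ * w - c₂ * d = -(c₂ * d - s₂ * w) := by ring
    rw [e2'] at m2'
    have h := Mem.subp (m1.add (h6.mul m2)) (h6.mul m2')
    have e : (k₁ * (c₁ * d + s₁ * w) + k₂ * max (c₂ * d - s₂ * w) 0) -
        k₂ * max (-(c₂ * d - s₂ * w)) 0 =
        k₁ * (c₁ * d + s₁ * w) + k₂ * (c₂ * d + sgn true * s₂ * w) := by
      simp only [sgn, if_true]
      linear_combination k₂ * e2
    rw [e] at h
    exact h

theorem mem_angQ (h2 : Mem s₁ S1) (h4 : Mem s₂ S2) (h5 : Mem k₁ K1) (h6 : Mem k₂ K2) :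
    Mem |k₂ * s₁ + sgn so * (k₁ * s₂)| (angQ so S1 S2 K1 K2) := by
  unfold angQ
  cases so
  · have h := (h6.mul h2).add (h5.mul h4)
    have h0 := h.nonneg
    simp only [sgn, Bool.false_eq_true, if_false, one_mul]
    rw [abs_of_nonneg h0]
    exact h
  · have h := (h6.mul h2).ad (h5.mul h4)
    have e : k₂ * s₁ + sgn true * (k₁ * s₂) = k₂ * s₁ - k₁ * s₂ := by
      simp only [sgn, if_true]; ring
    rw [e]
    exact h

end mem

/-- `cos (2 φ₀)`, `sin (2 φ₀)` for `tan φ₀ = T / 1000`. -/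
def wN (T : ℕ) : N := cst (Nat.sub 1000000 (Nat.mul T T)) (Nat.add 1000000 (Nat.mul T T))
def dN (T : ℕ) : N := cst (Nat.mul 2000 T) (Nat.add 1000000 (Nat.mul T T))

theorem mem_wN {T : ℕ} (hT : T ≤ 1000) :
    Mem ((1 - ((T : ℝ) / 1000) ^ 2) / (1 + ((T : ℝ) / 1000) ^ 2)) (wN T) := by
  have hTT : T * T ≤ 1000000 := by nlinarith
  have h := mem_cst (n := Nat.sub 1000000 (Nat.mul T T)) (d := Nat.add 1000000 (Nat.mul T T))
    (by show 0 < 1000000 + T * T; omega)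
  have e : (1 - ((T : ℝ) / 1000) ^ 2) / (1 + ((T : ℝ) / 1000) ^ 2) =
      ((Nat.sub 1000000 (Nat.mul T T) : ℕ) : ℝ) / ((Nat.add 1000000 (Nat.mul T T) : ℕ) : ℝ) := by
    show _ = ((1000000 - T * T : ℕ) : ℝ) / ((1000000 + T * T : ℕ) : ℝ)
    rw [Nat.cast_sub hTT]
    push_cast
    field_simp
    ring
  rw [e]
  exact h

theorem mem_dN (T : ℕ) : Mem (2 * ((T : ℝ) / 1000) / (1 + ((T : ℝ) / 1000) ^ 2)) (dN T) := by
  have h := mem_cst (n := Nat.mul 2000 T) (d := Nat.add 1000000 (Nat.mul T T))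
    (by show 0 < 1000000 + T * T; omega)
  have e : 2 * ((T : ℝ) / 1000) / (1 + ((T : ℝ) / 1000) ^ 2) =
      ((Nat.mul 2000 T : ℕ) : ℝ) / ((Nat.add 1000000 (Nat.mul T T) : ℕ) : ℝ) := by
    show _ = ((2000 * T : ℕ) : ℝ) / ((1000000 + T * T : ℕ) : ℝ)
    push_cast
    field_simp
    ring
  rw [e]
  exact h

/-! ### The tests; `A`, `B`, `C`, `D` contain `k₁`, `τ₁`, `k₂`, `τ₂` -/

def aL4 (C S Q : N) : Bool := S.ps && (C.sq.add (Q.mul S.inv).sq).lt one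
def aG4 (C S Q : N) : Bool := C.ps && (S.ps && one.lt (C.sq.add (Q.mul S.inv).sq))

def tPL4 (so : Bool) (T : ℕ) (A B C D : N) : Bool :=
  A.ps && (C.ps && aL4 (angC so (wN T) (dN T) (cT B) (sT B) (cT D) (sT D) A.inv C.inv)
    (angS so (wN T) (dN T) (cT B) (sT B) (cT D) (sT D) A C) (angQ so (sT B) (sT D) A C))

def tPG4 (so : Bool) (T : ℕ) (A B C D : N) : Bool :=
  A.ps && (C.ps && aG4 (angC so (wN T) (dN T) (cT B) (sT B) (cT D) (sT D) A.inv C.inv)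
    (angS so (wN T) (dN T) (cT B) (sT B) (cT D) (sT D) A C) (angQ so (sT B) (sT D) A C))

/-- `|s|² / (k₁ k₂)`; `J` contains `(k₁ k₂)⁻¹`. -/
def lenM (so : Bool) (c1 s1 c2 s2 k1 k2 J : N) : N :=
  bif so then
    (((two.add ((k1.ad k2).sq.mul J)).add (N.sm 2 (c1.mul c2))).sub (N.sm 2 (s1.mul s2)))
  else
    (((two.add ((k1.ad k2).sq.mul J)).add (N.sm 2 (c1.mul c2))).add (N.sm 2 (s1.mul s2)))

def lenP (so : Bool) (s1 s2 i1 i2 : N) : N :=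
  bif so then (s1.mul i1).sub (s2.mul i2) else (s1.mul i1).add (s2.mul i2)

def lenQ (so : Bool) (s1 s2 i1 i2 : N) : N :=
  bif so then (s2.mul i2).sub (s1.mul i1) else ⟨0, 0⟩

/-- `E = 4 L`. -/
def bL4 (E M l P Q : N) : Bool :=
  bif P.ps then M.le l || ((M.ad l).sq.mul ((M.add l).sq.sub E)).lt (E.mul P).sq
  else M.lt l && (E.mul Q).sq.lt ((M.ad l).sq.mul ((M.add l).sq.sub E))

def bG4 (E M l P Q : N) : Bool :=
  bif Q.ps then l.le M || ((M.ad l).sq.mul ((M.add l).sq.sub E)).lt (E.mul Q).sq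
  else l.lt M && (E.mul P).sq.lt ((M.ad l).sq.mul ((M.add l).sq.sub E))

def tKL4 (so : Bool) (K : ℕ) (A B C D : N) : Bool :=
  A.ps && (C.ps && ((A.mul C).ps && bL4 (N.sm 4 (lT K))
    (lenM so (cT B) (sT B) (cT D) (sT D) A C (A.mul C).inv) ((lT K).mul (A.mul C).inv)
    (lenP so (sT B) (sT D) A.inv C.inv) (lenQ so (sT B) (sT D) A.inv C.inv)))

def tKG4 (so : Bool) (K : ℕ) (A B C D : N) : Bool :=
  A.ps && (C.ps && ((A.mul C).ps && bG4 (N.sm 4 (lT K))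
    (lenM so (cT B) (sT B) (cT D) (sT D) A C (A.mul C).inv) ((lT K).mul (A.mul C).inv)
    (lenP so (sT B) (sT D) A.inv C.inv) (lenQ so (sT B) (sT D) A.inv C.inv)))

section sound

variable {so : Bool} {k₁ τ₁ k₂ τ₂ u v : ℝ} {A B C D : N}

theorem tPL4_sound {T : ℕ} (hT : T ≤ 1000) (ht : tPL4 so T A B C D = true) (h1 : Mem k₁ A)
    (h2 : Mem τ₁ B) (h3 : Mem k₂ C) (h4 : Mem τ₂ D) (b0 : 0 ≤ τ₁) (b1 : τ₁ ≤ 1) (d0 : 0 ≤ τ₂)
    (d1 : τ₂ ≤ 1) (h : V2 so (k₁ * co τ₁) (k₁ * si τ₁) (k₂ * co τ₂) (k₂ * si τ₂) u v) :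
    v < (T : ℝ) / 1000 * u := by
  unfold tPL4 aL4 at ht
  simp only [Bool.and_eq_true] at ht
  obtain ⟨c1, c2, c3, c4⟩ := ht
  have q1 : Mem (co τ₁) (cT B) := mem_cT b0 b1 h2
  have q2 : Mem (si τ₁) (sT B) := mem_sT b0 b1 h2
  have q3 : Mem (co τ₂) (cT D) := mem_cT d0 d1 h4
  have q4 : Mem (si τ₂) (sT D) := mem_sT d0 d1 h4
  have hw := mem_wN hT
  have hd := mem_dN T
  have i1 := h1.inv c1
  have i2 := h3.inv c2
  have mC := mem_angC (so := so) hw hd q1 q2 q3 q4 i1 i2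
  have mS := mem_angS (so := so) hw hd q1 q2 q3 q4 h1 h3
  have mQ := mem_angQ (so := so) q2 q4 h1 h3
  have hS := ps_pos mS c3
  rw [max_eq_left hS.le] at mS
  have mq := (mQ.mul (mS.inv c3)).sq
  rw [mul_pow, sq_abs, ← mul_pow] at mq
  have hlt := (mC.sq.add mq).lt mem_one c4
  refine h.pang_lt (h1.pos c1) (h3.pos c2) (co_si τ₁) (co_si τ₂) (by positivity) rfl rfl rfl rfl rfl
    hS fun hC => ?_
  rw [max_eq_left] at hlt
  · exact hlt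
  · exact hC.le

theorem tPG4_sound {T : ℕ} (hT : T ≤ 1000) (ht : tPG4 so T A B C D = true) (h1 : Mem k₁ A)
    (h2 : Mem τ₁ B) (h3 : Mem k₂ C) (h4 : Mem τ₂ D) (b0 : 0 ≤ τ₁) (b1 : τ₁ ≤ 1) (d0 : 0 ≤ τ₂)
    (d1 : τ₂ ≤ 1) (h : V2 so (k₁ * co τ₁) (k₁ * si τ₁) (k₂ * co τ₂) (k₂ * si τ₂) u v) :
    (T : ℝ) / 1000 * u < v := by
  unfold tPG4 aG4 at ht
  simp only [Bool.and_eq_true] at ht
  obtain ⟨c1, c2, c5, c3, c4⟩ := ht
  have q1 : Mem (co τ₁) (cT B) := mem_cT b0 b1 h2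
  have q2 : Mem (si τ₁) (sT B) := mem_sT b0 b1 h2
  have q3 : Mem (co τ₂) (cT D) := mem_cT d0 d1 h4
  have q4 : Mem (si τ₂) (sT D) := mem_sT d0 d1 h4
  have hw := mem_wN hT
  have hd := mem_dN T
  have i1 := h1.inv c1
  have i2 := h3.inv c2
  have mC := mem_angC (so := so) hw hd q1 q2 q3 q4 i1 i2
  have mS := mem_angS (so := so) hw hd q1 q2 q3 q4 h1 h3
  have mQ := mem_angQ (so := so) q2 q4 h1 h3
  have hS := ps_pos mS c3
  have hC := ps_pos mC c5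
  rw [max_eq_left hS.le] at mS
  rw [max_eq_left hC.le] at mC
  have mq := (mQ.mul (mS.inv c3)).sq
  rw [mul_pow, sq_abs, ← mul_pow] at mq
  have hlt := mem_one.lt (mC.sq.add mq) c4
  exact h.plt_ang (h1.pos c1) (h3.pos c2) (co_si τ₁) (co_si τ₂) (by positivity) rfl rfl rfl rfl rfl
    hS hC hlt

theorem mem_lenM {c₁ s₁ c₂ s₂ : ℝ} {C1 S1 C2 S2 J : N} (h : V2 so (k₁ * c₁) (k₁ * s₁) (k₂ * c₂) (k₂ * s₂) u v)
    (k10 : 0 < k₁) (k20 : 0 < k₂) (e1 : c₁ ^ 2 + s₁ ^ 2 = 1) (e2 : c₂ ^ 2 + s₂ ^ 2 = 1)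
    (h1 : Mem c₁ C1) (h2 : Mem s₁ S1) (h3 : Mem c₂ C2)
    (h4 : Mem s₂ S2) (h5 : Mem k₁ A) (h6 : Mem k₂ C) (hJ : Mem (k₁ * k₂)⁻¹ J) :
    Mem (2 + (k₁ - k₂) ^ 2 * (k₁ * k₂)⁻¹ + 2 * (c₁ * c₂) + sgn so * (2 * (s₁ * s₂)))
      (lenM so C1 S1 C2 S2 A C J) := by
  have m0 := (mem_two.add ((Mem.sq_abs (h5.ad h6)).mul hJ)).add ((h1.mul h3).sm 2)
  have m1 := (h2.mul h4).sm 2
  push_cast at m0 m1
  unfold lenM
  cases so
  · have := m0.add m1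
    simp only [sgn, Bool.false_eq_true, if_false, one_mul]
    exact this
  · have hD : LD true k₁ c₁ s₁ k₂ c₂ s₂ 1 _ _ _ := ⟨rfl, rfl, rfl⟩
    have hn := hD.n k10 k20 e1 e2
    have hpos : 0 ≤ 2 + (k₁ - k₂) ^ 2 * (k₁ * k₂)⁻¹ + 2 * (c₁ * c₂) + sgn true * (2 * (s₁ * s₂)) := by
      have h7 : 0 ≤ k₁ * k₂ * (2 + (k₁ - k₂) ^ 2 * (k₁ * k₂)⁻¹ + 2 * (c₁ * c₂) +
          sgn true * (2 * (s₁ * s₂))) := by
        rw [← hn]; positivity
      exact nonneg_of_mul_nonneg_right h7 (mul_pos k10 k20)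
    have e : 2 + (k₁ - k₂) ^ 2 * (k₁ * k₂)⁻¹ + 2 * (c₁ * c₂) + sgn true * (2 * (s₁ * s₂)) =
        2 + (k₁ - k₂) ^ 2 * (k₁ * k₂)⁻¹ + 2 * (c₁ * c₂) - 2 * (s₁ * s₂) := by
      simp only [sgn, if_true]; ring
    rw [e] at hpos ⊢
    exact m0.sub m1 (by linarith)

theorem mem_lenP {s₁ s₂ : ℝ} {S1 S2 I1 I2 : N} (h2 : Mem s₁ S1) (h4 : Mem s₂ S2)
    (h5 : Mem k₁⁻¹ I1) (h6 : Mem k₂⁻¹ I2) :
    Mem (max (s₁ * k₁⁻¹ + sgn so * (s₂ * k₂⁻¹)) 0) (lenP so S1 S2 I1 I2) := by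
  unfold lenP
  cases so
  · have h := (h2.mul h5).add (h4.mul h6)
    have h0 := h.nonneg
    simp only [sgn, Bool.false_eq_true, if_false, one_mul]
    rw [max_eq_left h0]
    exact h
  · have h := Mem.subp (h2.mul h5) (h4.mul h6)
    have e : s₁ * k₁⁻¹ + sgn true * (s₂ * k₂⁻¹) = s₁ * k₁⁻¹ - s₂ * k₂⁻¹ := by
      simp only [sgn, if_true]; ring
    rw [e]
    exact h

theorem mem_lenQ {s₁ s₂ : ℝ} {S1 S2 I1 I2 : N} (h2 : Mem s₁ S1) (h4 : Mem s₂ S2)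
    (h5 : Mem k₁⁻¹ I1) (h6 : Mem k₂⁻¹ I2) :
    Mem (max (-(s₁ * k₁⁻¹ + sgn so * (s₂ * k₂⁻¹))) 0) (lenQ so S1 S2 I1 I2) := by
  unfold lenQ
  cases so
  · have h0 := ((h2.mul h5).add (h4.mul h6)).nonneg
    simp only [sgn, Bool.false_eq_true, if_false, one_mul]
    rw [max_eq_right (by linarith)]
    constructor
    · show ((0 : ℕ) : ℝ) ≤ 0 * 1073741824
      norm_num
    · show 0 * 1073741824 ≤ ((0 : ℕ) : ℝ)
      norm_num
  · have h := Mem.subp (h4.mul h6) (h2.mul h5)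
    have e : -(s₁ * k₁⁻¹ + sgn true * (s₂ * k₂⁻¹)) = s₂ * k₂⁻¹ - s₁ * k₁⁻¹ := by
      simp only [sgn, if_true]; ring
    rw [e]
    exact h

theorem tKL4_sound {K : ℕ} (hK : 0 < K) (ht : tKL4 so K A B C D = true) (h1 : Mem k₁ A)
    (h2 : Mem τ₁ B) (h3 : Mem k₂ C) (h4 : Mem τ₂ D) (b0 : 0 ≤ τ₁) (b1 : τ₁ ≤ 1) (d0 : 0 ≤ τ₂)
    (d1 : τ₂ ≤ 1) (h : V2 so (k₁ * co τ₁) (k₁ * si τ₁) (k₂ * co τ₂) (k₂ * si τ₂) u v) :
    u ^ 2 + v ^ 2 < ((K : ℝ) / 1000) ^ 2 := by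
  unfold tKL4 at ht
  rw [Bool.and_eq_true, Bool.and_eq_true, Bool.and_eq_true] at ht
  obtain ⟨c1, c2, c3, ht⟩ := ht
  have q1 : Mem (co τ₁) (cT B) := mem_cT b0 b1 h2
  have q2 : Mem (si τ₁) (sT B) := mem_sT b0 b1 h2
  have q3 : Mem (co τ₂) (cT D) := mem_cT d0 d1 h4
  have q4 : Mem (si τ₂) (sT D) := mem_sT d0 d1 h4
  have i1 := h1.inv c1
  have i2 := h3.inv c2
  have k10 := h1.pos c1
  have k20 := h3.pos c2
  have hJ := (h1.mul h3).inv c3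
  have hL := mem_lT K
  have hK' : (0 : ℝ) < (K : ℝ) / 1000 := by
    have : (0 : ℝ) < K := by exact_mod_cast hK
    positivity
  have hE := hL.sm 4
  push_cast at hE
  have mM := mem_lenM h k10 k20 (co_si τ₁) (co_si τ₂) q1 q2 q3 q4 h1 h3 hJ
  have ml := hL.mul hJ
  have mP := mem_lenP (so := so) q2 q4 i1 i2
  have mQ := mem_lenQ (so := so) q2 q4 i1 i2
  have hD : LD so k₁ (co τ₁) (si τ₁) k₂ (co τ₂) (si τ₂) (4 * ((K : ℝ) / 1000) ^ 4) _ _ _ :=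
    ⟨rfl, rfl, rfl⟩
  refine h.plen_lt k10 k20 (co_si τ₁) (co_si τ₂) hK' hD ?_
  have mX := (Mem.sq_abs (mM.ad ml)).mul (Mem.subp (mM.add ml).sq hE)
  unfold bL4 at ht
  revert ht
  generalize lenM so (cT B) (sT B) (cT D) (sT D) A C (A.mul C).inv = AM at mM mX
  generalize (lT K).mul (A.mul C).inv = Al at ml mX
  generalize lenP so (sT B) (sT D) A.inv C.inv = AP at mP
  generalize lenQ so (sT B) (sT D) A.inv C.inv = AQ at mQ
  generalize 2 + (k₁ - k₂) ^ 2 * (k₁ * k₂)⁻¹ + 2 * (co τ₁ * co τ₂) +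
    sgn so * (2 * (si τ₁ * si τ₂)) = M at mM mX
  generalize 4 * ((K : ℝ) / 1000) ^ 4 * (k₁ * k₂)⁻¹ = l at ml mX
  generalize si τ₁ * k₁⁻¹ + sgn so * (si τ₂ * k₂⁻¹) = q at mP mQ
  intro ht
  cases hps : AP.ps
  · rw [hps, cond_false, Bool.and_eq_true] at ht
    right
    refine ⟨mM.lt ml ht.1, fun hq => ?_⟩
    rw [max_eq_left (by linarith : (0 : ℝ) ≤ -q)] at mQ
    have h5 := (hE.mul mQ).sq.lt mX ht.2
    have e : (4 * (4 * ((K : ℝ) / 1000) ^ 4) * -q) ^ 2 = (4 * (4 * ((K : ℝ) / 1000) ^ 4) * q) ^ 2 := by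
      ring
    rw [e] at h5
    rcases le_total ((M + l) ^ 2 - 4 * (4 * ((K : ℝ) / 1000) ^ 4)) 0 with h6 | h6
    · rw [max_eq_right h6, mul_zero] at h5
      exact absurd h5 (not_lt.2 (sq_nonneg _))
    · rw [max_eq_left h6] at h5
      exact h5
  · rw [hps, cond_true, Bool.or_eq_true] at ht
    have hq := ps_pos mP hps
    rw [max_eq_left hq.le] at mP
    left
    refine ⟨hq, ?_⟩
    rcases ht with h5 | h5
    · left
      exact mM.le ml h5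
    · right
      have h6 := mX.lt (hE.mul mP).sq h5
      refine lt_of_le_of_lt ?_ h6
      exact mul_le_mul_of_nonneg_left (le_max_left _ _) (sq_nonneg _)

theorem tKG4_sound {K : ℕ} (hK : 0 < K) (ht : tKG4 so K A B C D = true) (h1 : Mem k₁ A)
    (h2 : Mem τ₁ B) (h3 : Mem k₂ C) (h4 : Mem τ₂ D) (b0 : 0 ≤ τ₁) (b1 : τ₁ ≤ 1) (d0 : 0 ≤ τ₂)
    (d1 : τ₂ ≤ 1) (h : V2 so (k₁ * co τ₁) (k₁ * si τ₁) (k₂ * co τ₂) (k₂ * si τ₂) u v) :
    ((K : ℝ) / 1000) ^ 2 < u ^ 2 + v ^ 2 := by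
  unfold tKG4 at ht
  rw [Bool.and_eq_true, Bool.and_eq_true, Bool.and_eq_true] at ht
  obtain ⟨c1, c2, c3, ht⟩ := ht
  have q1 : Mem (co τ₁) (cT B) := mem_cT b0 b1 h2
  have q2 : Mem (si τ₁) (sT B) := mem_sT b0 b1 h2
  have q3 : Mem (co τ₂) (cT D) := mem_cT d0 d1 h4
  have q4 : Mem (si τ₂) (sT D) := mem_sT d0 d1 h4
  have i1 := h1.inv c1
  have i2 := h3.inv c2
  have k10 := h1.pos c1
  have k20 := h3.pos c2
  have hJ := (h1.mul h3).inv c3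
  have hL := mem_lT K
  have hK' : (0 : ℝ) < (K : ℝ) / 1000 := by
    have : (0 : ℝ) < K := by exact_mod_cast hK
    positivity
  have hE := hL.sm 4
  push_cast at hE
  have mM := mem_lenM h k10 k20 (co_si τ₁) (co_si τ₂) q1 q2 q3 q4 h1 h3 hJ
  have ml := hL.mul hJ
  have mP := mem_lenP (so := so) q2 q4 i1 i2
  have mQ := mem_lenQ (so := so) q2 q4 i1 i2
  have hD : LD so k₁ (co τ₁) (si τ₁) k₂ (co τ₂) (si τ₂) (4 * ((K : ℝ) / 1000) ^ 4) _ _ _ :=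
    ⟨rfl, rfl, rfl⟩
  refine h.lt_plen k10 k20 (co_si τ₁) (co_si τ₂) hK' hD ?_
  have mX := (Mem.sq_abs (mM.ad ml)).mul (Mem.subp (mM.add ml).sq hE)
  unfold bG4 at ht
  revert ht
  generalize lenM so (cT B) (sT B) (cT D) (sT D) A C (A.mul C).inv = AM at mM mX
  generalize (lT K).mul (A.mul C).inv = Al at ml mX
  generalize lenP so (sT B) (sT D) A.inv C.inv = AP at mP
  generalize lenQ so (sT B) (sT D) A.inv C.inv = AQ at mQ
  generalize 2 + (k₁ - k₂) ^ 2 * (k₁ * k₂)⁻¹ + 2 * (co τ₁ * co τ₂) +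
    sgn so * (2 * (si τ₁ * si τ₂)) = M at mM mX
  generalize 4 * ((K : ℝ) / 1000) ^ 4 * (k₁ * k₂)⁻¹ = l at ml mX
  generalize si τ₁ * k₁⁻¹ + sgn so * (si τ₂ * k₂⁻¹) = q at mP mQ
  intro ht
  cases hps : AQ.ps
  · rw [hps, cond_false, Bool.and_eq_true] at ht
    right
    refine ⟨ml.lt mM ht.1, fun hq => ?_⟩
    rw [max_eq_left hq.le] at mP
    have h5 := (hE.mul mP).sq.lt mX ht.2
    rcases le_total ((M + l) ^ 2 - 4 * (4 * ((K : ℝ) / 1000) ^ 4)) 0 with h6 | h6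
    · rw [max_eq_right h6, mul_zero] at h5
      exact absurd h5 (not_lt.2 (sq_nonneg _))
    · rw [max_eq_left h6] at h5
      exact h5
  · rw [hps, cond_true, Bool.or_eq_true] at ht
    have hq := ps_pos mQ hps
    rw [max_eq_left hq.le] at mQ
    left
    refine ⟨by linarith, ?_⟩
    rcases ht with h5 | h5
    · left
      exact ml.le mM h5
    · right
      have h6 := mX.lt (hE.mul mQ).sq h5
      have e : (4 * (4 * ((K : ℝ) / 1000) ^ 4) * -q) ^ 2 =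
          (4 * (4 * ((K : ℝ) / 1000) ^ 4) * q) ^ 2 := by ring
      rw [e] at h6
      refine lt_of_le_of_lt ?_ h6
      exact mul_le_mul_of_nonneg_left (le_max_left _ _) (sq_nonneg _)

end sound

end Pool.Agent.S5.E.B2
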