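import Pool.Agent.S5.E.B2.Regs
import Pool.Agent.S5.E.B2.PolN

/-!
# Mixed chains, block E: vertices with two twists, runs in polar coordinates
-/

set_option autoImplicit false

namespace Pool.Agent.S5.E.B2

open Pool.Agent.S3.NI

/-- The region is contained in `a / 10 ^ 5 ≤ tan (φ / 2) ≤ b / 10 ^ 5`. -/
def okt (r : Rg) (a b : ℕ) : Bool :=
  Nat.ble (Nat.add (Nat.mul 200000000 a) (Nat.mul r.t0 (Nat.mul a a))) (Nat.mul r.t0 10000000000) &&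
  (Nat.ble (Nat.mul r.t1 10000000000) (Nat.add (Nat.mul 200000000 b) (Nat.mul r.t1 (Nat.mul b b))) &&
    Nat.ble b 100000)

theorem pol_of {r : Rg} {x y : ℝ} (g : InR r x y) (hx : 0 < x) {a b : ℕ} (h : okt r a b = true) :
    ∃ k τ, 0 ≤ τ ∧ τ ≤ 1 ∧ x = k * co τ ∧ y = k * si τ ∧ Mem k (rng r.k0 r.k1 1000) ∧
      Mem τ (rng a b 100000) := by
  unfold okt at h
  rw [Bool.and_eq_true, Bool.and_eq_true, Nat.ble_eq, Nat.ble_eq, Nat.ble_eq] at h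
  obtain ⟨h1, h2, h3⟩ := h
  have h1' : (200000000 : ℝ) * a + r.t0 * (a * a) ≤ r.t0 * 10000000000 := by exact_mod_cast h1
  have h2' : (r.t1 : ℝ) * 10000000000 ≤ 200000000 * b + r.t1 * (b * b) := by exact_mod_cast h2
  have h3' : (b : ℝ) ≤ 100000 := by exact_mod_cast h3
  have a0 : (0 : ℝ) ≤ a := Nat.cast_nonneg a
  have b0 : (0 : ℝ) ≤ b := Nat.cast_nonneg b
  have t00 : (0 : ℝ) ≤ r.t0 := Nat.cast_nonneg _
  have t10 : (0 : ℝ) ≤ r.t1 := Nat.cast_nonneg _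
  have y0 : 0 ≤ y := g.y0
  obtain ⟨k, hk⟩ : ∃ k : ℝ, k = Real.sqrt (x ^ 2 + y ^ 2) := ⟨_, rfl⟩
  have hkk : k ^ 2 = x ^ 2 + y ^ 2 := by
    rw [hk, Real.sq_sqrt (by positivity)]
  have k0 : 0 < k := by rw [hk]; positivity
  have hkx : 0 < k + x := by positivity
  obtain ⟨τ, hτ⟩ : ∃ τ : ℝ, τ = y / (k + x) := ⟨_, rfl⟩
  have τ0 : 0 ≤ τ := by rw [hτ]; positivity
  have hyτ : y = τ * (k + x) := by rw [hτ]; field_simp
  have hmul : (1 + τ ^ 2) * (k + x) = 2 * k := by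
    have : (1 + τ ^ 2) * (k + x) * (k + x) = 2 * k * (k + x) := by
      have e : (1 + τ ^ 2) * (k + x) * (k + x) = (k + x) ^ 2 + (τ * (k + x)) ^ 2 := by ring
      rw [e, ← hyτ]
      nlinarith
    exact mul_right_cancel₀ hkx.ne' this
  have hmul2 : (1 - τ ^ 2) * (k + x) = 2 * x := by
    have e : (1 - τ ^ 2) * (k + x) = 2 * (k + x) - (1 + τ ^ 2) * (k + x) := by ring
    rw [e, hmul]; ring
  have τ1 : τ ≤ 1 := by
    by_contra hc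
    push Not at hc
    have : (1 - τ ^ 2) * (k + x) < 0 := mul_neg_of_neg_of_pos (by nlinarith) hkx
    rw [hmul2] at this
    linarith
  have hp : 0 < 1 + τ ^ 2 := by positivity
  have hx' : x = k * co τ := by
    unfold co
    rw [← mul_div_assoc, eq_div_iff hp.ne']
    have : (x * (1 + τ ^ 2)) * (k + x) = (k * (1 - τ ^ 2)) * (k + x) := by
      have e1 : (x * (1 + τ ^ 2)) * (k + x) = x * ((1 + τ ^ 2) * (k + x)) := by ring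
      have e2 : (k * (1 - τ ^ 2)) * (k + x) = k * ((1 - τ ^ 2) * (k + x)) := by ring
      rw [e1, e2, hmul, hmul2]; ring
    exact mul_right_cancel₀ hkx.ne' this
  have hy' : y = k * si τ := by
    unfold si
    rw [← mul_div_assoc, eq_div_iff hp.ne']
    have e1 : y * (1 + τ ^ 2) = τ * ((1 + τ ^ 2) * (k + x)) := by
      rw [hyτ]; ring
    rw [e1, hmul]; ring
  have hty : 2 * τ * x = y * (1 - τ ^ 2) := by
    rw [hyτ]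
    have e : τ * (k + x) * (1 - τ ^ 2) = τ * ((1 - τ ^ 2) * (k + x)) := by ring
    rw [e, hmul2]; ring
  have hm : 0 ≤ 1 - τ ^ 2 := by nlinarith
  have f1 : (r.t0 : ℝ) / 1000 * (1 - τ ^ 2) ≤ 2 * τ := by
    have := mul_le_mul_of_nonneg_right g.a0 hm
    rw [← hty] at this
    have e : (r.t0 : ℝ) / 1000 * x * (1 - τ ^ 2) = ((r.t0 : ℝ) / 1000 * (1 - τ ^ 2)) * x := by ring
    rw [e] at this
    exact le_of_mul_le_mul_right this hx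
  have f2 : 2 * τ ≤ (r.t1 : ℝ) / 1000 * (1 - τ ^ 2) := by
    have := mul_le_mul_of_nonneg_right g.a1 hm
    rw [← hty] at this
    have e : (r.t1 : ℝ) / 1000 * x * (1 - τ ^ 2) = ((r.t1 : ℝ) / 1000 * (1 - τ ^ 2)) * x := by ring
    rw [e] at this
    exact le_of_mul_le_mul_right this hx
  refine ⟨k, τ, τ0, τ1, hx', hy', mem_rng (by norm_num) ?_ ?_, mem_rng (by norm_num) ?_ ?_⟩
  · have h := g.lo
    rw [← hkk] at h
    have := abs_le_of_sq_le_sq h k0.le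
    push_cast
    exact (le_abs_self _).trans this
  · have h := g.hi
    rw [← hkk] at h
    have := abs_le_of_sq_le_sq h (by positivity)
    push_cast
    exact (le_abs_self _).trans this
  · push_cast
    by_contra hc
    push Not at hc
    have g1 : 2 * ((a : ℝ) / 100000) ≤ (r.t0 : ℝ) / 1000 * (1 - ((a : ℝ) / 100000) ^ 2) := by
      have e : (r.t0 : ℝ) / 1000 * (1 - ((a : ℝ) / 100000) ^ 2) - 2 * ((a : ℝ) / 100000) =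
        (r.t0 * 10000000000 - (200000000 * a + r.t0 * (a * a))) / 10000000000000 := by
        ring
      have : 0 ≤ (r.t0 * 10000000000 - (200000000 * a + r.t0 * (a * a)) : ℝ) / 10000000000000 :=
        div_nonneg (by linarith) (by norm_num)
      linarith
    have g2 : (r.t0 : ℝ) / 1000 * (1 - ((a : ℝ) / 100000) ^ 2) ≤ (r.t0 : ℝ) / 1000 * (1 - τ ^ 2) := by
      apply mul_le_mul_of_nonneg_left _ (by positivity)
      nlinarith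
    linarith
  · push_cast
    by_contra hc
    push Not at hc
    have g1 : (r.t1 : ℝ) / 1000 * (1 - ((b : ℝ) / 100000) ^ 2) ≤ 2 * ((b : ℝ) / 100000) := by
      have e : 2 * ((b : ℝ) / 100000) - (r.t1 : ℝ) / 1000 * (1 - ((b : ℝ) / 100000) ^ 2) =
        ((200000000 * b + r.t1 * (b * b)) - r.t1 * 10000000000) / 10000000000000 := by
        ring
      have : 0 ≤ ((200000000 * b + r.t1 * (b * b)) - r.t1 * 10000000000 : ℝ) / 10000000000000 :=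
        div_nonneg (by linarith) (by norm_num)
      linarith
    have g2 : (r.t1 : ℝ) / 1000 * (1 - τ ^ 2) ≤ (r.t1 : ℝ) / 1000 * (1 - ((b : ℝ) / 100000) ^ 2) := by
      apply mul_le_mul_of_nonneg_left _ (by positivity)
      have : (0 : ℝ) ≤ (b : ℝ) / 100000 := by positivity
      nlinarith
    linarith

/-- The `τ` intervals of the two slots. -/
structure Tb where
  a₁ : ℕ
  b₁ : ℕ
  a₂ : ℕ
  b₂ : ℕ

variable {so : Bool} {r₁ r₂ : Rg} {n : ℕ}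

/-- The run. -/
def runP (test : N → N → N → N → Bool) (n : ℕ) (r₁ r₂ : Rg) (p : Tb) : Bool :=
  bbw test 3 4 3 4 n (rng r₁.k0 r₁.k1 1000) (rng p.a₁ p.b₁ 100000) (rng r₂.k0 r₂.k1 1000)
    (rng p.a₂ p.b₂ 100000)

theorem imp_pol {F : ℝ → ℝ → Prop} {test : N → N → N → N → Bool} {p : Tb}
    (hs : ∀ A B C D, test A B C D = true → ∀ k₁ τ₁ k₂ τ₂ u v, Mem k₁ A → Mem τ₁ B → Mem k₂ C →
      Mem τ₂ D → 0 ≤ τ₁ → τ₁ ≤ 1 → 0 ≤ τ₂ → τ₂ ≤ 1 →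
      V2 so (k₁ * co τ₁) (k₁ * si τ₁) (k₂ * co τ₂) (k₂ * si τ₂) u v → F u v)
    (k1 : okt r₁ p.a₁ p.b₁ = true) (k2 : okt r₂ p.a₂ p.b₂ = true)
    (hb : runP test n r₁ r₂ p = true) : Imp so r₁ r₂ F := by
  intro x₁ y₁ x₂ y₂ u v g1 g2 h
  obtain ⟨k₁, τ₁, a0, a1, e1, e2, m1, m2⟩ := pol_of g1 h.x10 k1
  obtain ⟨k₂, τ₂, c0, c1, e3, e4, m3, m4⟩ := pol_of g2 h.x20 k2
  rw [e1, e2, e3, e4] at h
  exact bbw_sound (P := fun k₁ τ₁ k₂ τ₂ => 0 ≤ τ₁ → τ₁ ≤ 1 → 0 ≤ τ₂ → τ₂ ≤ 1 →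
      V2 so (k₁ * co τ₁) (k₁ * si τ₁) (k₂ * co τ₂) (k₂ * si τ₂) u v → F u v)
    (fun A B C D ht a b c d ha hb hc hd g1 g2 g3 g4 h =>
      hs A B C D ht a b c d u v ha hb hc hd g1 g2 g3 g4 h) 3 4 3 4 n _ _ _ _ hb _ _ _ _
    m1 m2 m3 m4 a0 a1 c0 c1 h


theorem imp_PL4 (T : ℕ) (hT : T ≤ 1000) {p : Tb} (k1 : okt r₁ p.a₁ p.b₁ = true)
    (k2 : okt r₂ p.a₂ p.b₂ = true) (hb : runP (tPL4 so T) n r₁ r₂ p = true) :
    Imp so r₁ r₂ (fun u v => v < (T : ℝ) / 1000 * u) :=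
  imp_pol (fun _ _ _ _ ht _ _ _ _ _ _ m1 m2 m3 m4 a0 a1 c0 c1 h =>
    tPL4_sound hT ht m1 m2 m3 m4 a0 a1 c0 c1 h) k1 k2 hb

theorem imp_PG4 (T : ℕ) (hT : T ≤ 1000) {p : Tb} (k1 : okt r₁ p.a₁ p.b₁ = true)
    (k2 : okt r₂ p.a₂ p.b₂ = true) (hb : runP (tPG4 so T) n r₁ r₂ p = true) :
    Imp so r₁ r₂ (fun u v => (T : ℝ) / 1000 * u < v) :=
  imp_pol (fun _ _ _ _ ht _ _ _ _ _ _ m1 m2 m3 m4 a0 a1 c0 c1 h =>
    tPG4_sound hT ht m1 m2 m3 m4 a0 a1 c0 c1 h) k1 k2 hb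

theorem imp_KL4 (K : ℕ) (hK : 0 < K) {p : Tb} (k1 : okt r₁ p.a₁ p.b₁ = true)
    (k2 : okt r₂ p.a₂ p.b₂ = true) (hb : runP (tKL4 so K) n r₁ r₂ p = true) :
    Imp so r₁ r₂ (fun u v => u ^ 2 + v ^ 2 < ((K : ℝ) / 1000) ^ 2) :=
  imp_pol (fun _ _ _ _ ht _ _ _ _ _ _ m1 m2 m3 m4 a0 a1 c0 c1 h =>
    tKL4_sound hK ht m1 m2 m3 m4 a0 a1 c0 c1 h) k1 k2 hb

theorem imp_KG4 (K : ℕ) (hK : 0 < K) {p : Tb} (k1 : okt r₁ p.a₁ p.b₁ = true)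
    (k2 : okt r₂ p.a₂ p.b₂ = true) (hb : runP (tKG4 so K) n r₁ r₂ p = true) :
    Imp so r₁ r₂ (fun u v => ((K : ℝ) / 1000) ^ 2 < u ^ 2 + v ^ 2) :=
  imp_pol (fun _ _ _ _ ht _ _ _ _ _ _ m1 m2 m3 m4 a0 a1 c0 c1 h =>
    tKG4_sound hK ht m1 m2 m3 m4 a0 a1 c0 c1 h) k1 k2 hb

/-! ### The additional condition `x y ≥ m / 1000` -/

/-- There is no point of the region in the box. -/
def infP (m : ℕ) (A B : N) : Bool :=
  Nat.blt 0 m && (A.sq.mul ((cT B).mul (sT B))).lt (cst m 1000)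

theorem infP_sound {r : Rg} {k τ : ℝ} {A B : N} (h : infP r.m A B = true) (h1 : Mem k A)
    (h2 : Mem τ B) (b0 : 0 ≤ τ) (b1 : τ ≤ 1) (g : InR r (k * co τ) (k * si τ)) : False := by
  unfold infP at h
  rw [Bool.and_eq_true] at h
  have q1 : Mem (co τ) (cT B) := mem_cT b0 b1 h2
  have q2 : Mem (si τ) (sT B) := mem_sT b0 b1 h2
  have h3 := (h1.sq.mul (q1.mul q2)).lt (mem_cst (n := r.m) (d := 1000) (by norm_num)) h.2
  have h4 := g.m0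
  push_cast at h3
  nlinarith

def tM (m₁ m₂ : ℕ) (test : N → N → N → N → Bool) (A B C D : N) : Bool :=
  infP m₁ A B || (infP m₂ C D || test A B C D)

theorem imp_polM {F : ℝ → ℝ → Prop} {test : N → N → N → N → Bool} {p : Tb}
    (hs : ∀ A B C D, test A B C D = true → ∀ k₁ τ₁ k₂ τ₂ u v, Mem k₁ A → Mem τ₁ B → Mem k₂ C →
      Mem τ₂ D → 0 ≤ τ₁ → τ₁ ≤ 1 → 0 ≤ τ₂ → τ₂ ≤ 1 →
      V2 so (k₁ * co τ₁) (k₁ * si τ₁) (k₂ * co τ₂) (k₂ * si τ₂) u v → F u v)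
    (k1 : okt r₁ p.a₁ p.b₁ = true) (k2 : okt r₂ p.a₂ p.b₂ = true)
    (hb : runP (tM r₁.m r₂.m test) n r₁ r₂ p = true) : Imp so r₁ r₂ F := by
  intro x₁ y₁ x₂ y₂ u v g1 g2 h
  obtain ⟨k₁, τ₁, a0, a1, e1, e2, m1, m2⟩ := pol_of g1 h.x10 k1
  obtain ⟨k₂, τ₂, c0, c1, e3, e4, m3, m4⟩ := pol_of g2 h.x20 k2
  rw [e1, e2, e3, e4] at h
  rw [e1, e2] at g1
  rw [e3, e4] at g2
  exact bbw_sound (P := fun k₁ τ₁ k₂ τ₂ => 0 ≤ τ₁ → τ₁ ≤ 1 → 0 ≤ τ₂ → τ₂ ≤ 1 →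
      InR r₁ (k₁ * co τ₁) (k₁ * si τ₁) → InR r₂ (k₂ * co τ₂) (k₂ * si τ₂) →
      V2 so (k₁ * co τ₁) (k₁ * si τ₁) (k₂ * co τ₂) (k₂ * si τ₂) u v → F u v)
    (fun A B C D ht a b c d ha hb hc hd q1 q2 q3 q4 g1 g2 h => by
      unfold tM at ht
      rw [Bool.or_eq_true, Bool.or_eq_true] at ht
      rcases ht with ht | ht | ht
      · exact (infP_sound ht ha hb q1 q2 g1).elim
      · exact (infP_sound ht hc hd q3 q4 g2).elim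
      · exact hs A B C D ht a b c d u v ha hb hc hd q1 q2 q3 q4 h) 3 4 3 4 n _ _ _ _ hb _ _ _ _
    m1 m2 m3 m4 a0 a1 c0 c1 g1 g2 h

theorem imp_PL5 (T : ℕ) (hT : T ≤ 1000) {p : Tb} (k1 : okt r₁ p.a₁ p.b₁ = true)
    (k2 : okt r₂ p.a₂ p.b₂ = true) (hb : runP (tM r₁.m r₂.m (tPL4 so T)) n r₁ r₂ p = true) :
    Imp so r₁ r₂ (fun u v => v < (T : ℝ) / 1000 * u) :=
  imp_polM (fun _ _ _ _ ht _ _ _ _ _ _ m1 m2 m3 m4 a0 a1 c0 c1 h =>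
    tPL4_sound hT ht m1 m2 m3 m4 a0 a1 c0 c1 h) k1 k2 hb

theorem imp_PG5 (T : ℕ) (hT : T ≤ 1000) {p : Tb} (k1 : okt r₁ p.a₁ p.b₁ = true)
    (k2 : okt r₂ p.a₂ p.b₂ = true) (hb : runP (tM r₁.m r₂.m (tPG4 so T)) n r₁ r₂ p = true) :
    Imp so r₁ r₂ (fun u v => (T : ℝ) / 1000 * u < v) :=
  imp_polM (fun _ _ _ _ ht _ _ _ _ _ _ m1 m2 m3 m4 a0 a1 c0 c1 h =>
    tPG4_sound hT ht m1 m2 m3 m4 a0 a1 c0 c1 h) k1 k2 hb

theorem imp_KL5 (K : ℕ) (hK : 0 < K) {p : Tb} (k1 : okt r₁ p.a₁ p.b₁ = true)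
    (k2 : okt r₂ p.a₂ p.b₂ = true) (hb : runP (tM r₁.m r₂.m (tKL4 so K)) n r₁ r₂ p = true) :
    Imp so r₁ r₂ (fun u v => u ^ 2 + v ^ 2 < ((K : ℝ) / 1000) ^ 2) :=
  imp_polM (fun _ _ _ _ ht _ _ _ _ _ _ m1 m2 m3 m4 a0 a1 c0 c1 h =>
    tKL4_sound hK ht m1 m2 m3 m4 a0 a1 c0 c1 h) k1 k2 hb

theorem imp_KG5 (K : ℕ) (hK : 0 < K) {p : Tb} (k1 : okt r₁ p.a₁ p.b₁ = true)
    (k2 : okt r₂ p.a₂ p.b₂ = true) (hb : runP (tM r₁.m r₂.m (tKG4 so K)) n r₁ r₂ p = true) :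
    Imp so r₁ r₂ (fun u v => ((K : ℝ) / 1000) ^ 2 < u ^ 2 + v ^ 2) :=
  imp_polM (fun _ _ _ _ ht _ _ _ _ _ _ m1 m2 m3 m4 a0 a1 c0 c1 h =>
    tKG4_sound hK ht m1 m2 m3 m4 a0 a1 c0 c1 h) k1 k2 hb

end Pool.Agent.S5.E.B2
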