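import Pool.Agent.S5.E.B2.Pol

/-!
# Mixed chains, block E: vertices with two twists, tests in polar coordinates (the tests)
-/

set_option autoImplicit false

namespace Pool.Agent.S5.E.B2

open Complex Pool.Agent.S3.NI

/-- `cos φ` for `τ = tan (φ / 2)`. -/
noncomputable def co (τ : ℝ) : ℝ := (1 - τ ^ 2) / (1 + τ ^ 2)
/-- `sin φ` for `τ = tan (φ / 2)`. -/
noncomputable def si (τ : ℝ) : ℝ := 2 * τ / (1 + τ ^ 2)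

theorem co_si (τ : ℝ) : co τ ^ 2 + si τ ^ 2 = 1 := by
  have : (0 : ℝ) < 1 + τ ^ 2 := by positivity
  unfold co si
  field_simp
  ring

/-- The sign of the second slot. -/
def sgn (so : Bool) : ℝ := if so then -1 else 1

theorem sgy_eq (so : Bool) (y : ℝ) : sgy so y = sgn so * y := by
  unfold sgy sgn; cases so <;> simp

theorem sgn_sq (so : Bool) : sgn so ^ 2 = 1 := by unfold sgn; cases so <;> norm_num

section real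

variable {so : Bool} {k₁ c₁ s₁ k₂ c₂ s₂ u v t w d : ℝ}

theorem Cr_eq (k10 : 0 < k₁) (k20 : 0 < k₂) (hw : w = (1 - t ^ 2) / (1 + t ^ 2))
    (hd : d = 2 * t / (1 + t ^ 2)) :
    Cr so t (k₁ * c₁) (k₁ * s₁) (k₂ * c₂) (k₂ * s₂) = (1 + t ^ 2) * (k₁ * k₂) *
      ((c₁ * w - s₁ * d) * k₂⁻¹ + (c₂ * w - sgn so * s₂ * d) * k₁⁻¹) := by
  have ht : (0 : ℝ) < 1 + t ^ 2 := by positivity
  unfold Cr
  rw [sgy_eq, hw, hd]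
  field_simp
  ring

theorem Sr_eq (hw : w = (1 - t ^ 2) / (1 + t ^ 2))
    (hd : d = 2 * t / (1 + t ^ 2)) :
    Sr so t (k₁ * c₁) (k₁ * s₁) (k₂ * c₂) (k₂ * s₂) = (1 + t ^ 2) *
      (k₁ * (c₁ * d + s₁ * w) + k₂ * (c₂ * d + sgn so * s₂ * w)) := by
  have ht : (0 : ℝ) < 1 + t ^ 2 := by positivity
  unfold Sr
  rw [sgy_eq, hw, hd]
  field_simp
  ring

theorem Ir_eq (h1 : c₁ ^ 2 + s₁ ^ 2 = 1) (h2 : c₂ ^ 2 + s₂ ^ 2 = 1) :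
    Ir so (k₁ * c₁) (k₁ * s₁) (k₂ * c₂) (k₂ * s₂) =
      k₁ * k₂ * (k₂ * s₁ + sgn so * (k₁ * s₂)) := by
  unfold Ir
  rw [sgy_eq]
  linear_combination (k₁ ^ 2 * (sgn so * (k₂ * s₂))) * h1 + (k₂ ^ 2 * (k₁ * s₁)) * h2

theorem P_eq (h1 : c₁ ^ 2 + s₁ ^ 2 = 1) (h2 : c₂ ^ 2 + s₂ ^ 2 = 1) :
    ((k₁ * c₁) ^ 2 + (k₁ * s₁) ^ 2) * ((k₂ * c₂) ^ 2 + (k₂ * s₂) ^ 2) = (k₁ * k₂) ^ 2 := by
  have e1 : (k₁ * c₁) ^ 2 + (k₁ * s₁) ^ 2 = k₁ ^ 2 := by linear_combination k₁ ^ 2 * h1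
  have e2 : (k₂ * c₂) ^ 2 + (k₂ * s₂) ^ 2 = k₂ ^ 2 := by linear_combination k₂ ^ 2 * h2
  rw [e1, e2]; ring

theorem V2.pang_lt (h : V2 so (k₁ * c₁) (k₁ * s₁) (k₂ * c₂) (k₂ * s₂) u v) (k10 : 0 < k₁)
    (k20 : 0 < k₂) (h1 : c₁ ^ 2 + s₁ ^ 2 = 1) (h2 : c₂ ^ 2 + s₂ ^ 2 = 1) (t0 : 0 ≤ t)
    (hw : w = (1 - t ^ 2) / (1 + t ^ 2)) (hd : d = 2 * t / (1 + t ^ 2)) {C S Q : ℝ}
    (hC : C = (c₁ * w - s₁ * d) * k₂⁻¹ + (c₂ * w - sgn so * s₂ * d) * k₁⁻¹)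
    (hS : S = k₁ * (c₁ * d + s₁ * w) + k₂ * (c₂ * d + sgn so * s₂ * w))
    (hQ : Q = k₂ * s₁ + sgn so * (k₁ * s₂)) (hS0 : 0 < S)
    (hlt : 0 < C → C ^ 2 + (Q * S⁻¹) ^ 2 < 1) : v < t * u := by
  have ht : (0 : ℝ) < 1 + t ^ 2 := by positivity
  have eC := Cr_eq (so := so) (c₁ := c₁) (s₁ := s₁) (c₂ := c₂) (s₂ := s₂) k10 k20 hw hd
  have eS := Sr_eq (so := so) (k₁ := k₁) (k₂ := k₂) (c₁ := c₁) (s₁ := s₁) (c₂ := c₂) (s₂ := s₂) hw hd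
  have eI := Ir_eq (so := so) (k₁ := k₁) (k₂ := k₂) h1 h2
  have eP := P_eq (k₁ := k₁) (k₂ := k₂) h1 h2
  rw [← hC] at eC
  rw [← hS] at eS
  rw [← hQ] at eI
  apply h.ang_lt t0
  · rw [eS]; positivity
  · intro hc
    rw [eC] at hc
    have hk : 0 < (1 + t ^ 2) * (k₁ * k₂) := by positivity
    have hC0 : 0 < C := (pos_iff_pos_of_mul_pos hc).1 hk
    have h3 := hlt hC0
    rw [eC, eS, eI, eP]
    have e : ((1 + t ^ 2) * (k₁ * k₂) * C) ^ 2 +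
        ((1 + t ^ 2) ^ 2) ^ 2 * (k₁ * k₂ * Q * ((1 + t ^ 2) * S)⁻¹) ^ 2 =
        (1 + t ^ 2) ^ 2 * (k₁ * k₂) ^ 2 * (C ^ 2 + (Q * S⁻¹) ^ 2) := by
      field_simp
    rw [e]
    have h4 : 0 < (1 + t ^ 2) ^ 2 * (k₁ * k₂) ^ 2 := by positivity
    nlinarith

theorem V2.plt_ang (h : V2 so (k₁ * c₁) (k₁ * s₁) (k₂ * c₂) (k₂ * s₂) u v) (k10 : 0 < k₁)
    (k20 : 0 < k₂) (h1 : c₁ ^ 2 + s₁ ^ 2 = 1) (h2 : c₂ ^ 2 + s₂ ^ 2 = 1) (t0 : 0 ≤ t)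
    (hw : w = (1 - t ^ 2) / (1 + t ^ 2)) (hd : d = 2 * t / (1 + t ^ 2)) {C S Q : ℝ}
    (hC : C = (c₁ * w - s₁ * d) * k₂⁻¹ + (c₂ * w - sgn so * s₂ * d) * k₁⁻¹)
    (hS : S = k₁ * (c₁ * d + s₁ * w) + k₂ * (c₂ * d + sgn so * s₂ * w))
    (hQ : Q = k₂ * s₁ + sgn so * (k₁ * s₂)) (hS0 : 0 < S) (hC0 : 0 < C)
    (hlt : 1 < C ^ 2 + (Q * S⁻¹) ^ 2) : t * u < v := by
  have ht : (0 : ℝ) < 1 + t ^ 2 := by positivity
  have eC := Cr_eq (so := so) (c₁ := c₁) (s₁ := s₁) (c₂ := c₂) (s₂ := s₂) k10 k20 hw hd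
  have eS := Sr_eq (so := so) (k₁ := k₁) (k₂ := k₂) (c₁ := c₁) (s₁ := s₁) (c₂ := c₂) (s₂ := s₂) hw hd
  have eI := Ir_eq (so := so) (k₁ := k₁) (k₂ := k₂) h1 h2
  have eP := P_eq (k₁ := k₁) (k₂ := k₂) h1 h2
  rw [← hC] at eC
  rw [← hS] at eS
  rw [← hQ] at eI
  apply h.lt_ang t0
  · rw [eS]; positivity
  · rw [eC]; positivity
  · rw [eC, eS, eI, eP]
    have e : ((1 + t ^ 2) * (k₁ * k₂) * C) ^ 2 +
        ((1 + t ^ 2) ^ 2) ^ 2 * (k₁ * k₂ * Q * ((1 + t ^ 2) * S)⁻¹) ^ 2 =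
        (1 + t ^ 2) ^ 2 * (k₁ * k₂) ^ 2 * (C ^ 2 + (Q * S⁻¹) ^ 2) := by
      field_simp
    rw [e]
    have h4 : 0 < (1 + t ^ 2) ^ 2 * (k₁ * k₂) ^ 2 := by positivity
    nlinarith

/-- The data for the length. -/
structure LD (so : Bool) (k₁ c₁ s₁ k₂ c₂ s₂ L M l q : ℝ) : Prop where
  M : M = 2 + (k₁ - k₂) ^ 2 * (k₁ * k₂)⁻¹ + 2 * (c₁ * c₂) + sgn so * (2 * (s₁ * s₂))
  l : l = L * (k₁ * k₂)⁻¹
  q : q = s₁ * k₁⁻¹ + sgn so * (s₂ * k₂⁻¹)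

theorem LD.n {L M l q : ℝ} (h : LD so k₁ c₁ s₁ k₂ c₂ s₂ L M l q) (k10 : 0 < k₁)
    (k20 : 0 < k₂) (h1 : c₁ ^ 2 + s₁ ^ 2 = 1) (h2 : c₂ ^ 2 + s₂ ^ 2 = 1) :
    (k₁ * c₁ + k₂ * c₂) ^ 2 + (k₁ * s₁ + sgy so (k₂ * s₂)) ^ 2 = k₁ * k₂ * M := by
  rw [h.M, sgy_eq]
  have hs := sgn_sq so
  have e : k₁ * k₂ * (2 + (k₁ - k₂) ^ 2 * (k₁ * k₂)⁻¹ + 2 * (c₁ * c₂) +
      sgn so * (2 * (s₁ * s₂))) = k₁ ^ 2 + k₂ ^ 2 + 2 * (k₁ * k₂) * (c₁ * c₂) +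
      2 * (k₁ * k₂) * (sgn so * (s₁ * s₂)) := by
    field_simp
    ring
  rw [e]
  linear_combination k₁ ^ 2 * h1 + k₂ ^ 2 * h2 + (k₂ ^ 2 * s₂ ^ 2) * hs

theorem LD.L' {L M l q : ℝ} (h : LD so k₁ c₁ s₁ k₂ c₂ s₂ L M l q) (k10 : 0 < k₁)
    (k20 : 0 < k₂) : L = k₁ * k₂ * l := by
  rw [h.l]; field_simp

theorem LD.I {L M l q : ℝ} (h : LD so k₁ c₁ s₁ k₂ c₂ s₂ L M l q) (k10 : 0 < k₁)
    (k20 : 0 < k₂) (h1 : c₁ ^ 2 + s₁ ^ 2 = 1) (h2 : c₂ ^ 2 + s₂ ^ 2 = 1) :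
    Ir so (k₁ * c₁) (k₁ * s₁) (k₂ * c₂) (k₂ * s₂) = (k₁ * k₂) ^ 2 * q := by
  rw [Ir_eq h1 h2, h.q]
  field_simp

/-- Upper bound of the length. -/
theorem V2.plen_lt (h : V2 so (k₁ * c₁) (k₁ * s₁) (k₂ * c₂) (k₂ * s₂) u v) (k10 : 0 < k₁)
    (k20 : 0 < k₂) (h1 : c₁ ^ 2 + s₁ ^ 2 = 1) (h2 : c₂ ^ 2 + s₂ ^ 2 = 1) {K M l q : ℝ} (hK : 0 < K)
    (hD : LD so k₁ c₁ s₁ k₂ c₂ s₂ (4 * K ^ 4) M l q)
    (ht : (0 < q ∧ (M ≤ l ∨ (M - l) ^ 2 * ((M + l) ^ 2 - 4 * (4 * K ^ 4)) <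
        (4 * (4 * K ^ 4) * q) ^ 2)) ∨
      (M < l ∧ (q < 0 → (4 * (4 * K ^ 4) * q) ^ 2 <
        (M - l) ^ 2 * ((M + l) ^ 2 - 4 * (4 * K ^ 4))))) : u ^ 2 + v ^ 2 < K ^ 2 := by
  have hL0 : 0 < 4 * K ^ 4 := by positivity
  have en := hD.n k10 k20 h1 h2
  have eL := hD.L' k10 k20
  have eI := hD.I k10 k20 h1 h2
  have eI' : ((k₁ * c₁) ^ 2 + (k₁ * s₁) ^ 2) * sgy so (k₂ * s₂) +
      ((k₂ * c₂) ^ 2 + (k₂ * s₂) ^ 2) * (k₁ * s₁) = (k₁ * k₂) ^ 2 * q := eI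
  have eP := P_eq (k₁ := k₁) (k₂ := k₂) h1 h2
  have hR2 := Rp_sq so (k₁ * c₁) (k₁ * s₁) (k₂ * c₂) (k₂ * s₂)
  have hkk : 0 < k₁ * k₂ := mul_pos k10 k20
  rw [eP] at hR2
  set n := (k₁ * c₁ + k₂ * c₂) ^ 2 + (k₁ * s₁ + sgy so (k₂ * s₂)) ^ 2 with hn
  have hn0 : 0 < n := by
    have := h.x10
    have := h.x20
    rw [hn]; positivity
  have hQ := h.qd rfl hn
  set L := 4 * K ^ 4 with hLdef
  have hu := h.u0
  have hv := h.v0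
  have key : n / L < n / (4 * (u ^ 2 + v ^ 2) ^ 2) := by
    rcases ht with ⟨hq, ht⟩ | ⟨hMl, ht⟩
    · have hI : 0 < Ir so (k₁ * c₁) (k₁ * s₁) (k₂ * c₂) (k₂ * s₂) := by rw [eI]; positivity
      apply hQ.lt_q' (by positivity) (div_pos hI hn0)
      rcases ht with ht | ht
      · left
        rw [div_le_one hL0, en, eL]
        exact mul_le_mul_of_nonneg_left ht hkk.le
      · right
        refine Q_key' hn0 hL0 (kk_gt hn0 hR2 ?_)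
        rw [eI']
        have h5 := mul_lt_mul_of_pos_left ht (by positivity : 0 < (k₁ * k₂) ^ 4)
        have e1 : (n - L) ^ 2 * (L + n) ^ 2 = (k₁ * k₂) ^ 4 * ((M - l) ^ 2 * (M + l) ^ 2) := by
          rw [en, eL]; ring
        have e2 : 4 * L * ((k₁ * k₂) ^ 2 * (n - L) ^ 2 + 4 * L * ((k₁ * k₂) ^ 2 * q) ^ 2) =
            (k₁ * k₂) ^ 4 * (4 * L * (M - l) ^ 2 + (4 * L * q) ^ 2) := by
          have e3 : (n - L) ^ 2 = (k₁ * k₂) ^ 2 * (M - l) ^ 2 := by rw [en]; nth_rw 1 [eL]; ring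
          rw [e3]; ring
        rw [e1, e2]
        linarith
    · have hnL : n < L := by
        rw [en, eL]
        exact mul_lt_mul_of_pos_left hMl hkk
      apply hQ.lt_q (by rw [div_lt_one hL0]; exact hnL)
      by_cases hq : q < 0
      · right
        refine Q_key hn0 hL0 (kk_lt hn0 hR2 ?_)
        have ht := ht hq
        have h5 := mul_lt_mul_of_pos_left ht (by positivity : 0 < (k₁ * k₂) ^ 4)
        have e1 : (n - L) ^ 2 * (L + n) ^ 2 = (k₁ * k₂) ^ 4 * ((M - l) ^ 2 * (M + l) ^ 2) := by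
          rw [en, eL]; ring
        have e2 : 4 * L * ((k₁ * k₂) ^ 2 * (n - L) ^ 2 + 4 * L * ((k₁ * k₂) ^ 2 * q) ^ 2) =
            (k₁ * k₂) ^ 4 * (4 * L * (M - l) ^ 2 + (4 * L * q) ^ 2) := by
          have e3 : (n - L) ^ 2 = (k₁ * k₂) ^ 2 * (M - l) ^ 2 := by rw [en]; nth_rw 1 [eL]; ring
          rw [e3]; ring
        rw [eI', e1, e2]
        linarith
      · left
        push Not at hq
        refine div_nonneg ?_ hn0.le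
        have : 0 ≤ Ir so (k₁ * c₁) (k₁ * s₁) (k₂ * c₂) (k₂ * s₂) := by rw [eI]; positivity
        exact this
  rw [div_lt_div_iff_of_pos_left hn0 hL0 (by positivity)] at key
  have h7 : (u ^ 2 + v ^ 2) ^ 2 < (K ^ 2) ^ 2 := by nlinarith
  exact lt_of_pow_lt_pow_left₀ 2 (by positivity) h7

/-- Lower bound of the length. -/
theorem V2.lt_plen (h : V2 so (k₁ * c₁) (k₁ * s₁) (k₂ * c₂) (k₂ * s₂) u v) (k10 : 0 < k₁)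
    (k20 : 0 < k₂) (h1 : c₁ ^ 2 + s₁ ^ 2 = 1) (h2 : c₂ ^ 2 + s₂ ^ 2 = 1) {K M l q : ℝ} (hK : 0 < K)
    (hD : LD so k₁ c₁ s₁ k₂ c₂ s₂ (4 * K ^ 4) M l q)
    (ht : (q < 0 ∧ (l ≤ M ∨ (M - l) ^ 2 * ((M + l) ^ 2 - 4 * (4 * K ^ 4)) <
        (4 * (4 * K ^ 4) * q) ^ 2)) ∨
      (l < M ∧ (0 < q → (4 * (4 * K ^ 4) * q) ^ 2 <
        (M - l) ^ 2 * ((M + l) ^ 2 - 4 * (4 * K ^ 4))))) : K ^ 2 < u ^ 2 + v ^ 2 := by
  have hL0 : 0 < 4 * K ^ 4 := by positivity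
  have en := hD.n k10 k20 h1 h2
  have eL := hD.L' k10 k20
  have eI := hD.I k10 k20 h1 h2
  have eI' : ((k₁ * c₁) ^ 2 + (k₁ * s₁) ^ 2) * sgy so (k₂ * s₂) +
      ((k₂ * c₂) ^ 2 + (k₂ * s₂) ^ 2) * (k₁ * s₁) = (k₁ * k₂) ^ 2 * q := eI
  have eP := P_eq (k₁ := k₁) (k₂ := k₂) h1 h2
  have hR2 := Rp_sq so (k₁ * c₁) (k₁ * s₁) (k₂ * c₂) (k₂ * s₂)
  have hkk : 0 < k₁ * k₂ := mul_pos k10 k20
  rw [eP] at hR2
  set n := (k₁ * c₁ + k₂ * c₂) ^ 2 + (k₁ * s₁ + sgy so (k₂ * s₂)) ^ 2 with hn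
  have hn0 : 0 < n := by
    have := h.x10
    have := h.x20
    rw [hn]; positivity
  have hQ := h.qd rfl hn
  set L := 4 * K ^ 4 with hLdef
  have hu := h.u0
  have hv := h.v0
  have key : n / (4 * (u ^ 2 + v ^ 2) ^ 2) < n / L := by
    rcases ht with ⟨hq, ht⟩ | ⟨hMl, ht⟩
    · have hI : Ir so (k₁ * c₁) (k₁ * s₁) (k₂ * c₂) (k₂ * s₂) < 0 := by
        rw [eI]; exact mul_neg_of_pos_of_neg (by positivity) hq
      apply hQ.q_lt' (by positivity) (div_neg_of_neg_of_pos hI hn0)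
      rcases ht with ht | ht
      · left
        rw [one_le_div hL0, en]
        nth_rw 1 [eL]
        exact mul_le_mul_of_nonneg_left ht hkk.le
      · right
        refine Q_key' hn0 hL0 (kk_gt hn0 hR2 ?_)
        rw [eI']
        have h5 := mul_lt_mul_of_pos_left ht (by positivity : 0 < (k₁ * k₂) ^ 4)
        have e1 : (n - L) ^ 2 * (L + n) ^ 2 = (k₁ * k₂) ^ 4 * ((M - l) ^ 2 * (M + l) ^ 2) := by
          rw [en, eL]; ring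
        have e2 : 4 * L * ((k₁ * k₂) ^ 2 * (n - L) ^ 2 + 4 * L * ((k₁ * k₂) ^ 2 * q) ^ 2) =
            (k₁ * k₂) ^ 4 * (4 * L * (M - l) ^ 2 + (4 * L * q) ^ 2) := by
          have e3 : (n - L) ^ 2 = (k₁ * k₂) ^ 2 * (M - l) ^ 2 := by rw [en]; nth_rw 1 [eL]; ring
          rw [e3]; ring
        rw [e1, e2]
        linarith
    · have hnL : L < n := by
        rw [en]; nth_rw 1 [eL]
        exact mul_lt_mul_of_pos_left hMl hkk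
      apply hQ.q_lt (by rw [one_lt_div hL0]; exact hnL)
      by_cases hq : 0 < q
      · right
        refine Q_key hn0 hL0 (kk_lt hn0 hR2 ?_)
        have ht := ht hq
        have h5 := mul_lt_mul_of_pos_left ht (by positivity : 0 < (k₁ * k₂) ^ 4)
        have e1 : (n - L) ^ 2 * (L + n) ^ 2 = (k₁ * k₂) ^ 4 * ((M - l) ^ 2 * (M + l) ^ 2) := by
          rw [en, eL]; ring
        have e2 : 4 * L * ((k₁ * k₂) ^ 2 * (n - L) ^ 2 + 4 * L * ((k₁ * k₂) ^ 2 * q) ^ 2) =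
            (k₁ * k₂) ^ 4 * (4 * L * (M - l) ^ 2 + (4 * L * q) ^ 2) := by
          have e3 : (n - L) ^ 2 = (k₁ * k₂) ^ 2 * (M - l) ^ 2 := by rw [en]; nth_rw 1 [eL]; ring
          rw [e3]; ring
        rw [eI', e1, e2]
        linarith
      · left
        push Not at hq
        refine div_nonpos_of_nonpos_of_nonneg ?_ hn0.le
        have : Ir so (k₁ * c₁) (k₁ * s₁) (k₂ * c₂) (k₂ * s₂) ≤ 0 := by
          rw [eI]; exact mul_nonpos_of_nonneg_of_nonpos (by positivity) hq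
        exact this
  rw [div_lt_div_iff_of_pos_left hn0 (by positivity) hL0] at key
  have h7 : (K ^ 2) ^ 2 < (u ^ 2 + v ^ 2) ^ 2 := by nlinarith
  exact lt_of_pow_lt_pow_left₀ 2 (by positivity) h7

end real

end Pool.Agent.S5.E.B2
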