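import Pool.Agent.S5.E.B2.TestXY

/-!
# Mixed chains, block E: vertices with two twists, the regions and the runs

`P`: two twists, one `S` edge, the other neighbour has two twists and an `S` edge too.
`T`: two twists, two `A` edges.  `A3`: three or more twists, seen through an `A` edge;
`S3`: three or more twists, seen through an `S` edge (at any time).  `EB`, `EA`, `ET`: end vertices
with two twists.  `NT`: the neighbours of `T` with two twists.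
-/

set_option autoImplicit false

namespace Pool.Agent.S5.E.B2

open Pool.Agent.S3.NI

def rOne : Rg := ⟨1000, 1000, 0, 0, 0⟩
def rP : Rg := ⟨700, 1020, 365, 760, 200⟩
def rSB : Rg := ⟨530, 1020, 0, 777, 0⟩
def rPA : Rg := ⟨700, 1020, 0, 760, 0⟩
def rT : Rg := ⟨690, 1050, 200, 760, 0⟩
def rTA : Rg := ⟨690, 1050, 0, 760, 0⟩
def rS3 : Rg := ⟨530, 1000, 0, 777, 0⟩
def rA3 : Rg := ⟨590, 1000, 0, 627, 0⟩
def rEB : Rg := ⟨570, 720, 430, 700, 0⟩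
def rEA : Rg := ⟨570, 1000, 0, 700, 0⟩
def rNT : Rg := ⟨690, 1060, 0, 900, 0⟩
def rET : Rg := ⟨585, 1000, 0, 820, 0⟩

def bOne : Bx := ⟨1000, 1000, 0, 0⟩
def bP : Bx := ⟨557, 959, 239, 618⟩
def bSB : Bx := ⟨418, 1020, 0, 626⟩
def bPA : Bx := ⟨557, 1020, 0, 618⟩
def bT : Bx := ⟨549, 1030, 135, 636⟩
def bTA : Bx := ⟨549, 1050, 0, 636⟩
def bS3 : Bx := ⟨418, 1000, 0, 614⟩
def bA3 : Bx := ⟨499, 1000, 0, 532⟩
def bEB : Bx := ⟨466, 662, 225, 413⟩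
def bEA : Bx := ⟨466, 1000, 0, 574⟩
def bNT : Bx := ⟨512, 1060, 0, 710⟩
def bET : Bx := ⟨452, 1000, 0, 635⟩

theorem ok_One : okb rOne bOne = true := by decide +kernel
theorem ok_P : okb rP bP = true := by decide +kernel
theorem ok_SB : okb rSB bSB = true := by decide +kernel
theorem ok_PA : okb rPA bPA = true := by decide +kernel
theorem ok_T : okb rT bT = true := by decide +kernel
theorem ok_TA : okb rTA bTA = true := by decide +kernel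
theorem ok_S3 : okb rS3 bS3 = true := by decide +kernel
theorem ok_A3 : okb rA3 bA3 = true := by decide +kernel
theorem ok_EB : okb rEB bEB = true := by decide +kernel
theorem ok_EA : okb rEA bEA = true := by decide +kernel
theorem ok_NT : okb rNT bNT = true := by decide +kernel
theorem ok_ET : okb rET bET = true := by decide +kernel

/-- `C u v` holds for all vertices with slots in the given regions. -/
def Imp (so : Bool) (r₁ r₂ : Rg) (C : ℝ → ℝ → Prop) : Prop :=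
  ∀ x₁ y₁ x₂ y₂ u v, InR r₁ x₁ y₁ → InR r₂ x₂ y₂ → V2 so x₁ y₁ x₂ y₂ u v → C u v

variable {so : Bool} {r₁ r₂ : Rg} {p₁ p₂ : Bx} {n : ℕ}

theorem imp_PL (T : ℕ) (hT : T ≤ 1000) (k1 : okb r₁ p₁ = true) (k2 : okb r₂ p₂ = true)
    (hb : bbw (tPL so r₁ r₂ T) 1 1 1 1 n p₁.X p₁.Y p₂.X p₂.Y = true) :
    Imp so r₁ r₂ (fun u v => v < (T : ℝ) / 1000 * u) := by
  intro x₁ y₁ x₂ y₂ u v g1 g2 h
  obtain ⟨a1, a2⟩ := okb_sound k1 g1
  obtain ⟨a3, a4⟩ := okb_sound k2 g2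
  exact bbw_sound (P := fun a b c d => InR r₁ a b → InR r₂ c d → V2 so a b c d u v →
    v < (T : ℝ) / 1000 * u) (fun A B C D ht a b c d ha hb hc hd g1 g2 h =>
      tPL_sound hT ht ha hb hc hd g1 g2 h) 1 1 1 1 n _ _ _ _ hb _ _ _ _ a1 a2 a3 a4 g1 g2 h

theorem imp_PG (T : ℕ) (hT : T ≤ 1000) (k1 : okb r₁ p₁ = true) (k2 : okb r₂ p₂ = true)
    (hb : bbw (tPG so r₁ r₂ T) 1 1 1 1 n p₁.X p₁.Y p₂.X p₂.Y = true) :
    Imp so r₁ r₂ (fun u v => (T : ℝ) / 1000 * u < v) := by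
  intro x₁ y₁ x₂ y₂ u v g1 g2 h
  obtain ⟨a1, a2⟩ := okb_sound k1 g1
  obtain ⟨a3, a4⟩ := okb_sound k2 g2
  exact bbw_sound (P := fun a b c d => InR r₁ a b → InR r₂ c d → V2 so a b c d u v →
    (T : ℝ) / 1000 * u < v) (fun A B C D ht a b c d ha hb hc hd g1 g2 h =>
      tPG_sound hT ht ha hb hc hd g1 g2 h) 1 1 1 1 n _ _ _ _ hb _ _ _ _ a1 a2 a3 a4 g1 g2 h

theorem imp_KL (K : ℕ) (k1 : okb r₁ p₁ = true) (k2 : okb r₂ p₂ = true)
    (hb : bbw (tKL so r₁ r₂ K) 1 1 1 1 n p₁.X p₁.Y p₂.X p₂.Y = true) :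
    Imp so r₁ r₂ (fun u v => u ^ 2 + v ^ 2 < ((K : ℝ) / 1000) ^ 2) := by
  intro x₁ y₁ x₂ y₂ u v g1 g2 h
  obtain ⟨a1, a2⟩ := okb_sound k1 g1
  obtain ⟨a3, a4⟩ := okb_sound k2 g2
  exact bbw_sound (P := fun a b c d => InR r₁ a b → InR r₂ c d → V2 so a b c d u v →
    u ^ 2 + v ^ 2 < ((K : ℝ) / 1000) ^ 2) (fun A B C D ht a b c d ha hb hc hd g1 g2 h =>
      tKL_sound ht ha hb hc hd g1 g2 h) 1 1 1 1 n _ _ _ _ hb _ _ _ _ a1 a2 a3 a4 g1 g2 h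

theorem imp_KG (K : ℕ) (hK : 0 < K) (k1 : okb r₁ p₁ = true) (k2 : okb r₂ p₂ = true)
    (hb : bbw (tKG so r₁ r₂ K) 1 1 1 1 n p₁.X p₁.Y p₂.X p₂.Y = true) :
    Imp so r₁ r₂ (fun u v => ((K : ℝ) / 1000) ^ 2 < u ^ 2 + v ^ 2) := by
  intro x₁ y₁ x₂ y₂ u v g1 g2 h
  obtain ⟨a1, a2⟩ := okb_sound k1 g1
  obtain ⟨a3, a4⟩ := okb_sound k2 g2
  exact bbw_sound (P := fun a b c d => InR r₁ a b → InR r₂ c d → V2 so a b c d u v →
    ((K : ℝ) / 1000) ^ 2 < u ^ 2 + v ^ 2) (fun A B C D ht a b c d ha hb hc hd g1 g2 h =>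
      tKG_sound hK ht ha hb hc hd g1 g2 h) 1 1 1 1 n _ _ _ _ hb _ _ _ _ a1 a2 a3 a4 g1 g2 h

theorem imp_XY (m : ℕ) (k1 : okb r₁ p₁ = true) (k2 : okb r₂ p₂ = true)
    (hb : bbw (tXY r₁ r₂ m) 1 1 1 1 n p₁.X p₁.Y p₂.X p₂.Y = true) :
    Imp true r₁ r₂ (fun u v => (m : ℝ) / 1000 < u * v) := by
  intro x₁ y₁ x₂ y₂ u v g1 g2 h
  obtain ⟨a1, a2⟩ := okb_sound k1 g1
  obtain ⟨a3, a4⟩ := okb_sound k2 g2
  exact bbw_sound (P := fun a b c d => InR r₁ a b → InR r₂ c d → V2 true a b c d u v →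
    (m : ℝ) / 1000 < u * v) (fun A B C D ht a b c d ha hb hc hd g1 g2 h =>
      tXY_sound ht ha hb hc hd g1 g2 h) 1 1 1 1 n _ _ _ _ hb _ _ _ _ a1 a2 a3 a4 g1 g2 h

end Pool.Agent.S5.E.B2
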