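import Pool.Agent.S5.E.B2.PolC

/-!
# Mixed chains, block E: vertices with two twists, kernel runs (end vertex next to `S3`, length)
-/

set_option autoImplicit false

namespace Pool.Agent.S5.E.B2

open Pool.Agent.S3.NI

set_option maxRecDepth 100000 in
theorem EB_S3_K1 : Imp true rEB rS3 (fun u v => u ^ 2 + v ^ 2 < (((1000 : ℕ) : ℝ) / 1000) ^ 2) :=
  imp_KL4 1000 (by norm_num) (p := ⟨20588, 31523, 0, 34284⟩) (by decide) (by decide) (n := 60)
    (by decide +kernel)

end Pool.Agent.S5.E.B2
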