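import Pool.Agent.S5.E.B2.PolC

/-!
# Mixed chains, block E: vertices with two twists, kernel runs (`P`, first part)
-/

set_option autoImplicit false

namespace Pool.Agent.S5.E.B2

open Pool.Agent.S3.NI

set_option maxRecDepth 100000 in
theorem P_SB_PL : Imp true rP rSB (fun u v => v < ((760 : ℕ) : ℝ) / 1000 * u) :=
  imp_PL5 760 (by norm_num) (p := ⟨17679, 33688, 0, 34284⟩) (by decide) (by decide) (n := 60)
    (by decide +kernel)

set_option maxRecDepth 100000 in
theorem P_SB_KL : Imp true rP rSB (fun u v => u ^ 2 + v ^ 2 < (((1020 : ℕ) : ℝ) / 1000) ^ 2) :=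
  imp_KL5 1020 (by norm_num) (p := ⟨17679, 33688, 0, 34284⟩) (by decide) (by decide) (n := 60)
    (by decide +kernel)

set_option maxRecDepth 100000 in
theorem P_SB_KG : Imp true rP rSB (fun u v => (((700 : ℕ) : ℝ) / 1000) ^ 2 < u ^ 2 + v ^ 2) :=
  imp_KG5 700 (by norm_num) (p := ⟨17679, 33688, 0, 34284⟩) (by decide) (by decide) (n := 60)
    (by decide +kernel)

set_option maxRecDepth 100000 in
theorem PA_One_PL : Imp true rPA rOne (fun u v => v < ((760 : ℕ) : ℝ) / 1000 * u) :=
  imp_PL4 760 (by norm_num) (p := ⟨0, 33688, 0, 0⟩) (by decide) (by decide) (n := 60)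
    (by decide +kernel)

set_option maxRecDepth 100000 in
theorem PA_One_PG : Imp true rPA rOne (fun u v => ((365 : ℕ) : ℝ) / 1000 * u < v) :=
  imp_PG4 365 (by norm_num) (p := ⟨0, 33688, 0, 0⟩) (by decide) (by decide) (n := 60)
    (by decide +kernel)

set_option maxRecDepth 100000 in
theorem PA_One_KL : Imp true rPA rOne (fun u v => u ^ 2 + v ^ 2 < (((1020 : ℕ) : ℝ) / 1000) ^ 2) :=
  imp_KL4 1020 (by norm_num) (p := ⟨0, 33688, 0, 0⟩) (by decide) (by decide) (n := 60)
    (by decide +kernel)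

set_option maxRecDepth 100000 in
theorem PA_One_KG : Imp true rPA rOne (fun u v => (((700 : ℕ) : ℝ) / 1000) ^ 2 < u ^ 2 + v ^ 2) :=
  imp_KG4 700 (by norm_num) (p := ⟨0, 33688, 0, 0⟩) (by decide) (by decide) (n := 60)
    (by decide +kernel)

set_option maxRecDepth 100000 in
theorem PA_One_XY : Imp true rPA rOne (fun u v => ((200 : ℕ) : ℝ) / 1000 < u * v) :=
  imp_XY 200 ok_PA ok_One (n := 60) (by decide +kernel)

end Pool.Agent.S5.E.B2
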