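import Pool.Agent.S5.E.B2.PolC

/-!
# Mixed chains, block E: vertices with two twists, kernel runs (`P`, second part)
-/

set_option autoImplicit false

namespace Pool.Agent.S5.E.B2

open Pool.Agent.S3.NI

set_option maxRecDepth 100000 in
theorem P_SB_PG : Imp true rP rSB (fun u v => ((365 : ℕ) : ℝ) / 1000 * u < v) :=
  imp_PG5 365 (by norm_num) (p := ⟨17679, 33688, 0, 34284⟩) (by decide) (by decide) (n := 60)
    (by decide +kernel)

end Pool.Agent.S5.E.B2
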