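import Pool.Agent.S5.E.B2.PolC

/-!
# Mixed chains, block E: vertices with two twists, kernel runs (`P`, third part)
-/

set_option autoImplicit false

namespace Pool.Agent.S5.E.B2

open Pool.Agent.S3.NI

set_option maxRecDepth 100000 in
theorem P_SB_XY : Imp true rP rSB (fun u v => ((200 : ℕ) : ℝ) / 1000 < u * v) :=
  imp_XY 200 ok_P ok_SB (n := 60) (by decide +kernel)

end Pool.Agent.S5.E.B2
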