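import Pool.Agent.S5.E.B2.PolC

/-!
# Mixed chains, block E: vertices with two twists, kernel runs (`T` next to `S3`, end vertices)
-/

set_option autoImplicit false

namespace Pool.Agent.S5.E.B2

open Pool.Agent.S3.NI

set_option maxRecDepth 100000 in
theorem T_S3_PL : Imp true rT rS3 (fun u v => v < ((900 : ℕ) : ℝ) / 1000 * u) :=
  imp_PL4 900 (by norm_num) (p := ⟨9901, 33688, 0, 34284⟩) (by decide) (by decide) (n := 60)
    (by decide +kernel)

set_option maxRecDepth 100000 in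
theorem T_S3_PG : Imp true rT rS3 (fun u v => ((340 : ℕ) : ℝ) / 1000 * u < v) :=
  imp_PG4 340 (by norm_num) (p := ⟨9901, 33688, 0, 34284⟩) (by decide) (by decide) (n := 60)
    (by decide +kernel)

set_option maxRecDepth 100000 in
theorem T_S3_KL : Imp true rT rS3 (fun u v => u ^ 2 + v ^ 2 < (((1060 : ℕ) : ℝ) / 1000) ^ 2) :=
  imp_KL4 1060 (by norm_num) (p := ⟨9901, 33688, 0, 34284⟩) (by decide) (by decide) (n := 60)
    (by decide +kernel)

set_option maxRecDepth 100000 in
theorem T_S3_KG : Imp true rT rS3 (fun u v => (((690 : ℕ) : ℝ) / 1000) ^ 2 < u ^ 2 + v ^ 2) :=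
  imp_KG4 690 (by norm_num) (p := ⟨9901, 33688, 0, 34284⟩) (by decide) (by decide) (n := 60)
    (by decide +kernel)

set_option maxRecDepth 100000 in
theorem TA_One_PL : Imp true rTA rOne (fun u v => v < ((900 : ℕ) : ℝ) / 1000 * u) :=
  imp_PL4 900 (by norm_num) (p := ⟨0, 33688, 0, 0⟩) (by decide) (by decide) (n := 60)
    (by decide +kernel)

set_option maxRecDepth 100000 in
theorem TA_One_PG : Imp true rTA rOne (fun u v => ((340 : ℕ) : ℝ) / 1000 * u < v) :=
  imp_PG4 340 (by norm_num) (p := ⟨0, 33688, 0, 0⟩) (by decide) (by decide) (n := 60)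
    (by decide +kernel)

set_option maxRecDepth 100000 in
theorem TA_One_KL : Imp true rTA rOne (fun u v => u ^ 2 + v ^ 2 < (((1060 : ℕ) : ℝ) / 1000) ^ 2) :=
  imp_KL4 1060 (by norm_num) (p := ⟨0, 33688, 0, 0⟩) (by decide) (by decide) (n := 60)
    (by decide +kernel)

set_option maxRecDepth 100000 in
theorem TA_One_KG : Imp true rTA rOne (fun u v => (((690 : ℕ) : ℝ) / 1000) ^ 2 < u ^ 2 + v ^ 2) :=
  imp_KG4 690 (by norm_num) (p := ⟨0, 33688, 0, 0⟩) (by decide) (by decide) (n := 60)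
    (by decide +kernel)

set_option maxRecDepth 100000 in
theorem EB_S3_PL : Imp true rEB rS3 (fun u v => v < ((930 : ℕ) : ℝ) / 1000 * u) :=
  imp_PL4 930 (by norm_num) (p := ⟨20588, 31523, 0, 34284⟩) (by decide) (by decide) (n := 60)
    (by decide +kernel)

set_option maxRecDepth 100000 in
theorem EB_S3_PG : Imp true rEB rS3 (fun u v => ((370 : ℕ) : ℝ) / 1000 * u < v) :=
  imp_PG4 370 (by norm_num) (p := ⟨20588, 31523, 0, 34284⟩) (by decide) (by decide) (n := 60)
    (by decide +kernel)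

set_option maxRecDepth 100000 in
theorem EB_S3_KL : Imp true rEB rS3 (fun u v => u ^ 2 + v ^ 2 < (((1020 : ℕ) : ℝ) / 1000) ^ 2) :=
  imp_KL4 1020 (by norm_num) (p := ⟨20588, 31523, 0, 34284⟩) (by decide) (by decide) (n := 60)
    (by decide +kernel)

set_option maxRecDepth 100000 in
theorem EB_S3_KG : Imp true rEB rS3 (fun u v => (((660 : ℕ) : ℝ) / 1000) ^ 2 < u ^ 2 + v ^ 2) :=
  imp_KG4 660 (by norm_num) (p := ⟨20588, 31523, 0, 34284⟩) (by decide) (by decide) (n := 60)
    (by decide +kernel)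

set_option maxRecDepth 100000 in
theorem EA_One_PL : Imp true rEA rOne (fun u v => v < ((930 : ℕ) : ℝ) / 1000 * u) :=
  imp_PL4 930 (by norm_num) (p := ⟨0, 31523, 0, 0⟩) (by decide) (by decide) (n := 60)
    (by decide +kernel)

set_option maxRecDepth 100000 in
theorem EA_One_PG : Imp true rEA rOne (fun u v => ((370 : ℕ) : ℝ) / 1000 * u < v) :=
  imp_PG4 370 (by norm_num) (p := ⟨0, 31523, 0, 0⟩) (by decide) (by decide) (n := 60)
    (by decide +kernel)

set_option maxRecDepth 100000 in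
theorem EA_One_KL : Imp true rEA rOne (fun u v => u ^ 2 + v ^ 2 < (((1020 : ℕ) : ℝ) / 1000) ^ 2) :=
  imp_KL4 1020 (by norm_num) (p := ⟨0, 31523, 0, 0⟩) (by decide) (by decide) (n := 60)
    (by decide +kernel)

set_option maxRecDepth 100000 in
theorem EA_One_KG : Imp true rEA rOne (fun u v => (((660 : ℕ) : ℝ) / 1000) ^ 2 < u ^ 2 + v ^ 2) :=
  imp_KG4 660 (by norm_num) (p := ⟨0, 31523, 0, 0⟩) (by decide) (by decide) (n := 60)
    (by decide +kernel)

end Pool.Agent.S5.E.B2
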