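import Pool.Agent.S5.E.B2.TestHi
import Pool.Agent.S5.E.B2.PolC

/-!
# Mixed chains, block E: vertices with two twists, kernel runs (`A3` next to `S3`, first part)
-/

set_option autoImplicit false

namespace Pool.Agent.S5.E.B2

open Pool.Agent.S3.NI

set_option maxRecDepth 100000 in
theorem A3_S3_PL : Imp true rA3 rS3 (fun u v => v < ((1035 : ℕ) : ℝ) / 1000 * u) :=
  imp_PH 1035 (by norm_num) ok_A3 ok_S3 (n := 60) (by decide +kernel)

set_option maxRecDepth 100000 in
theorem A3_One_PL : Imp true rA3 rOne (fun u v => v < ((1000 : ℕ) : ℝ) / 1000 * u) :=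
  imp_PL4 1000 (by norm_num) (p := ⟨0, 28758, 0, 0⟩) (by decide) (by decide) (n := 60)
    (by decide +kernel)

set_option maxRecDepth 100000 in
theorem A3_One_PG : Imp true rA3 rOne (fun u v => ((400 : ℕ) : ℝ) / 1000 * u < v) :=
  imp_PG4 400 (by norm_num) (p := ⟨0, 28758, 0, 0⟩) (by decide) (by decide) (n := 60)
    (by decide +kernel)

set_option maxRecDepth 100000 in
theorem A3_One_KL : Imp true rA3 rOne (fun u v => u ^ 2 + v ^ 2 < (((1080 : ℕ) : ℝ) / 1000) ^ 2) :=
  imp_KL4 1080 (by norm_num) (p := ⟨0, 28758, 0, 0⟩) (by decide) (by decide) (n := 60)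
    (by decide +kernel)

set_option maxRecDepth 100000 in
theorem A3_One_KG : Imp true rA3 rOne (fun u v => (((670 : ℕ) : ℝ) / 1000) ^ 2 < u ^ 2 + v ^ 2) :=
  imp_KG4 670 (by norm_num) (p := ⟨0, 28758, 0, 0⟩) (by decide) (by decide) (n := 60)
    (by decide +kernel)

end Pool.Agent.S5.E.B2
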