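import Pool.Agent.S5.E.B2.PolC

/-!
# Mixed chains, block E: vertices with two twists, kernel runs (two `A` edges, second part)
-/

set_option autoImplicit false

namespace Pool.Agent.S5.E.B2

open Pool.Agent.S3.NI

set_option maxRecDepth 100000 in
theorem ET_A3_PL : Imp false rET rA3 (fun u v => v < ((760 : ℕ) : ℝ) / 1000 * u) :=
  imp_PL4 760 (by norm_num) (p := ⟨0, 35758, 0, 28758⟩) (by decide) (by decide) (n := 60)
    (by decide +kernel)

set_option maxRecDepth 100000 in
theorem ET_A3_PG : Imp false rET rA3 (fun u v => ((200 : ℕ) : ℝ) / 1000 * u < v) :=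
  imp_PG4 200 (by norm_num) (p := ⟨0, 35758, 0, 28758⟩) (by decide) (by decide) (n := 60)
    (by decide +kernel)

set_option maxRecDepth 100000 in
theorem ET_A3_KG : Imp false rET rA3 (fun u v => (((690 : ℕ) : ℝ) / 1000) ^ 2 < u ^ 2 + v ^ 2) :=
  imp_KG4 690 (by norm_num) (p := ⟨0, 35758, 0, 28758⟩) (by decide) (by decide) (n := 60)
    (by decide +kernel)

set_option maxRecDepth 100000 in
theorem ET_NT_PL : Imp false rET rNT (fun u v => v < ((760 : ℕ) : ℝ) / 1000 * u) :=
  imp_PL4 760 (by norm_num) (p := ⟨0, 35758, 0, 38374⟩) (by decide) (by decide) (n := 60)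
    (by decide +kernel)

set_option maxRecDepth 100000 in
theorem ET_NT_PG : Imp false rET rNT (fun u v => ((200 : ℕ) : ℝ) / 1000 * u < v) :=
  imp_PG4 200 (by norm_num) (p := ⟨0, 35758, 0, 38374⟩) (by decide) (by decide) (n := 60)
    (by decide +kernel)

set_option maxRecDepth 100000 in
theorem ET_NT_KG : Imp false rET rNT (fun u v => (((690 : ℕ) : ℝ) / 1000) ^ 2 < u ^ 2 + v ^ 2) :=
  imp_KG4 690 (by norm_num) (p := ⟨0, 35758, 0, 38374⟩) (by decide) (by decide) (n := 60)
    (by decide +kernel)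

end Pool.Agent.S5.E.B2
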