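import Pool.Agent.S5.E.B2.Regs
import Pool.Agent.S5.E.Homot
import Pool.Agent.S3.E.TwoA

/-!
# Mixed chains, block E: vertices with two twists, the slots of a zero
-/

set_option autoImplicit false

namespace Pool.Agent.S5.E

open Complex
open Pool.Agent.S3.E (al ph tt k2 s2 cc gg norm_cos_eq norm_cos_sq cos_polar al_pos al_lt tt_pos
  ph_pos ph_lt two_quartic two_cosh two_end)
open Pool.Agent.S5.E.B2 (Rg InR V2 sgy rOne)

namespace B2

/-- `r'` contains the powers of `r`. -/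
def Sc (r r' : Rg) : Bool :=
  Nat.ble r'.k0 r.k0 && (Nat.ble r'.k0 1000 && (Nat.ble r.k1 r'.k1 && (Nat.ble 1000 r'.k1 &&
    (Nat.ble r'.t0 0 && (Nat.ble r.t1 r'.t1 && Nat.ble r'.m 0)))))

theorem Sc_iff {r r' : Rg} (h : Sc r r' = true) : r'.k0 ≤ r.k0 ∧ r'.k0 ≤ 1000 ∧ r.k1 ≤ r'.k1 ∧
    1000 ≤ r'.k1 ∧ r'.t0 ≤ 0 ∧ r.t1 ≤ r'.t1 ∧ r'.m ≤ 0 := by
  unfold Sc at h
  simpa only [Bool.and_eq_true, Nat.ble_eq] using h

/-- Powers of a slot. -/
theorem InR.scale {r r' : Rg} {k φ t : ℝ} (hk : 0 < k) (hφ : 0 ≤ φ) (hφ' : φ < Real.pi / 2)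
    (h : InR r (k * Real.cos φ) (k * Real.sin φ)) (h0 : 0 ≤ t) (h1 : t ≤ 1) (hs : Sc r r' = true) :
    InR r' (k ^ t * Real.cos (t * φ)) (k ^ t * Real.sin (t * φ)) := by
  obtain ⟨c1, c2, c3, c4, c5, c6, c7⟩ := Sc_iff hs
  have c1' : (r'.k0 : ℝ) ≤ r.k0 := by exact_mod_cast c1
  have c2' : (r'.k0 : ℝ) ≤ 1000 := by exact_mod_cast c2
  have c3' : (r.k1 : ℝ) ≤ r'.k1 := by exact_mod_cast c3
  have c4' : (1000 : ℝ) ≤ r'.k1 := by exact_mod_cast c4
  have c5' : (r'.t0 : ℝ) = 0 := by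
    have : r'.t0 = 0 := by omega
    rw [this]; norm_num
  have c6' : (r.t1 : ℝ) ≤ r'.t1 := by exact_mod_cast c6
  have c7' : (r'.m : ℝ) = 0 := by
    have : r'.m = 0 := by omega
    rw [this]; norm_num
  have hp := Real.pi_pos
  have htφ : t * φ ≤ φ := by nlinarith
  have htφ0 : 0 ≤ t * φ := mul_nonneg h0 hφ
  have hc : 0 < Real.cos φ := Real.cos_pos_of_mem_Ioo ⟨by linarith, hφ'⟩
  have hct : 0 < Real.cos (t * φ) := Real.cos_pos_of_mem_Ioo ⟨by linarith, by linarith⟩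
  have hst : 0 ≤ Real.sin (t * φ) := Real.sin_nonneg_of_nonneg_of_le_pi htφ0 (by linarith)
  have hkt : 0 < k ^ t := Real.rpow_pos_of_pos hk t
  have hsq : (k ^ t * Real.cos (t * φ)) ^ 2 + (k ^ t * Real.sin (t * φ)) ^ 2 = (k ^ t) ^ 2 := by
    have := Real.sin_sq_add_cos_sq (t * φ)
    linear_combination (k ^ t) ^ 2 * this
  have hsq0 : (k * Real.cos φ) ^ 2 + (k * Real.sin φ) ^ 2 = k ^ 2 := by
    have := Real.sin_sq_add_cos_sq φ
    linear_combination k ^ 2 * this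
  have hlo := h.lo
  have hhi := h.hi
  rw [hsq0] at hlo hhi
  have hk0 : (r.k0 : ℝ) / 1000 ≤ k := by
    exact (pow_le_pow_iff_left₀ (by positivity) hk.le (by norm_num)).1 hlo
  have hk1 : k ≤ (r.k1 : ℝ) / 1000 := by
    exact (pow_le_pow_iff_left₀ hk.le (by positivity) (by norm_num)).1 hhi
  have a1 := h.a1
  refine ⟨by positivity, by positivity, ?_, ?_, ?_, ?_, ?_⟩
  · rw [hsq]
    apply pow_le_pow_left₀ (by positivity)
    rcases le_total k 1 with hk' | hk'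
    · have : k ≤ k ^ t := by
        have := Real.rpow_le_rpow_of_exponent_ge hk hk' h1
        rwa [Real.rpow_one] at this
      have : (r'.k0 : ℝ) / 1000 ≤ (r.k0 : ℝ) / 1000 := by linarith
      linarith
    · have : 1 ≤ k ^ t := Real.one_le_rpow hk' h0
      have : (r'.k0 : ℝ) / 1000 ≤ 1 := by linarith
      linarith
  · rw [hsq]
    apply pow_le_pow_left₀ hkt.le
    rcases le_total k 1 with hk' | hk'
    · have : k ^ t ≤ 1 := Real.rpow_le_one hk.le hk' h0
      have : 1 ≤ (r'.k1 : ℝ) / 1000 := by linarith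
      linarith
    · have : k ^ t ≤ k := by
        have := Real.rpow_le_rpow_of_exponent_le hk' h1
        rwa [Real.rpow_one] at this
      have : (r.k1 : ℝ) / 1000 ≤ (r'.k1 : ℝ) / 1000 := by linarith
      linarith
  · rw [c5']
    have : 0 ≤ k ^ t * Real.sin (t * φ) := by positivity
    linarith
  · -- `sin (tφ) ≤ T cos (tφ)`
    have e1 : 0 ≤ Real.sin (φ - t * φ) :=
      Real.sin_nonneg_of_nonneg_of_le_pi (by linarith) (by linarith)
    rw [Real.sin_sub] at e1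
    have e2 : Real.sin φ ≤ (r.t1 : ℝ) / 1000 * Real.cos φ := by
      have : k * Real.sin φ ≤ k * ((r.t1 : ℝ) / 1000 * Real.cos φ) := by linarith
      exact le_of_mul_le_mul_left this hk
    have e3 : Real.sin φ ≤ (r'.t1 : ℝ) / 1000 * Real.cos φ := by
      refine e2.trans ?_
      apply mul_le_mul_of_nonneg_right _ hc.le
      linarith
    have e4 : Real.sin (t * φ) * Real.cos φ ≤
        ((r'.t1 : ℝ) / 1000 * Real.cos (t * φ)) * Real.cos φ := by
      have := mul_le_mul_of_nonneg_right e3 hct.le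
      nlinarith
    have e5 := le_of_mul_le_mul_right e4 hc
    calc k ^ t * Real.sin (t * φ) ≤ k ^ t * ((r'.t1 : ℝ) / 1000 * Real.cos (t * φ)) :=
          mul_le_mul_of_nonneg_left e5 hkt.le
      _ = _ := by ring
  · rw [c7']
    have : 0 ≤ (k ^ t * Real.cos (t * φ)) * (k ^ t * Real.sin (t * φ)) := by positivity
    linarith

theorem inR_one : InR rOne 1 0 := by
  constructor <;> norm_num [rOne]

/-- `r'` contains `r`. -/
def Sb (r r' : Rg) : Bool :=
  Nat.ble r'.k0 r.k0 && (Nat.ble r.k1 r'.k1 && (Nat.ble r'.t0 r.t0 && (Nat.ble r.t1 r'.t1 &&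
    Nat.ble r'.m r.m)))

theorem InR.sub {r r' : Rg} {x y : ℝ} (h : InR r x y) (hs : Sb r r' = true) : InR r' x y := by
  unfold Sb at hs
  simp only [Bool.and_eq_true, Nat.ble_eq] at hs
  obtain ⟨c1, c2, c3, c4, c5⟩ := hs
  have c1' : (r'.k0 : ℝ) ≤ r.k0 := by exact_mod_cast c1
  have c2' : (r.k1 : ℝ) ≤ r'.k1 := by exact_mod_cast c2
  have c3' : (r'.t0 : ℝ) ≤ r.t0 := by exact_mod_cast c3
  have c4' : (r.t1 : ℝ) ≤ r'.t1 := by exact_mod_cast c4
  have c5' : (r'.m : ℝ) ≤ r.m := by exact_mod_cast c5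
  have x0 := h.x0
  refine ⟨h.x0, h.y0, ?_, ?_, ?_, ?_, ?_⟩
  · refine le_trans ?_ h.lo
    apply pow_le_pow_left₀ (by positivity)
    linarith
  · refine h.hi.trans ?_
    apply pow_le_pow_left₀ (by positivity)
    linarith
  · refine le_trans ?_ h.a0
    apply mul_le_mul_of_nonneg_right _ x0
    linarith
  · refine h.a1.trans ?_
    apply mul_le_mul_of_nonneg_right _ x0
    linarith
  · refine le_trans ?_ h.m0
    linarith

/-- The value of a slot of kind `s` in a region. -/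
structure SR (s : Bool) (r : Rg) (b : ℂ) (x y : ℝ) : Prop where
  x0 : 0 < x
  reg : InR r x y
  eq : b = (x : ℂ) + (sgy s y : ℝ) * I

end B2

open B2

variable {ι κ : Type*} {m : Bool}

namespace Zr

variable {a : ι → ℝ} {nl nr : ι → Option (ι × Bool)} {g : ι → κ → ℂ → ℝ} {τ : ℝ} {z : ι → ℂ}

/-- `Re cos z` and `- Im cos z`. -/
theorem cos_re (h : Zr m a nl nr g τ z) (i : ι) :
    (cos (z i)).re = ‖cos (z i)‖ * Real.cos (ph (z i).re (z i).im) := by
  conv_lhs => rw [cos_polar (h.pos i).1 (h.pos i).2.1]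
  rw [← ofReal_neg, re_ofReal_mul, exp_ofReal_mul_I_re, Real.cos_neg]

theorem cos_im (h : Zr m a nl nr g τ z) (i : ι) :
    -(cos (z i)).im = ‖cos (z i)‖ * Real.sin (ph (z i).re (z i).im) := by
  conv_lhs => rw [cos_polar (h.pos i).1 (h.pos i).2.1]
  rw [← ofReal_neg, im_ofReal_mul, exp_ofReal_mul_I_im, Real.sin_neg]
  ring

theorem phlt (_ : Zr m a nl nr g τ z) (i : ι) : ph (z i).re (z i).im < Real.pi / 2 :=
  ph_lt _ _

theorem v0 (h : Zr m a nl nr g τ z) (i : ι) : 0 < -(cos (z i)).im := by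
  rw [h.cos_im]
  exact mul_pos (h.norm_pos i) (Real.sin_pos_of_pos_of_lt_pi (h.phpos i)
    (by linarith [h.phlt i, Real.pi_pos]))

/-- A slot at exponent `t`. -/
theorem slot (h : Zr m a nl nr g τ z) {j : ι} {s : Bool} {r r' : Rg}
    (hr : InR r (cos (z j)).re (-(cos (z j)).im)) (hs : Sc r r' = true) :
    ∃ x y, SR s r' (bo m τ z (some (j, s))) x y ∧
      x ^ 2 + y ^ 2 = ro m τ z (some (j, s)) ^ 2 := by
  rw [h.cos_re, h.cos_im] at hr
  have hsc := InR.scale (h.norm_pos j) (h.phpos j).le (h.phlt j) hr (h.ex_mem s).1 (h.ex_mem s).2 hs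
  have hro : ro m τ z (some (j, s)) = ‖cos (z j)‖ ^ (ex m s τ) := rfl
  have htφ0 : 0 ≤ ex m s τ * ph (z j).re (z j).im := mul_nonneg (h.ex_mem s).1 (h.phpos j).le
  have htφ : ex m s τ * ph (z j).re (z j).im ≤ ph (z j).re (z j).im := by
    have := (h.ex_mem s).2
    have := (h.phpos j).le
    nlinarith
  have hcos : 0 < Real.cos (ex m s τ * ph (z j).re (z j).im) :=
    Real.cos_pos_of_mem_Ioo ⟨by linarith [Real.pi_pos], by linarith [h.phlt j]⟩
  refine ⟨_, _, ⟨?_, hsc, ?_⟩, ?_⟩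
  · exact mul_pos (Real.rpow_pos_of_pos (h.norm_pos j) _) hcos
  · apply Complex.ext
    · rw [h.bo_re]
      simp only [be, hro, add_re, ofReal_re, mul_re, I_re, I_im, ofReal_im, mul_zero, mul_one,
        sub_zero, add_zero]
      cases s
      · simp [sg]
      · simp [sg]
    · rw [h.bo_im]
      simp only [be, hro, add_im, ofReal_im, mul_im, ofReal_re, I_re, I_im, mul_zero, mul_one,
        zero_add, add_zero, sgy]
      cases s
      · simp [sg]
      · simp [sg]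
  · rw [hro]
    have := Real.sin_sq_add_cos_sq (ex m s τ * ph (z j).re (z j).im)
    linear_combination (‖cos (z j)‖ ^ (ex m s τ)) ^ 2 * this

/-- A slot at exponent one. -/
theorem slot1 (h : Zr m a nl nr g τ z) {j : ι} {s : Bool} (hm : ex m s τ = 1) {r : Rg}
    (hr : InR r (cos (z j)).re (-(cos (z j)).im)) :
    ∃ x y, SR s r (bo m τ z (some (j, s))) x y ∧
      x ^ 2 + y ^ 2 = ro m τ z (some (j, s)) ^ 2 := by
  refine ⟨_, _, ⟨h.re_pos j, hr, ?_⟩, ?_⟩
  · apply Complex.ext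
    · rw [h.bo_re]
      simp only [be, ro, hm, add_re, ofReal_re, mul_re, I_re, I_im, ofReal_im, mul_zero, mul_one,
        sub_zero, add_zero, Real.rpow_one, one_mul]
      rw [h.cos_re]
      cases s
      · simp [sg]
      · simp [sg]
    · rw [h.bo_im]
      simp only [be, ro, hm, add_im, ofReal_im, mul_im, ofReal_re, I_re, I_im, mul_zero, mul_one,
        zero_add, add_zero, sgy, Real.rpow_one, one_mul]
      rw [h.cos_im]
      cases s
      · simp [sg]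
      · simp [sg]
  · simp only [ro, hm, Real.rpow_one]
    rw [h.cos_re, h.cos_im]
    have := Real.sin_sq_add_cos_sq (ph (z j).re (z j).im)
    linear_combination ‖cos (z j)‖ ^ 2 * this

/-- A slot at exponent zero. -/
theorem slot0 (_ : Zr m a nl nr g τ z) {j : ι} {s : Bool} (hm : ex m s τ = 0) :
    SR s rOne (bo m τ z (some (j, s))) 1 0 ∧ ro m τ z (some (j, s)) = 1 := by
  refine ⟨⟨one_pos, inR_one, ?_⟩, ?_⟩
  · simp only [bo, hm, sgy]
    cases s <;> simp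
  · simp only [ro, hm, Real.rpow_zero]

/-- The quartic at a vertex with two twists. -/
theorem quartic (h : Zr m a nl nr g τ z) {i : ι} (hi : a i = 2) {o₁ o₂ : Option (ι × Bool)}
    (ho : (nl i = o₁ ∧ nr i = o₂) ∨ (nl i = o₂ ∧ nr i = o₁)) :
    4 * cos (z i) ^ 4 - 4 * (bo m τ z o₁ * bo m τ z o₂) * cos (z i) ^ 2 +
      (bo m τ z o₁ + bo m τ z o₂) ^ 2 = 0 := by
  have h1 := h.eqn i
  rw [hi] at h1
  push_cast at h1
  have h2 := two_quartic h1 (h.sinh_l i) (h.sinh_r i) (h.cos_ne i) (h.sin_ne i)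
  rcases ho with ⟨h3, h4⟩ | ⟨h3, h4⟩
  · rw [h3, h4] at h2
    exact h2
  · rw [h3, h4] at h2
    linear_combination h2

/-- The data of a vertex with two twists. -/
theorem v2 (h : Zr m a nl nr g τ z) {i : ι} (hi : a i = 2) {o₁ o₂ : Option (ι × Bool)}
    (ho : (nl i = o₁ ∧ nr i = o₂) ∨ (nl i = o₂ ∧ nr i = o₁)) {so : Bool} {r₁ r₂ : Rg}
    {x₁ y₁ x₂ y₂ : ℝ} (h₁ : SR false r₁ (bo m τ z o₁) x₁ y₁) (h₂ : SR so r₂ (bo m τ z o₂) x₂ y₂)
    (hbr : 0 < ((cos (z i)).re ^ 2 - (-(cos (z i)).im) ^ 2) * (y₁ + sgy so y₂) +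
      2 * (cos (z i)).re * -(cos (z i)).im * (x₁ + x₂)) :
    V2 so x₁ y₁ x₂ y₂ (cos (z i)).re (-(cos (z i)).im) := by
  refine ⟨h₁.x0, h₂.x0, h.re_pos i, h.v0 i, ?_, hbr⟩
  have h3 := h.quartic hi ho
  have e : cos (z i) = ((cos (z i)).re : ℂ) - ((-(cos (z i)).im : ℝ) : ℂ) * I := by
    apply Complex.ext <;> simp
  have e1 := h₁.eq
  simp only [sgy, Bool.false_eq_true, if_false] at e1
  rw [← e, ← e1, ← h₂.eq]
  linear_combination h3

end Zr

end Pool.Agent.S5.E
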