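import Pool.Agent.S5.E.B2.End2
import Pool.Agent.S5.E.B2.RunP1
import Pool.Agent.S5.E.B2.RunP2
import Pool.Agent.S5.E.B2.RunP3
import Pool.Agent.S5.E.B2.RunS1
import Pool.Agent.S5.E.B2.RunS2
import Pool.Agent.S5.E.B2.RunS3
import Pool.Agent.S5.E.B2.RunT1
import Pool.Agent.S5.E.B2.RunT2
import Pool.Agent.S5.E.B2.RunT3
import Pool.Agent.S5.E.B2.RunE

/-!
# Mixed chains, block E: vertices with two twists, the regions are strict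
-/

set_option autoImplicit false

namespace Pool.Agent.S5.E

open Complex
open Pool.Agent.S5.E.B2

namespace B2

/-! ### The outputs of the runs -/

theorem m00 {so : Bool} {x₁ y₁ x₂ y₂ u v : ℝ} (h : V2 so x₁ y₁ x₂ y₂ u v) :
    (((0 : ℕ) : ℝ)) / 1000 < u * v := by
  have := mul_pos h.u0 h.v0
  simpa using this

theorem imp_P_SB : Imp true rP rSB (StR rP) := fun x₁ y₁ x₂ y₂ u v g1 g2 h =>
  ⟨P_SB_KG x₁ y₁ x₂ y₂ u v g1 g2 h, P_SB_KL x₁ y₁ x₂ y₂ u v g1 g2 h,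
    P_SB_PG x₁ y₁ x₂ y₂ u v g1 g2 h, P_SB_PL x₁ y₁ x₂ y₂ u v g1 g2 h,
    P_SB_XY x₁ y₁ x₂ y₂ u v g1 g2 h⟩

theorem imp_PA_One : Imp true rPA rOne (StR rP) := fun x₁ y₁ x₂ y₂ u v g1 g2 h =>
  ⟨PA_One_KG x₁ y₁ x₂ y₂ u v g1 g2 h, PA_One_KL x₁ y₁ x₂ y₂ u v g1 g2 h,
    PA_One_PG x₁ y₁ x₂ y₂ u v g1 g2 h, PA_One_PL x₁ y₁ x₂ y₂ u v g1 g2 h,
    PA_One_XY x₁ y₁ x₂ y₂ u v g1 g2 h⟩

theorem imp_T_S3 : Imp true rT rS3 (StR rS3T) := fun x₁ y₁ x₂ y₂ u v g1 g2 h =>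
  ⟨T_S3_KG x₁ y₁ x₂ y₂ u v g1 g2 h, T_S3_KL x₁ y₁ x₂ y₂ u v g1 g2 h,
    T_S3_PG x₁ y₁ x₂ y₂ u v g1 g2 h, T_S3_PL x₁ y₁ x₂ y₂ u v g1 g2 h, m00 h⟩

theorem imp_TA_One : Imp true rTA rOne (StR rS3T) := fun x₁ y₁ x₂ y₂ u v g1 g2 h =>
  ⟨TA_One_KG x₁ y₁ x₂ y₂ u v g1 g2 h, TA_One_KL x₁ y₁ x₂ y₂ u v g1 g2 h,
    TA_One_PG x₁ y₁ x₂ y₂ u v g1 g2 h, TA_One_PL x₁ y₁ x₂ y₂ u v g1 g2 h, m00 h⟩

theorem imp_A3_S3 : Imp true rA3 rS3 (StR rS33) := fun x₁ y₁ x₂ y₂ u v g1 g2 h =>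
  ⟨A3_S3_KG x₁ y₁ x₂ y₂ u v g1 g2 h, A3_S3_KL x₁ y₁ x₂ y₂ u v g1 g2 h,
    A3_S3_PG x₁ y₁ x₂ y₂ u v g1 g2 h, A3_S3_PL x₁ y₁ x₂ y₂ u v g1 g2 h, m00 h⟩

theorem imp_A3_One : Imp true rA3 rOne (StR rS33) := fun x₁ y₁ x₂ y₂ u v g1 g2 h =>
  ⟨A3_One_KG x₁ y₁ x₂ y₂ u v g1 g2 h, A3_One_KL x₁ y₁ x₂ y₂ u v g1 g2 h,
    A3_One_PG x₁ y₁ x₂ y₂ u v g1 g2 h, by
      have h1 : v < ((1000 : ℕ) : ℝ) / 1000 * u := A3_One_PL x₁ y₁ x₂ y₂ u v g1 g2 h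
      have h2 := h.u0
      show v < ((1035 : ℕ) : ℝ) / 1000 * u
      push_cast at h1 ⊢
      norm_num at h1 ⊢
      linarith, m00 h⟩

theorem imp_EB_S3 : Imp true rEB rS3 (StR rS3E) := fun x₁ y₁ x₂ y₂ u v g1 g2 h =>
  ⟨EB_S3_KG x₁ y₁ x₂ y₂ u v g1 g2 h, EB_S3_KL x₁ y₁ x₂ y₂ u v g1 g2 h,
    EB_S3_PG x₁ y₁ x₂ y₂ u v g1 g2 h, EB_S3_PL x₁ y₁ x₂ y₂ u v g1 g2 h, m00 h⟩

theorem imp_EA_One : Imp true rEA rOne (StR rS3E) := fun x₁ y₁ x₂ y₂ u v g1 g2 h =>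
  ⟨EA_One_KG x₁ y₁ x₂ y₂ u v g1 g2 h, EA_One_KL x₁ y₁ x₂ y₂ u v g1 g2 h,
    EA_One_PG x₁ y₁ x₂ y₂ u v g1 g2 h, EA_One_PL x₁ y₁ x₂ y₂ u v g1 g2 h, m00 h⟩

/-- The bounds for `T` but the upper bound of the length. -/
def StT (u v : ℝ) : Prop := v < ((760 : ℕ) : ℝ) / 1000 * u ∧ ((200 : ℕ) : ℝ) / 1000 * u < v ∧
  (((690 : ℕ) : ℝ) / 1000) ^ 2 < u ^ 2 + v ^ 2

/-- The regions of the slots of `T`. -/
inductive RT : Rg → Prop
  | A3 : RT rA3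
  | NT : RT rNT
  | ET : RT rET

theorem imp_T {r₁ r₂ : Rg} (h1 : RT r₁) (h2 : RT r₂) : Imp false r₁ r₂ StT := by
  have hA3_A3 : Imp false rA3 rA3 StT := fun x₁ y₁ x₂ y₂ u v g1 g2 h =>
    ⟨A3_A3_PL x₁ y₁ x₂ y₂ u v g1 g2 h, A3_A3_PG x₁ y₁ x₂ y₂ u v g1 g2 h,
      A3_A3_KG x₁ y₁ x₂ y₂ u v g1 g2 h⟩
  have hA3_NT : Imp false rA3 rNT StT := fun x₁ y₁ x₂ y₂ u v g1 g2 h =>
    ⟨A3_NT_PL x₁ y₁ x₂ y₂ u v g1 g2 h, A3_NT_PG x₁ y₁ x₂ y₂ u v g1 g2 h,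
      A3_NT_KG x₁ y₁ x₂ y₂ u v g1 g2 h⟩
  have hNT_NT : Imp false rNT rNT StT := fun x₁ y₁ x₂ y₂ u v g1 g2 h =>
    ⟨NT_NT_PL x₁ y₁ x₂ y₂ u v g1 g2 h, NT_NT_PG x₁ y₁ x₂ y₂ u v g1 g2 h,
      NT_NT_KG x₁ y₁ x₂ y₂ u v g1 g2 h⟩
  have hET_A3 : Imp false rET rA3 StT := fun x₁ y₁ x₂ y₂ u v g1 g2 h =>
    ⟨ET_A3_PL x₁ y₁ x₂ y₂ u v g1 g2 h, ET_A3_PG x₁ y₁ x₂ y₂ u v g1 g2 h,
      ET_A3_KG x₁ y₁ x₂ y₂ u v g1 g2 h⟩
  have hET_NT : Imp false rET rNT StT := fun x₁ y₁ x₂ y₂ u v g1 g2 h =>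
    ⟨ET_NT_PL x₁ y₁ x₂ y₂ u v g1 g2 h, ET_NT_PG x₁ y₁ x₂ y₂ u v g1 g2 h,
      ET_NT_KG x₁ y₁ x₂ y₂ u v g1 g2 h⟩
  have hET_ET : Imp false rET rET StT := fun x₁ y₁ x₂ y₂ u v g1 g2 h =>
    ⟨ET_ET_PL x₁ y₁ x₂ y₂ u v g1 g2 h, ET_ET_PG x₁ y₁ x₂ y₂ u v g1 g2 h,
      ET_ET_KG x₁ y₁ x₂ y₂ u v g1 g2 h⟩
  cases h1 <;> cases h2
  · exact hA3_A3
  · exact hA3_NT
  · exact hET_A3.swap
  · exact hA3_NT.swap
  · exact hNT_NT
  · exact hET_NT.swap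
  · exact hET_A3
  · exact hET_NT
  · exact hET_ET

theorem RT.k0 {r : Rg} (h : RT r) : 570 ≤ r.k0 := by cases h <;> decide
theorem RT.t1 {r : Rg} (h : RT r) : r.t1 ≤ 900 := by cases h <;> decide
theorem RT.k1 {r : Rg} (h : RT r) : r.k1 ≤ 1060 := by cases h <;> decide

/-- The data of a vertex. -/
def VD (so : Bool) (r₁ r₂ : Rg) (b₁ b₂ : ℂ) (u v : ℝ) : Prop :=
  ∃ x₁ y₁ x₂ y₂, SR false r₁ b₁ x₁ y₁ ∧ SR so r₂ b₂ x₂ y₂ ∧ V2 so x₁ y₁ x₂ y₂ u v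

/-- The conditions for the branch. -/
def cS (r r₁ r₂ : Rg) : Bool :=
  Nat.ble 340 r.t0 && (Nat.ble r.t1 1040 && (Nat.ble 570 r₁.k0 && (Nat.ble r₁.t1 900 &&
    (Nat.ble r₂.t1 777 && Nat.ble r₂.k1 1020))))

end B2

variable {ι : Type*} {m : Bool}

/-- The constraints of the classes. -/
noncomputable def gC (a : ι → ℝ) (nl nr : ι → Option (ι × Bool)) : ι → Fin 5 → ℂ → ℝ :=
  fun i k w => gR (cls a nl nr i) k w

/-- The input from the vertices with three or more twists. -/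
structure In3 (a : ι → ℝ) (nl nr : ι → Option (ι × Bool)) (z : ι → ℂ) : Prop where
  s3 : ∀ i, 3 ≤ a i → InR rS3 (cos (z i)).re (-(cos (z i)).im)
  a3 : ∀ i j, 3 ≤ a i → (nl i = some (j, false) ∨ nr i = some (j, false)) →
    InR rA3 (cos (z i)).re (-(cos (z i)).im)

namespace Zr

section gen

variable {κ : Type*} {a : ι → ℝ} {nl nr : ι → Option (ι × Bool)} {g : ι → κ → ℂ → ℝ} {τ : ℝ}
  {z : ι → ℂ}

/-- The data of a special vertex. -/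
theorem vdS (h : Zr m a nl nr g τ z) {i j l : ι} (hi : a i = 2) (hs : Sp nl nr i j l)
    {r r₁ r₂ : Rg} (hr : InR r (cos (z i)).re (-(cos (z i)).im)) (hc : cS r r₁ r₂ = true)
    {x₁ y₁ x₂ y₂ : ℝ} (s₁ : SR false r₁ (bo m τ z (some (j, false))) x₁ y₁)
    (s₂ : SR true r₂ (bo m τ z (some (l, true))) x₂ y₂) :
    V2 true x₁ y₁ x₂ y₂ (cos (z i)).re (-(cos (z i)).im) := by
  unfold cS at hc
  simp only [Bool.and_eq_true, Nat.ble_eq] at hc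
  obtain ⟨c1, c2, c3, c4, c5, c6⟩ := hc
  refine h.v2 hi hs s₁ s₂ ?_
  apply br_S s₁.reg s₂.reg c3 c4 c5 c6 s₂.x0 (h.re_pos i)
  · have := hr.t0' c1
    norm_num at this ⊢
    linarith
  · have := hr.t1' c2
    norm_num at this ⊢
    linarith

/-- The data of a vertex with two `A` edges. -/
theorem vdT (h : Zr m a nl nr g τ z) {i j k : ι} (hi : a i = 2) (ht : IsT nl nr i j k)
    {r₁ r₂ : Rg} (hr : InR rT (cos (z i)).re (-(cos (z i)).im))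
    {x₁ y₁ x₂ y₂ : ℝ} (s₁ : SR false r₁ (bo m τ z (some (j, false))) x₁ y₁)
    (s₂ : SR false r₂ (bo m τ z (some (k, false))) x₂ y₂) :
    V2 false x₁ y₁ x₂ y₂ (cos (z i)).re (-(cos (z i)).im) := by
  refine h.v2 hi (Or.inl ht) s₁ s₂ ?_
  apply br_T s₁.reg s₂.reg s₁.x0 s₂.x0 (h.v0 i)
  have h1 := hr.t1' (T := 1000) (by decide)
  have h2 := h.re_pos i
  norm_num at h1
  linarith

end gen

variable {a : ι → ℝ} {nl nr : ι → Option (ι × Bool)} {τ : ℝ} {z : ι → ℂ}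

/-- The region of a vertex. -/
theorem reg (h : Zr m a nl nr (gC a nl nr) τ z) (i : ι) :
    InR (cls a nl nr i) (cos (z i)).re (-(cos (z i)).im) :=
  InR.of_g (h.re_pos i).le (h.v0 i).le (fun k => h.K.2.1 i k)

/-- Everything about a special vertex: the data, in one of eight situations. -/
inductive DS (a : ι → ℝ) (nl nr : ι → Option (ι × Bool)) (m : Bool) (τ : ℝ) (z : ι → ℂ)
    (i j l : ι) : Prop
  | PB (hm : m = true) (c : cls a nl nr i = rP) (d : VD true rP rSB (bo m τ z (some (j, false)))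
      (bo m τ z (some (l, true))) (cos (z i)).re (-(cos (z i)).im))
  | PA (hm : m = false) (c : cls a nl nr i = rP) (d : VD true rPA rOne
      (bo m τ z (some (j, false))) (bo m τ z (some (l, true))) (cos (z i)).re (-(cos (z i)).im))
  | TB (hm : m = true) (c : cls a nl nr i = rS3T) (d : VD true rT rS3
      (bo m τ z (some (j, false))) (bo m τ z (some (l, true))) (cos (z i)).re (-(cos (z i)).im))
  | TA (hm : m = false) (c : cls a nl nr i = rS3T) (d : VD true rTA rOne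
      (bo m τ z (some (j, false))) (bo m τ z (some (l, true))) (cos (z i)).re (-(cos (z i)).im))
  | SB (hm : m = true) (c : cls a nl nr i = rS33) (d : VD true rA3 rS3
      (bo m τ z (some (j, false))) (bo m τ z (some (l, true))) (cos (z i)).re (-(cos (z i)).im))
  | SA (hm : m = false) (c : cls a nl nr i = rS33) (d : VD true rA3 rOne
      (bo m τ z (some (j, false))) (bo m τ z (some (l, true))) (cos (z i)).re (-(cos (z i)).im))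
  | EB (hm : m = true) (c : cls a nl nr i = rS3E) (hj : a j = 2) (he : IsE nl nr j i)
      (d : VD true rEB rS3
      (bo m τ z (some (j, false))) (bo m τ z (some (l, true))) (cos (z i)).re (-(cos (z i)).im))
  | EA (hm : m = false) (c : cls a nl nr i = rS3E) (hj : a j = 2) (he : IsE nl nr j i)
      (d : VD true rEA rOne
      (bo m τ z (some (j, false))) (bo m τ z (some (l, true))) (cos (z i)).re (-(cos (z i)).im))


theorem ds (h : Zr m a nl nr (gC a nl nr) τ z) (hC : Ch a nl nr) (h3 : In3 a nl nr z) {i : ι}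
    (hi : a i = 2) (hT : ∀ j k, ¬ IsT nl nr i j k) (hE : ∀ j, ¬ IsE nl nr i j) :
    ∃ j l, Sp nl nr i j l ∧ DS a nl nr m τ z i j l := by
  have hreg := h.reg i
  rcases hm : m with _ | _
  · -- first stage
    subst hm
    have he0 : ex false true τ = 0 := rfl
    rcases hC.ty hi with ⟨j, k, h1, c⟩ | ⟨j, l, h1, hj, hl, c⟩ | ⟨j, l, h1, hj, he, hl, c⟩ |
      ⟨j, l, h1, hj, hl, c⟩ | ⟨j, l, h1, hj, hl, c⟩ | ⟨j, h1⟩
    · exact absurd h1 (hT j k)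
    · refine ⟨j, l, h1, .SA rfl c ?_⟩
      obtain ⟨s2, -⟩ := h.slot0 (j := l) (s := true) he0
      obtain ⟨x, y, s1, -⟩ := h.slot (s := false) (h3.a3 j i hj (hC.N.symm i j false h1.nbA))
        (r' := rA3) (by decide)
      rw [c] at hreg
      exact ⟨x, y, 1, 0, s1, s2, h.vdS hi h1 hreg (by decide) s1 s2⟩
    · refine ⟨j, l, h1, .EA rfl c hj he ?_⟩
      obtain ⟨s2, -⟩ := h.slot0 (j := l) (s := true) he0
      rw [c] at hreg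
      obtain ⟨x, y, s1, -⟩ := h.slotE hj he hreg (r' := rEA) (by decide)
      exact ⟨x, y, 1, 0, s1, s2, h.vdS hi h1 hreg (by decide) s1 s2⟩
    · refine ⟨j, l, h1, .PA rfl c ?_⟩
      obtain ⟨s2, -⟩ := h.slot0 (j := l) (s := true) he0
      have hrj := h.reg j
      rw [hj] at hrj
      obtain ⟨x, y, s1, -⟩ := h.slot (s := false) hrj (r' := rPA) (by decide)
      rw [c] at hreg
      exact ⟨x, y, 1, 0, s1, s2, h.vdS hi h1 hreg (by decide) s1 s2⟩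
    · refine ⟨j, l, h1, .TA rfl c ?_⟩
      obtain ⟨s2, -⟩ := h.slot0 (j := l) (s := true) he0
      have hrj := h.reg j
      rw [hj] at hrj
      obtain ⟨x, y, s1, -⟩ := h.slot (s := false) hrj (r' := rTA) (by decide)
      rw [c] at hreg
      exact ⟨x, y, 1, 0, s1, s2, h.vdS hi h1 hreg (by decide) s1 s2⟩
    · exact absurd h1 (hE j)
  · subst hm
    have he1 : ex true false τ = 1 := rfl
    rcases hC.ty hi with ⟨j, k, h1, c⟩ | ⟨j, l, h1, hj, hl, c⟩ | ⟨j, l, h1, hj, he, hl, c⟩ |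
      ⟨j, l, h1, hj, hl, c⟩ | ⟨j, l, h1, hj, hl, c⟩ | ⟨j, h1⟩
    · exact absurd h1 (hT j k)
    · refine ⟨j, l, h1, .SB rfl c ?_⟩
      obtain ⟨x', y', s2, -⟩ := h.slot (s := true) (h3.s3 l hl) (r' := rS3) (by decide)
      obtain ⟨x, y, s1, -⟩ := h.slot1 he1 (h3.a3 j i hj (hC.N.symm i j false h1.nbA))
      rw [c] at hreg
      exact ⟨x, y, x', y', s1, s2, h.vdS hi h1 hreg (by decide) s1 s2⟩
    · refine ⟨j, l, h1, .EB rfl c hj he ?_⟩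
      obtain ⟨x', y', s2, -⟩ := h.slot (s := true) (h3.s3 l hl) (r' := rS3) (by decide)
      rw [c] at hreg
      obtain ⟨x, y, s1, -⟩ := h.slot1 he1 (h.slotE1 he1 hj he hreg (r' := rEB) (by decide))
      exact ⟨x, y, x', y', s1, s2, h.vdS hi h1 hreg (by decide) s1 s2⟩
    · refine ⟨j, l, h1, .PB rfl c ?_⟩
      have hrj := h.reg j
      rw [hj] at hrj
      obtain ⟨x, y, s1, -⟩ := h.slot1 he1 hrj
      rw [c] at hreg
      rcases hl with hl | hl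
      · obtain ⟨x', y', s2, -⟩ := h.slot (s := true) (h3.s3 l hl) (r' := rSB) (by decide)
        exact ⟨x, y, x', y', s1, s2, h.vdS hi h1 hreg (by decide) s1 s2⟩
      · have hrl := h.reg l
        rw [hl] at hrl
        obtain ⟨x', y', s2, -⟩ := h.slot (s := true) hrl (r' := rSB) (by decide)
        exact ⟨x, y, x', y', s1, s2, h.vdS hi h1 hreg (by decide) s1 s2⟩
    · refine ⟨j, l, h1, .TB rfl c ?_⟩
      obtain ⟨x', y', s2, -⟩ := h.slot (s := true) (h3.s3 l hl) (r' := rS3) (by decide)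
      have hrj := h.reg j
      rw [hj] at hrj
      obtain ⟨x, y, s1, -⟩ := h.slot1 he1 hrj
      rw [c] at hreg
      exact ⟨x, y, x', y', s1, s2, h.vdS hi h1 hreg (by decide) s1 s2⟩
    · exact absurd h1 (hE j)

end Zr

end Pool.Agent.S5.E
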