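import Pool.Agent.S5.E.B2.Str2

/-!
# Mixed chains, block E: vertices with two twists, strict inequalities of the regions
-/

set_option autoImplicit false

namespace Pool.Agent.S5.E

open Complex
open Pool.Agent.S3.E (al ph tt k2 s2)
open Pool.Agent.S5.E.B2

variable {ι : Type*} {m : Bool}

namespace Zr

section gen

variable {κ : Type*} {a : ι → ℝ} {nl nr : ι → Option (ι × Bool)} {g : ι → κ → ℂ → ℝ} {τ : ℝ}
  {z : ι → ℂ}

/-- Bernoulli bound of a slot. -/
theorem ro_le (h : Zr m a nl nr g τ z) {o : ι} {s : Bool} {c : ℝ} (hc : ‖cos (z o)‖ ≤ 1 + c) :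
    ro m τ z (some (o, s)) ≤ 1 + ex m s τ * c := by
  have hk := h.norm_pos o
  have h1 : ‖cos (z o)‖ ^ (ex m s τ) ≤ (1 + c) ^ (ex m s τ) :=
    Real.rpow_le_rpow hk.le hc (h.ex_mem s).1
  exact h1.trans (rpow_one_add_le_one_add_mul_self (by linarith) (h.ex_mem s).1
    (h.ex_mem s).2)

/-- The slot at an end vertex, length. -/
theorem ro_end (h : Zr m a nl nr g τ z) {j i : ι} (hj : a j = 2) (he : IsE nl nr j i)
    (hk : ‖cos (z i)‖ ≤ 1.05) : ro m τ z (some (j, false)) ≤ 1 - 0.275 * ex m false τ := by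
  obtain ⟨e1, -⟩ := h.k_end hj he
  have hki := h.norm_pos i
  have hkj := h.norm_pos j
  have h1 : ro m τ z (some (i, false)) ≤ 1 + ex m false τ * 0.05 := h.ro_le (by linarith)
  have h2 := (h.ex_mem (s := false)).2
  have h3 : ‖cos (z j)‖ ≤ 1 + -0.275 := by
    norm_num at h1 ⊢
    by_contra hc
    push Not at hc
    nlinarith
  have h4 := h.ro_le (s := false) h3
  linarith

end gen

variable {a : ι → ℝ} {nl nr : ι → Option (ι × Bool)} {τ : ℝ} {z : ι → ℂ}

theorem DS.str {i j l : ι} (d : DS a nl nr m τ z i j l) :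
    StR (cls a nl nr i) (cos (z i)).re (-(cos (z i)).im) := by
  rcases d with ⟨hm, c, d⟩ | ⟨hm, c, d⟩ | ⟨hm, c, d⟩ | ⟨hm, c, d⟩ | ⟨hm, c, d⟩ | ⟨hm, c, d⟩ |
    ⟨hm, c, hj, he, d⟩ | ⟨hm, c, hj, he, d⟩ <;> rw [c] <;>
    obtain ⟨x₁, y₁, x₂, y₂, s1, s2, v⟩ := d
  · exact imp_P_SB _ _ _ _ _ _ s1.reg s2.reg v
  · exact imp_PA_One _ _ _ _ _ _ s1.reg s2.reg v
  · exact imp_T_S3 _ _ _ _ _ _ s1.reg s2.reg v
  · exact imp_TA_One _ _ _ _ _ _ s1.reg s2.reg v
  · exact imp_A3_S3 _ _ _ _ _ _ s1.reg s2.reg v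
  · exact imp_A3_One _ _ _ _ _ _ s1.reg s2.reg v
  · exact imp_EB_S3 _ _ _ _ _ _ s1.reg s2.reg v
  · exact imp_EA_One _ _ _ _ _ _ s1.reg s2.reg v

/-- The slots of a vertex with two `A` edges. -/
theorem slotT (h : Zr m a nl nr (gC a nl nr) τ z) (hC : Ch a nl nr) (h3 : In3 a nl nr z)
    {i j k o : ι} (hi : a i = 2) (ht : IsT nl nr i j k)
    (ho : nl i = some (o, false) ∨ nr i = some (o, false)) :
    ∃ r, (RT r ∧ ∃ x y, SR false r (bo m τ z (some (o, false))) x y ∧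
      x ^ 2 + y ^ 2 = ro m τ z (some (o, false)) ^ 2) ∧
      ((r = rA3 ∨ r = rNT) ∨ (a o = 2 ∧ IsE nl nr o i)) := by
  have hreg := h.reg i
  rw [cls_T hi ht] at hreg
  rcases hC.nbT hi ht ho with h1 | h1 | h1 | ⟨h1, h2⟩
  · exact ⟨rA3, ⟨.A3, h.slot (s := false) (h3.a3 o i h1 (hC.N.symm i o false ho)) (by decide)⟩,
      Or.inl (Or.inl rfl)⟩
  · have hro := h.reg o
    rw [h1] at hro
    exact ⟨rNT, ⟨.NT, h.slot (s := false) hro (by decide)⟩, Or.inl (Or.inr rfl)⟩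
  · have hro := h.reg o
    rw [h1] at hro
    exact ⟨rNT, ⟨.NT, h.slot (s := false) hro (by decide)⟩, Or.inl (Or.inr rfl)⟩
  · exact ⟨rET, ⟨.ET, h.slotE h1 h2 hreg (by decide)⟩, Or.inr ⟨h1, h2⟩⟩

/-- Length of the slots of a vertex with two `A` edges. -/
theorem roT (h : Zr m a nl nr (gC a nl nr) τ z) (hC : Ch a nl nr) (h3 : In3 a nl nr z)
    {i j k o : ι} (hi : a i = 2) (ht : IsT nl nr i j k)
    (ho : nl i = some (o, false) ∨ nr i = some (o, false)) :
    ro m τ z (some (o, false)) ≤ 1 + ex m false τ * 0.06 := by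
  have hle : ∀ {r : Rg}, InR r (cos (z o)).re (-(cos (z o)).im) → r.k1 ≤ 1060 →
      ‖cos (z o)‖ ≤ 1 + 0.06 := by
    intro r hr hk
    have h1 := hr.k1' hk
    rw [h.norm_sq_cos] at h1
    have h2 := (pow_le_pow_iff_left₀ (h.norm_pos o).le (by positivity) (by norm_num)).1 h1
    norm_num at h2 ⊢
    linarith
  have hreg := h.reg i
  rw [cls_T hi ht] at hreg
  rcases hC.nbT hi ht ho with h1 | h1 | h1 | ⟨h1, h2⟩
  · exact h.ro_le (hle (h3.a3 o i h1 (hC.N.symm i o false ho)) (by decide))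
  · have hro := h.reg o
    rw [h1] at hro
    exact h.ro_le (hle hro (by decide))
  · have hro := h.reg o
    rw [h1] at hro
    exact h.ro_le (hle hro (by decide))
  · have h4 := hreg.k1' (K := 1050) (by decide)
    rw [h.norm_sq_cos] at h4
    have h5 := (pow_le_pow_iff_left₀ (h.norm_pos i).le (by positivity) (by norm_num)).1 h4
    have h6 := h.ro_end h1 h2 (by norm_num at h5 ⊢; linarith)
    have := (h.ex_mem (s := false)).1
    linarith

/-- The data of a vertex with two `A` edges. -/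
theorem dT (h : Zr m a nl nr (gC a nl nr) τ z) (hC : Ch a nl nr) (h3 : In3 a nl nr z)
    {i j k : ι} (hi : a i = 2) (ht : IsT nl nr i j k) :
    ∃ r₁ r₂, RT r₁ ∧ RT r₂ ∧ VD false r₁ r₂ (bo m τ z (some (j, false)))
      (bo m τ z (some (k, false))) (cos (z i)).re (-(cos (z i)).im) ∧
      ((r₁ = rA3 ∨ r₁ = rNT) ∨ (a j = 2 ∧ IsE nl nr j i)) ∧
      ((r₂ = rA3 ∨ r₂ = rNT) ∨ (a k = 2 ∧ IsE nl nr k i)) ∧
      (cos (z i)).re ^ 2 + (-(cos (z i)).im) ^ 2 ≤
        (ro m τ z (some (j, false)) + ro m τ z (some (k, false))) / 2 := by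
  obtain ⟨r₁, ⟨q1, x₁, y₁, s1, e1⟩, p1⟩ := h.slotT hC h3 hi ht (Or.inl ht.1)
  obtain ⟨r₂, ⟨q2, x₂, y₂, s2, e2⟩, p2⟩ := h.slotT hC h3 hi ht (Or.inr ht.2)
  have hreg := h.reg i
  rw [cls_T hi ht] at hreg
  have v := h.vdT hi ht hreg s1 s2
  refine ⟨r₁, r₂, q1, q2, ⟨x₁, y₁, x₂, y₂, s1, s2, v⟩, p1, p2, ?_⟩
  apply v.k_le' _ e1 e2 (h.ro_pos _ _).le (h.ro_pos _ _).le
  unfold Ir
  simp only [sgy, Bool.false_eq_true, if_false]
  have := s1.reg.y0
  have := s2.reg.y0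
  positivity

theorem strT (h : Zr m a nl nr (gC a nl nr) τ z) (hC : Ch a nl nr) (h3 : In3 a nl nr z)
    {i j k : ι} (hi : a i = 2) (ht : IsT nl nr i j k) :
    StR (cls a nl nr i) (cos (z i)).re (-(cos (z i)).im) := by
  rw [cls_T hi ht]
  obtain ⟨r₁, r₂, q1, q2, ⟨x₁, y₁, x₂, y₂, s1, s2, v⟩, -, -, hk⟩ := h.dT hC h3 hi ht
  obtain ⟨b1, b2, b3⟩ := imp_T q1 q2 _ _ _ _ _ _ s1.reg s2.reg v
  have hj := h.roT hC h3 hi ht (Or.inl ht.1)
  have hk' := h.roT hC h3 hi ht (Or.inr ht.2)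
  have t1 := (h.ex_mem (s := false)).2
  refine ⟨b3, ?_, b2, b1, m00 v⟩
  show _ < (((1050 : ℕ) : ℝ) / 1000) ^ 2
  norm_num
  linarith

/-- The length of a vertex with two `A` edges, one to an end vertex. -/
theorem kT (h : Zr m a nl nr (gC a nl nr) τ z) (hC : Ch a nl nr) (h3 : In3 a nl nr z)
    {i j k e : ι} (hi : a i = 2) (ht : IsT nl nr i j k) (he : a e = 2) (he' : IsE nl nr e i) :
    ‖cos (z i)‖ ≤ 1 ∧ (ex m false τ = 1 → ‖cos (z i)‖ < 1) := by
  obtain ⟨r₁, r₂, q1, q2, -, -, -, hk⟩ := h.dT hC h3 hi ht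
  rw [h.norm_sq_cos] at hk
  have hk0 := h.norm_pos i
  have hreg := h.reg i
  rw [cls_T hi ht] at hreg
  have h4 := hreg.k1' (K := 1050) (by decide)
  rw [h.norm_sq_cos] at h4
  have h5 := (pow_le_pow_iff_left₀ hk0.le (by positivity) (by norm_num)).1 h4
  have h6 := h.ro_end he he' (by norm_num at h5 ⊢; linarith)
  have hj := h.roT hC h3 hi ht (Or.inl ht.1)
  have hk' := h.roT hC h3 hi ht (Or.inr ht.2)
  have t0 := (h.ex_mem (s := false)).1
  have hee : e = j ∨ e = k := by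
    have h7 : nl i = some (e, false) ∨ nr i = some (e, false) := by
      have : nl e = some (i, false) ∨ nr e = some (i, false) := by
        rcases he' with ⟨h8, -⟩ | ⟨-, h8⟩
        · exact Or.inl h8
        · exact Or.inr h8
      exact hC.N.symm e i false this
    obtain ⟨h8, h9⟩ := ht
    rcases h7 with h7 | h7
    · left; rw [h8] at h7; simpa using h7.symm
    · right; rw [h9] at h7; simpa using h7.symm
  have hsum : ‖cos (z i)‖ ^ 2 ≤ 1 - 0.1075 * ex m false τ := by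
    rcases hee with h7 | h7
    · rw [← h7] at hk
      linarith
    · rw [← h7] at hk
      linarith
  constructor
  · nlinarith
  · intro ht1
    rw [ht1] at hsum
    nlinarith

theorem _root_.Pool.Agent.S5.E.B2.SR.norm {s : Bool} {r : Rg} {b : ℂ} {x y : ℝ}
    (h : SR s r b x y) : x ^ 2 + y ^ 2 = ‖b‖ ^ 2 := by
  rw [h.eq, ← Complex.normSq_eq_norm_sq, Complex.normSq_apply]
  unfold sgy
  cases s <;> simp <;> ring

/-- The length of a special vertex next to an end vertex, second stage. -/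
theorem kEB (h : Zr m a nl nr (gC a nl nr) τ z) {i : ι} {b₁ b₂ : ℂ}
    (d : VD true rEB rS3 b₁ b₂ (cos (z i)).re (-(cos (z i)).im)) : ‖cos (z i)‖ < 1 := by
  obtain ⟨x₁, y₁, x₂, y₂, s1, s2, v⟩ := d
  have h1 := EB_S3_K1 _ _ _ _ _ _ s1.reg s2.reg v
  simp only at h1
  rw [h.norm_sq_cos] at h1
  norm_num at h1
  have := h.norm_pos i
  nlinarith

/-- First stage. -/
theorem kEA (h : Zr m a nl nr (gC a nl nr) τ z) {i j l : ι} (he : a j = 2)
    (he' : IsE nl nr j i) (hi : ‖cos (z i)‖ ≤ 1.05)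
    (d : VD true rEA rOne (bo m τ z (some (j, false))) (bo m τ z (some (l, true)))
      (cos (z i)).re (-(cos (z i)).im)) :
    ‖cos (z i)‖ ≤ 1 ∧ (ex m false τ = 1 → ‖cos (z i)‖ < 1) := by
  obtain ⟨x₁, y₁, x₂, y₂, s1, s2, v⟩ := d
  have e1 := s1.norm
  rw [h.norm_bo] at e1
  have y2 : y₂ = 0 := by
    have h1 := s2.reg.a1
    have h2 := s2.reg.y0
    simp only [rOne] at h1
    push_cast at h1
    linarith
  have x2 : x₂ ^ 2 + y₂ ^ 2 ≤ 1 ^ 2 := by
    have := s2.reg.hi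
    simp only [rOne] at this
    norm_num at this ⊢
    exact this
  have x2' : 1 ^ 2 ≤ x₂ ^ 2 + y₂ ^ 2 := by
    have := s2.reg.lo
    simp only [rOne] at this
    norm_num at this ⊢
    exact this
  have hk := v.k_le' (by
    unfold Ir
    simp only [sgy, if_true]
    rw [y2]
    have := s1.reg.y0
    have : 0 ≤ (x₂ ^ 2 + 0 ^ 2) * y₁ := by positivity
    linarith) e1 (le_antisymm x2 x2') (h.ro_pos _ _).le (by norm_num)
  rw [h.norm_sq_cos] at hk
  have h6 := h.ro_end he he' hi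
  have t0 := (h.ex_mem (s := false)).1
  have hk0 := h.norm_pos i
  have hsum : ‖cos (z i)‖ ^ 2 ≤ 1 - 0.1375 * ex m false τ := by linarith
  constructor
  · nlinarith
  · intro ht1
    rw [ht1] at hsum
    nlinarith

/-- The region of an end vertex. -/
theorem strE (h : Zr m a nl nr (gC a nl nr) τ z) {j i : ι} (hj : a j = 2) (he : IsE nl nr j i) :
    StR (cls a nl nr j) (cos (z j)).re (-(cos (z j)).im) ∧ 0.49 < ‖cos (z j)‖ ∧
      ‖cos (z j)‖ < 1.1 ∧ -(cos (z j)).im < 1.04 * (cos (z j)).re := by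
  obtain ⟨e1, e2⟩ := h.k_end hj he
  rw [h.be_A] at e2
  have t0 := (h.ex_mem (s := false)).1
  have t1 := (h.ex_mem (s := false)).2
  have hkj := h.norm_pos j
  have hki := h.norm_pos i
  have hu := h.re_pos j
  have hv := h.v0 j
  obtain ⟨-, q1, q2, -⟩ := h.K.1.2 i
  have q1' : (0.49 : ℝ) ≤ ‖cos (z i)‖ := q1
  have q2' : ‖cos (z i)‖ ≤ 1 + 0.1 := by
    have : ‖cos (z i)‖ ≤ 1.1 := q2
    norm_num at this ⊢
    linarith
  have hro1 : ro m τ z (some (i, false)) ≤ 1 + ex m false τ * 0.1 := h.ro_le q2'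
  have hro0 : 0.49 ≤ ro m τ z (some (i, false)) := by
    show 0.49 ≤ ‖cos (z i)‖ ^ (ex m false τ)
    rcases le_total ‖cos (z i)‖ 1 with h5 | h5
    · have h6 := Real.rpow_le_rpow_of_exponent_ge hki h5 t1
      rw [Real.rpow_one] at h6
      linarith
    · have h6 := Real.one_le_rpow h5 t0
      norm_num at h6 ⊢
      linarith
  have hφ : ph (z j).re (z j).im ≤ Real.pi / 4 := by
    rw [e2]
    have := mul_nonneg t0 (h.phpos i).le
    linarith
  have huv : -(cos (z j)).im ≤ (cos (z j)).re := by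
    rw [h.cos_re, h.cos_im]
    exact mul_le_mul_of_nonneg_left (Pool.Agent.S3.E.Zr.sin_le_cos (h.phpos j).le hφ) hkj.le
  have k1 : 0.49 < ‖cos (z j)‖ := by
    norm_num at hro0 ⊢
    by_contra hc
    push Not at hc
    nlinarith
  have k2 : ‖cos (z j)‖ < 1 := by
    by_contra hc
    push Not at hc
    nlinarith
  refine ⟨?_, k1, ?_, ?_⟩
  · rw [cls_E he]
    refine ⟨?_, ?_, ?_, ?_, ?_⟩
    · show (((0 : ℕ) : ℝ) / 1000) ^ 2 < _
      norm_num
      positivity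
    · rw [h.norm_sq_cos]
      show _ < (((1200 : ℕ) : ℝ) / 1000) ^ 2
      norm_num
      nlinarith
    · show ((0 : ℕ) : ℝ) / 1000 * _ < _
      norm_num
      linarith
    · show _ < ((1100 : ℕ) : ℝ) / 1000 * _
      norm_num
      linarith
    · show ((0 : ℕ) : ℝ) / 1000 < _
      have := mul_pos hu hv
      simpa using this
  · norm_num
    linarith
  · norm_num
    linarith

/-- All regions are strict. -/
theorem str2 (h : Zr m a nl nr (gC a nl nr) τ z) (hC : Ch a nl nr) (h3 : In3 a nl nr z)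
    {i : ι} (hi : a i = 2) : StR (cls a nl nr i) (cos (z i)).re (-(cos (z i)).im) := by
  by_cases hT : ∃ j k, IsT nl nr i j k
  · obtain ⟨j, k, ht⟩ := hT
    exact h.strT hC h3 hi ht
  by_cases hE : ∃ j, IsE nl nr i j
  · obtain ⟨j, he⟩ := hE
    exact (h.strE hi he).1
  push Not at hT hE
  obtain ⟨j, l, -, d⟩ := h.ds hC h3 hi hT hE
  exact d.str

/-- The bounds of `KK`. -/
theorem k2' (h : Zr m a nl nr (gC a nl nr) τ z) (hC : Ch a nl nr) (h3 : In3 a nl nr z)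
    {i : ι} (hi : a i = 2) : 0.49 < ‖cos (z i)‖ ∧ ‖cos (z i)‖ < 1.1 ∧
      -(cos (z i)).im < 1.04 * (cos (z i)).re := by
  have key : ∀ {r : Rg}, StR r (cos (z i)).re (-(cos (z i)).im) → 490 ≤ r.k0 → r.k1 ≤ 1100 →
      r.t1 ≤ 1040 → 0.49 < ‖cos (z i)‖ ∧ ‖cos (z i)‖ < 1.1 ∧
        -(cos (z i)).im < 1.04 * (cos (z i)).re := by
    intro r hr c1 c2 c3
    have c1' : (490 : ℝ) ≤ r.k0 := by exact_mod_cast c1
    have c2' : (r.k1 : ℝ) ≤ 1100 := by exact_mod_cast c2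
    have c3' : (r.t1 : ℝ) ≤ 1040 := by exact_mod_cast c3
    have d1 := hr.lo
    have d2 := hr.hi
    have d3 := hr.a1
    rw [h.norm_sq_cos] at d1 d2
    have hk := h.norm_pos i
    have f1 := (pow_lt_pow_iff_left₀ (by positivity) hk.le (by norm_num)).1 d1
    have f2 := (pow_lt_pow_iff_left₀ hk.le (by positivity) (by norm_num)).1 d2
    have hu := h.re_pos i
    refine ⟨?_, ?_, ?_⟩
    · norm_num; linarith
    · norm_num; linarith
    · have : (r.t1 : ℝ) / 1000 * (cos (z i)).re ≤ 1.04 * (cos (z i)).re :=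
        mul_le_mul_of_nonneg_right (by norm_num; linarith) hu.le
      linarith
  by_cases hE : ∃ j, IsE nl nr i j
  · obtain ⟨j, he⟩ := hE
    exact (h.strE hi he).2
  have hs := h.str2 hC h3 hi
  rcases hC.ty hi with ⟨j, k, h1, c⟩ | ⟨j, l, h1, hj, hl, c⟩ | ⟨j, l, h1, hj, he, hl, c⟩ |
    ⟨j, l, h1, hj, hl, c⟩ | ⟨j, l, h1, hj, hl, c⟩ | ⟨j, h1⟩
  · rw [c] at hs; exact key hs (by decide) (by decide) (by decide)
  · rw [c] at hs; exact key hs (by decide) (by decide) (by decide)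
  · rw [c] at hs; exact key hs (by decide) (by decide) (by decide)
  · rw [c] at hs; exact key hs (by decide) (by decide) (by decide)
  · rw [c] at hs; exact key hs (by decide) (by decide) (by decide)
  · exact absurd ⟨j, h1⟩ hE

end Zr

end Pool.Agent.S5.E
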