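import Pool.Agent.S5.E.B2.WallT
import Pool.Agent.S5.E.B2.Regs

/-!
# Mixed chains, block E: vertices with two twists, the wall, the regions

Certificates by kernel evaluation, and the theorems for the pairs of regions `(first slot, second slot)`.
`b₁ = x₁ + i y₁`, `y₁ > 0`; `so = true`: `b₂ = x₂ - i y₂`; `so = false`: `b₂ = x₂ + i y₂`.
-/

set_option autoImplicit false

namespace Pool.Agent.S5.E.B2

open Complex Pool.Agent.S3.NI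

/-- The hypotheses on a vertex with two twists, for the wall of the first slot. -/
structure Wv (z q₁ q₂ b₁ b₂ : ℂ) : Prop where
  hz : 2 * z = (Real.pi : ℂ) + I * (q₁ + q₂)
  h₁ : sinh q₁ * cos z = b₁ * sin z
  h₂ : sinh q₂ * cos z = b₂ * sin z
  z0 : 0 < z.re
  z1 : z.re < Real.pi / 2
  zi : 0 < z.im
  r₁ : -(Real.pi / 2) ≤ q₁.im
  r₁' : q₁.im ≤ Real.pi / 2
  r₂ : -(Real.pi / 2) ≤ q₂.im
  w₁ : 0 ≤ (b₁ * tan z).re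

theorem Wv.pos {z q₁ q₂ b₁ b₂ : ℂ} (h : Wv z q₁ q₂ b₁ b₂) (hx : 0 < b₁.re) (hy : 0 < b₁.im)
    (hW : Wc b₁.re b₁.im b₂.re b₂.im) : 0 < (b₁ * tan z).re :=
  wall hx hy h.hz h.h₁ h.h₂ h.z0 h.z1 h.zi h.r₁ h.r₁' h.r₂ h.w₁ hW

/-! ### Elementary bounds -/

theorem InR.x_pos {r : Rg} {x y : ℝ} (g : InR r x y) (hk : 1 ≤ r.k0) : 0 < x := by
  rcases g.x0.lt_or_eq with h | h
  · exact h
  · exfalso
    have h1 := g.a1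
    have h2 := g.lo
    rw [← h] at h1 h2
    have h3 : y = 0 := le_antisymm (by linarith) g.y0
    have h4 : (0 : ℝ) < r.k0 := by exact_mod_cast hk
    rw [h3] at h2
    have h5 : 0 < ((r.k0 : ℝ) / 1000) ^ 2 := by positivity
    linarith

theorem InR.x_lo {r : Rg} {x y : ℝ} (g : InR r x y) (hk : 585 ≤ r.k0) (ht : r.t1 ≤ 900) :
    0.4 ≤ x := by
  have h1 : (585 : ℝ) ≤ r.k0 := by exact_mod_cast hk
  have h2 : (r.t1 : ℝ) ≤ 900 := by exact_mod_cast ht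
  have h3 : y ≤ 0.9 * x := g.a1.trans (mul_le_mul_of_nonneg_right (by linarith) g.x0)
  have h4 : y ^ 2 ≤ (0.9 * x) ^ 2 := pow_le_pow_left₀ g.y0 h3 2
  have h5 : (0.585 : ℝ) ^ 2 ≤ ((r.k0 : ℝ) / 1000) ^ 2 := pow_le_pow_left₀ (by norm_num) (by linarith) 2
  have h6 := g.lo
  by_contra hc
  push Not at hc
  have := g.x0
  nlinarith

theorem InR.le_one {r : Rg} {x y : ℝ} (g : InR r x y) (hk : r.k1 ≤ 1000) : x ^ 2 + y ^ 2 ≤ 1 := by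
  have h1 : (r.k1 : ℝ) ≤ 1000 := by exact_mod_cast hk
  have h2 : (0 : ℝ) ≤ r.k1 := r.k1.cast_nonneg
  have h3 : ((r.k1 : ℝ) / 1000) ^ 2 ≤ 1 ^ 2 := pow_le_pow_left₀ (by positivity) (by linarith) 2
  linarith [g.hi]

theorem InR.le_x {r : Rg} {x y : ℝ} (g : InR r x y) (ht : r.t1 ≤ 1000) : y ≤ x := by
  have h1 : (r.t1 : ℝ) ≤ 1000 := by exact_mod_cast ht
  exact g.a1.trans ((mul_le_mul_of_nonneg_right (by linarith : (r.t1 : ℝ) / 1000 ≤ 1) g.x0).trans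
    (by rw [one_mul]))

/-- The second part of the certificate, for `0 ≤ s`. -/
theorem wall_el {x₁ y₁ x₂ s : ℝ} (hy : 0 < y₁) (hs : 0 ≤ s) (h1 : 0.4 ≤ x₁) (h2 : 0.4 ≤ x₂)
    (hR : x₁ ^ 2 + y₁ ^ 2 ≤ 1.06 ^ 2) : x₁ ^ 2 + y₁ ^ 2 ≤ 1 ∨
      (x₁ ^ 2 + y₁ ^ 2 - 1) * (x₁ ^ 2 + y₁ ^ 2) * (y₁ - s) < 2 * y₁ * (x₁ * x₂ + y₁ * s) := by
  rcases le_or_gt (x₁ ^ 2 + y₁ ^ 2) 1 with h | h
  · exact Or.inl h
  · right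
    obtain ⟨r, hr⟩ : ∃ r, r = x₁ ^ 2 + y₁ ^ 2 := ⟨_, rfl⟩
    rw [← hr] at hR h ⊢
    have h3 : (r - 1) * r ≤ 0.14 := by nlinarith
    have h4 : 0 < (r - 1) * r := mul_pos (by linarith) (by linarith)
    have h5 : (r - 1) * r * (y₁ - s) ≤ (r - 1) * r * y₁ := mul_le_mul_of_nonneg_left (by linarith) h4.le
    have h6 : (r - 1) * r * y₁ ≤ 0.14 * y₁ := mul_le_mul_of_nonneg_right h3 hy.le
    have h7 : 0.16 ≤ x₁ * x₂ := by nlinarith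
    have h8 : 0 ≤ y₁ * s := mul_nonneg hy.le hs
    have h9 : y₁ * 0.16 ≤ y₁ * (x₁ * x₂ + y₁ * s) := mul_le_mul_of_nonneg_left (by linarith) hy.le
    linarith

/-- The certificate for `b₂ = x₂ - i y₂`. -/
theorem Wc_true {r₁ r₂ : Rg} {x₁ y₁ x₂ y₂ : ℝ} (g₁ : InR r₁ x₁ y₁) (g₂ : InR r₂ x₂ y₂)
    (k1 : 1 ≤ r₁.k0) (k2 : 1 ≤ r₂.k0) (t1 : r₁.t1 ≤ 1000) (t2 : r₂.t1 < 1000)
    (h : Wp x₁ y₁ x₂ (sgy true y₂))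
    (h' : y₁ * y₂ ≤ x₁ * x₂ → x₁ ^ 2 + y₁ ^ 2 ≤ 1 ∨
      (x₁ ^ 2 + y₁ ^ 2 - 1) * (x₁ ^ 2 + y₁ ^ 2) * (y₁ + y₂) < 2 * y₁ * (x₁ * x₂ - y₁ * y₂)) :
    Wc x₁ y₁ x₂ (-y₂) := by
  have p1 := g₁.x_pos k1
  have p2 := g₂.x_pos k2
  have l1 := g₁.le_x t1
  have l2 : y₂ < x₂ := by
    have h1 : (r₂.t1 : ℝ) < 1000 := by exact_mod_cast t2
    calc y₂ ≤ (r₂.t1 : ℝ) / 1000 * x₂ := g₂.a1
      _ < 1 * x₂ := mul_lt_mul_of_pos_right (by linarith) p2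
      _ = x₂ := one_mul _
  have e0 : y₁ * y₂ < x₁ * x₂ := by
    calc y₁ * y₂ ≤ x₁ * y₂ := mul_le_mul_of_nonneg_right l1 g₂.y0
      _ < x₁ * x₂ := mul_lt_mul_of_pos_left l2 p1
  refine ⟨by linarith, ?_, ?_⟩
  · have h2 : Wp x₁ y₁ x₂ (-y₂) := by simpa only [sgy, if_true] using h
    exact h2
  · rcases h' e0.le with h3 | h3
    · exact Or.inl h3
    · right
      have e1 : y₁ - -y₂ = y₁ + y₂ := by ring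
      have e2 : x₁ * x₂ + y₁ * -y₂ = x₁ * x₂ - y₁ * y₂ := by ring
      rw [e1, e2]
      exact h3

/-- The certificate for `b₂ = x₂ + i y₂`. -/
theorem Wc_false {r₁ r₂ : Rg} {x₁ y₁ x₂ y₂ : ℝ} (g₁ : InR r₁ x₁ y₁) (g₂ : InR r₂ x₂ y₂) (hy : 0 < y₁)
    (k1 : 585 ≤ r₁.k0) (k2 : 585 ≤ r₂.k0) (t1 : r₁.t1 ≤ 900) (t2 : r₂.t1 ≤ 900) (m1 : r₁.k1 ≤ 1060)
    (h : Wp x₁ y₁ x₂ (sgy false y₂)) : Wc x₁ y₁ x₂ y₂ := by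
  have p1 := g₁.x_lo k1 t1
  have p2 := g₂.x_lo k2 t2
  have hR : x₁ ^ 2 + y₁ ^ 2 ≤ 1.06 ^ 2 := by
    have h1 : (r₁.k1 : ℝ) ≤ 1060 := by exact_mod_cast m1
    have h2 : (0 : ℝ) ≤ r₁.k1 := r₁.k1.cast_nonneg
    have h3 : ((r₁.k1 : ℝ) / 1000) ^ 2 ≤ 1.06 ^ 2 := pow_le_pow_left₀ (by positivity) (by linarith) 2
    linarith [g₁.hi]
  refine ⟨?_, ?_, wall_el hy g₂.y0 p1 p2 hR⟩
  · have := mul_nonneg hy.le g₂.y0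
    have : 0 < x₁ * x₂ := mul_pos (by linarith) (by linarith)
    linarith
  · have h2 : Wp x₁ y₁ x₂ y₂ := by simpa only [sgy, Bool.false_eq_true, if_false] using h
    exact h2

/-! ### Runs -/

/-- The first part from a run. -/
theorem Wp_of {so : Bool} {r₁ r₂ : Rg} {p₁ p₂ : Bx} {n : ℕ} (k1 : okb r₁ p₁ = true)
    (k2 : okb r₂ p₂ = true) (h : bbw (wt so r₁ r₂) 2 2 1 1 n p₁.X p₁.Y p₂.X p₂.Y = true)
    (t1 : r₁.t1 ≤ 1000) {x₁ y₁ x₂ y₂ : ℝ} (g₁ : InR r₁ x₁ y₁) (g₂ : InR r₂ x₂ y₂) :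
    Wp x₁ y₁ x₂ (sgy so y₂) :=
  bbw_sound (P := fun x₁ y₁ x₂ y₂ => InR r₁ x₁ y₁ → InR r₂ x₂ y₂ → y₁ ≤ x₁ → Wp x₁ y₁ x₂ (sgy so y₂))
    (wt_sound (so := so) (r₁ := r₁) (r₂ := r₂)) 2 2 1 1 n _ _ _ _ h x₁ y₁ x₂ y₂
    (okb_sound k1 g₁).1 (okb_sound k1 g₁).2 (okb_sound k2 g₂).1 (okb_sound k2 g₂).2 g₁ g₂ (g₁.le_x t1)

/-- The second part from a run. -/
theorem Wu_of {r₁ r₂ : Rg} {p₁ p₂ : Bx} {n : ℕ} (k1 : okb r₁ p₁ = true) (k2 : okb r₂ p₂ = true)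
    (h : bbw (wu r₁ r₂) 2 2 1 1 n p₁.X p₁.Y p₂.X p₂.Y = true)
    {x₁ y₁ x₂ y₂ : ℝ} (g₁ : InR r₁ x₁ y₁) (g₂ : InR r₂ x₂ y₂) : y₁ * y₂ ≤ x₁ * x₂ →
      x₁ ^ 2 + y₁ ^ 2 ≤ 1 ∨
      (x₁ ^ 2 + y₁ ^ 2 - 1) * (x₁ ^ 2 + y₁ ^ 2) * (y₁ + y₂) < 2 * y₁ * (x₁ * x₂ - y₁ * y₂) :=
  bbw_sound (P := fun x₁ y₁ x₂ y₂ => InR r₁ x₁ y₁ → InR r₂ x₂ y₂ → y₁ * y₂ ≤ x₁ * x₂ →
      x₁ ^ 2 + y₁ ^ 2 ≤ 1 ∨
      (x₁ ^ 2 + y₁ ^ 2 - 1) * (x₁ ^ 2 + y₁ ^ 2) * (y₁ + y₂) < 2 * y₁ * (x₁ * x₂ - y₁ * y₂))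
    (wu_sound (r₁ := r₁) (r₂ := r₂)) 2 2 1 1 n _ _ _ _ h x₁ y₁ x₂ y₂
    (okb_sound k1 g₁).1 (okb_sound k1 g₁).2 (okb_sound k2 g₂).1 (okb_sound k2 g₂).2 g₁ g₂

section runs

variable {x₁ y₁ x₂ y₂ : ℝ}

set_option maxRecDepth 100000 in
theorem Wp_T_P_SB (g₁ : InR rP x₁ y₁) (g₂ : InR rSB x₂ y₂) :
    Wp x₁ y₁ x₂ (sgy true y₂) :=
  Wp_of ok_P ok_SB (n := 60) (by decide +kernel) (by decide) g₁ g₂

set_option maxRecDepth 100000 in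
theorem Wp_T_PA_One (g₁ : InR rPA x₁ y₁) (g₂ : InR rOne x₂ y₂) :
    Wp x₁ y₁ x₂ (sgy true y₂) :=
  Wp_of ok_PA ok_One (n := 60) (by decide +kernel) (by decide) g₁ g₂

set_option maxRecDepth 100000 in
theorem Wp_T_T_S3 (g₁ : InR rT x₁ y₁) (g₂ : InR rS3 x₂ y₂) :
    Wp x₁ y₁ x₂ (sgy true y₂) :=
  Wp_of ok_T ok_S3 (n := 60) (by decide +kernel) (by decide) g₁ g₂

set_option maxRecDepth 100000 in
theorem Wp_T_TA_One (g₁ : InR rTA x₁ y₁) (g₂ : InR rOne x₂ y₂) :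
    Wp x₁ y₁ x₂ (sgy true y₂) :=
  Wp_of ok_TA ok_One (n := 60) (by decide +kernel) (by decide) g₁ g₂

set_option maxRecDepth 100000 in
theorem Wp_T_A3_S3 (g₁ : InR rA3 x₁ y₁) (g₂ : InR rS3 x₂ y₂) :
    Wp x₁ y₁ x₂ (sgy true y₂) :=
  Wp_of ok_A3 ok_S3 (n := 60) (by decide +kernel) (by decide) g₁ g₂

set_option maxRecDepth 100000 in
theorem Wp_T_A3_One (g₁ : InR rA3 x₁ y₁) (g₂ : InR rOne x₂ y₂) :
    Wp x₁ y₁ x₂ (sgy true y₂) :=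
  Wp_of ok_A3 ok_One (n := 60) (by decide +kernel) (by decide) g₁ g₂

set_option maxRecDepth 100000 in
theorem Wp_F_A3_A3 (g₁ : InR rA3 x₁ y₁) (g₂ : InR rA3 x₂ y₂) :
    Wp x₁ y₁ x₂ (sgy false y₂) :=
  Wp_of ok_A3 ok_A3 (n := 60) (by decide +kernel) (by decide) g₁ g₂

set_option maxRecDepth 100000 in
theorem Wp_F_A3_NT (g₁ : InR rA3 x₁ y₁) (g₂ : InR rNT x₂ y₂) :
    Wp x₁ y₁ x₂ (sgy false y₂) :=
  Wp_of ok_A3 ok_NT (n := 60) (by decide +kernel) (by decide) g₁ g₂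

set_option maxRecDepth 100000 in
theorem Wp_F_NT_A3 (g₁ : InR rNT x₁ y₁) (g₂ : InR rA3 x₂ y₂) :
    Wp x₁ y₁ x₂ (sgy false y₂) :=
  Wp_of ok_NT ok_A3 (n := 60) (by decide +kernel) (by decide) g₁ g₂

set_option maxRecDepth 100000 in
theorem Wp_F_NT_NT (g₁ : InR rNT x₁ y₁) (g₂ : InR rNT x₂ y₂) :
    Wp x₁ y₁ x₂ (sgy false y₂) :=
  Wp_of ok_NT ok_NT (n := 60) (by decide +kernel) (by decide) g₁ g₂

set_option maxRecDepth 100000 in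
theorem Wp_F_A3_ET (g₁ : InR rA3 x₁ y₁) (g₂ : InR rET x₂ y₂) :
    Wp x₁ y₁ x₂ (sgy false y₂) :=
  Wp_of ok_A3 ok_ET (n := 60) (by decide +kernel) (by decide) g₁ g₂

set_option maxRecDepth 100000 in
theorem Wp_F_NT_ET (g₁ : InR rNT x₁ y₁) (g₂ : InR rET x₂ y₂) :
    Wp x₁ y₁ x₂ (sgy false y₂) :=
  Wp_of ok_NT ok_ET (n := 60) (by decide +kernel) (by decide) g₁ g₂

set_option maxRecDepth 100000 in
theorem Wu_P_SB (g₁ : InR rP x₁ y₁) (g₂ : InR rSB x₂ y₂) : y₁ * y₂ ≤ x₁ * x₂ →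
      x₁ ^ 2 + y₁ ^ 2 ≤ 1 ∨
      (x₁ ^ 2 + y₁ ^ 2 - 1) * (x₁ ^ 2 + y₁ ^ 2) * (y₁ + y₂) < 2 * y₁ * (x₁ * x₂ - y₁ * y₂) :=
  Wu_of ok_P ok_SB (n := 60) (by decide +kernel) g₁ g₂

set_option maxRecDepth 100000 in
theorem Wu_T_S3 (g₁ : InR rT x₁ y₁) (g₂ : InR rS3 x₂ y₂) : y₁ * y₂ ≤ x₁ * x₂ →
      x₁ ^ 2 + y₁ ^ 2 ≤ 1 ∨
      (x₁ ^ 2 + y₁ ^ 2 - 1) * (x₁ ^ 2 + y₁ ^ 2) * (y₁ + y₂) < 2 * y₁ * (x₁ * x₂ - y₁ * y₂) :=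
  Wu_of ok_T ok_S3 (n := 60) (by decide +kernel) g₁ g₂

end runs

/-! ### The theorems -/

theorem InR_one : InR rOne 1 0 := by
  constructor <;> norm_num [rOne]

section thms

variable {z q₁ q₂ b₁ b₂ : ℂ}

/-- `b₂ = x₂ - i y₂`. -/
theorem wall_T_P_SB (h : Wv z q₁ q₂ b₁ b₂) (hy : 0 < b₁.im) (g₁ : InR rP b₁.re b₁.im)
    (g₂ : InR rSB b₂.re (-b₂.im)) : 0 < (b₁ * tan z).re := by
  have hc := Wc_true g₁ g₂ (by decide) (by decide) (by decide) (by decide) (Wp_T_P_SB g₁ g₂)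
    (Wu_P_SB g₁ g₂)
  rw [neg_neg] at hc
  exact h.pos (g₁.x_pos (by decide)) hy hc

/-- `b₂ = 1`. -/
theorem wall_T_PA_one (h : Wv z q₁ q₂ b₁ 1) (hy : 0 < b₁.im) (g₁ : InR rPA b₁.re b₁.im) :
    0 < (b₁ * tan z).re := by
  have hc := Wc_true g₁ InR_one (by decide) (by decide) (by decide) (by decide)
    (Wp_T_PA_One g₁ InR_one) (fun _ => by
      have h1 := wall_el (x₂ := 1) (s := 0) hy le_rfl (g₁.x_lo (by decide) (by decide)) (by norm_num)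
        (g₁.hi.trans (by norm_num [rPA]))
      simpa using h1)
  rw [neg_zero] at hc
  exact h.pos (g₁.x_pos (by decide)) hy hc

/-- `b₂ = x₂ - i y₂`. -/
theorem wall_T_T_S3 (h : Wv z q₁ q₂ b₁ b₂) (hy : 0 < b₁.im) (g₁ : InR rT b₁.re b₁.im)
    (g₂ : InR rS3 b₂.re (-b₂.im)) : 0 < (b₁ * tan z).re := by
  have hc := Wc_true g₁ g₂ (by decide) (by decide) (by decide) (by decide) (Wp_T_T_S3 g₁ g₂)
    (Wu_T_S3 g₁ g₂)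
  rw [neg_neg] at hc
  exact h.pos (g₁.x_pos (by decide)) hy hc

/-- `b₂ = 1`. -/
theorem wall_T_TA_one (h : Wv z q₁ q₂ b₁ 1) (hy : 0 < b₁.im) (g₁ : InR rTA b₁.re b₁.im) :
    0 < (b₁ * tan z).re := by
  have hc := Wc_true g₁ InR_one (by decide) (by decide) (by decide) (by decide)
    (Wp_T_TA_One g₁ InR_one) (fun _ => by
      have h1 := wall_el (x₂ := 1) (s := 0) hy le_rfl (g₁.x_lo (by decide) (by decide)) (by norm_num)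
        (g₁.hi.trans (by norm_num [rTA]))
      simpa using h1)
  rw [neg_zero] at hc
  exact h.pos (g₁.x_pos (by decide)) hy hc

/-- `b₂ = x₂ - i y₂`. -/
theorem wall_T_A3_S3 (h : Wv z q₁ q₂ b₁ b₂) (hy : 0 < b₁.im) (g₁ : InR rA3 b₁.re b₁.im)
    (g₂ : InR rS3 b₂.re (-b₂.im)) : 0 < (b₁ * tan z).re := by
  have hc := Wc_true g₁ g₂ (by decide) (by decide) (by decide) (by decide) (Wp_T_A3_S3 g₁ g₂)
    (fun _ => Or.inl (g₁.le_one (by decide)))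
  rw [neg_neg] at hc
  exact h.pos (g₁.x_pos (by decide)) hy hc

/-- `b₂ = 1`. -/
theorem wall_T_A3_one (h : Wv z q₁ q₂ b₁ 1) (hy : 0 < b₁.im) (g₁ : InR rA3 b₁.re b₁.im) :
    0 < (b₁ * tan z).re := by
  have hc := Wc_true g₁ InR_one (by decide) (by decide) (by decide) (by decide)
    (Wp_T_A3_One g₁ InR_one) (fun _ => by
      have h1 := wall_el (x₂ := 1) (s := 0) hy le_rfl (g₁.x_lo (by decide) (by decide)) (by norm_num)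
        (g₁.hi.trans (by norm_num [rA3]))
      simpa using h1)
  rw [neg_zero] at hc
  exact h.pos (g₁.x_pos (by decide)) hy hc

/-- `b₂ = x₂ + i y₂`. -/
theorem wall_F_A3_A3 (h : Wv z q₁ q₂ b₁ b₂) (hy : 0 < b₁.im) (g₁ : InR rA3 b₁.re b₁.im)
    (g₂ : InR rA3 b₂.re b₂.im) : 0 < (b₁ * tan z).re :=
  h.pos (g₁.x_pos (by decide)) hy
    (Wc_false g₁ g₂ hy (by decide) (by decide) (by decide) (by decide) (by decide) (Wp_F_A3_A3 g₁ g₂))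

/-- `b₂ = x₂ + i y₂`. -/
theorem wall_F_A3_NT (h : Wv z q₁ q₂ b₁ b₂) (hy : 0 < b₁.im) (g₁ : InR rA3 b₁.re b₁.im)
    (g₂ : InR rNT b₂.re b₂.im) : 0 < (b₁ * tan z).re :=
  h.pos (g₁.x_pos (by decide)) hy
    (Wc_false g₁ g₂ hy (by decide) (by decide) (by decide) (by decide) (by decide) (Wp_F_A3_NT g₁ g₂))

/-- `b₂ = x₂ + i y₂`. -/
theorem wall_F_NT_A3 (h : Wv z q₁ q₂ b₁ b₂) (hy : 0 < b₁.im) (g₁ : InR rNT b₁.re b₁.im)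
    (g₂ : InR rA3 b₂.re b₂.im) : 0 < (b₁ * tan z).re :=
  h.pos (g₁.x_pos (by decide)) hy
    (Wc_false g₁ g₂ hy (by decide) (by decide) (by decide) (by decide) (by decide) (Wp_F_NT_A3 g₁ g₂))

/-- `b₂ = x₂ + i y₂`. -/
theorem wall_F_NT_NT (h : Wv z q₁ q₂ b₁ b₂) (hy : 0 < b₁.im) (g₁ : InR rNT b₁.re b₁.im)
    (g₂ : InR rNT b₂.re b₂.im) : 0 < (b₁ * tan z).re :=
  h.pos (g₁.x_pos (by decide)) hy
    (Wc_false g₁ g₂ hy (by decide) (by decide) (by decide) (by decide) (by decide) (Wp_F_NT_NT g₁ g₂))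

/-- `b₂ = x₂ + i y₂`. -/
theorem wall_F_A3_ET (h : Wv z q₁ q₂ b₁ b₂) (hy : 0 < b₁.im) (g₁ : InR rA3 b₁.re b₁.im)
    (g₂ : InR rET b₂.re b₂.im) : 0 < (b₁ * tan z).re :=
  h.pos (g₁.x_pos (by decide)) hy
    (Wc_false g₁ g₂ hy (by decide) (by decide) (by decide) (by decide) (by decide) (Wp_F_A3_ET g₁ g₂))

/-- `b₂ = x₂ + i y₂`. -/
theorem wall_F_NT_ET (h : Wv z q₁ q₂ b₁ b₂) (hy : 0 < b₁.im) (g₁ : InR rNT b₁.re b₁.im)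
    (g₂ : InR rET b₂.re b₂.im) : 0 < (b₁ * tan z).re :=
  h.pos (g₁.x_pos (by decide)) hy
    (Wc_false g₁ g₂ hy (by decide) (by decide) (by decide) (by decide) (by decide) (Wp_F_NT_ET g₁ g₂))

end thms

end Pool.Agent.S5.E.B2
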