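import Pool.Agent.S5.E.B2.Str2B
import Pool.Agent.S5.E.B2.WallR
import Pool.Agent.S5.E.B2.Dom

/-!
# Mixed chains, block E: vertices with two twists, walls and dominance
-/

set_option autoImplicit false

namespace Pool.Agent.S5.E

open Complex
open Pool.Agent.S3.E (al ph tt k2 s2 PP norm_sin_sq PP_nonneg)
open Pool.Agent.S5.E.B2

variable {ι : Type*} {m : Bool}

namespace Zr

section gen

variable {κ : Type*} {a : ι → ℝ} {nl nr : ι → Option (ι × Bool)} {g : ι → κ → ℂ → ℝ} {τ : ℝ}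
  {z : ι → ℂ}

theorem w_nonneg (h : Zr m a nl nr g τ z) {i : ι} {o : Option (ι × Bool)}
    (ho : nl i = o ∨ nr i = o) : 0 ≤ (bo m τ z o * tan (z i)).re := by
  rcases ho with h1 | h1
  · have := (h.K.2.2 i).1
    rw [h1] at this
    exact this
  · have := (h.K.2.2 i).2
    rw [h1] at this
    exact this

theorem sinh_o (h : Zr m a nl nr g τ z) {i : ι} {o : Option (ι × Bool)}
    (ho : nl i = o ∨ nr i = o) :
    sinh (as (bo m τ z o * tan (z i))) * cos (z i) = bo m τ z o * sin (z i) := by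
  rcases ho with h1 | h1
  · have := h.sinh_l i
    rwa [h1] at this
  · have := h.sinh_r i
    rwa [h1] at this

theorem eq2 (h : Zr m a nl nr g τ z) {i : ι} (hi : a i = 2) {o₁ o₂ : Option (ι × Bool)}
    (ho : (nl i = o₁ ∧ nr i = o₂) ∨ (nl i = o₂ ∧ nr i = o₁)) :
    2 * z i = (Real.pi : ℂ) + I * (as (bo m τ z o₁ * tan (z i)) + as (bo m τ z o₂ * tan (z i))) := by
  have h1 := h.eqn i
  rw [hi] at h1
  push_cast at h1
  rcases ho with ⟨h3, h4⟩ | ⟨h3, h4⟩
  · rw [h3, h4] at h1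
    exact h1
  · rw [h3, h4, add_comm (as _)] at h1
    exact h1

/-- The hypotheses of the wall. -/
theorem wv (h : Zr m a nl nr g τ z) {i : ι} (hi : a i = 2) {o₁ o₂ : Option (ι × Bool)}
    (ho : (nl i = o₁ ∧ nr i = o₂) ∨ (nl i = o₂ ∧ nr i = o₁)) :
    Wv (z i) (as (bo m τ z o₁ * tan (z i))) (as (bo m τ z o₂ * tan (z i))) (bo m τ z o₁)
      (bo m τ z o₂) := by
  have h1 : nl i = o₁ ∨ nr i = o₁ := by
    rcases ho with ⟨h3, h4⟩ | ⟨h3, h4⟩
    · exact Or.inl h3
    · exact Or.inr h4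
  have h2 : nl i = o₂ ∨ nr i = o₂ := by
    rcases ho with ⟨h3, h4⟩ | ⟨h3, h4⟩
    · exact Or.inr h4
    · exact Or.inl h3
  refine ⟨h.eq2 hi ho, h.sinh_o h1, h.sinh_o h2, (h.pos i).1, (h.pos i).2.1, (h.pos i).2.2, ?_, ?_,
    ?_, h.w_nonneg h1⟩
  · rw [as_im]; exact neg_le_RS _
  · rw [as_im]; exact RS_le _
  · rw [as_im]; exact neg_le_RS _

/-- Wall at exponent zero. -/
theorem wall0 (h : Zr m a nl nr g τ z) {i o : ι} (h0 : ex m false τ = 0) :
    0 < (bo m τ z (some (o, false)) * tan (z i)).re := by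
  apply h.w_re_pos
  · rw [h.be_A, h0, zero_mul, add_zero]
    exact Pool.Agent.S3.E.al_lt _ _
  · rw [h.be_A, h0, zero_mul, add_zero]
    linarith [h.alpos i, Real.pi_pos]

theorem bo_im_pos (h : Zr m a nl nr g τ z) {o : ι} (h0 : ex m false τ ≠ 0) :
    0 < (bo m τ z (some (o, false))).im := by
  rw [h.bo_im, h.be_A]
  have t0 : 0 < ex m false τ := lt_of_le_of_ne (h.ex_mem false).1 (Ne.symm h0)
  have t1 := (h.ex_mem (s := false)).2
  apply mul_pos (h.ro_pos _ _)
  apply Real.sin_pos_of_pos_of_lt_pi (mul_pos t0 (h.phpos o))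
  have := h.phlt o
  have := h.phpos o
  nlinarith [Real.pi_pos]

/-- Wall of an `S` slot. -/
theorem wallS (h : Zr m a nl nr g τ z) {i o : ι} :
    0 < (bo m τ z (some (o, true)) * tan (z i)).re := by
  have e : be m τ z (some (o, true)) = -(ex m true τ * ph (z o).re (z o).im) := by
    simp [be, sg]
  have t0 := (h.ex_mem (s := true)).1
  have t1 := (h.ex_mem (s := true)).2
  have h1 := h.phpos o
  have h2 := h.phlt o
  have h3 : 0 ≤ ex m true τ * ph (z o).re (z o).im := mul_nonneg t0 h1.le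
  have h4 : ex m true τ * ph (z o).re (z o).im ≤ ph (z o).re (z o).im := by nlinarith
  have h5 := h.alpos i
  have h6 := Pool.Agent.S3.E.al_lt (z i).re (z i).im
  apply h.w_re_pos
  · rw [e]; linarith
  · rw [e]; linarith

theorem _root_.Pool.Agent.S5.E.B2.SR.re {s : Bool} {r : Rg} {b : ℂ} {x y : ℝ} (h : SR s r b x y) :
    b.re = x := by
  rw [h.eq]; simp

theorem _root_.Pool.Agent.S5.E.B2.SR.im {s : Bool} {r : Rg} {b : ℂ} {x y : ℝ} (h : SR s r b x y) :
    b.im = sgy s y := by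
  rw [h.eq]; simp

end gen

variable {a : ι → ℝ} {nl nr : ι → Option (ι × Bool)} {τ : ℝ} {z : ι → ℂ}

/-- The wall at a special vertex. -/
theorem wallSp (h : Zr m a nl nr (gC a nl nr) τ z) {i j l : ι} (hi : a i = 2)
    (hs : Sp nl nr i j l) (d : DS a nl nr m τ z i j l) :
    0 < (bo m τ z (some (j, false)) * tan (z i)).re := by
  by_cases h0 : ex m false τ = 0
  · exact h.wall0 h0
  have hy := h.bo_im_pos (o := j) h0
  have hw := h.wv hi (o₁ := some (j, false)) (o₂ := some (l, true)) hs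
  have g1 : ∀ {r : Rg} {x y : ℝ}, SR false r (bo m τ z (some (j, false))) x y →
      InR r (bo m τ z (some (j, false))).re (bo m τ z (some (j, false))).im := by
    intro r x y s
    have := s.reg
    rw [s.re, s.im]
    simpa [sgy] using this
  have g2 : ∀ {r : Rg} {x y : ℝ}, SR true r (bo m τ z (some (l, true))) x y →
      InR r (bo m τ z (some (l, true))).re (-(bo m τ z (some (l, true))).im) := by
    intro r x y s
    have := s.reg
    rw [s.re, s.im]
    simpa [sgy] using this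
  have hone : ∀ {x y : ℝ}, m = false → SR true rOne (bo m τ z (some (l, true))) x y →
      bo m τ z (some (l, true)) = 1 := by
    intro x y hm s
    subst hm
    have := (h.slot0 (j := l) (s := true) rfl).1.eq
    rw [this]
    simp [sgy]
  have hreg := h.reg i
  have kle : ∀ {r : Rg}, cls a nl nr i = r → r.k1 ≤ 1050 → ‖cos (z i)‖ ≤ 1.05 := by
    intro r hr hk
    rw [hr] at hreg
    have h4 := hreg.k1' (K := 1050) hk
    rw [h.norm_sq_cos] at h4
    have h5 := (pow_le_pow_iff_left₀ (h.norm_pos i).le (by positivity) (by norm_num)).1 h4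
    norm_num at h5 ⊢
    linarith
  have phle : ∀ {r : Rg}, cls a nl nr i = r → r.t1 ≤ 1000 → ph (z i).re (z i).im ≤ Real.pi / 4 := by
    intro r hr hk
    rw [hr] at hreg
    exact (h.end_facts hreg hk).1
  rcases d with ⟨hm, c, d⟩ | ⟨hm, c, d⟩ | ⟨hm, c, d⟩ | ⟨hm, c, d⟩ | ⟨hm, c, d⟩ | ⟨hm, c, d⟩ |
    ⟨hm, c, hj, he, d⟩ | ⟨hm, c, hj, he, d⟩
  · obtain ⟨x₁, y₁, x₂, y₂, s1, s2, v⟩ := d
    exact wall_T_P_SB hw hy (g1 s1) (g2 s2)
  · obtain ⟨x₁, y₁, x₂, y₂, s1, s2, v⟩ := d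
    rw [hone hm s2] at hw
    exact wall_T_PA_one hw hy (g1 s1)
  · obtain ⟨x₁, y₁, x₂, y₂, s1, s2, v⟩ := d
    exact wall_T_T_S3 hw hy (g1 s1) (g2 s2)
  · obtain ⟨x₁, y₁, x₂, y₂, s1, s2, v⟩ := d
    rw [hone hm s2] at hw
    exact wall_T_TA_one hw hy (g1 s1)
  · obtain ⟨x₁, y₁, x₂, y₂, s1, s2, v⟩ := d
    exact wall_T_A3_S3 hw hy (g1 s1) (g2 s2)
  · obtain ⟨x₁, y₁, x₂, y₂, s1, s2, v⟩ := d
    rw [hone hm s2] at hw
    exact wall_T_A3_one hw hy (g1 s1)
  · have hk := h.kEB d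
    exact h.wall_nb hj he (phle c (by decide)) hk.le (fun _ => hk)
  · have hk := h.kEA hj he (kle c (by decide)) d
    exact h.wall_nb hj he (phle c (by decide)) hk.1 hk.2

/-- The wall at a vertex with two `A` edges, first slot. -/
theorem wallT (h : Zr m a nl nr (gC a nl nr) τ z) (hC : Ch a nl nr) (h3 : In3 a nl nr z)
    {i j k : ι} (hi : a i = 2) (ht : IsT nl nr i j k) :
    0 < (bo m τ z (some (j, false)) * tan (z i)).re ∧
      0 < (bo m τ z (some (k, false)) * tan (z i)).re := by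
  by_cases h0 : ex m false τ = 0
  · exact ⟨h.wall0 h0, h.wall0 h0⟩
  have hreg := h.reg i
  rw [cls_T hi ht] at hreg
  have hphi := (h.end_facts hreg (by decide)).1
  obtain ⟨r₁, r₂, q1, q2, ⟨x₁, y₁, x₂, y₂, s1, s2, v⟩, p1, p2, -⟩ := h.dT hC h3 hi ht
  have g1 : ∀ {o : ι} {r : Rg} {x y : ℝ}, SR false r (bo m τ z (some (o, false))) x y →
      InR r (bo m τ z (some (o, false))).re (bo m τ z (some (o, false))).im := by
    intro o r x y s
    have := s.reg
    rw [s.re, s.im]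
    simpa [sgy] using this
  have key : ∀ {o o' : ι} {r r' : Rg}, Wv (z i) (as (bo m τ z (some (o, false)) * tan (z i)))
      (as (bo m τ z (some (o', false)) * tan (z i))) (bo m τ z (some (o, false)))
      (bo m τ z (some (o', false))) →
      InR r (bo m τ z (some (o, false))).re (bo m τ z (some (o, false))).im →
      InR r' (bo m τ z (some (o', false))).re (bo m τ z (some (o', false))).im →
      RT r → RT r' → ((r = rA3 ∨ r = rNT) ∨ (a o = 2 ∧ IsE nl nr o i)) →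
      0 < (bo m τ z (some (o, false)) * tan (z i)).re := by
    intro o o' r r' hw i1 i2 q q' p
    have hy := h.bo_im_pos (o := o) h0
    rcases p with p | ⟨p, p'⟩
    · rcases p with p | p
      · subst p
        cases q'
        · exact wall_F_A3_A3 hw hy i1 i2
        · exact wall_F_A3_NT hw hy i1 i2
        · exact wall_F_A3_ET hw hy i1 i2
      · subst p
        cases q'
        · exact wall_F_NT_A3 hw hy i1 i2
        · exact wall_F_NT_NT hw hy i1 i2
        · exact wall_F_NT_ET hw hy i1 i2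
    · have hk := h.kT hC h3 hi ht p p'
      exact h.wall_nb p p' hphi hk.1 hk.2
  exact ⟨key (h.wv hi (Or.inl ht)) (g1 s1) (g1 s2) q1 q2 p1,
    key (h.wv hi (Or.inr ht)) (g1 s2) (g1 s1) q2 q1 p2⟩

/-- All walls of the vertices with two twists. -/
theorem wall2 (h : Zr m a nl nr (gC a nl nr) τ z) (hC : Ch a nl nr) (h3 : In3 a nl nr z)
    {i : ι} (hi : a i = 2) : (nl i ≠ none → 0 < (bo m τ z (nl i) * tan (z i)).re) ∧
    (nr i ≠ none → 0 < (bo m τ z (nr i) * tan (z i)).re) := by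
  by_cases hT : ∃ j k, IsT nl nr i j k
  · obtain ⟨j, k, ht⟩ := hT
    have h1 := h.wallT hC h3 hi ht
    obtain ⟨h2, h4⟩ := ht
    rw [h2, h4]
    exact ⟨fun _ => h1.1, fun _ => h1.2⟩
  by_cases hE : ∃ j, IsE nl nr i j
  · obtain ⟨j, he⟩ := hE
    have hk : ‖cos (z j)‖ ≤ 1.2 := by
      have : ‖cos (z j)‖ ≤ 1.1 := (h.K.1.2 j).2.2.1
      norm_num at this ⊢
      linarith
    have h1 := h.wall_end hi he hk
    rcases he with ⟨h2, h4⟩ | ⟨h2, h4⟩
    · rw [h2, h4]
      exact ⟨fun _ => h1, fun h5 => absurd rfl h5⟩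
    · rw [h2, h4]
      exact ⟨fun h5 => absurd rfl h5, fun _ => h1⟩
  push Not at hT hE
  obtain ⟨j, l, hs, d⟩ := h.ds hC h3 hi hT hE
  have h1 := h.wallSp hi hs d
  have h2 := h.wallS (i := i) (o := l)
  rcases hs with ⟨h4, h5⟩ | ⟨h4, h5⟩
  · rw [h4, h5]
    exact ⟨fun _ => h1, fun _ => h2⟩
  · rw [h4, h5]
    exact ⟨fun _ => h2, fun _ => h1⟩

/-- Dominance for a vertex with two neighbours. -/
theorem domG (h : Zr m a nl nr (gC a nl nr) τ z) {i : ι} (hi : a i = 2) {o₁ o₂ : ι × Bool}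
    (ho : (nl i = some o₁ ∧ nr i = some o₂) ∨ (nl i = some o₂ ∧ nr i = some o₁)) {so : Bool}
    {r₁ r₂ : Rg} {u v : ℝ} (d : VD so r₁ r₂ (bo m τ z (some o₁)) (bo m τ z (some o₂)) u v)
    (k1 : okR so r₁ = true) (k2 : okR so r₂ = true)
    (w1 : 0 < (bo m τ z (some o₁) * tan (z i)).re) (w2 : 0 < (bo m τ z (some o₂) * tan (z i)).re) :
    s2 (z i).re (z i).im * (‖tanh (as (bo m τ z (nl i) * tan (z i)))‖ +
        ‖tanh (as (bo m τ z (nr i) * tan (z i)))‖) <
      ‖(a i : ℂ) * (cos (z i) * sin (z i)) - I * (tanh (as (bo m τ z (nl i) * tan (z i))) +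
          tanh (as (bo m τ z (nr i) * tan (z i))))‖ := by
  obtain ⟨x₁, y₁, x₂, y₂, s1, s2', -⟩ := d
  have e1 := h.eq2 hi ho
  have h1 : nl i = some o₁ ∨ nr i = some o₁ := by
    rcases ho with ⟨h3, h4⟩ | ⟨h3, h4⟩
    · exact Or.inl h3
    · exact Or.inr h4
  have h2 : nl i = some o₂ ∨ nr i = some o₂ := by
    rcases ho with ⟨h3, h4⟩ | ⟨h3, h4⟩
    · exact Or.inr h4
    · exact Or.inl h3
  have e2 := h.sinh_o h1
  have e3 := h.sinh_o h2
  have c1 := cosh_as_ne w1
  have c2 := cosh_as_ne w2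
  have hb1 := s1.eq
  simp only [sgy, Bool.false_eq_true, if_false] at hb1
  have key := dom_InR (so := so) s1.reg s2'.reg k1 k2 e1
    (by rw [e2]; congr 1; rw [hb1]; ring) (by rw [e3]; congr 1; rw [s2'.eq]; ring)
    (h.cos_ne i) (h.sin_ne i) c1 c2
  rw [norm_sin_sq] at key
  rw [hi]
  push_cast
  rcases ho with ⟨h3, h4⟩ | ⟨h3, h4⟩
  · rw [h3, h4]
    exact key
  · rw [h3, h4, add_comm (‖tanh (as (bo m τ z (some o₂) * tan (z i)))‖),
      add_comm (tanh (as (bo m τ z (some o₂) * tan (z i))))]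
    exact key

theorem dom2 (h : Zr m a nl nr (gC a nl nr) τ z) (hC : Ch a nl nr) (h3 : In3 a nl nr z)
    {i : ι} (hi : a i = 2) :
    s2 (z i).re (z i).im * (‖tanh (as (bo m τ z (nl i) * tan (z i)))‖ +
        ‖tanh (as (bo m τ z (nr i) * tan (z i)))‖) <
      ‖(a i : ℂ) * (cos (z i) * sin (z i)) - I * (tanh (as (bo m τ z (nl i) * tan (z i))) +
          tanh (as (bo m τ z (nr i) * tan (z i))))‖ := by
  by_cases hT : ∃ j k, IsT nl nr i j k
  · obtain ⟨j, k, ht⟩ := hT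
    have h1 := h.wallT hC h3 hi ht
    obtain ⟨r₁, r₂, q1, q2, d, -⟩ := h.dT hC h3 hi ht
    have c1 : okR false r₁ = true := by cases q1 <;> decide
    have c2 : okR false r₂ = true := by cases q2 <;> decide
    exact h.domG hi (Or.inl ht) d c1 c2 h1.1 h1.2
  by_cases hE : ∃ j, IsE nl nr i j
  · obtain ⟨j, he⟩ := hE
    have hk : ‖cos (z j)‖ ≤ 1.2 := by
      have : ‖cos (z j)‖ ≤ 1.1 := (h.K.1.2 j).2.2.1
      norm_num at this ⊢
      linarith
    exact h.dom_E hi he hk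
  push Not at hT hE
  obtain ⟨j, l, hs, d⟩ := h.ds hC h3 hi hT hE
  have h1 := h.wallSp hi hs d
  have h2 := h.wallS (i := i) (o := l)
  rcases d with ⟨hm, c, d⟩ | ⟨hm, c, d⟩ | ⟨hm, c, d⟩ | ⟨hm, c, d⟩ | ⟨hm, c, d⟩ | ⟨hm, c, d⟩ |
    ⟨hm, c, hj, he, d⟩ | ⟨hm, c, hj, he, d⟩
  · exact h.domG hi hs d (by decide) (by decide) h1 h2
  · exact h.domG hi hs d (by decide) (by decide) h1 h2
  · exact h.domG hi hs d (by decide) (by decide) h1 h2
  · exact h.domG hi hs d (by decide) (by decide) h1 h2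
  · exact h.domG hi hs d (by decide) (by decide) h1 h2
  · exact h.domG hi hs d (by decide) (by decide) h1 h2
  · exact h.domG hi hs d (by decide) (by decide) h1 h2
  · exact h.domG hi hs d (by decide) (by decide) h1 h2

end Zr

end Pool.Agent.S5.E
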