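import Pool.Agent.S5.E.B2.Str2C

/-!
# Mixed chains, block E: vertices with two twists, summary
-/

set_option autoImplicit false

namespace Pool.Agent.S5.E

open Complex
open Pool.Agent.S3.E (al ph tt k2 s2 PP cc gg neg_one_lt_gg norm_sin_sq)
open Pool.Agent.S5.E.B2

variable {ι : Type*} {m : Bool}

namespace Zr

theorem im2 {κ : Type*} {a : ι → ℝ} {nl nr : ι → Option (ι × Bool)} {g : ι → κ → ℂ → ℝ} {τ : ℝ}
    {z : ι → ℂ} (h : Zr m a nl nr g τ z) (i : ι) : (z i).im < 2 := by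
  have h0 : ‖cos (z i)‖ ≤ 1.1 := (h.K.1.2 i).2.2.1
  have h1 := h.k2_eq i
  have h2 := neg_one_lt_gg (h.pos i).1 (h.pos i).2.1
  have h3 : k2 (z i).re (z i).im ≤ 1.21 := by
    rw [h1]
    have := h.norm_pos i
    norm_num at h0 ⊢
    nlinarith
  have h3' : cc (z i).im < 3.42 := by unfold k2 at h3; norm_num at h3 ⊢; linarith
  by_contra hc
  push Not at hc
  have h4 : 1 + (2 * (z i).im) ^ 2 / 2 ≤ Real.cosh (2 * (z i).im) := by
    have h5 : Real.cosh (2 * (z i).im) = 1 + 2 * Real.sinh (z i).im ^ 2 := by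
      rw [Real.cosh_two_mul, Real.cosh_sq]; ring
    have h6 : (z i).im ≤ Real.sinh (z i).im := Real.self_le_sinh_iff.2 (h.pos i).2.2.le
    have h7 := (h.pos i).2.2
    nlinarith
  unfold cc at h3'
  norm_num at h3'
  nlinarith

end Zr

/-- All strict inequalities at a vertex. -/
structure StrV {κ : Type*} (m : Bool) (a : ι → ℝ) (nl nr : ι → Option (ι × Bool))
    (g : ι → κ → ℂ → ℝ) (τ : ℝ) (z : ι → ℂ) (i : ι) : Prop where
  k : 0.49 < ‖cos (z i)‖ ∧ ‖cos (z i)‖ < 1.1 ∧ -(cos (z i)).im < 1.04 * (cos (z i)).re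
  g : ∀ k, 0 < g i k (z i)
  w : (nl i ≠ none → 0 < (bo m τ z (nl i) * tan (z i)).re) ∧
    (nr i ≠ none → 0 < (bo m τ z (nr i) * tan (z i)).re)
  dom : s2 (z i).re (z i).im * (‖tanh (as (bo m τ z (nl i) * tan (z i)))‖ +
        ‖tanh (as (bo m τ z (nr i) * tan (z i)))‖) <
      ‖(a i : ℂ) * (cos (z i) * sin (z i)) - I * (tanh (as (bo m τ z (nl i) * tan (z i))) +
          tanh (as (bo m τ z (nr i) * tan (z i))))‖

theorem Str.of_V {κ : Type*} {a : ι → ℝ} {nl nr : ι → Option (ι × Bool)} {g : ι → κ → ℂ → ℝ}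
    {τ : ℝ} {z : ι → ℂ} (h : Zr m a nl nr g τ z) (hv : ∀ i, StrV m a nl nr g τ z i) :
    Str m a nl nr g τ z :=
  ⟨h.im2, fun i => (hv i).k, fun i => (hv i).g, fun i => (hv i).w, fun i => (hv i).dom⟩

/-- Vertices with two twists. -/
theorem Zr.strV2 {a : ι → ℝ} {nl nr : ι → Option (ι × Bool)} {τ : ℝ} {z : ι → ℂ}
    (h : Zr m a nl nr (gC a nl nr) τ z) (hC : Ch a nl nr) (h3 : In3 a nl nr z)
    {i : ι} (hi : a i = 2) : StrV m a nl nr (gC a nl nr) τ z i :=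
  ⟨h.k2' hC h3 hi, fun k => (h.str2 hC h3 hi).g k, h.wall2 hC h3 hi, h.dom2 hC h3 hi⟩

/-- The region of a vertex with three or more twists. -/
theorem strFree {a : ι → ℝ} {nl nr : ι → Option (ι × Bool)} {w : ℂ} {i : ι} (hi : 3 ≤ a i)
    (h1 : (cos w).re ^ 2 + (-(cos w).im) ^ 2 < 1.44) (h2 : 0 < (cos w).re) (h3 : 0 < -(cos w).im)
    (h4 : -(cos w).im < 1.1 * (cos w).re) (k : Fin 5) : 0 < gC a nl nr i k w := by
  have : StR (cls a nl nr i) (cos w).re (-(cos w).im) := by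
    rw [cls_3 hi]
    refine ⟨?_, ?_, ?_, ?_, ?_⟩
    · show (((0 : ℕ) : ℝ) / 1000) ^ 2 < _
      norm_num
      positivity
    · show _ < (((1200 : ℕ) : ℝ) / 1000) ^ 2
      norm_num at h1 ⊢
      linarith
    · show ((0 : ℕ) : ℝ) / 1000 * _ < _
      norm_num
      linarith
    · show _ < ((1100 : ℕ) : ℝ) / 1000 * _
      norm_num at h4 ⊢
      linarith
    · show ((0 : ℕ) : ℝ) / 1000 < _
      have := mul_pos h2 h3
      simpa using this
  exact this.g k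

end Pool.Agent.S5.E
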