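import Pool.Agent.S5.E.B2.Regs

/-!
# Mixed chains, block E: vertices with two twists, upper bounds of the angle above 45 degrees
-/

set_option autoImplicit false

namespace Pool.Agent.S5.E.B2

open Complex Pool.Agent.S3.NI

theorem aL_sound {so : Bool} {x₁ y₁ x₂ y₂ u v t : ℝ} (t0 : 0 ≤ t) {E P Q nn II RR : N}
    (hE : Mem ((1 + t ^ 2) ^ 2) E) (mC : Mem (max (Cr so t x₁ y₁ x₂ y₂) 0) P)
    (mS : Mem (max (Sr so t x₁ y₁ x₂ y₂) 0) Q)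
    (mN : Mem ((x₁ + x₂) ^ 2 + (y₁ + sgy so y₂) ^ 2) nn) (mI : Mem |Ir so x₁ y₁ x₂ y₂| II)
    (mR : Mem ((x₁ ^ 2 + y₁ ^ 2) * x₂ + (x₂ ^ 2 + y₂ ^ 2) * x₁) RR)
    (ht : aL E P Q nn II RR = true) (h : V2 so x₁ y₁ x₂ y₂ u v) : v < t * u := by
  unfold aL at ht
  rw [Bool.and_eq_true] at ht
  have hSp := mS.pos ht.1
  have hS : 0 < Sr so t x₁ y₁ x₂ y₂ := by
    rcases lt_max_iff.1 hSp with h0 | h0
    · exact h0
    · exact absurd h0 (lt_irrefl _)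
  rw [max_eq_left hS.le] at mS
  have hlt := (mC.sq.mul ((mN.mul mS.sq).add (hE.mul mI.sq))).lt ((hE.mul mR.sq).mul mS.sq) ht.2
  rw [sq_abs] at hlt
  set n := (x₁ + x₂) ^ 2 + (y₁ + sgy so y₂) ^ 2 with hn
  have hn0 : 0 < n := by
    have := h.x10
    have := h.x20
    rw [hn]; positivity
  have hQ := h.qd rfl hn
  have key := hQ.ang_lt hS (C := Cr so t x₁ y₁ x₂ y₂) (by
    intro hC
    rw [max_eq_left hC.le] at hlt
    rw [CS_id, ← hn]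
    set R := (x₁ ^ 2 + y₁ ^ 2) * x₂ + (x₂ ^ 2 + y₂ ^ 2) * x₁
    set S := Sr so t x₁ y₁ x₂ y₂
    set C' := Cr so t x₁ y₁ x₂ y₂
    have e : (1 + t ^ 2) ^ 2 * n * ((R / n) ^ 2 * S ^ 2 -
        (((x₁ ^ 2 + y₁ ^ 2) * sgy so y₂ + (x₂ ^ 2 + y₂ ^ 2) * y₁) / n) ^ 2 * C' ^ 2) =
        ((1 + t ^ 2) ^ 2 * R ^ 2 * S ^ 2 -
          (1 + t ^ 2) ^ 2 * Ir so x₁ y₁ x₂ y₂ ^ 2 * C' ^ 2) / n := by
      unfold Ir
      field_simp
    rw [e, lt_div_iff₀ hn0]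
    nlinarith [hlt])
  have key2 : 0 < 2 * (t * u - v) * (u + t * v) := by
    have e : Sr so t x₁ y₁ x₂ y₂ *
        (((u ^ 2 - v ^ 2) * (x₁ + x₂) - 2 * u * v * (y₁ + sgy so y₂)) / n) -
        Cr so t x₁ y₁ x₂ y₂ *
        (((u ^ 2 - v ^ 2) * (y₁ + sgy so y₂) + 2 * u * v * (x₁ + x₂)) / n) =
        2 * (t * u - v) * (u + t * v) := by
      unfold Cr Sr
      have hne := hn0.ne'
      field_simp
      rw [hn]
      ring
    rw [← e]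
    linarith
  have hu := h.u0
  have hv := h.v0
  have h5 : 0 < u + t * v := by positivity
  have h6 : 0 < t * u - v := by
    by_contra hc
    push Not at hc
    nlinarith
  linarith

/-- `τ² - 1` for `τ = T / 1000 ≥ 1`. -/
def vT (T : ℕ) : N := (th T).sq.sub one

theorem mem_vT {T : ℕ} (hT : 1000 ≤ T) : Mem (((T : ℝ) / 1000) ^ 2 - 1) (vT T) := by
  refine (mem_th T).sq.sub mem_one ?_
  have h1 : (1000 : ℝ) ≤ T := by exact_mod_cast hT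
  have h3 : 1 ≤ (T : ℝ) / 1000 := by rw [le_div_iff₀ (by norm_num)]; linarith
  nlinarith

/-- `max (Re (s (1 + iτ)²)) 0` and `max (Im (s (1 + iτ)²)) 0` for `τ ≥ 1`, `w = τ² - 1`. -/
def C2 (w d A B C D : N) : N := (d.mul D).sub (((A.add C).mul w).add (d.mul B))
def S2 (w d A B C D : N) : N := (((A.add C).mul d).add (w.mul D)).sub (w.mul B)

def tPH (r₁ r₂ : Rg) (T : ℕ) (A B C D : N) : Bool :=
  inf r₁ A B || (inf r₂ C D || aL (eT T) (C2 (vT T) (dT T) A B C D) (S2 (vT T) (dT T) A B C D)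
    (Nn true A B C D) (Ip true r₁ r₂ A B C D) (Rp r₁ r₂ A B C D))

theorem tPH_sound {r₁ r₂ : Rg} {T : ℕ} (hT : 1000 ≤ T) {A B C D : N}
    (ht : tPH r₁ r₂ T A B C D = true) {x₁ y₁ x₂ y₂ : ℝ} (h1 : Mem x₁ A) (h2 : Mem y₁ B)
    (h3 : Mem x₂ C) (h4 : Mem y₂ D) (g1 : InR r₁ x₁ y₁) (g2 : InR r₂ x₂ y₂) {u v : ℝ}
    (h : V2 true x₁ y₁ x₂ y₂ u v) : v < (T : ℝ) / 1000 * u := by
  unfold tPH at ht
  rw [Bool.or_eq_true, Bool.or_eq_true] at ht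
  rcases ht with ht | ht | ht
  · exact (inf_sound g1 h1 h2 ht).elim
  · exact (inf_sound g2 h3 h4 ht).elim
  have hw := mem_vT hT
  have hd := mem_dT T
  have mC : Mem (max (Cr true ((T : ℝ) / 1000) x₁ y₁ x₂ y₂) 0) (C2 (vT T) (dT T) A B C D) := by
    have hh := Mem.subp (hd.mul h4) (((h1.add h3).mul hw).add (hd.mul h2))
    have e : 2 * ((T : ℝ) / 1000) * y₂ - ((x₁ + x₂) * (((T : ℝ) / 1000) ^ 2 - 1) +
        2 * ((T : ℝ) / 1000) * y₁) = Cr true ((T : ℝ) / 1000) x₁ y₁ x₂ y₂ := by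
      unfold Cr sgy
      simp only [if_true]
      ring
    rw [e] at hh
    exact hh
  have mS : Mem (max (Sr true ((T : ℝ) / 1000) x₁ y₁ x₂ y₂) 0) (S2 (vT T) (dT T) A B C D) := by
    have hh := Mem.subp (((h1.add h3).mul hd).add (hw.mul h4)) (hw.mul h2)
    have e : (x₁ + x₂) * (2 * ((T : ℝ) / 1000)) + (((T : ℝ) / 1000) ^ 2 - 1) * y₂ -
        (((T : ℝ) / 1000) ^ 2 - 1) * y₁ = Sr true ((T : ℝ) / 1000) x₁ y₁ x₂ y₂ := by
      unfold Sr sgy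
      simp only [if_true]
      ring
    rw [e] at hh
    exact hh
  exact aL_sound (by positivity) (mem_eT T) mC mS (mem_Nn h1 h2 h3 h4) (mem_Ip g1 g2 h1 h2 h3 h4)
    (mem_Rp g1 g2 h1 h2 h3 h4) ht h

theorem imp_PH {r₁ r₂ : Rg} {p₁ p₂ : Bx} {n : ℕ} (T : ℕ) (hT : 1000 ≤ T) (k1 : okb r₁ p₁ = true)
    (k2 : okb r₂ p₂ = true) (hb : bbw (tPH r₁ r₂ T) 1 1 1 1 n p₁.X p₁.Y p₂.X p₂.Y = true) :
    Imp true r₁ r₂ (fun u v => v < (T : ℝ) / 1000 * u) := by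
  intro x₁ y₁ x₂ y₂ u v g1 g2 h
  obtain ⟨a1, a2⟩ := okb_sound k1 g1
  obtain ⟨a3, a4⟩ := okb_sound k2 g2
  exact bbw_sound (P := fun a b c d => InR r₁ a b → InR r₂ c d → V2 true a b c d u v →
    v < (T : ℝ) / 1000 * u) (fun A B C D ht a b c d ha hb hc hd g1 g2 h =>
      tPH_sound hT ht ha hb hc hd g1 g2 h) 1 1 1 1 n _ _ _ _ hb _ _ _ _ a1 a2 a3 a4 g1 g2 h

end Pool.Agent.S5.E.B2
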