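import Pool.Agent.S5.E.B2.Tests

/-!
# Mixed chains, block E: vertices with two twists, the lower bound of `u v`
-/

set_option autoImplicit false

namespace Pool.Agent.S5.E.B2

open Complex Pool.Agent.S3.NI

/-- `G² (pr² + sy² + 16 m² + 8 m pp) < z² + G² (sx² + 8 m pm)`. -/
def cXY (m2 m8 mm sx sy pr pp pm z G : N) : Bool :=
  G.ps && (pm.le (m2.add pp) && (G.sq.mul (((pr.sq.add sy.sq).add mm).add (m8.mul pp))).lt
    (z.sq.add (G.sq.mul (sx.sq.add (m8.mul pm)))))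

/-- `((4 m + pp) - pm)` and the rest. -/
def dXY (m : ℕ) (B D sx sy pr pp pm : N) : Bool :=
  cXY (th (2 * m)) (th (8 * m)) (th (4 * m)).sq sx sy pr pp pm
    (((pr.mul pp).add (sx.mul D)).ad ((pr.mul pm).add (sx.mul B))) (((th (4 * m)).add pp).sub pm)

def tXY (r₁ r₂ : Rg) (m : ℕ) (A B C D : N) : Bool :=
  inf r₁ A B || (inf r₂ C D || dXY m B D (A.add C) (B.ad D) ((A.mul C).add (B.mul D)) (B.mul C)
    (A.mul D))

theorem XY_real {x₁ y₁ x₂ y₂ e f m : ℝ} (hf : 0 ≤ f)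
    (E1 : 4 * (e ^ 2 - f ^ 2) - 4 * ((x₁ * x₂ + y₁ * y₂) * e + (y₁ * x₂ - x₁ * y₂) * f) +
      ((x₁ + x₂) ^ 2 - (y₁ - y₂) ^ 2) = 0)
    (E2 : -(8 * e * f) - 4 * ((y₁ * x₂ - x₁ * y₂) * e - (x₁ * x₂ + y₁ * y₂) * f) +
      2 * (x₁ + x₂) * (y₁ - y₂) = 0)
    (h1 : x₁ * y₂ ≤ 2 * m + y₁ * x₂)
    (h2 : (4 * m + y₁ * x₂ - x₁ * y₂) ^ 2 * ((x₁ * x₂ + y₁ * y₂) ^ 2 + (y₁ - y₂) ^ 2 +
      16 * m ^ 2 + 8 * m * (y₁ * x₂)) <
      ((x₁ * x₂ + y₁ * y₂) * (y₁ * x₂) + (x₁ + x₂) * y₂ -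
        ((x₁ * x₂ + y₁ * y₂) * (x₁ * y₂) + (x₁ + x₂) * y₁)) ^ 2 +
      (4 * m + y₁ * x₂ - x₁ * y₂) ^ 2 * ((x₁ + x₂) ^ 2 + 8 * m * (x₁ * y₂))) : 2 * m < f := by
  by_contra hc
  push Not at hc
  obtain ⟨p, hp⟩ : ∃ p, p = x₁ * x₂ + y₁ * y₂ := ⟨_, rfl⟩
  obtain ⟨i, hi⟩ : ∃ i, i = y₁ * x₂ - x₁ * y₂ := ⟨_, rfl⟩
  obtain ⟨s, hs⟩ : ∃ s, s = x₁ + x₂ := ⟨_, rfl⟩
  obtain ⟨t, ht⟩ : ∃ t, t = y₁ - y₂ := ⟨_, rfl⟩
  have h2' : (4 * m + i) ^ 2 * (p ^ 2 + t ^ 2 + 16 * m ^ 2 + 8 * m * i - s ^ 2) <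
      (p * i - s * t) ^ 2 := by
    rw [hp, hi, hs, ht]
    nlinarith [h2]
  rw [← hp, ← hi, ← hs, ← ht] at E1 E2
  have h1' : -(2 * m) ≤ i := by rw [hi]; linarith
  have k1 : (2 * f + i) ^ 2 ≤ (4 * m + i) ^ 2 := by
    apply sq_le_sq'
    · linarith
    · linarith
  have k2 : 0 ≤ ((4 * m + i) ^ 2 - (2 * f + i) ^ 2) * ((4 * m + i) ^ 2 + (2 * e - p) ^ 2) :=
    mul_nonneg (by linarith) (by positivity)
  have e1 : (2 * e - p) * (2 * f + i) = s * t - p * i := by linear_combination -(1 / 2) * E2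
  have e2 : (2 * e - p) ^ 2 - (2 * f + i) ^ 2 = p ^ 2 - i ^ 2 - s ^ 2 + t ^ 2 := by
    linear_combination E1
  have e3 : (2 * e - p) ^ 2 * (2 * f + i) ^ 2 = (p * i - s * t) ^ 2 := by
    rw [← mul_pow, e1]; ring
  have e4 : ((4 * m + i) ^ 2 - (2 * f + i) ^ 2) * ((4 * m + i) ^ 2 + (2 * e - p) ^ 2) =
      (4 * m + i) ^ 2 * ((4 * m + i) ^ 2 + ((2 * e - p) ^ 2 - (2 * f + i) ^ 2)) -
        (2 * e - p) ^ 2 * (2 * f + i) ^ 2 := by ring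
  rw [e4, e2, e3] at k2
  nlinarith

theorem tXY_sound {r₁ r₂ : Rg} {m : ℕ} {A B C D : N}
    (ht : tXY r₁ r₂ m A B C D = true) {x₁ y₁ x₂ y₂ : ℝ} (h1 : Mem x₁ A) (h2 : Mem y₁ B)
    (h3 : Mem x₂ C) (h4 : Mem y₂ D) (g1 : InR r₁ x₁ y₁) (g2 : InR r₂ x₂ y₂) {u v : ℝ}
    (h : V2 true x₁ y₁ x₂ y₂ u v) : (m : ℝ) / 1000 < u * v := by
  unfold tXY at ht
  rw [Bool.or_eq_true, Bool.or_eq_true] at ht
  rcases ht with ht | ht | ht
  · exact (inf_sound g1 h1 h2 ht).elim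
  · exact (inf_sound g2 h3 h4 ht).elim
  obtain ⟨μ, hμ⟩ : ∃ μ : ℝ, μ = (m : ℝ) / 1000 := ⟨_, rfl⟩
  have q2 : Mem (2 * μ) (th (2 * m)) := by
    have := mem_th (2 * m)
    push_cast at this
    rw [hμ, ← mul_div_assoc]
    exact this
  have q4 : Mem (4 * μ) (th (4 * m)) := by
    have := mem_th (4 * m)
    push_cast at this
    rw [hμ, ← mul_div_assoc]
    exact this
  have q8 : Mem (8 * μ) (th (8 * m)) := by
    have := mem_th (8 * m)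
    push_cast at this
    rw [hμ, ← mul_div_assoc]
    exact this
  rw [← hμ]
  have mpp := h2.mul h3
  have mpm := h1.mul h4
  have mpr := (h1.mul h3).add (h2.mul h4)
  have msx := h1.add h3
  have msy := h2.ad h4
  have mz := ((mpr.mul mpp).add (msx.mul h4)).ad ((mpr.mul mpm).add (msx.mul h2))
  have mG := Mem.subp (q4.add mpp) mpm
  unfold dXY cXY at ht
  rw [Bool.and_eq_true, Bool.and_eq_true] at ht
  have hG := mG.pos ht.1
  have hG' : 0 < 4 * μ + y₁ * x₂ - x₁ * y₂ := by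
    rcases lt_max_iff.1 hG with h0 | h0
    · exact h0
    · exact absurd h0 (lt_irrefl _)
  rw [max_eq_left hG'.le] at mG
  have c1 := mpm.le (q2.add mpp) ht.2.1
  have c2 := (mG.sq.mul (((mpr.sq.add msy.sq).add q4.sq).add (q8.mul mpp))).lt
    (mz.sq.add (mG.sq.mul (msx.sq.add (q8.mul mpm)))) ht.2.2
  rw [sq_abs, sq_abs] at c2
  have hre := congrArg Complex.re h.q
  have him := congrArg Complex.im h.q
  simp only [sgy, if_true, pow_two, Complex.add_re, Complex.add_im, Complex.sub_re, Complex.sub_im,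
    Complex.mul_re, Complex.mul_im, Complex.ofReal_re, Complex.ofReal_im, Complex.I_re,
    Complex.I_im, Complex.zero_re, Complex.zero_im, Complex.re_ofNat, Complex.im_ofNat] at hre him
  have hu := h.u0
  have hv := h.v0
  have key := XY_real (x₁ := x₁) (y₁ := y₁) (x₂ := x₂) (y₂ := y₂) (e := u ^ 2 - v ^ 2)
    (f := 2 * u * v) (m := μ) (by positivity) (by linear_combination hre)
    (by linear_combination him) c1 (by
      have e : (4 * μ) ^ 2 = 16 * μ ^ 2 := by ring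
      rw [e] at c2
      exact c2)
  linarith

/-! ### The initial boxes -/

/-- A box of one slot, in units of `1 / 1000`. -/
structure Bx where
  a : ℕ
  b : ℕ
  c : ℕ
  d : ℕ

def Bx.X (p : Bx) : N := rng p.a p.b 1000
def Bx.Y (p : Bx) : N := rng p.c p.d 1000

/-- The box contains the region. -/
def okb (r : Rg) (p : Bx) : Bool :=
  Nat.ble (p.a ^ 2 * (1000000 + r.t1 ^ 2)) (r.k0 ^ 2 * 1000000) &&
  (Nat.ble (r.k1 ^ 2 * 1000000) (p.b ^ 2 * (1000000 + r.t0 ^ 2)) &&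
  (Nat.ble (p.c ^ 2 * (1000000 + r.t0 ^ 2)) (r.k0 ^ 2 * r.t0 ^ 2) &&
  Nat.ble (r.k1 ^ 2 * r.t1 ^ 2) (p.d ^ 2 * (1000000 + r.t1 ^ 2))))

theorem okb_sound {r : Rg} {p : Bx} (hb : okb r p = true) {x y : ℝ} (h : InR r x y) :
    Mem x p.X ∧ Mem y p.Y := by
  unfold okb at hb
  rw [Bool.and_eq_true, Bool.and_eq_true, Bool.and_eq_true, Nat.ble_eq, Nat.ble_eq, Nat.ble_eq,
    Nat.ble_eq] at hb
  obtain ⟨c1, c2, c3, c4⟩ := hb
  have c1' : (p.a : ℝ) ^ 2 * (1000000 + (r.t1 : ℝ) ^ 2) ≤ (r.k0 : ℝ) ^ 2 * 1000000 := by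
    exact_mod_cast c1
  have c2' : (r.k1 : ℝ) ^ 2 * 1000000 ≤ (p.b : ℝ) ^ 2 * (1000000 + (r.t0 : ℝ) ^ 2) := by
    exact_mod_cast c2
  have c3' : (p.c : ℝ) ^ 2 * (1000000 + (r.t0 : ℝ) ^ 2) ≤ (r.k0 : ℝ) ^ 2 * (r.t0 : ℝ) ^ 2 := by
    exact_mod_cast c3
  have c4' : (r.k1 : ℝ) ^ 2 * (r.t1 : ℝ) ^ 2 ≤ (p.d : ℝ) ^ 2 * (1000000 + (r.t1 : ℝ) ^ 2) := by
    exact_mod_cast c4
  have hx := h.x0
  have hy := h.y0
  have hlo : (r.k0 : ℝ) ^ 2 ≤ 1000000 * (x ^ 2 + y ^ 2) := by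
    have := h.lo
    rw [div_pow] at this
    norm_num at this
    linarith
  have hhi : 1000000 * (x ^ 2 + y ^ 2) ≤ (r.k1 : ℝ) ^ 2 := by
    have := h.hi
    rw [div_pow] at this
    norm_num at this
    linarith
  have t1x : 1000000 * y ^ 2 ≤ (r.t1 : ℝ) ^ 2 * x ^ 2 := by
    have h1 := pow_le_pow_left₀ hy h.a1 2
    have e : ((r.t1 : ℝ) / 1000 * x) ^ 2 = (r.t1 : ℝ) ^ 2 * x ^ 2 / 1000000 := by ring
    rw [e, le_div_iff₀ (by norm_num)] at h1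
    linarith
  have t0x : (r.t0 : ℝ) ^ 2 * x ^ 2 ≤ 1000000 * y ^ 2 := by
    have h1 := pow_le_pow_left₀ (by positivity) h.a0 2
    have e : ((r.t0 : ℝ) / 1000 * x) ^ 2 = (r.t0 : ℝ) ^ 2 * x ^ 2 / 1000000 := by ring
    rw [e, div_le_iff₀ (by norm_num)] at h1
    linarith
  have xx : ∀ {s X : ℝ}, 0 ≤ X → 0 < s → s * X ^ 2 ≤ s * (1000 * x) ^ 2 → X ≤ 1000 * x :=
    fun hX hs h1 => (pow_le_pow_iff_left₀ hX (by positivity) (by norm_num)).1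
      (le_of_mul_le_mul_left h1 hs)
  have xx' : ∀ {s X : ℝ}, 0 ≤ X → 0 < s → s * (1000 * x) ^ 2 ≤ s * X ^ 2 → 1000 * x ≤ X :=
    fun hX hs h1 => (pow_le_pow_iff_left₀ (by positivity) hX (by norm_num)).1
      (le_of_mul_le_mul_left h1 hs)
  have yy : ∀ {s X : ℝ}, 0 ≤ X → 0 < s → s * X ^ 2 ≤ s * (1000 * y) ^ 2 → X ≤ 1000 * y :=
    fun hX hs h1 => (pow_le_pow_iff_left₀ hX (by positivity) (by norm_num)).1
      (le_of_mul_le_mul_left h1 hs)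
  have yy' : ∀ {s X : ℝ}, 0 ≤ X → 0 < s → s * (1000 * y) ^ 2 ≤ s * X ^ 2 → 1000 * y ≤ X :=
    fun hX hs h1 => (pow_le_pow_iff_left₀ (by positivity) hX (by norm_num)).1
      (le_of_mul_le_mul_left h1 hs)
  refine ⟨mem_rng (by norm_num) ?_ ?_, mem_rng (by norm_num) ?_ ?_⟩
  · have := xx (Nat.cast_nonneg p.a) (s := 1000000 + (r.t1 : ℝ) ^ 2) (by positivity)
      (by nlinarith)
    push_cast
    linarith
  · have := xx' (Nat.cast_nonneg p.b) (s := 1000000 + (r.t0 : ℝ) ^ 2) (by positivity)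
      (by nlinarith)
    push_cast
    linarith
  · have := yy (Nat.cast_nonneg p.c) (s := 1000000 + (r.t0 : ℝ) ^ 2) (by positivity)
      (by
        have := mul_le_mul_of_nonneg_right hlo (sq_nonneg (r.t0 : ℝ))
        nlinarith)
    push_cast
    linarith
  · have := yy' (Nat.cast_nonneg p.d) (s := 1000000 + (r.t1 : ℝ) ^ 2) (by positivity)
      (by
        have := mul_le_mul_of_nonneg_right hhi (sq_nonneg (r.t1 : ℝ))
        nlinarith)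
    push_cast
    linarith

end Pool.Agent.S5.E.B2
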