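import Pool.Agent.S5.E.B2.Core

/-!
# Mixed chains, block E: vertices with two twists, the tests

`b₁ = x₁ + i y₁`, `b₂ = x₂ + i (sgy so y₂)`, `κ = u - i v`, `4 κ⁴ - 4 b₁ b₂ κ² + (b₁ + b₂)² = 0`.
-/

set_option autoImplicit false

namespace Pool.Agent.S5.E.B2

open Complex Pool.Agent.S3.NI

/-- The vertex data. -/
structure V2 (so : Bool) (x₁ y₁ x₂ y₂ u v : ℝ) : Prop where
  x10 : 0 < x₁
  x20 : 0 < x₂
  u0 : 0 < u
  v0 : 0 < v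
  q : 4 * (((u : ℂ) - v * I) ^ 2) ^ 2 - 4 * (((x₁ : ℂ) + y₁ * I) * ((x₂ : ℂ) + (sgy so y₂ : ℝ) * I)) *
    ((u : ℂ) - v * I) ^ 2 + (((x₁ : ℂ) + y₁ * I) + ((x₂ : ℂ) + (sgy so y₂ : ℝ) * I)) ^ 2 = 0
  /-- `arg X < arg s`. -/
  br : 0 < (u ^ 2 - v ^ 2) * (y₁ + sgy so y₂) + 2 * u * v * (x₁ + x₂)

/-- `H`, `J`, `a`, `b`, `q` of a vertex. -/
theorem V2.qd {so : Bool} {x₁ y₁ x₂ y₂ u v : ℝ} (h : V2 so x₁ y₁ x₂ y₂ u v) {n Y : ℝ}
    (hY : Y = y₁ + sgy so y₂) (hn : n = (x₁ + x₂) ^ 2 + Y ^ 2) :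
    QD (((u ^ 2 - v ^ 2) * (x₁ + x₂) - 2 * u * v * Y) / n)
      (((u ^ 2 - v ^ 2) * Y + 2 * u * v * (x₁ + x₂)) / n)
      (n / (4 * (u ^ 2 + v ^ 2) ^ 2))
      (((x₁ ^ 2 + y₁ ^ 2) * x₂ + (x₂ ^ 2 + y₂ ^ 2) * x₁) / n)
      (((x₁ ^ 2 + y₁ ^ 2) * sgy so y₂ + (x₂ ^ 2 + y₂ ^ 2) * y₁) / n) := by
  have hx1 := h.x10
  have hx2 := h.x20
  have hu := h.u0
  have hv := h.v0
  have hsx : 0 < x₁ + x₂ := by linarith
  have hn0 : 0 < n := by rw [hn]; positivity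
  have hk : 0 < u ^ 2 + v ^ 2 := by positivity
  have hs2 : sgy so y₂ ^ 2 = y₂ ^ 2 := by unfold sgy; cases so <;> simp
  obtain ⟨t, ht⟩ : ∃ t, t = sgy so y₂ := ⟨_, rfl⟩
  have hq := h.q
  have hbr := h.br
  rw [← ht] at hq hbr hY hs2 ⊢
  rw [← hs2]
  have hre := congrArg Complex.re hq
  have him := congrArg Complex.im hq
  simp only [pow_two, Complex.add_re, Complex.add_im, Complex.sub_re, Complex.sub_im,
    Complex.mul_re, Complex.mul_im, Complex.ofReal_re, Complex.ofReal_im, Complex.I_re,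
    Complex.I_im, Complex.zero_re, Complex.zero_im, Complex.re_ofNat, Complex.im_ofNat] at hre him
  -- the two equations
  have E1 : 4 * ((u ^ 2 - v ^ 2) ^ 2 - 4 * u ^ 2 * v ^ 2) -
      4 * ((x₁ * x₂ - y₁ * t) * (u ^ 2 - v ^ 2) + 2 * u * v * (x₁ * t + y₁ * x₂)) +
      ((x₁ + x₂) ^ 2 - (y₁ + t) ^ 2) = 0 := by linear_combination hre
  have E2 : -(16 * u * v * (u ^ 2 - v ^ 2)) -
      4 * ((x₁ * t + y₁ * x₂) * (u ^ 2 - v ^ 2) - 2 * u * v * (x₁ * x₂ - y₁ * t)) +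
      2 * (x₁ + x₂) * (y₁ + t) = 0 := by linear_combination him
  have hY' : y₁ + t = Y := hY.symm
  have hn' : n = (x₁ + x₂) ^ 2 + (y₁ + t) ^ 2 := by rw [hn, hY]
  -- `H = a (1 + q)`, `J = b (q - 1)` multiplied out
  have k4 : (u ^ 2 + v ^ 2) ^ 2 = (u ^ 2 - v ^ 2) ^ 2 + 4 * u ^ 2 * v ^ 2 := by ring
  have key1 : ((x₁ ^ 2 + y₁ ^ 2) * x₂ + (x₂ ^ 2 + t ^ 2) * x₁) * (4 * (u ^ 2 + v ^ 2) ^ 2) =
      ((u ^ 2 - v ^ 2) * (x₁ + x₂) - 2 * u * v * (y₁ + t)) *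
        (4 * (u ^ 2 + v ^ 2) ^ 2 + ((x₁ + x₂) ^ 2 + (y₁ + t) ^ 2)) := by
    linear_combination (-(u ^ 2 - v ^ 2) * (x₁ + x₂) - 2 * u * v * (y₁ + t)) * E1 +
      (-(u ^ 2 - v ^ 2) * (y₁ + t) + 2 * u * v * (x₁ + x₂)) * E2
  have key2 : ((x₁ ^ 2 + y₁ ^ 2) * t + (x₂ ^ 2 + t ^ 2) * y₁) * (4 * (u ^ 2 + v ^ 2) ^ 2) =
      ((u ^ 2 - v ^ 2) * (y₁ + t) + 2 * u * v * (x₁ + x₂)) *
        (((x₁ + x₂) ^ 2 + (y₁ + t) ^ 2) - 4 * (u ^ 2 + v ^ 2) ^ 2) := by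
    linear_combination ((u ^ 2 - v ^ 2) * (y₁ + t) - 2 * u * v * (x₁ + x₂)) * E1 +
      (-(u ^ 2 - v ^ 2) * (x₁ + x₂) - 2 * u * v * (y₁ + t)) * E2
  rw [← hn'] at key1 key2
  rw [hY'] at key1 key2 hbr
  have hk4 : (0 : ℝ) < 4 * (u ^ 2 + v ^ 2) ^ 2 := by positivity
  have hq0 : 0 < n / (4 * (u ^ 2 + v ^ 2) ^ 2) := div_pos hn0 hk4
  have hH : ((x₁ ^ 2 + y₁ ^ 2) * x₂ + (x₂ ^ 2 + t ^ 2) * x₁) / n =
      ((u ^ 2 - v ^ 2) * (x₁ + x₂) - 2 * u * v * Y) / n * (1 + n / (4 * (u ^ 2 + v ^ 2) ^ 2)) := by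
    field_simp
    linear_combination key1
  have hJ : ((x₁ ^ 2 + y₁ ^ 2) * t + (x₂ ^ 2 + t ^ 2) * y₁) / n =
      ((u ^ 2 - v ^ 2) * Y + 2 * u * v * (x₁ + x₂)) / n * (n / (4 * (u ^ 2 + v ^ 2) ^ 2) - 1) := by
    field_simp
    linear_combination key2
  have hHp : 0 < ((x₁ ^ 2 + y₁ ^ 2) * x₂ + (x₂ ^ 2 + t ^ 2) * x₁) / n := by positivity
  refine ⟨?_, div_pos hbr hn0, hq0, hH, hJ, ?_⟩
  · rw [hH] at hHp
    exact (pos_iff_pos_of_mul_pos hHp).2 (by linarith)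
  · rw [hn, ← hY']
    field_simp
    ring

/-! ### Ingredients of the tests -/

/-- `1 - τ²`, `2 τ`, `(1 + τ²)²` for `τ = T / 1000`. -/
def wT (T : ℕ) : N := one.sub (th T).sq
def dT (T : ℕ) : N := N.sm 2 (th T)
def eT (T : ℕ) : N := (one.add (th T).sq).sq

theorem mem_wT {T : ℕ} (hT : T ≤ 1000) : Mem (1 - ((T : ℝ) / 1000) ^ 2) (wT T) := by
  refine mem_one.sub (mem_th T).sq ?_
  have h1 : (T : ℝ) ≤ 1000 := by exact_mod_cast hT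
  have h2 : 0 ≤ (T : ℝ) / 1000 := by positivity
  have h3 : (T : ℝ) / 1000 ≤ 1 := by rw [div_le_one (by norm_num)]; exact h1
  nlinarith

theorem mem_dT (T : ℕ) : Mem (2 * ((T : ℝ) / 1000)) (dT T) := by
  have h := (mem_th T).sm 2
  push_cast at h
  exact h

theorem mem_eT (T : ℕ) : Mem ((1 + ((T : ℝ) / 1000) ^ 2) ^ 2) (eT T) :=
  (mem_one.add (mem_th T).sq).sq

/-- `Re (s (1 + iτ)²)` and `Im (s (1 + iτ)²)`. -/
noncomputable def Cr (so : Bool) (t x₁ y₁ x₂ y₂ : ℝ) : ℝ :=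
  (x₁ + x₂) * (1 - t ^ 2) - 2 * t * (y₁ + sgy so y₂)
noncomputable def Sr (so : Bool) (t x₁ y₁ x₂ y₂ : ℝ) : ℝ :=
  (x₁ + x₂) * (2 * t) + (1 - t ^ 2) * (y₁ + sgy so y₂)
/-- `Im (p conj s)` -/
noncomputable def Ir (so : Bool) (x₁ y₁ x₂ y₂ : ℝ) : ℝ :=
  (x₁ ^ 2 + y₁ ^ 2) * sgy so y₂ + (x₂ ^ 2 + y₂ ^ 2) * y₁

/-- `max (Re (s (1 + iτ)²)) 0`. -/
def Cc (so : Bool) (w d A B C D : N) : N :=
  bif so then (((A.add C).mul w).add (d.mul D)).sub (d.mul B)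
  else ((A.add C).mul w).sub (d.mul (B.add D))

/-- `max (Im (s (1 + iτ)²)) 0`. -/
def Ss (so : Bool) (w d A B C D : N) : N :=
  bif so then (((A.add C).mul d).add (w.mul B)).sub (w.mul D)
  else ((A.add C).mul d).add (w.mul (B.add D))

/-- `|Im (p conj s)|`. -/
def Ip (so : Bool) (r₁ r₂ : Rg) (A B C D : N) : N :=
  bif so then ((R2 r₂ C D).mul B).ad ((R2 r₁ A B).mul D)
  else ((R2 r₂ C D).mul B).add ((R2 r₁ A B).mul D)

/-- `max (-Im (p conj s)) 0`. -/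
def Im' (so : Bool) (r₁ r₂ : Rg) (A B C D : N) : N :=
  bif so then ((R2 r₁ A B).mul D).sub ((R2 r₂ C D).mul B) else ⟨0, 0⟩

/-- `max (Im (p conj s)) 0`. -/
def Iq (so : Bool) (r₁ r₂ : Rg) (A B C D : N) : N :=
  bif so then ((R2 r₂ C D).mul B).sub ((R2 r₁ A B).mul D)
  else ((R2 r₂ C D).mul B).add ((R2 r₁ A B).mul D)

section mem

variable {so : Bool} {r₁ r₂ : Rg} {t x₁ y₁ x₂ y₂ : ℝ} {w d A B C D : N}

theorem mem_Cc (hw : Mem (1 - t ^ 2) w) (hd : Mem (2 * t) d) (h1 : Mem x₁ A) (h2 : Mem y₁ B)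
    (h3 : Mem x₂ C) (h4 : Mem y₂ D) : Mem (max (Cr so t x₁ y₁ x₂ y₂) 0) (Cc so w d A B C D) := by
  unfold Cc Cr sgy
  cases so
  · have h := Mem.subp ((h1.add h3).mul hw) (hd.mul (h2.add h4))
    exact h
  · have h := Mem.subp (((h1.add h3).mul hw).add (hd.mul h4)) (hd.mul h2)
    have e : (x₁ + x₂) * (1 - t ^ 2) + 2 * t * y₂ - 2 * t * y₁ =
        (x₁ + x₂) * (1 - t ^ 2) - 2 * t * (y₁ + -y₂) := by ring
    rw [e] at h
    exact h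

theorem mem_Ss (hw : Mem (1 - t ^ 2) w) (hd : Mem (2 * t) d) (h1 : Mem x₁ A) (h2 : Mem y₁ B)
    (h3 : Mem x₂ C) (h4 : Mem y₂ D) : Mem (max (Sr so t x₁ y₁ x₂ y₂) 0) (Ss so w d A B C D) := by
  unfold Ss Sr sgy
  cases so
  · have h := ((h1.add h3).mul hd).add (hw.mul (h2.add h4))
    have h0 : 0 ≤ (x₁ + x₂) * (2 * t) + (1 - t ^ 2) * (y₁ + y₂) := h.nonneg
    have e : max ((x₁ + x₂) * (2 * t) + (1 - t ^ 2) * (y₁ + if false = true then -y₂ else y₂)) 0 =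
        (x₁ + x₂) * (2 * t) + (1 - t ^ 2) * (y₁ + y₂) := by
      simp only [Bool.false_eq_true, if_false]
      exact max_eq_left h0
    rw [e]
    exact h
  · have h := Mem.subp (((h1.add h3).mul hd).add (hw.mul h2)) (hw.mul h4)
    have e : (x₁ + x₂) * (2 * t) + (1 - t ^ 2) * y₁ - (1 - t ^ 2) * y₂ =
        (x₁ + x₂) * (2 * t) + (1 - t ^ 2) * (y₁ + -y₂) := by ring
    rw [e] at h
    exact h

theorem mem_Ip (g1 : InR r₁ x₁ y₁) (g2 : InR r₂ x₂ y₂) (h1 : Mem x₁ A) (h2 : Mem y₁ B)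
    (h3 : Mem x₂ C) (h4 : Mem y₂ D) : Mem |Ir so x₁ y₁ x₂ y₂| (Ip so r₁ r₂ A B C D) := by
  unfold Ip Ir sgy
  have k1 := (mem_R2 g2 h3 h4).mul h2
  have k2 := (mem_R2 g1 h1 h2).mul h4
  cases so
  · have h := k1.add k2
    have h0 := h.nonneg
    have e : |(x₁ ^ 2 + y₁ ^ 2) * (if false = true then -y₂ else y₂) + (x₂ ^ 2 + y₂ ^ 2) * y₁| =
        (x₂ ^ 2 + y₂ ^ 2) * y₁ + (x₁ ^ 2 + y₁ ^ 2) * y₂ := by
      simp only [Bool.false_eq_true, if_false]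
      rw [abs_of_nonneg (by linarith)]
      ring
    rw [e]
    exact h
  · have h := k1.ad k2
    have e : |(x₁ ^ 2 + y₁ ^ 2) * (if true = true then -y₂ else y₂) + (x₂ ^ 2 + y₂ ^ 2) * y₁| =
        |(x₂ ^ 2 + y₂ ^ 2) * y₁ - (x₁ ^ 2 + y₁ ^ 2) * y₂| := by
      simp only [if_true]
      congr 1
      ring
    rw [e]
    exact h

theorem mem_Im' (g1 : InR r₁ x₁ y₁) (g2 : InR r₂ x₂ y₂) (h1 : Mem x₁ A) (h2 : Mem y₁ B)
    (h3 : Mem x₂ C) (h4 : Mem y₂ D) :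
    Mem (max (-Ir so x₁ y₁ x₂ y₂) 0) (Im' so r₁ r₂ A B C D) := by
  unfold Im' Ir sgy
  have k1 := (mem_R2 g2 h3 h4).mul h2
  have k2 := (mem_R2 g1 h1 h2).mul h4
  cases so
  · have h0 := (k1.add k2).nonneg
    have e : max (-((x₁ ^ 2 + y₁ ^ 2) * (if false = true then -y₂ else y₂) +
        (x₂ ^ 2 + y₂ ^ 2) * y₁)) 0 = 0 := by
      simp only [Bool.false_eq_true, if_false]
      exact max_eq_right (by linarith)
    rw [e]
    constructor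
    · show ((0 : ℕ) : ℝ) ≤ 0 * 1073741824
      norm_num
    · show 0 * 1073741824 ≤ ((0 : ℕ) : ℝ)
      norm_num
  · have h := Mem.subp k2 k1
    have e : (x₁ ^ 2 + y₁ ^ 2) * y₂ - (x₂ ^ 2 + y₂ ^ 2) * y₁ =
        -((x₁ ^ 2 + y₁ ^ 2) * (if true = true then -y₂ else y₂) + (x₂ ^ 2 + y₂ ^ 2) * y₁) := by
      simp only [if_true]
      ring
    rw [e] at h
    exact h

theorem mem_Iq (g1 : InR r₁ x₁ y₁) (g2 : InR r₂ x₂ y₂) (h1 : Mem x₁ A) (h2 : Mem y₁ B)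
    (h3 : Mem x₂ C) (h4 : Mem y₂ D) :
    Mem (max (Ir so x₁ y₁ x₂ y₂) 0) (Iq so r₁ r₂ A B C D) := by
  unfold Iq Ir sgy
  have k1 := (mem_R2 g2 h3 h4).mul h2
  have k2 := (mem_R2 g1 h1 h2).mul h4
  cases so
  · have h := k1.add k2
    have h0 := h.nonneg
    have e : max ((x₁ ^ 2 + y₁ ^ 2) * (if false = true then -y₂ else y₂) +
        (x₂ ^ 2 + y₂ ^ 2) * y₁) 0 = (x₂ ^ 2 + y₂ ^ 2) * y₁ + (x₁ ^ 2 + y₁ ^ 2) * y₂ := by
      simp only [Bool.false_eq_true, if_false]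
      rw [max_eq_left (by linarith)]
      ring
    rw [e]
    exact h
  · have h := Mem.subp k1 k2
    have e : (x₂ ^ 2 + y₂ ^ 2) * y₁ - (x₁ ^ 2 + y₁ ^ 2) * y₂ =
        ((x₁ ^ 2 + y₁ ^ 2) * (if true = true then -y₂ else y₂) + (x₂ ^ 2 + y₂ ^ 2) * y₁) := by
      simp only [if_true]
      ring
    rw [e] at h
    exact h

end mem

/-! ### The tests -/

/-- Upper bound of the angle: `C² (n S² + E I²) < E R² S²`. -/
def aL (E P Q n I R : N) : Bool :=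
  Q.ps && (P.sq.mul ((n.mul Q.sq).add (E.mul I.sq))).lt ((E.mul R.sq).mul Q.sq)

/-- Lower bound of the angle. -/
def aG (E P Q n I R : N) : Bool :=
  P.ps && (Q.ps && ((E.mul R.sq).mul Q.sq).lt (P.sq.mul ((n.mul Q.sq).add (E.mul I.sq))))

/-- Upper bound of the length, `L = 4 K⁴`. -/
def bL (L n I R : N) : Bool :=
  n.lt L && (Nat.ble I.hi 0 || ((N.sm 4 L).mul ((R.sq.mul (L.sub n).sq).add
    (I.sq.mul (L.add n).sq))).lt (n.mul ((L.sub n).sq.mul (L.add n).sq)))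

/-- Lower bound of the length, `L = 4 K⁴`. -/
def bG (L n I R : N) : Bool :=
  L.lt n && (Nat.ble I.hi 0 || ((N.sm 4 L).mul ((R.sq.mul (n.sub L).sq).add
    (I.sq.mul (L.add n).sq))).lt (n.mul ((n.sub L).sq.mul (L.add n).sq)))

def tPL (so : Bool) (r₁ r₂ : Rg) (T : ℕ) (A B C D : N) : Bool :=
  inf r₁ A B || (inf r₂ C D || aL (eT T) (Cc so (wT T) (dT T) A B C D) (Ss so (wT T) (dT T) A B C D)
    (Nn so A B C D) (Ip so r₁ r₂ A B C D) (Rp r₁ r₂ A B C D))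

def tPG (so : Bool) (r₁ r₂ : Rg) (T : ℕ) (A B C D : N) : Bool :=
  inf r₁ A B || (inf r₂ C D || aG (eT T) (Cc so (wT T) (dT T) A B C D) (Ss so (wT T) (dT T) A B C D)
    (Nn so A B C D) (Ip so r₁ r₂ A B C D) (Rp r₁ r₂ A B C D))

/-- `4 (K / 1000)⁴` -/
def lT (K : ℕ) : N := N.sm 4 (th K).sq.sq

theorem mem_lT (K : ℕ) : Mem (4 * ((K : ℝ) / 1000) ^ 4) (lT K) := by
  have h := (mem_th K).sq.sq.sm 4
  push_cast at h
  have e : (4 : ℝ) * (((K : ℝ) / 1000) ^ 2) ^ 2 = 4 * ((K : ℝ) / 1000) ^ 4 := by ring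
  rw [e] at h
  exact h

def tKL (so : Bool) (r₁ r₂ : Rg) (K : ℕ) (A B C D : N) : Bool :=
  inf r₁ A B || (inf r₂ C D || bL (lT K) (Nn so A B C D) (Im' so r₁ r₂ A B C D)
    (Rp r₁ r₂ A B C D))

def tKG (so : Bool) (r₁ r₂ : Rg) (K : ℕ) (A B C D : N) : Bool :=
  inf r₁ A B || (inf r₂ C D || bG (lT K) (Nn so A B C D) (Iq so r₁ r₂ A B C D)
    (Rp r₁ r₂ A B C D))

theorem CS_id (so : Bool) (t x₁ y₁ x₂ y₂ : ℝ) :
    Cr so t x₁ y₁ x₂ y₂ ^ 2 + Sr so t x₁ y₁ x₂ y₂ ^ 2 =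
      (1 + t ^ 2) ^ 2 * ((x₁ + x₂) ^ 2 + (y₁ + sgy so y₂) ^ 2) := by
  unfold Cr Sr; ring

theorem tPL_sound {so : Bool} {r₁ r₂ : Rg} {T : ℕ} (hT : T ≤ 1000) {A B C D : N}
    (ht : tPL so r₁ r₂ T A B C D = true) {x₁ y₁ x₂ y₂ : ℝ} (h1 : Mem x₁ A) (h2 : Mem y₁ B)
    (h3 : Mem x₂ C) (h4 : Mem y₂ D) (g1 : InR r₁ x₁ y₁) (g2 : InR r₂ x₂ y₂) {u v : ℝ}
    (h : V2 so x₁ y₁ x₂ y₂ u v) : v < (T : ℝ) / 1000 * u := by
  unfold tPL at ht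
  rw [Bool.or_eq_true, Bool.or_eq_true] at ht
  rcases ht with ht | ht | ht
  · exact (inf_sound g1 h1 h2 ht).elim
  · exact (inf_sound g2 h3 h4 ht).elim
  obtain ⟨t, htt⟩ : ∃ t : ℝ, t = (T : ℝ) / 1000 := ⟨_, rfl⟩
  have t0 : 0 ≤ t := by rw [htt]; positivity
  have hw := mem_wT hT
  have hd := mem_dT T
  have hE := mem_eT T
  rw [← htt] at hw hd hE ⊢
  have mC := mem_Cc (so := so) hw hd h1 h2 h3 h4
  have mS := mem_Ss (so := so) hw hd h1 h2 h3 h4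
  have mN := mem_Nn (so := so) h1 h2 h3 h4
  have mI := mem_Ip (so := so) g1 g2 h1 h2 h3 h4
  have mR := mem_Rp g1 g2 h1 h2 h3 h4
  unfold aL at ht
  rw [Bool.and_eq_true] at ht
  have hSp := mS.pos ht.1
  have hS : 0 < Sr so t x₁ y₁ x₂ y₂ := by
    rcases lt_max_iff.1 hSp with h0 | h0
    · exact h0
    · exact absurd h0 (lt_irrefl _)
  rw [max_eq_left hS.le] at mS
  have hlt := (mC.sq.mul ((mN.mul mS.sq).add (hE.mul mI.sq))).lt ((hE.mul mR.sq).mul mS.sq) ht.2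
  rw [sq_abs] at hlt
  set n := (x₁ + x₂) ^ 2 + (y₁ + sgy so y₂) ^ 2 with hn
  have hn0 : 0 < n := by
    have := h.x10
    have := h.x20
    rw [hn]; positivity
  have hQ := h.qd rfl hn
  have key := hQ.ang_lt hS (C := Cr so t x₁ y₁ x₂ y₂) (by
    intro hC
    rw [max_eq_left hC.le] at hlt
    rw [CS_id, ← hn]
    set R := (x₁ ^ 2 + y₁ ^ 2) * x₂ + (x₂ ^ 2 + y₂ ^ 2) * x₁
    set S := Sr so t x₁ y₁ x₂ y₂
    set C' := Cr so t x₁ y₁ x₂ y₂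
    have e : (1 + t ^ 2) ^ 2 * n * ((R / n) ^ 2 * S ^ 2 -
        (((x₁ ^ 2 + y₁ ^ 2) * sgy so y₂ + (x₂ ^ 2 + y₂ ^ 2) * y₁) / n) ^ 2 * C' ^ 2) =
        ((1 + t ^ 2) ^ 2 * R ^ 2 * S ^ 2 -
          (1 + t ^ 2) ^ 2 * Ir so x₁ y₁ x₂ y₂ ^ 2 * C' ^ 2) / n := by
      unfold Ir
      field_simp
    rw [e, lt_div_iff₀ hn0]
    nlinarith [hlt])
  have key2 : 0 < 2 * (t * u - v) * (u + t * v) := by
    have e : Sr so t x₁ y₁ x₂ y₂ *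
        (((u ^ 2 - v ^ 2) * (x₁ + x₂) - 2 * u * v * (y₁ + sgy so y₂)) / n) -
        Cr so t x₁ y₁ x₂ y₂ *
        (((u ^ 2 - v ^ 2) * (y₁ + sgy so y₂) + 2 * u * v * (x₁ + x₂)) / n) =
        2 * (t * u - v) * (u + t * v) := by
      unfold Cr Sr
      have hne := hn0.ne'
      field_simp
      rw [hn]
      ring
    rw [← e]
    linarith
  have hu := h.u0
  have hv := h.v0
  have h5 : 0 < u + t * v := by positivity
  have h6 : 0 < t * u - v := by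
    by_contra hc
    push Not at hc
    nlinarith
  linarith

theorem tPG_sound {so : Bool} {r₁ r₂ : Rg} {T : ℕ} (hT : T ≤ 1000) {A B C D : N}
    (ht : tPG so r₁ r₂ T A B C D = true) {x₁ y₁ x₂ y₂ : ℝ} (h1 : Mem x₁ A) (h2 : Mem y₁ B)
    (h3 : Mem x₂ C) (h4 : Mem y₂ D) (g1 : InR r₁ x₁ y₁) (g2 : InR r₂ x₂ y₂) {u v : ℝ}
    (h : V2 so x₁ y₁ x₂ y₂ u v) : (T : ℝ) / 1000 * u < v := by
  unfold tPG at ht
  rw [Bool.or_eq_true, Bool.or_eq_true] at ht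
  rcases ht with ht | ht | ht
  · exact (inf_sound g1 h1 h2 ht).elim
  · exact (inf_sound g2 h3 h4 ht).elim
  obtain ⟨t, htt⟩ : ∃ t : ℝ, t = (T : ℝ) / 1000 := ⟨_, rfl⟩
  have t0 : 0 ≤ t := by rw [htt]; positivity
  have hw := mem_wT hT
  have hd := mem_dT T
  have hE := mem_eT T
  rw [← htt] at hw hd hE ⊢
  have mC := mem_Cc (so := so) hw hd h1 h2 h3 h4
  have mS := mem_Ss (so := so) hw hd h1 h2 h3 h4
  have mN := mem_Nn (so := so) h1 h2 h3 h4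
  have mI := mem_Ip (so := so) g1 g2 h1 h2 h3 h4
  have mR := mem_Rp g1 g2 h1 h2 h3 h4
  unfold aG at ht
  rw [Bool.and_eq_true, Bool.and_eq_true] at ht
  have hSp := mS.pos ht.2.1
  have hS : 0 < Sr so t x₁ y₁ x₂ y₂ := by
    rcases lt_max_iff.1 hSp with h0 | h0
    · exact h0
    · exact absurd h0 (lt_irrefl _)
  have hCp := mC.pos ht.1
  have hC : 0 < Cr so t x₁ y₁ x₂ y₂ := by
    rcases lt_max_iff.1 hCp with h0 | h0
    · exact h0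
    · exact absurd h0 (lt_irrefl _)
  rw [max_eq_left hS.le] at mS
  rw [max_eq_left hC.le] at mC
  have hlt := ((hE.mul mR.sq).mul mS.sq).lt (mC.sq.mul ((mN.mul mS.sq).add (hE.mul mI.sq))) ht.2.2
  rw [sq_abs] at hlt
  set n := (x₁ + x₂) ^ 2 + (y₁ + sgy so y₂) ^ 2 with hn
  have hn0 : 0 < n := by
    have := h.x10
    have := h.x20
    rw [hn]; positivity
  have hQ := h.qd rfl hn
  have key := hQ.lt_ang hC hS (by
    rw [CS_id, ← hn]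
    set R := (x₁ ^ 2 + y₁ ^ 2) * x₂ + (x₂ ^ 2 + y₂ ^ 2) * x₁
    set S := Sr so t x₁ y₁ x₂ y₂
    set C' := Cr so t x₁ y₁ x₂ y₂
    have e : (1 + t ^ 2) ^ 2 * n * ((R / n) ^ 2 * S ^ 2 -
        (((x₁ ^ 2 + y₁ ^ 2) * sgy so y₂ + (x₂ ^ 2 + y₂ ^ 2) * y₁) / n) ^ 2 * C' ^ 2) =
        ((1 + t ^ 2) ^ 2 * R ^ 2 * S ^ 2 -
          (1 + t ^ 2) ^ 2 * Ir so x₁ y₁ x₂ y₂ ^ 2 * C' ^ 2) / n := by
      unfold Ir
      field_simp
    rw [e, div_lt_iff₀ hn0]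
    nlinarith [hlt])
  have key2 : 2 * (t * u - v) * (u + t * v) < 0 := by
    have e : Sr so t x₁ y₁ x₂ y₂ *
        (((u ^ 2 - v ^ 2) * (x₁ + x₂) - 2 * u * v * (y₁ + sgy so y₂)) / n) -
        Cr so t x₁ y₁ x₂ y₂ *
        (((u ^ 2 - v ^ 2) * (y₁ + sgy so y₂) + 2 * u * v * (x₁ + x₂)) / n) =
        2 * (t * u - v) * (u + t * v) := by
      unfold Cr Sr
      have hne := hn0.ne'
      field_simp
      rw [hn]
      ring
    rw [← e]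
    linarith
  have hu := h.u0
  have hv := h.v0
  have h5 : 0 < u + t * v := by positivity
  have h6 : t * u - v < 0 := by
    by_contra hc
    push Not at hc
    nlinarith
  linarith

/-- `4 Q (H² (1 - Q)² + J² (1 + Q)²) < (1 - Q²)²` for `Q = n / L`. -/
theorem Q_key {n L R I : ℝ} (hn : 0 < n) (hL : 0 < L)
    (h : 4 * L * (R ^ 2 * (n - L) ^ 2 + I ^ 2 * (L + n) ^ 2) < n * ((n - L) ^ 2 * (L + n) ^ 2)) :
    4 * (n / L) * ((R / n) ^ 2 * (1 - n / L) ^ 2 + (I / n) ^ 2 * (1 + n / L) ^ 2) <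
      (1 - (n / L) ^ 2) ^ 2 := by
  have e1 : 4 * (n / L) * ((R / n) ^ 2 * (1 - n / L) ^ 2 + (I / n) ^ 2 * (1 + n / L) ^ 2) =
      (4 * L * (R ^ 2 * (n - L) ^ 2 + I ^ 2 * (L + n) ^ 2)) / (n * L ^ 4) := by
    field_simp
    ring
  have e2 : (1 - (n / L) ^ 2) ^ 2 = (n * ((n - L) ^ 2 * (L + n) ^ 2)) / (n * L ^ 4) := by
    field_simp
    ring
  rw [e1, e2]
  exact div_lt_div_of_pos_right h (by positivity)

theorem tKL_sound {so : Bool} {r₁ r₂ : Rg} {K : ℕ} {A B C D : N}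
    (ht : tKL so r₁ r₂ K A B C D = true) {x₁ y₁ x₂ y₂ : ℝ} (h1 : Mem x₁ A) (h2 : Mem y₁ B)
    (h3 : Mem x₂ C) (h4 : Mem y₂ D) (g1 : InR r₁ x₁ y₁) (g2 : InR r₂ x₂ y₂) {u v : ℝ}
    (h : V2 so x₁ y₁ x₂ y₂ u v) : u ^ 2 + v ^ 2 < ((K : ℝ) / 1000) ^ 2 := by
  unfold tKL at ht
  rw [Bool.or_eq_true, Bool.or_eq_true] at ht
  rcases ht with ht | ht | ht
  · exact (inf_sound g1 h1 h2 ht).elim
  · exact (inf_sound g2 h3 h4 ht).elim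
  have hL := mem_lT K
  obtain ⟨k, hk⟩ : ∃ k : ℝ, k = (K : ℝ) / 1000 := ⟨_, rfl⟩
  have k0 : 0 ≤ k := by rw [hk]; positivity
  rw [← hk] at hL ⊢
  have mN := mem_Nn (so := so) h1 h2 h3 h4
  have mI := mem_Im' (so := so) g1 g2 h1 h2 h3 h4
  have mR := mem_Rp g1 g2 h1 h2 h3 h4
  unfold bL at ht
  rw [Bool.and_eq_true, Bool.or_eq_true] at ht
  have hlt0 := mN.lt hL ht.1
  set n := (x₁ + x₂) ^ 2 + (y₁ + sgy so y₂) ^ 2 with hn
  have hn0 : 0 < n := by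
    have := h.x10
    have := h.x20
    rw [hn]; positivity
  have hL0 : 0 < 4 * k ^ 4 := by linarith
  have hQ := h.qd rfl hn
  have key : n / (4 * k ^ 4) < n / (4 * (u ^ 2 + v ^ 2) ^ 2) := by
    apply hQ.lt_q (by rw [div_lt_one hL0]; exact hlt0)
    by_cases hI : 0 ≤ Ir so x₁ y₁ x₂ y₂
    · left
      exact div_nonneg hI hn0.le
    · right
      push Not at hI
      have hmax : max (-Ir so x₁ y₁ x₂ y₂) 0 = -Ir so x₁ y₁ x₂ y₂ := max_eq_left (by linarith)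
      rw [hmax] at mI
      have hlt : 4 * (4 * k ^ 4) * (((x₁ ^ 2 + y₁ ^ 2) * x₂ + (x₂ ^ 2 + y₂ ^ 2) * x₁) ^ 2 *
          (n - 4 * k ^ 4) ^ 2 + Ir so x₁ y₁ x₂ y₂ ^ 2 * (4 * k ^ 4 + n) ^ 2) <
          n * ((n - 4 * k ^ 4) ^ 2 * (4 * k ^ 4 + n) ^ 2) := by
        rcases ht.2 with h0 | h0
        · exfalso
          have h5 : (Im' so r₁ r₂ A B C D).hi ≤ 0 := by rwa [Nat.ble_eq] at h0
          have h6 := mI.2
          have h7 : ((Im' so r₁ r₂ A B C D).hi : ℝ) ≤ 0 := by exact_mod_cast h5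
          nlinarith
        · have mD := (hL.sub mN hlt0.le).sq
          have mS := (hL.add mN).sq
          have m4 := hL.sm 4
          have := (m4.mul ((mR.sq.mul mD).add (mI.sq.mul mS))).lt (mN.mul (mD.mul mS)) h0
          have e : (4 * k ^ 4 - n) ^ 2 = (n - 4 * k ^ 4) ^ 2 := by ring
          rw [e, neg_sq] at this
          push_cast at this
          exact this
      exact Q_key hn0 hL0 hlt
  rw [div_lt_div_iff_of_pos_left hn0 hL0 (by have := h.u0; have := h.v0; positivity)] at key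
  have h7 : (u ^ 2 + v ^ 2) ^ 2 < (k ^ 2) ^ 2 := by nlinarith
  exact lt_of_pow_lt_pow_left₀ 2 (by positivity) h7

theorem tKG_sound {so : Bool} {r₁ r₂ : Rg} {K : ℕ} (hK : 0 < K) {A B C D : N}
    (ht : tKG so r₁ r₂ K A B C D = true) {x₁ y₁ x₂ y₂ : ℝ} (h1 : Mem x₁ A) (h2 : Mem y₁ B)
    (h3 : Mem x₂ C) (h4 : Mem y₂ D) (g1 : InR r₁ x₁ y₁) (g2 : InR r₂ x₂ y₂) {u v : ℝ}
    (h : V2 so x₁ y₁ x₂ y₂ u v) : ((K : ℝ) / 1000) ^ 2 < u ^ 2 + v ^ 2 := by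
  unfold tKG at ht
  rw [Bool.or_eq_true, Bool.or_eq_true] at ht
  rcases ht with ht | ht | ht
  · exact (inf_sound g1 h1 h2 ht).elim
  · exact (inf_sound g2 h3 h4 ht).elim
  have hL := mem_lT K
  obtain ⟨k, hk⟩ : ∃ k : ℝ, k = (K : ℝ) / 1000 := ⟨_, rfl⟩
  have k0 : 0 < k := by
    have : (0 : ℝ) < K := by exact_mod_cast hK
    rw [hk]; positivity
  rw [← hk] at hL ⊢
  have mN := mem_Nn (so := so) h1 h2 h3 h4
  have mI := mem_Iq (so := so) g1 g2 h1 h2 h3 h4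
  have mR := mem_Rp g1 g2 h1 h2 h3 h4
  unfold bG at ht
  rw [Bool.and_eq_true, Bool.or_eq_true] at ht
  have hlt0 := hL.lt mN ht.1
  set n := (x₁ + x₂) ^ 2 + (y₁ + sgy so y₂) ^ 2 with hn
  have hL0 : 0 < 4 * k ^ 4 := by positivity
  have hn0 : 0 < n := by linarith
  have hQ := h.qd rfl hn
  have key : n / (4 * (u ^ 2 + v ^ 2) ^ 2) < n / (4 * k ^ 4) := by
    apply hQ.q_lt (by rw [one_lt_div hL0]; exact hlt0)
    by_cases hI : Ir so x₁ y₁ x₂ y₂ ≤ 0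
    · left
      exact div_nonpos_of_nonpos_of_nonneg hI hn0.le
    · right
      push Not at hI
      have hmax : max (Ir so x₁ y₁ x₂ y₂) 0 = Ir so x₁ y₁ x₂ y₂ := max_eq_left (by linarith)
      rw [hmax] at mI
      have hlt : 4 * (4 * k ^ 4) * (((x₁ ^ 2 + y₁ ^ 2) * x₂ + (x₂ ^ 2 + y₂ ^ 2) * x₁) ^ 2 *
          (n - 4 * k ^ 4) ^ 2 + Ir so x₁ y₁ x₂ y₂ ^ 2 * (4 * k ^ 4 + n) ^ 2) <
          n * ((n - 4 * k ^ 4) ^ 2 * (4 * k ^ 4 + n) ^ 2) := by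
        rcases ht.2 with h0 | h0
        · exfalso
          have h5 : (Iq so r₁ r₂ A B C D).hi ≤ 0 := by rwa [Nat.ble_eq] at h0
          have h6 := mI.2
          have h7 : ((Iq so r₁ r₂ A B C D).hi : ℝ) ≤ 0 := by exact_mod_cast h5
          nlinarith
        · have mD := (mN.sub hL hlt0.le).sq
          have mS := (hL.add mN).sq
          have m4 := hL.sm 4
          have := (m4.mul ((mR.sq.mul mD).add (mI.sq.mul mS))).lt (mN.mul (mD.mul mS)) h0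
          push_cast at this
          exact this
      exact Q_key hn0 hL0 hlt
  rw [div_lt_div_iff_of_pos_left hn0 (by have := h.u0; have := h.v0; positivity) hL0] at key
  have h7 : (k ^ 2) ^ 2 < (u ^ 2 + v ^ 2) ^ 2 := by nlinarith
  exact lt_of_pow_lt_pow_left₀ 2 (by positivity) h7

end Pool.Agent.S5.E.B2
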