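import Pool.Agent.S5.E.B2.TestXY

/-!
# Mixed chains, block E: vertices with two twists, more tests for the length
-/

set_option autoImplicit false

namespace Pool.Agent.S5.E.B2

open Complex Pool.Agent.S3.NI

section core

variable {a b q H J : ℝ}

private theorem m1 {x y : ℝ} (hx : 0 < x) (hxy : x ≤ y) (hy : y ≤ 1) :
    x / (1 + x) ^ 2 ≤ y / (1 + y) ^ 2 := by
  have hy0 : 0 < y := lt_of_lt_of_le hx hxy
  rw [div_le_div_iff₀ (by positivity) (by positivity)]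
  have e : y * (1 + x) ^ 2 - x * (1 + y) ^ 2 = (y - x) * (1 - x * y) := by ring
  have : 0 ≤ (y - x) * (1 - x * y) := mul_nonneg (by linarith) (by nlinarith)
  linarith

private theorem m2 {x y : ℝ} (hx : 0 < x) (hxy : x ≤ y) (hy : y < 1) :
    x / (1 - x) ^ 2 ≤ y / (1 - y) ^ 2 := by
  have h1 : 0 < 1 - x := by linarith
  have h2 : 0 < 1 - y := by linarith
  rw [div_le_div_iff₀ (pow_pos h1 2) (pow_pos h2 2)]
  have e : y * (1 - x) ^ 2 - x * (1 - y) ^ 2 = (y - x) * (1 - x * y) := by ring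
  have : 0 ≤ (y - x) * (1 - x * y) := mul_nonneg (by linarith) (by nlinarith)
  linarith

private theorem n1 {x y : ℝ} (hx : 1 < x) (hxy : x ≤ y) : y / (1 + y) ^ 2 ≤ x / (1 + x) ^ 2 := by
  have hx0 : 0 < x := by linarith
  have hy0 : 0 < y := by linarith
  rw [div_le_div_iff₀ (by positivity) (by positivity)]
  have e : x * (1 + y) ^ 2 - y * (1 + x) ^ 2 = (y - x) * (x * y - 1) := by ring
  have : 0 ≤ (y - x) * (x * y - 1) := mul_nonneg (by linarith) (by nlinarith)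
  linarith

private theorem n2 {x y : ℝ} (hx : 1 < x) (hxy : x ≤ y) : y / (1 - y) ^ 2 ≤ x / (1 - x) ^ 2 := by
  have j1 : 0 < (1 - x) ^ 2 := by
    have : 1 - x ≠ 0 := by linarith
    positivity
  have j2 : 0 < (1 - y) ^ 2 := by
    have : 1 - y ≠ 0 := by linarith
    positivity
  rw [div_le_div_iff₀ j2 j1]
  have e : x * (1 - y) ^ 2 - y * (1 - x) ^ 2 = (y - x) * (x * y - 1) := by ring
  have : 0 ≤ (y - x) * (x * y - 1) := mul_nonneg (by linarith) (by nlinarith)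
  linarith

/-- `f q = 1` for `f x = 4 (H² x / (1 + x)² + J² x / (1 - x)²)`. -/
theorem QD.f_eq (h : QD a b q H J) (h1 : q ≠ 1) :
    1 = 4 * (H ^ 2 * (q / (1 + q) ^ 2) + J ^ 2 * (q / (1 - q) ^ 2)) := by
  have h3 := h.circle
  have hq := h.q0
  have h4 : (1 - q ^ 2) ^ 2 = (1 + q) ^ 2 * (1 - q) ^ 2 := by ring
  rw [h4] at h3
  have h5 : (1 + q) ^ 2 ≠ 0 := by positivity
  have h6 : (1 - q) ^ 2 ≠ 0 := pow_ne_zero 2 (sub_ne_zero.2 h1.symm)
  have e : 4 * (H ^ 2 * (q / (1 + q) ^ 2) + J ^ 2 * (q / (1 - q) ^ 2)) =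
      (4 * q * (H ^ 2 * (1 - q) ^ 2 + J ^ 2 * (1 + q) ^ 2)) / ((1 + q) ^ 2 * (1 - q) ^ 2) := by
    field_simp
  rw [e, h3, div_self (mul_ne_zero h5 h6)]

theorem f_lt {Q : ℝ} (hQ0 : 0 < Q) (hQ1 : Q ≠ 1)
    (ht : (1 - Q ^ 2) ^ 2 < 4 * Q * (H ^ 2 * (1 - Q) ^ 2 + J ^ 2 * (1 + Q) ^ 2)) :
    1 < 4 * (H ^ 2 * (Q / (1 + Q) ^ 2) + J ^ 2 * (Q / (1 - Q) ^ 2)) := by
  have h4 : (1 - Q ^ 2) ^ 2 = (1 + Q) ^ 2 * (1 - Q) ^ 2 := by ring
  rw [h4] at ht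
  have h5 : 0 < (1 + Q) ^ 2 := by positivity
  have h6 : 0 < (1 - Q) ^ 2 := by
    have : 1 - Q ≠ 0 := sub_ne_zero.2 hQ1.symm
    positivity
  have e : 4 * (H ^ 2 * (Q / (1 + Q) ^ 2) + J ^ 2 * (Q / (1 - Q) ^ 2)) =
      (4 * Q * (H ^ 2 * (1 - Q) ^ 2 + J ^ 2 * (1 + Q) ^ 2)) / ((1 + Q) ^ 2 * (1 - Q) ^ 2) := by
    field_simp
  rw [e, one_lt_div (by positivity)]
  exact ht

/-- Lower bound of `q` in the case `J > 0`. -/
theorem QD.lt_q' (h : QD a b q H J) {Q : ℝ} (hQ0 : 0 < Q) (hJ : 0 < J)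
    (ht : Q ≤ 1 ∨ (1 - Q ^ 2) ^ 2 < 4 * Q * (H ^ 2 * (1 - Q) ^ 2 + J ^ 2 * (1 + Q) ^ 2)) :
    Q < q := by
  have hq : 1 < q := by
    by_contra hc
    push Not at hc
    have : J ≤ 0 := by
      rw [h.j]
      exact mul_nonpos_of_nonneg_of_nonpos h.b0.le (by linarith)
    linarith
  rcases ht with ht | ht
  · linarith
  · by_contra hc
    push Not at hc
    have e1 := h.f_eq hq.ne'
    have e2 := f_lt hQ0 (by linarith : Q ≠ 1) ht
    have h1 := mul_le_mul_of_nonneg_left (n1 hq hc) (sq_nonneg H)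
    have h2 := mul_le_mul_of_nonneg_left (n2 hq hc) (sq_nonneg J)
    linarith

/-- Upper bound of `q` in the case `J < 0`. -/
theorem QD.q_lt' (h : QD a b q H J) {Q : ℝ} (hQ0 : 0 < Q) (hJ : J < 0)
    (ht : 1 ≤ Q ∨ (1 - Q ^ 2) ^ 2 < 4 * Q * (H ^ 2 * (1 - Q) ^ 2 + J ^ 2 * (1 + Q) ^ 2)) :
    q < Q := by
  have hq : q < 1 := by
    by_contra hc
    push Not at hc
    have : 0 ≤ J := by
      rw [h.j]
      exact mul_nonneg h.b0.le (by linarith)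
    linarith
  rcases ht with ht | ht
  · linarith
  · by_contra hc
    push Not at hc
    have hQ1 : Q < 1 := by linarith
    have e1 := h.f_eq hq.ne
    have e2 := f_lt hQ0 hQ1.ne ht
    have h1 := mul_le_mul_of_nonneg_left (m1 hQ0 hc hq.le) (sq_nonneg H)
    have h2 := mul_le_mul_of_nonneg_left (m2 hQ0 hc hq) (sq_nonneg J)
    linarith

end core

/-- Upper bound of the length, `L = 4 K⁴`, in the case `I > 0`. -/
def bL' (L n I R : N) : Bool :=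
  I.ps && (Nat.ble n.hi L.lo || (n.mul ((n.ad L).sq.mul (L.add n).sq)).lt
    ((N.sm 4 L).mul ((R.sq.mul (n.ad L).sq).add (I.sq.mul (L.add n).sq))))

/-- Lower bound of the length, in the case `I > 0` for `- Im (p conj s)`. -/
def bG' (L n I R : N) : Bool :=
  I.ps && (Nat.ble L.hi n.lo || (n.mul ((n.ad L).sq.mul (L.add n).sq)).lt
    ((N.sm 4 L).mul ((R.sq.mul (n.ad L).sq).add (I.sq.mul (L.add n).sq))))

def tKL2 (so : Bool) (r₁ r₂ : Rg) (K : ℕ) (A B C D : N) : Bool :=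
  tKL so r₁ r₂ K A B C D || bL' (lT K) (Nn so A B C D) (Iq so r₁ r₂ A B C D) (Rp r₁ r₂ A B C D)

def tKG2 (so : Bool) (r₁ r₂ : Rg) (K : ℕ) (A B C D : N) : Bool :=
  tKG so r₁ r₂ K A B C D || bG' (lT K) (Nn so A B C D) (Im' so r₁ r₂ A B C D) (Rp r₁ r₂ A B C D)

theorem Q_key' {n L R I : ℝ} (hn : 0 < n) (hL : 0 < L)
    (h : n * ((n - L) ^ 2 * (L + n) ^ 2) < 4 * L * (R ^ 2 * (n - L) ^ 2 + I ^ 2 * (L + n) ^ 2)) :
    (1 - (n / L) ^ 2) ^ 2 <
    4 * (n / L) * ((R / n) ^ 2 * (1 - n / L) ^ 2 + (I / n) ^ 2 * (1 + n / L) ^ 2) := by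
  have e1 : 4 * (n / L) * ((R / n) ^ 2 * (1 - n / L) ^ 2 + (I / n) ^ 2 * (1 + n / L) ^ 2) =
      (4 * L * (R ^ 2 * (n - L) ^ 2 + I ^ 2 * (L + n) ^ 2)) / (n * L ^ 4) := by
    field_simp
    ring
  have e2 : (1 - (n / L) ^ 2) ^ 2 = (n * ((n - L) ^ 2 * (L + n) ^ 2)) / (n * L ^ 4) := by
    field_simp
    ring
  rw [e1, e2]
  exact div_lt_div_of_pos_right h (by positivity)

theorem ps_pos {x : ℝ} {A : N} (h : Mem (max x 0) A) (hp : A.ps = true) : 0 < x := by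
  have h1 := h.pos hp
  rcases lt_max_iff.1 h1 with h0 | h0
  · exact h0
  · exact absurd h0 (lt_irrefl _)

theorem le_of_ble {x y : ℝ} {A B : N} (h1 : Mem x A) (h2 : Mem y B)
    (h : Nat.ble A.hi B.lo = true) : x ≤ y := by
  rw [Nat.ble_eq] at h
  have h3 := h1.2
  have h4 := h2.1
  have h5 : (A.hi : ℝ) ≤ (B.lo : ℝ) := by exact_mod_cast h
  nlinarith

theorem tKL2_sound {so : Bool} {r₁ r₂ : Rg} {K : ℕ} {A B C D : N}
    (ht : tKL2 so r₁ r₂ K A B C D = true) {x₁ y₁ x₂ y₂ : ℝ} (h1 : Mem x₁ A) (h2 : Mem y₁ B)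
    (h3 : Mem x₂ C) (h4 : Mem y₂ D) (g1 : InR r₁ x₁ y₁) (g2 : InR r₂ x₂ y₂) {u v : ℝ}
    (h : V2 so x₁ y₁ x₂ y₂ u v) (hK : 0 < K) : u ^ 2 + v ^ 2 < ((K : ℝ) / 1000) ^ 2 := by
  unfold tKL2 at ht
  rw [Bool.or_eq_true] at ht
  rcases ht with ht | ht
  · exact tKL_sound ht h1 h2 h3 h4 g1 g2 h
  have hL := mem_lT K
  obtain ⟨k, hk⟩ : ∃ k : ℝ, k = (K : ℝ) / 1000 := ⟨_, rfl⟩
  have k0 : 0 < k := by
    have : (0 : ℝ) < K := by exact_mod_cast hK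
    rw [hk]; positivity
  rw [← hk] at hL ⊢
  have mN := mem_Nn (so := so) h1 h2 h3 h4
  have mI := mem_Iq (so := so) g1 g2 h1 h2 h3 h4
  have mR := mem_Rp g1 g2 h1 h2 h3 h4
  unfold bL' at ht
  rw [Bool.and_eq_true, Bool.or_eq_true] at ht
  have hI := ps_pos mI ht.1
  rw [max_eq_left hI.le] at mI
  set n := (x₁ + x₂) ^ 2 + (y₁ + sgy so y₂) ^ 2 with hn
  have hn0 : 0 < n := by
    have := h.x10
    have := h.x20
    rw [hn]; positivity
  have hL0 : 0 < 4 * k ^ 4 := by positivity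
  have hQ := h.qd rfl hn
  have key : n / (4 * k ^ 4) < n / (4 * (u ^ 2 + v ^ 2) ^ 2) := by
    apply hQ.lt_q' (by positivity) (div_pos hI hn0)
    rcases ht.2 with h0 | h0
    · left
      rw [div_le_one hL0]
      exact le_of_ble mN hL h0
    · right
      have mD := (mN.ad hL).sq
      have mS := (hL.add mN).sq
      have m4 := hL.sm 4
      have := (mN.mul (mD.mul mS)).lt (m4.mul ((mR.sq.mul mD).add (mI.sq.mul mS))) h0
      rw [sq_abs] at this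
      push_cast at this
      exact Q_key' hn0 hL0 this
  rw [div_lt_div_iff_of_pos_left hn0 hL0 (by have := h.u0; have := h.v0; positivity)] at key
  have h7 : (u ^ 2 + v ^ 2) ^ 2 < (k ^ 2) ^ 2 := by nlinarith
  exact lt_of_pow_lt_pow_left₀ 2 (by positivity) h7

theorem tKG2_sound {so : Bool} {r₁ r₂ : Rg} {K : ℕ} (hK : 0 < K) {A B C D : N}
    (ht : tKG2 so r₁ r₂ K A B C D = true) {x₁ y₁ x₂ y₂ : ℝ} (h1 : Mem x₁ A) (h2 : Mem y₁ B)
    (h3 : Mem x₂ C) (h4 : Mem y₂ D) (g1 : InR r₁ x₁ y₁) (g2 : InR r₂ x₂ y₂) {u v : ℝ}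
    (h : V2 so x₁ y₁ x₂ y₂ u v) : ((K : ℝ) / 1000) ^ 2 < u ^ 2 + v ^ 2 := by
  unfold tKG2 at ht
  rw [Bool.or_eq_true] at ht
  rcases ht with ht | ht
  · exact tKG_sound hK ht h1 h2 h3 h4 g1 g2 h
  have hL := mem_lT K
  obtain ⟨k, hk⟩ : ∃ k : ℝ, k = (K : ℝ) / 1000 := ⟨_, rfl⟩
  have k0 : 0 < k := by
    have : (0 : ℝ) < K := by exact_mod_cast hK
    rw [hk]; positivity
  rw [← hk] at hL ⊢
  have mN := mem_Nn (so := so) h1 h2 h3 h4
  have mI := mem_Im' (so := so) g1 g2 h1 h2 h3 h4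
  have mR := mem_Rp g1 g2 h1 h2 h3 h4
  unfold bG' at ht
  rw [Bool.and_eq_true, Bool.or_eq_true] at ht
  have hI := ps_pos mI ht.1
  rw [max_eq_left hI.le] at mI
  set n := (x₁ + x₂) ^ 2 + (y₁ + sgy so y₂) ^ 2 with hn
  have hn0 : 0 < n := by
    have := h.x10
    have := h.x20
    rw [hn]; positivity
  have hL0 : 0 < 4 * k ^ 4 := by positivity
  have hQ := h.qd rfl hn
  have key : n / (4 * (u ^ 2 + v ^ 2) ^ 2) < n / (4 * k ^ 4) := by
    apply hQ.q_lt' (by positivity) (div_neg_of_neg_of_pos (neg_pos.1 hI) hn0)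
    rcases ht.2 with h0 | h0
    · left
      rw [one_le_div hL0]
      exact le_of_ble hL mN h0
    · right
      have mD := (mN.ad hL).sq
      have mS := (hL.add mN).sq
      have m4 := hL.sm 4
      have := (mN.mul (mD.mul mS)).lt (m4.mul ((mR.sq.mul mD).add (mI.sq.mul mS))) h0
      rw [sq_abs, neg_sq] at this
      push_cast at this
      exact Q_key' hn0 hL0 this
  rw [div_lt_div_iff_of_pos_left hn0 (by have := h.u0; have := h.v0; positivity) hL0] at key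
  have h7 : (k ^ 2) ^ 2 < (u ^ 2 + v ^ 2) ^ 2 := by nlinarith
  exact lt_of_pow_lt_pow_left₀ 2 (by positivity) h7

end Pool.Agent.S5.E.B2
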