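import Pool.Agent.S5.E.B2.Tests2

/-!
# Mixed chains, block E: vertices with two twists, sharper tests

With `P = |b₁|² |b₂|²`, `n = |s|²`, `I = Im (p conj s)`: `Re (p conj s)² = P n - I²`.
-/

set_option autoImplicit false

namespace Pool.Agent.S5.E.B2

open Complex Pool.Agent.S3.NI

theorem Rp_sq (so : Bool) (x₁ y₁ x₂ y₂ : ℝ) :
    ((x₁ ^ 2 + y₁ ^ 2) * x₂ + (x₂ ^ 2 + y₂ ^ 2) * x₁) ^ 2 =
      (x₁ ^ 2 + y₁ ^ 2) * (x₂ ^ 2 + y₂ ^ 2) * ((x₁ + x₂) ^ 2 + (y₁ + sgy so y₂) ^ 2) -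
        Ir so x₁ y₁ x₂ y₂ ^ 2 := by
  unfold Ir sgy
  cases so
  · simp only [Bool.false_eq_true, if_false]; ring
  · simp only [if_true]; ring

section real

variable {so : Bool} {x₁ y₁ x₂ y₂ u v t : ℝ}

/-- Upper bound of the angle. -/
theorem V2.ang_lt (h : V2 so x₁ y₁ x₂ y₂ u v) (t0 : 0 ≤ t) (hS : 0 < Sr so t x₁ y₁ x₂ y₂)
    (hlt : 0 < Cr so t x₁ y₁ x₂ y₂ → Cr so t x₁ y₁ x₂ y₂ ^ 2 + ((1 + t ^ 2) ^ 2) ^ 2 *
      (Ir so x₁ y₁ x₂ y₂ * (Sr so t x₁ y₁ x₂ y₂)⁻¹) ^ 2 <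
      (1 + t ^ 2) ^ 2 * ((x₁ ^ 2 + y₁ ^ 2) * (x₂ ^ 2 + y₂ ^ 2))) : v < t * u := by
  have hCS := CS_id so t x₁ y₁ x₂ y₂
  have hR2 := Rp_sq so x₁ y₁ x₂ y₂
  set n := (x₁ + x₂) ^ 2 + (y₁ + sgy so y₂) ^ 2 with hn
  have hn0 : 0 < n := by
    have := h.x10
    have := h.x20
    rw [hn]; positivity
  have hQ := h.qd rfl hn
  have key := hQ.ang_lt hS (C := Cr so t x₁ y₁ x₂ y₂) (by
    intro hC
    have hlt := hlt hC
    rw [hCS]
    set R := (x₁ ^ 2 + y₁ ^ 2) * x₂ + (x₂ ^ 2 + y₂ ^ 2) * x₁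
    set S := Sr so t x₁ y₁ x₂ y₂
    set C' := Cr so t x₁ y₁ x₂ y₂
    set J := Ir so x₁ y₁ x₂ y₂
    set P := (x₁ ^ 2 + y₁ ^ 2) * (x₂ ^ 2 + y₂ ^ 2)
    set E := (1 + t ^ 2) ^ 2
    have e : E * n * ((R / n) ^ 2 * S ^ 2 -
        (((x₁ ^ 2 + y₁ ^ 2) * sgy so y₂ + (x₂ ^ 2 + y₂ ^ 2) * y₁) / n) ^ 2 * C' ^ 2) =
        (E * R ^ 2 * S ^ 2 - E * J ^ 2 * C' ^ 2) / n := by
      have : (x₁ ^ 2 + y₁ ^ 2) * sgy so y₂ + (x₂ ^ 2 + y₂ ^ 2) * y₁ = J := rfl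
      rw [this]
      field_simp
    rw [e, lt_div_iff₀ hn0]
    have h1 : C' ^ 2 * S ^ 2 + E ^ 2 * J ^ 2 < E * P * S ^ 2 := by
      have := mul_lt_mul_of_pos_right hlt (pow_pos hS 2)
      have e1 : (C' ^ 2 + E ^ 2 * (J * S⁻¹) ^ 2) * S ^ 2 = C' ^ 2 * S ^ 2 + E ^ 2 * J ^ 2 := by
        field_simp
      rw [e1] at this
      linarith
    have h2 := mul_lt_mul_of_pos_left h1 hn0
    have e2 : E * R ^ 2 * S ^ 2 - E * J ^ 2 * C' ^ 2 - C' ^ 2 * S ^ 2 * n =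
        n * (E * P * S ^ 2) - n * (C' ^ 2 * S ^ 2 + E ^ 2 * J ^ 2) := by
      rw [hR2]
      linear_combination (-E * J ^ 2) * hCS
    linarith)
  have key2 : 0 < 2 * (t * u - v) * (u + t * v) := by
    have e : Sr so t x₁ y₁ x₂ y₂ *
        (((u ^ 2 - v ^ 2) * (x₁ + x₂) - 2 * u * v * (y₁ + sgy so y₂)) / n) -
        Cr so t x₁ y₁ x₂ y₂ *
        (((u ^ 2 - v ^ 2) * (y₁ + sgy so y₂) + 2 * u * v * (x₁ + x₂)) / n) =
        2 * (t * u - v) * (u + t * v) := by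
      unfold Cr Sr
      have hne := hn0.ne'
      field_simp
      rw [hn]
      ring
    rw [← e]
    linarith
  have hu := h.u0
  have hv := h.v0
  have h5 : 0 < u + t * v := by positivity
  have h6 : 0 < t * u - v := by
    by_contra hc
    push Not at hc
    nlinarith
  linarith

/-- Lower bound of the angle. -/
theorem V2.lt_ang (h : V2 so x₁ y₁ x₂ y₂ u v) (t0 : 0 ≤ t) (hS : 0 < Sr so t x₁ y₁ x₂ y₂)
    (hC : 0 < Cr so t x₁ y₁ x₂ y₂)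
    (hlt : (1 + t ^ 2) ^ 2 * ((x₁ ^ 2 + y₁ ^ 2) * (x₂ ^ 2 + y₂ ^ 2)) <
      Cr so t x₁ y₁ x₂ y₂ ^ 2 + ((1 + t ^ 2) ^ 2) ^ 2 *
      (Ir so x₁ y₁ x₂ y₂ * (Sr so t x₁ y₁ x₂ y₂)⁻¹) ^ 2) : t * u < v := by
  have hCS := CS_id so t x₁ y₁ x₂ y₂
  have hR2 := Rp_sq so x₁ y₁ x₂ y₂
  set n := (x₁ + x₂) ^ 2 + (y₁ + sgy so y₂) ^ 2 with hn
  have hn0 : 0 < n := by
    have := h.x10
    have := h.x20
    rw [hn]; positivity
  have hQ := h.qd rfl hn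
  have key := hQ.lt_ang hC hS (by
    rw [hCS]
    set R := (x₁ ^ 2 + y₁ ^ 2) * x₂ + (x₂ ^ 2 + y₂ ^ 2) * x₁
    set S := Sr so t x₁ y₁ x₂ y₂
    set C' := Cr so t x₁ y₁ x₂ y₂
    set J := Ir so x₁ y₁ x₂ y₂
    set P := (x₁ ^ 2 + y₁ ^ 2) * (x₂ ^ 2 + y₂ ^ 2)
    set E := (1 + t ^ 2) ^ 2
    have e : E * n * ((R / n) ^ 2 * S ^ 2 -
        (((x₁ ^ 2 + y₁ ^ 2) * sgy so y₂ + (x₂ ^ 2 + y₂ ^ 2) * y₁) / n) ^ 2 * C' ^ 2) =
        (E * R ^ 2 * S ^ 2 - E * J ^ 2 * C' ^ 2) / n := by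
      have : (x₁ ^ 2 + y₁ ^ 2) * sgy so y₂ + (x₂ ^ 2 + y₂ ^ 2) * y₁ = J := rfl
      rw [this]
      field_simp
    rw [e, div_lt_iff₀ hn0]
    have h1 : E * P * S ^ 2 < C' ^ 2 * S ^ 2 + E ^ 2 * J ^ 2 := by
      have := mul_lt_mul_of_pos_right hlt (pow_pos hS 2)
      have e1 : (C' ^ 2 + E ^ 2 * (J * S⁻¹) ^ 2) * S ^ 2 = C' ^ 2 * S ^ 2 + E ^ 2 * J ^ 2 := by
        field_simp
      rw [e1] at this
      linarith
    have h2 := mul_lt_mul_of_pos_left h1 hn0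
    have e2 : E * R ^ 2 * S ^ 2 - E * J ^ 2 * C' ^ 2 - C' ^ 2 * S ^ 2 * n =
        n * (E * P * S ^ 2) - n * (C' ^ 2 * S ^ 2 + E ^ 2 * J ^ 2) := by
      rw [hR2]
      linear_combination (-E * J ^ 2) * hCS
    linarith)
  have key2 : 2 * (t * u - v) * (u + t * v) < 0 := by
    have e : Sr so t x₁ y₁ x₂ y₂ *
        (((u ^ 2 - v ^ 2) * (x₁ + x₂) - 2 * u * v * (y₁ + sgy so y₂)) / n) -
        Cr so t x₁ y₁ x₂ y₂ *
        (((u ^ 2 - v ^ 2) * (y₁ + sgy so y₂) + 2 * u * v * (x₁ + x₂)) / n) =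
        2 * (t * u - v) * (u + t * v) := by
      unfold Cr Sr
      have hne := hn0.ne'
      field_simp
      rw [hn]
      ring
    rw [← e]
    linarith
  have hu := h.u0
  have hv := h.v0
  have h5 : 0 < u + t * v := by positivity
  have h6 : t * u - v < 0 := by
    by_contra hc
    push Not at hc
    nlinarith
  linarith

end real

/-! ### The tests -/

/-- `|b₁|² |b₂|²` -/
def P2 (r₁ r₂ : Rg) (A B C D : N) : N := (R2 r₁ A B).mul (R2 r₂ C D)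

/-- `C² + (E I / S)²` -/
def fA (E P Q I : N) : N := P.sq.add (E.sq.mul (I.mul Q.inv).sq)

def aL3 (E P Q I R : N) : Bool := Q.ps && (fA E P Q I).lt (E.mul R)

def aG3 (E P Q I R : N) : Bool := P.ps && (Q.ps && (E.mul R).lt (fA E P Q I))

def tPL3 (so : Bool) (r₁ r₂ : Rg) (T : ℕ) (A B C D : N) : Bool :=
  inf r₁ A B || (inf r₂ C D || aL3 (eT T) (Cc so (wT T) (dT T) A B C D) (Ss so (wT T) (dT T) A B C D)
    (Ip so r₁ r₂ A B C D) (P2 r₁ r₂ A B C D))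

def tPG3 (so : Bool) (r₁ r₂ : Rg) (T : ℕ) (A B C D : N) : Bool :=
  inf r₁ A B || (inf r₂ C D || aG3 (eT T) (Cc so (wT T) (dT T) A B C D) (Ss so (wT T) (dT T) A B C D)
    (Ip so r₁ r₂ A B C D) (P2 r₁ r₂ A B C D))

theorem tPL3_sound {so : Bool} {r₁ r₂ : Rg} {T : ℕ} (hT : T ≤ 1000) {A B C D : N}
    (ht : tPL3 so r₁ r₂ T A B C D = true) {x₁ y₁ x₂ y₂ : ℝ} (h1 : Mem x₁ A) (h2 : Mem y₁ B)
    (h3 : Mem x₂ C) (h4 : Mem y₂ D) (g1 : InR r₁ x₁ y₁) (g2 : InR r₂ x₂ y₂) {u v : ℝ}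
    (h : V2 so x₁ y₁ x₂ y₂ u v) : v < (T : ℝ) / 1000 * u := by
  unfold tPL3 at ht
  rw [Bool.or_eq_true, Bool.or_eq_true] at ht
  rcases ht with ht | ht | ht
  · exact (inf_sound g1 h1 h2 ht).elim
  · exact (inf_sound g2 h3 h4 ht).elim
  obtain ⟨t, htt⟩ : ∃ t : ℝ, t = (T : ℝ) / 1000 := ⟨_, rfl⟩
  have t0 : 0 ≤ t := by rw [htt]; positivity
  have hw := mem_wT hT
  have hd := mem_dT T
  have hE := mem_eT T
  rw [← htt] at hw hd hE ⊢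
  have mC := mem_Cc (so := so) hw hd h1 h2 h3 h4
  have mS := mem_Ss (so := so) hw hd h1 h2 h3 h4
  have mI := mem_Ip (so := so) g1 g2 h1 h2 h3 h4
  have mP : Mem ((x₁ ^ 2 + y₁ ^ 2) * (x₂ ^ 2 + y₂ ^ 2)) (P2 r₁ r₂ A B C D) :=
    (mem_R2 g1 h1 h2).mul (mem_R2 g2 h3 h4)
  unfold aL3 at ht
  rw [Bool.and_eq_true] at ht
  have hS := ps_pos mS ht.1
  rw [max_eq_left hS.le] at mS
  have mQ := (mI.mul (mS.inv ht.1)).sq
  rw [mul_pow, sq_abs, ← mul_pow] at mQ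
  have hlt := (mC.sq.add (hE.sq.mul mQ)).lt (hE.mul mP) ht.2
  refine h.ang_lt t0 hS fun hC => ?_
  rw [max_eq_left hC.le] at hlt
  exact hlt

theorem tPG3_sound {so : Bool} {r₁ r₂ : Rg} {T : ℕ} (hT : T ≤ 1000) {A B C D : N}
    (ht : tPG3 so r₁ r₂ T A B C D = true) {x₁ y₁ x₂ y₂ : ℝ} (h1 : Mem x₁ A) (h2 : Mem y₁ B)
    (h3 : Mem x₂ C) (h4 : Mem y₂ D) (g1 : InR r₁ x₁ y₁) (g2 : InR r₂ x₂ y₂) {u v : ℝ}
    (h : V2 so x₁ y₁ x₂ y₂ u v) : (T : ℝ) / 1000 * u < v := by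
  unfold tPG3 at ht
  rw [Bool.or_eq_true, Bool.or_eq_true] at ht
  rcases ht with ht | ht | ht
  · exact (inf_sound g1 h1 h2 ht).elim
  · exact (inf_sound g2 h3 h4 ht).elim
  obtain ⟨t, htt⟩ : ∃ t : ℝ, t = (T : ℝ) / 1000 := ⟨_, rfl⟩
  have t0 : 0 ≤ t := by rw [htt]; positivity
  have hw := mem_wT hT
  have hd := mem_dT T
  have hE := mem_eT T
  rw [← htt] at hw hd hE ⊢
  have mC := mem_Cc (so := so) hw hd h1 h2 h3 h4
  have mS := mem_Ss (so := so) hw hd h1 h2 h3 h4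
  have mI := mem_Ip (so := so) g1 g2 h1 h2 h3 h4
  have mP : Mem ((x₁ ^ 2 + y₁ ^ 2) * (x₂ ^ 2 + y₂ ^ 2)) (P2 r₁ r₂ A B C D) :=
    (mem_R2 g1 h1 h2).mul (mem_R2 g2 h3 h4)
  unfold aG3 at ht
  rw [Bool.and_eq_true, Bool.and_eq_true] at ht
  have hC := ps_pos mC ht.1
  have hS := ps_pos mS ht.2.1
  rw [max_eq_left hS.le] at mS
  rw [max_eq_left hC.le] at mC
  have mQ := (mI.mul (mS.inv ht.2.1)).sq
  rw [mul_pow, sq_abs, ← mul_pow] at mQ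
  have hlt := (hE.mul mP).lt (mC.sq.add (hE.sq.mul mQ)) ht.2.2
  exact h.lt_ang t0 hS hC hlt

/-- `4 L P + (4 L I / m)²` -/
def fK (L P I m : N) : N := ((N.sm 4 L).mul P).add ((N.sm 4 L).mul (I.mul m.inv)).sq

/-- `4 L (P m² + 4 L I²)` -/
def gK (L P I m : N) : N := (N.sm 4 L).mul ((P.mul m.sq).add ((N.sm 4 L).mul I.sq))

/-- Upper bound of the length: `I₊`, `I₋`. -/
def bL3 (L n I J P : N) : Bool :=
  bif I.ps then Nat.ble n.hi L.lo ||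
    (bif (n.ad L).ps then (L.add n).sq.lt (fK L P I (n.ad L))
      else ((n.ad L).mul (L.add n)).sq.lt (gK L P I (n.ad L)))
  else n.lt L && ((L.sub n).ps && (fK L P J (L.sub n)).lt (L.add n).sq)

/-- Lower bound of the length. -/
def bG3 (L n I J P : N) : Bool :=
  bif J.ps then Nat.ble L.hi n.lo ||
    (bif (n.ad L).ps then (L.add n).sq.lt (fK L P J (n.ad L))
      else ((n.ad L).mul (L.add n)).sq.lt (gK L P J (n.ad L)))
  else L.lt n && ((n.sub L).ps && (fK L P I (n.sub L)).lt (L.add n).sq)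

def tKL3 (so : Bool) (r₁ r₂ : Rg) (K : ℕ) (A B C D : N) : Bool :=
  inf r₁ A B || (inf r₂ C D || bL3 (lT K) (Nn so A B C D) (Iq so r₁ r₂ A B C D)
    (Im' so r₁ r₂ A B C D) (P2 r₁ r₂ A B C D))

def tKG3 (so : Bool) (r₁ r₂ : Rg) (K : ℕ) (A B C D : N) : Bool :=
  inf r₁ A B || (inf r₂ C D || bG3 (lT K) (Nn so A B C D) (Iq so r₁ r₂ A B C D)
    (Im' so r₁ r₂ A B C D) (P2 r₁ r₂ A B C D))

section key

variable {n L R I P : ℝ}

theorem kk_lt (hn : 0 < n) (hR : R ^ 2 = P * n - I ^ 2)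
    (h : 4 * L * (P * (n - L) ^ 2 + 4 * L * I ^ 2) < (n - L) ^ 2 * (L + n) ^ 2) :
    4 * L * (R ^ 2 * (n - L) ^ 2 + I ^ 2 * (L + n) ^ 2) < n * ((n - L) ^ 2 * (L + n) ^ 2) := by
  have h2 := mul_lt_mul_of_pos_left h hn
  have e : 4 * L * (R ^ 2 * (n - L) ^ 2 + I ^ 2 * (L + n) ^ 2) =
      n * (4 * L * (P * (n - L) ^ 2 + 4 * L * I ^ 2)) := by
    rw [hR]; ring
  rw [e]
  exact h2

theorem kk_gt (hn : 0 < n) (hR : R ^ 2 = P * n - I ^ 2)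
    (h : (n - L) ^ 2 * (L + n) ^ 2 < 4 * L * (P * (n - L) ^ 2 + 4 * L * I ^ 2)) :
    n * ((n - L) ^ 2 * (L + n) ^ 2) < 4 * L * (R ^ 2 * (n - L) ^ 2 + I ^ 2 * (L + n) ^ 2) := by
  have h2 := mul_lt_mul_of_pos_left h hn
  have e : 4 * L * (R ^ 2 * (n - L) ^ 2 + I ^ 2 * (L + n) ^ 2) =
      n * (4 * L * (P * (n - L) ^ 2 + 4 * L * I ^ 2)) := by
    rw [hR]; ring
  rw [e]
  exact h2

theorem fk_lt {m : ℝ} (hm : 0 < m) (hmm : m ^ 2 = (n - L) ^ 2)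
    (h : 4 * L * P + (4 * L * (I * m⁻¹)) ^ 2 < (L + n) ^ 2) :
    4 * L * (P * (n - L) ^ 2 + 4 * L * I ^ 2) < (n - L) ^ 2 * (L + n) ^ 2 := by
  have h2 := mul_lt_mul_of_pos_right h (pow_pos hm 2)
  have e : (4 * L * P + (4 * L * (I * m⁻¹)) ^ 2) * m ^ 2 =
      4 * L * (P * m ^ 2 + 4 * L * I ^ 2) := by
    field_simp
  rw [e, hmm] at h2
  linarith

theorem fk_gt {m : ℝ} (hm : 0 < m) (hmm : m ^ 2 = (n - L) ^ 2)
    (h : (L + n) ^ 2 < 4 * L * P + (4 * L * (I * m⁻¹)) ^ 2) :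
    (n - L) ^ 2 * (L + n) ^ 2 < 4 * L * (P * (n - L) ^ 2 + 4 * L * I ^ 2) := by
  have h2 := mul_lt_mul_of_pos_right h (pow_pos hm 2)
  have e : (4 * L * P + (4 * L * (I * m⁻¹)) ^ 2) * m ^ 2 =
      4 * L * (P * m ^ 2 + 4 * L * I ^ 2) := by
    field_simp
  rw [e, hmm] at h2
  linarith

end key

/-- The second alternative of the tests for the length. -/
theorem gk_sound {L n P I : ℝ} {AL An AP AI : N} (hL : Mem L AL) (hn : Mem n An) (hP : Mem P AP)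
    (hI : Mem I AI)
    (h : (bif (An.ad AL).ps then (AL.add An).sq.lt (fK AL AP AI (An.ad AL))
      else ((An.ad AL).mul (AL.add An)).sq.lt (gK AL AP AI (An.ad AL))) = true) :
    (n - L) ^ 2 * (L + n) ^ 2 < 4 * L * (P * (n - L) ^ 2 + 4 * L * I ^ 2) := by
  have mA := hn.ad hL
  have m4 := hL.sm 4
  push_cast at m4
  cases hps : (An.ad AL).ps
  · rw [hps, cond_false] at h
    have h1 := ((mA.mul (hL.add hn)).sq).lt (m4.mul ((hP.mul mA.sq).add (m4.mul hI.sq))) h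
    rw [mul_pow, sq_abs] at h1
    linarith
  · rw [hps, cond_true] at h
    have h1 := ((hL.add hn).sq).lt ((m4.mul hP).add (m4.mul (hI.mul (mA.inv hps))).sq) h
    exact fk_gt (mA.pos hps) (sq_abs _) h1

theorem tKL3_sound {so : Bool} {r₁ r₂ : Rg} {K : ℕ} (hK : 0 < K) {A B C D : N}
    (ht : tKL3 so r₁ r₂ K A B C D = true) {x₁ y₁ x₂ y₂ : ℝ} (h1 : Mem x₁ A) (h2 : Mem y₁ B)
    (h3 : Mem x₂ C) (h4 : Mem y₂ D) (g1 : InR r₁ x₁ y₁) (g2 : InR r₂ x₂ y₂) {u v : ℝ}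
    (h : V2 so x₁ y₁ x₂ y₂ u v) : u ^ 2 + v ^ 2 < ((K : ℝ) / 1000) ^ 2 := by
  unfold tKL3 at ht
  rw [Bool.or_eq_true, Bool.or_eq_true] at ht
  rcases ht with ht | ht | ht
  · exact (inf_sound g1 h1 h2 ht).elim
  · exact (inf_sound g2 h3 h4 ht).elim
  have hL := mem_lT K
  obtain ⟨k, hk⟩ : ∃ k : ℝ, k = (K : ℝ) / 1000 := ⟨_, rfl⟩
  have k0 : 0 < k := by
    have : (0 : ℝ) < K := by exact_mod_cast hK
    rw [hk]; positivity
  rw [← hk] at hL ⊢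
  have mN := mem_Nn (so := so) h1 h2 h3 h4
  have mI := mem_Iq (so := so) g1 g2 h1 h2 h3 h4
  have mJ := mem_Im' (so := so) g1 g2 h1 h2 h3 h4
  have mP : Mem ((x₁ ^ 2 + y₁ ^ 2) * (x₂ ^ 2 + y₂ ^ 2)) (P2 r₁ r₂ A B C D) :=
    (mem_R2 g1 h1 h2).mul (mem_R2 g2 h3 h4)
  have hR2 := Rp_sq so x₁ y₁ x₂ y₂
  set n := (x₁ + x₂) ^ 2 + (y₁ + sgy so y₂) ^ 2 with hn
  have hn0 : 0 < n := by
    have := h.x10
    have := h.x20
    rw [hn]; positivity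
  have hL0 : 0 < 4 * k ^ 4 := by positivity
  have hQ := h.qd rfl hn
  have key : n / (4 * k ^ 4) < n / (4 * (u ^ 2 + v ^ 2) ^ 2) := by
    unfold bL3 at ht
    cases hps : (Iq so r₁ r₂ A B C D).ps
    · rw [hps, cond_false, Bool.and_eq_true, Bool.and_eq_true] at ht
      obtain ⟨c1, c2, c3⟩ := ht
      have hlt0 := mN.lt hL c1
      apply hQ.lt_q (by rw [div_lt_one hL0]; exact hlt0)
      by_cases hI : 0 ≤ Ir so x₁ y₁ x₂ y₂
      · left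
        exact div_nonneg hI hn0.le
      · right
        push Not at hI
        rw [max_eq_left (by linarith : (0 : ℝ) ≤ -Ir so x₁ y₁ x₂ y₂)] at mJ
        have mD := hL.sub mN hlt0.le
        have m4 := hL.sm 4
        push_cast at m4
        have h5 := ((m4.mul mP).add (m4.mul (mJ.mul (mD.inv c2))).sq).lt (hL.add mN).sq c3
        have h6 : 4 * (4 * k ^ 4) * ((x₁ ^ 2 + y₁ ^ 2) * (x₂ ^ 2 + y₂ ^ 2)) +
            (4 * (4 * k ^ 4) * (Ir so x₁ y₁ x₂ y₂ * (4 * k ^ 4 - n)⁻¹)) ^ 2 <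
            (4 * k ^ 4 + n) ^ 2 := by
          have e : (4 * (4 * k ^ 4) * (-Ir so x₁ y₁ x₂ y₂ * (4 * k ^ 4 - n)⁻¹)) ^ 2 =
            (4 * (4 * k ^ 4) * (Ir so x₁ y₁ x₂ y₂ * (4 * k ^ 4 - n)⁻¹)) ^ 2 := by ring
          rw [← e]
          exact h5
        exact Q_key hn0 hL0 (kk_lt hn0 hR2 (fk_lt (by linarith) (by ring) h6))
    · rw [hps, cond_true, Bool.or_eq_true] at ht
      have hI := ps_pos mI hps
      rw [max_eq_left hI.le] at mI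
      apply hQ.lt_q' (by positivity) (div_pos hI hn0)
      rcases ht with h0 | h0
      · left
        rw [div_le_one hL0]
        exact le_of_ble mN hL h0
      · right
        exact Q_key' hn0 hL0 (kk_gt hn0 hR2 (gk_sound hL mN mP mI h0))
  rw [div_lt_div_iff_of_pos_left hn0 hL0 (by have := h.u0; have := h.v0; positivity)] at key
  have h7 : (u ^ 2 + v ^ 2) ^ 2 < (k ^ 2) ^ 2 := by nlinarith
  exact lt_of_pow_lt_pow_left₀ 2 (by positivity) h7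

theorem tKG3_sound {so : Bool} {r₁ r₂ : Rg} {K : ℕ} (hK : 0 < K) {A B C D : N}
    (ht : tKG3 so r₁ r₂ K A B C D = true) {x₁ y₁ x₂ y₂ : ℝ} (h1 : Mem x₁ A) (h2 : Mem y₁ B)
    (h3 : Mem x₂ C) (h4 : Mem y₂ D) (g1 : InR r₁ x₁ y₁) (g2 : InR r₂ x₂ y₂) {u v : ℝ}
    (h : V2 so x₁ y₁ x₂ y₂ u v) : ((K : ℝ) / 1000) ^ 2 < u ^ 2 + v ^ 2 := by
  unfold tKG3 at ht
  rw [Bool.or_eq_true, Bool.or_eq_true] at ht
  rcases ht with ht | ht | ht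
  · exact (inf_sound g1 h1 h2 ht).elim
  · exact (inf_sound g2 h3 h4 ht).elim
  have hL := mem_lT K
  obtain ⟨k, hk⟩ : ∃ k : ℝ, k = (K : ℝ) / 1000 := ⟨_, rfl⟩
  have k0 : 0 < k := by
    have : (0 : ℝ) < K := by exact_mod_cast hK
    rw [hk]; positivity
  rw [← hk] at hL ⊢
  have mN := mem_Nn (so := so) h1 h2 h3 h4
  have mI := mem_Iq (so := so) g1 g2 h1 h2 h3 h4
  have mJ := mem_Im' (so := so) g1 g2 h1 h2 h3 h4
  have mP : Mem ((x₁ ^ 2 + y₁ ^ 2) * (x₂ ^ 2 + y₂ ^ 2)) (P2 r₁ r₂ A B C D) :=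
    (mem_R2 g1 h1 h2).mul (mem_R2 g2 h3 h4)
  have hR2 := Rp_sq so x₁ y₁ x₂ y₂
  set n := (x₁ + x₂) ^ 2 + (y₁ + sgy so y₂) ^ 2 with hn
  have hn0 : 0 < n := by
    have := h.x10
    have := h.x20
    rw [hn]; positivity
  have hL0 : 0 < 4 * k ^ 4 := by positivity
  have hQ := h.qd rfl hn
  have key : n / (4 * (u ^ 2 + v ^ 2) ^ 2) < n / (4 * k ^ 4) := by
    unfold bG3 at ht
    cases hps : (Im' so r₁ r₂ A B C D).ps
    · rw [hps, cond_false, Bool.and_eq_true, Bool.and_eq_true] at ht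
      obtain ⟨c1, c2, c3⟩ := ht
      have hlt0 := hL.lt mN c1
      apply hQ.q_lt (by rw [one_lt_div hL0]; exact hlt0)
      by_cases hI : Ir so x₁ y₁ x₂ y₂ ≤ 0
      · left
        exact div_nonpos_of_nonpos_of_nonneg hI hn0.le
      · right
        push Not at hI
        rw [max_eq_left hI.le] at mI
        have mD := mN.sub hL hlt0.le
        have m4 := hL.sm 4
        push_cast at m4
        have h5 := ((m4.mul mP).add (m4.mul (mI.mul (mD.inv c2))).sq).lt (hL.add mN).sq c3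
        exact Q_key hn0 hL0 (kk_lt hn0 hR2 (fk_lt (by linarith) (by ring) h5))
    · rw [hps, cond_true, Bool.or_eq_true] at ht
      have hJ := ps_pos mJ hps
      rw [max_eq_left hJ.le] at mJ
      apply hQ.q_lt' (by positivity) (div_neg_of_neg_of_pos (neg_pos.1 hJ) hn0)
      rcases ht with h0 | h0
      · left
        rw [one_le_div hL0]
        exact le_of_ble hL mN h0
      · right
        have h8 := gk_sound hL mN mP mJ h0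
        rw [neg_sq] at h8
        exact Q_key' hn0 hL0 (kk_gt hn0 hR2 h8)
  rw [div_lt_div_iff_of_pos_left hn0 (by have := h.u0; have := h.v0; positivity) hL0] at key
  have h7 : (k ^ 2) ^ 2 < (u ^ 2 + v ^ 2) ^ 2 := by nlinarith
  exact lt_of_pow_lt_pow_left₀ 2 (by positivity) h7

end Pool.Agent.S5.E.B2
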