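import Pool.Agent.S3.E.Defs
import Pool.Agent.S3.E.TwoA
import Pool.Agent.S5.E.B2.Base

/-!
# Mixed chains, block E: vertices with two twists, the wall

`2 z = π + i (q₁ + q₂)`, `sinh q_j = b_j tan z`, `b₁ = x₁ + i y₁`, `b₂ = x₂ + i s`, `0 ≤ Re (b₁ tan z)`. Suppose
`Re (b₁ tan z) = 0`. Then `tan z = i k conj b₁`, `k > 0`; `κ = k²`, `r = |b₁|²`, `sinh q₁ = i k r` and
`2 cosh q₁ = i ((b₁ - b₂) + κ (b₁ + b₂) (conj b₁)²)`. Either `Re q₁ = 0`, and `cosh q₁ = C ≥ 0`,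
`C² = 1 - κ r²`, or `Im q₁ = π / 2`, and then `Re (cosh q₁) = 0`, `κ r² ≥ 1`, `Re z ≤ π / 4`, `κ r = |tan z|² ≤ 1`.
Both are excluded by the certificate `Wc`.
-/

set_option autoImplicit false

namespace Pool.Agent.S5.E.B2

open Complex

/-- The certificate of a wall. -/
structure Wc (x₁ y₁ x₂ s : ℝ) : Prop where
  e0 : 0 < x₁ * x₂ + y₁ * s
  c1 : ∀ κ C : ℝ, 0 < κ → 0 ≤ C →
    κ * (x₁ * (x₁ ^ 2 + y₁ ^ 2) + x₂ * (x₁ ^ 2 - y₁ ^ 2) + s * (2 * x₁ * y₁)) = x₂ - x₁ →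
    C ^ 2 = 1 - κ * (x₁ ^ 2 + y₁ ^ 2) ^ 2 →
    2 * C = s - y₁ + κ * (y₁ * (x₁ ^ 2 + y₁ ^ 2) + (2 * x₁ * y₁ * x₂ - s * (x₁ ^ 2 - y₁ ^ 2))) → False
  c2 : x₁ ^ 2 + y₁ ^ 2 ≤ 1 ∨
    (x₁ ^ 2 + y₁ ^ 2 - 1) * (x₁ ^ 2 + y₁ ^ 2) * (y₁ - s) < 2 * y₁ * (x₁ * x₂ + y₁ * s)

private theorem wall_sinh (q : ℂ) : (sinh q).re = Real.sinh q.re * Real.cos q.im ∧
    (sinh q).im = Real.cosh q.re * Real.sin q.im := by
  have h : sinh q = sinh (q.re : ℂ) * cos (q.im : ℂ) + cosh (q.re : ℂ) * sin (q.im : ℂ) * I := by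
    conv_lhs => rw [← Complex.re_add_im q]
    rw [Complex.sinh_add, Complex.sinh_mul_I, Complex.cosh_mul_I]
    ring
  rw [h, ← ofReal_sinh, ← ofReal_cosh, ← ofReal_cos, ← ofReal_sin]
  constructor <;>
    simp only [Complex.add_re, Complex.add_im, Complex.sub_re, Complex.sub_im, Complex.mul_re,
      Complex.mul_im, Complex.ofReal_re, Complex.ofReal_im, Complex.I_re, Complex.I_im] <;> ring

private theorem wall_cosh (q : ℂ) : (cosh q).re = Real.cosh q.re * Real.cos q.im ∧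
    (cosh q).im = Real.sinh q.re * Real.sin q.im := by
  have h : cosh q = cosh (q.re : ℂ) * cos (q.im : ℂ) + sinh (q.re : ℂ) * sin (q.im : ℂ) * I := by
    conv_lhs => rw [← Complex.re_add_im q]
    rw [Complex.cosh_add, Complex.sinh_mul_I, Complex.cosh_mul_I]
    ring
  rw [h, ← ofReal_sinh, ← ofReal_cosh, ← ofReal_cos, ← ofReal_sin]
  constructor <;>
    simp only [Complex.add_re, Complex.add_im, Complex.sub_re, Complex.sub_im, Complex.mul_re,
      Complex.mul_im, Complex.ofReal_re, Complex.ofReal_im, Complex.I_re, Complex.I_im] <;> ring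

private theorem wall_tan {z : ℂ} (z0 : 0 < z.re) (z1 : z.re < Real.pi / 2) (zi : 0 < z.im) :
    cos z ≠ 0 ∧ sin z ≠ 0 ∧ 0 < (tan z).re ∧ 0 < (tan z).im ∧
      (z.re ≤ Real.pi / 4 → (tan z).re ^ 2 + (tan z).im ^ 2 ≤ 1) := by
  have hc : cos z ≠ 0 := by
    intro h
    rw [Complex.cos_eq_zero_iff] at h
    obtain ⟨k, hk⟩ := h
    have := congrArg Complex.im hk
    simp at this
    linarith only [this, zi]
  have hs : sin z ≠ 0 := by
    intro h
    rw [Complex.sin_eq_zero_iff] at h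
    obtain ⟨k, hk⟩ := h
    have := congrArg Complex.im hk
    simp at this
    linarith only [this, zi]
  have s0 : 0 < Real.sin z.re := Real.sin_pos_of_pos_of_lt_pi z0 (by linarith only [z1, z0])
  have c0 : 0 < Real.cos z.re := Real.cos_pos_of_mem_Ioo ⟨by linarith only [z1, z0], z1⟩
  have S0 : 0 < Real.sinh z.im := Real.sinh_pos_iff.2 zi
  have C0 : 0 < Real.cosh z.im := Real.cosh_pos _
  have hT : tan z * cos z = sin z := Complex.tan_mul_cos hc
  have ec : (cos z).re = Real.cos z.re * Real.cosh z.im ∧ (cos z).im = -(Real.sin z.re * Real.sinh z.im) := by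
    rw [Complex.cos_eq, ← ofReal_sinh, ← ofReal_cosh, ← ofReal_cos, ← ofReal_sin]
    constructor <;>
      simp only [Complex.add_re, Complex.add_im, Complex.sub_re, Complex.sub_im, Complex.mul_re,
        Complex.mul_im, Complex.ofReal_re, Complex.ofReal_im, Complex.I_re, Complex.I_im] <;> ring
  have es : (sin z).re = Real.sin z.re * Real.cosh z.im ∧ (sin z).im = Real.cos z.re * Real.sinh z.im := by
    rw [Complex.sin_eq, ← ofReal_sinh, ← ofReal_cosh, ← ofReal_cos, ← ofReal_sin]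
    constructor <;>
      simp only [Complex.add_re, Complex.add_im, Complex.sub_re, Complex.sub_im, Complex.mul_re,
        Complex.mul_im, Complex.ofReal_re, Complex.ofReal_im, Complex.I_re, Complex.I_im] <;> ring
  have h1 := congrArg Complex.re hT
  have h2 := congrArg Complex.im hT
  rw [Complex.mul_re, ec.1, ec.2, es.1] at h1
  rw [Complex.mul_im, ec.1, ec.2, es.2] at h2
  have hsc := Real.sin_sq_add_cos_sq z.re
  have hSC := Real.cosh_sq z.im
  generalize (tan z).re = t at h1 h2 ⊢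
  generalize (tan z).im = τ at h1 h2 ⊢
  generalize hs' : Real.sin z.re = a at *
  generalize hc' : Real.cos z.re = b at *
  generalize Real.sinh z.im = S at *
  generalize Real.cosh z.im = C at *
  have hn : 0 < b ^ 2 * C ^ 2 + a ^ 2 * S ^ 2 := by positivity
  have e1 : t * (b ^ 2 * C ^ 2 + a ^ 2 * S ^ 2) = a * b := by
    linear_combination (b * C) * h1 - (a * S) * h2 + a * b * hSC
  have e2 : τ * (b ^ 2 * C ^ 2 + a ^ 2 * S ^ 2) = S * C := by
    linear_combination (a * S) * h1 + (b * C) * h2 + S * C * hsc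
  refine ⟨hc, hs, ?_, ?_, fun hz => ?_⟩
  · by_contra h
    push Not at h
    have := mul_nonpos_of_nonpos_of_nonneg h hn.le
    have := mul_pos s0 c0
    linarith [this, e1]
  · by_contra h
    push Not at h
    have := mul_nonpos_of_nonpos_of_nonneg h hn.le
    have := mul_pos S0 C0
    linarith [this, e2]
  · have hab : a ≤ b := by
      rw [← hs', ← hc', ← Real.cos_pi_div_two_sub]
      exact Real.cos_le_cos_of_nonneg_of_le_pi z0.le (by linarith only [z1, z0]) (by linarith only [hz])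
    have hab2 : a ^ 2 ≤ b ^ 2 := pow_le_pow_left₀ s0.le hab 2
    have e3 : (t ^ 2 + τ ^ 2) * (b ^ 2 * C ^ 2 + a ^ 2 * S ^ 2) = a ^ 2 * C ^ 2 + b ^ 2 * S ^ 2 := by
      have g1 : (t * (b * C) - τ * -(a * S)) ^ 2 = (a * C) ^ 2 := by rw [h1]
      have g2 : (t * -(a * S) + τ * (b * C)) ^ 2 = (b * S) ^ 2 := by rw [h2]
      linear_combination g1 + g2
    by_contra h
    push Not at h
    have h9 := mul_lt_mul_of_pos_right h hn
    rw [one_mul, e3, hSC] at h9
    linarith only [h9, hab2]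

/-- The wall is not reached. -/
theorem wall {z q₁ q₂ b₁ b₂ : ℂ} (hx₁ : 0 < b₁.re) (hy₁ : 0 < b₁.im)
    (hz : 2 * z = (Real.pi : ℂ) + I * (q₁ + q₂)) (h₁ : sinh q₁ * cos z = b₁ * sin z)
    (h₂ : sinh q₂ * cos z = b₂ * sin z) (z0 : 0 < z.re) (z1 : z.re < Real.pi / 2) (zi : 0 < z.im)
    (r₁ : -(Real.pi / 2) ≤ q₁.im) (r₁' : q₁.im ≤ Real.pi / 2) (r₂ : -(Real.pi / 2) ≤ q₂.im)
    (h0 : 0 ≤ (b₁ * tan z).re) (hW : Wc b₁.re b₁.im b₂.re b₂.im) : 0 < (b₁ * tan z).re := by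
  obtain ⟨hc, hs, t0, τ0, ht⟩ := wall_tan z0 z1 zi
  rcases h0.lt_or_eq with h | h
  · exact h
  exfalso
  have hT : tan z * cos z = sin z := Complex.tan_mul_cos hc
  have hch := (Pool.Agent.S3.E.two_cosh hz h₁ h₂ hc hs).1
  -- `tan z = i k conj b₁`
  rw [Complex.mul_re] at h
  set x₁ := b₁.re with hx₁'
  set y₁ := b₁.im with hy₁'
  set x₂ := b₂.re with hx₂'
  set s := b₂.im with hs'
  obtain ⟨k, hk⟩ : ∃ k, k = (tan z).im / x₁ := ⟨_, rfl⟩
  have k0 : 0 < k := by rw [hk]; exact div_pos τ0 hx₁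
  have eτ : (tan z).im = x₁ * k := by rw [hk]; field_simp
  have et : (tan z).re = y₁ * k := by
    apply mul_left_cancel₀ hx₁.ne'
    rw [eτ] at h
    linear_combination -h
  have g1 : sinh q₁ = b₁ * tan z := by
    apply mul_right_cancel₀ hc
    rw [h₁, mul_assoc, hT]
  have g2 : sinh q₂ = b₂ * tan z := by
    apply mul_right_cancel₀ hc
    rw [h₂, mul_assoc, hT]
  have g3 : 2 * cosh q₁ = I * ((b₁ - b₂) - (b₁ + b₂) * tan z ^ 2) := by
    have hc2 : cos z ^ 2 ≠ 0 := pow_ne_zero 2 hc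
    apply mul_left_cancel₀ hc2
    have h5 := Complex.sin_sq_add_cos_sq z
    rw [← hT] at h5
    linear_combination hch + I * (b₁ + b₂) * h5
  -- real and imaginary parts
  have m1 := congrArg Complex.re g1
  have m2 := congrArg Complex.im g1
  have m4 := congrArg Complex.im g2
  rw [(wall_sinh q₁).1, Complex.mul_re, et, eτ, ← hx₁', ← hy₁'] at m1
  rw [(wall_sinh q₁).2, Complex.mul_im, et, eτ, ← hx₁', ← hy₁'] at m2
  rw [(wall_sinh q₂).2, Complex.mul_im, et, eτ, ← hx₂', ← hs'] at m4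
  have m5 := congrArg Complex.re g3
  have m6 := congrArg Complex.im g3
  have eT2 : tan z ^ 2 = ⟨k ^ 2 * (y₁ ^ 2 - x₁ ^ 2), k ^ 2 * (2 * x₁ * y₁)⟩ := by
    rw [_root_.sq]
    apply Complex.ext
    · rw [Complex.mul_re, et, eτ]; ring
    · rw [Complex.mul_im, et, eτ]; ring
  rw [eT2] at m5 m6
  have n5 : 2 * (cosh q₁).re = s - y₁ + k ^ 2 * (y₁ * (x₁ ^ 2 + y₁ ^ 2) +
      (2 * x₁ * y₁ * x₂ - s * (x₁ ^ 2 - y₁ ^ 2))) := by
    simp only [Complex.mul_re, Complex.re_ofNat, Complex.im_ofNat, zero_mul, sub_zero, Complex.I_re,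
      Complex.I_im, one_mul, zero_sub, Complex.sub_im, Complex.sub_re, Complex.add_re, Complex.add_im,
      Complex.mul_im, ← hx₁', ← hy₁', ← hx₂', ← hs'] at m5
    linear_combination m5
  have n6 : 2 * (cosh q₁).im = (x₁ - x₂) + k ^ 2 * (x₁ * (x₁ ^ 2 + y₁ ^ 2) + x₂ * (x₁ ^ 2 - y₁ ^ 2) +
      s * (2 * x₁ * y₁)) := by
    simp only [Complex.mul_re, Complex.re_ofNat, Complex.im_ofNat, zero_mul, sub_zero, Complex.I_re,
      Complex.I_im, one_mul, zero_sub, Complex.sub_im, Complex.sub_re, Complex.add_re, Complex.add_im,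
      Complex.mul_im, ← hx₁', ← hy₁', ← hx₂', ← hs', zero_add, add_zero] at m6
    linear_combination m6
  rw [(wall_cosh q₁).1] at n5
  rw [(wall_cosh q₁).2] at n6
  have hR : 0 < x₁ ^ 2 + y₁ ^ 2 := by positivity
  have k2 : 0 < k ^ 2 := by positivity
  have j1 : Real.sinh q₁.re * Real.cos q₁.im = 0 := by rw [m1]; ring
  have j2 : Real.cosh q₁.re * Real.sin q₁.im = k * (x₁ ^ 2 + y₁ ^ 2) := by rw [m2]; ring
  have j0 : 0 < k * (x₁ ^ 2 + y₁ ^ 2) := mul_pos k0 hR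
  rcases mul_eq_zero.1 j1 with hp | hr
  · -- `Re q₁ = 0`
    have hp' : q₁.re = 0 := Real.sinh_eq_zero.1 hp
    rw [hp', Real.cosh_zero, one_mul] at j2 n5
    rw [hp', Real.sinh_zero, zero_mul, mul_zero] at n6
    refine hW.c1 (k ^ 2) (Real.cos q₁.im) k2 (Real.cos_nonneg_of_mem_Icc ⟨r₁, r₁'⟩)
      (by linear_combination -n6) ?_ n5
    rw [Real.cos_sq', j2]
    ring
  · -- `Im q₁ = π / 2`
    have hcs := Real.sin_sq_add_cos_sq q₁.im
    rw [hr] at hcs n5
    have hsn : 0 < Real.sin q₁.im := by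
      by_contra hn
      push Not at hn
      have := mul_nonpos_of_nonneg_of_nonpos (Real.cosh_pos q₁.re).le hn
      linarith
    have hs1 : Real.sin q₁.im = 1 :=
      (sq_eq_sq₀ hsn.le zero_le_one).1 (by linear_combination hcs)
    have hq1 : q₁.im = Real.pi / 2 := by
      have : Real.cos (Real.pi / 2) = Real.cos q₁.im := by rw [hr, Real.cos_pi_div_two]
      have h5 := Real.injOn_cos (x₁ := Real.pi / 2) (x₂ := q₁.im)
        ⟨by linarith only [z1, z0], by linarith only [z1, z0]⟩ ⟨?_, by linarith only [r₁', z1, z0]⟩ this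
      · exact h5.symm
      · by_contra hn
        push Not at hn
        have := Real.sin_nonpos_of_nonpos_of_neg_pi_le hn.le (by linarith only [r₁, z1, z0])
        linarith only [this, hsn]
    rw [hs1, mul_one] at j2
    have hC := Real.one_le_cosh q₁.re
    rw [j2] at hC
    -- `Im q₂ ≥ 0`
    have hq2 : 0 ≤ q₂.im := by
      by_contra hn
      push Not at hn
      have h6 := Real.sin_nonpos_of_nonpos_of_neg_pi_le hn.le (by linarith only [r₂, z1, z0])
      have h7 := mul_nonpos_of_nonneg_of_nonpos (Real.cosh_pos q₂.re).le h6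
      have h8 : 0 < k * (x₁ * x₂ + y₁ * s) := mul_pos k0 hW.e0
      rw [m4] at h7
      linarith only [h8, h7]
    have hz4 : z.re ≤ Real.pi / 4 := by
      have h6 := congrArg Complex.re hz
      simp only [Complex.mul_re, Complex.re_ofNat, Complex.im_ofNat, zero_mul, sub_zero, Complex.add_re,
        Complex.ofReal_re, Complex.I_re, Complex.I_im, one_mul, zero_sub, Complex.add_im] at h6
      linarith only [h6, hq2, hq1]
    have ht' := ht hz4
    rw [et, eτ] at ht'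
    have e5 : k ^ 2 * (x₁ ^ 2 + y₁ ^ 2) ≤ 1 := by linarith only [ht']
    have e6 : 1 ≤ k ^ 2 * (x₁ ^ 2 + y₁ ^ 2) ^ 2 := by
      have h9 := mul_le_mul hC hC zero_le_one (zero_le_one.trans hC)
      linarith only [h9]
    have e7 : (y₁ - s) * (1 - k ^ 2 * (x₁ ^ 2 + y₁ ^ 2)) = k ^ 2 * (2 * y₁ * (x₁ * x₂ + y₁ * s)) := by
      linear_combination n5
    have e8 : 0 < k ^ 2 * (2 * y₁ * (x₁ * x₂ + y₁ * s)) :=
      mul_pos k2 (mul_pos (mul_pos two_pos hy₁) hW.e0)
    have e9 : 0 < y₁ - s := by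
      by_contra hn
      push Not at hn
      have := mul_nonpos_of_nonpos_of_nonneg hn (by linarith only [ht'] : 0 ≤ 1 - k ^ 2 * (x₁ ^ 2 + y₁ ^ 2))
      linarith only [this, e8, n5]
    have e10 : k ^ 2 * (x₁ ^ 2 + y₁ ^ 2) < 1 := by
      rcases e5.lt_or_eq with h6 | h6
      · exact h6
      · rw [h6] at e7
        linarith only [e8, e7]
    rcases hW.c2 with h6 | h6
    · have : k ^ 2 * (x₁ ^ 2 + y₁ ^ 2) ^ 2 ≤ k ^ 2 * (x₁ ^ 2 + y₁ ^ 2) := by
        have h7 : k ^ 2 * (x₁ ^ 2 + y₁ ^ 2) ^ 2 = k ^ 2 * (x₁ ^ 2 + y₁ ^ 2) * (x₁ ^ 2 + y₁ ^ 2) := by ring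
        rw [h7]
        exact mul_le_of_le_one_right (by positivity) h6
      linarith only [this, e10, e6]
    · have h7 := mul_lt_mul_of_pos_left h6 k2
      rw [← e7] at h7
      have h8 : 0 ≤ (y₁ - s) * (k ^ 2 * (x₁ ^ 2 + y₁ ^ 2) ^ 2 - 1) := mul_nonneg e9.le (by linarith only [e6])
      linarith only [h8, h7]

end Pool.Agent.S5.E.B2
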