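import Pool.Agent.S5.E.B2.Wall

/-!
# Mixed chains, block E: vertices with two twists, the wall, the tests

`κ = (x₂ - x₁)⁺ / D` and `2 C = P - Q` in the first part of the certificate `Wc`.
-/

set_option autoImplicit false

namespace Pool.Agent.S5.E.B2

open Pool.Agent.S3.NI

def Wfour : N := ⟨4294967296, 4294967296⟩

theorem mem_Wfour : Mem 4 Wfour := by constructor <;> norm_num [Wfour]

/-- `2 C = P - Q`, `C² = 1 - κ r²` is impossible. -/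
def wt2 (K R P Q : N) : Bool := P.lt Q || ((N.sm 4 (K.mul R.sq)).add (P.sub Q).sq).lt Wfour

theorem wt2_sound {κ r p q C : ℝ} {K R P Q : N} (hK : Mem κ K) (hR : Mem r R) (hP : Mem p P)
    (hQ : Mem q Q) (h : wt2 K R P Q = true) (hC : 0 ≤ C) (e1 : C ^ 2 = 1 - κ * r ^ 2)
    (e2 : 2 * C = p - q) : False := by
  unfold wt2 at h
  rw [Bool.or_eq_true] at h
  rcases h with h | h
  · have := hP.lt hQ h
    linarith
  · have h1 := ((Mem.sm 4 (hK.mul hR.sq)).add (Mem.subp hP hQ).sq).lt mem_Wfour h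
    rw [max_eq_left (by linarith), ← e2] at h1
    push_cast at h1
    nlinarith

/-- `b₂ = x₂ + i y₂` -/
def wtF1 (K R u v B C D : N) : Bool :=
  wt2 K R (D.add (K.mul ((R.mul B).add (C.mul v)))) (B.add (K.mul (D.mul u)))

/-- `b₂ = x₂ - i y₂` -/
def wtT1 (K R u v B C D : N) : Bool :=
  wt2 K R (K.mul ((R.mul B).add ((C.mul v).add (D.mul u)))) (B.add D)

def wtF0 (R u v A B C D : N) (E : N) : Bool := E.ps && wtF1 ((C.sub A).mul E.inv) R u v B C D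
def wtT0 (R u v A B C D : N) (E : N) : Bool := E.ps && wtT1 ((C.sub A).mul E.inv) R u v B C D

def wtF (R u v A B C D : N) : Bool := wtF0 R u v A B C D (((A.mul R).add (C.mul u)).add (D.mul v))
def wtT (R u v A B C D : N) : Bool := wtT0 R u v A B C D (((A.mul R).add (C.mul u)).sub (D.mul v))

def wtd (so : Bool) (R u v A B C D : N) : Bool :=
  bif so then wtT R u v A B C D else wtF R u v A B C D

/-- The test of the first part. -/
def wt (so : Bool) (r₁ r₂ : Rg) (A B C D : N) : Bool :=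
  inf r₁ A B || (inf r₂ C D ||
    wtd so (R2 r₁ A B) ((N.sq A).sub (N.sq B)) ((A.mul B).add (A.mul B)) A B C D)

/-- The first part. -/
def Wp (x₁ y₁ x₂ s : ℝ) : Prop :=
  ∀ κ C : ℝ, 0 < κ → 0 ≤ C →
    κ * (x₁ * (x₁ ^ 2 + y₁ ^ 2) + x₂ * (x₁ ^ 2 - y₁ ^ 2) + s * (2 * x₁ * y₁)) = x₂ - x₁ →
    C ^ 2 = 1 - κ * (x₁ ^ 2 + y₁ ^ 2) ^ 2 →
    2 * C = s - y₁ + κ * (y₁ * (x₁ ^ 2 + y₁ ^ 2) +
      (2 * x₁ * y₁ * x₂ - s * (x₁ ^ 2 - y₁ ^ 2))) → False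

section

variable {x₁ y₁ x₂ y₂ r u v : ℝ} {A B C D R U V : N}

private theorem WallT_kap {κ d : ℝ} {E : N} (h1 : Mem x₁ A) (h3 : Mem x₂ C) (hd : Mem d E)
    (hκ : 0 < κ) (hd0 : 0 < d) (hk : κ * d = x₂ - x₁) (hE : E.ps = true) :
    Mem κ ((C.sub A).mul E.inv) := by
  have h5 : κ = (max (x₂ - x₁) 0) * d⁻¹ := by
    have h6 : 0 < x₂ - x₁ := by rw [← hk]; exact mul_pos hκ hd0
    rw [max_eq_left h6.le, ← hk, mul_assoc, mul_inv_cancel₀ hd0.ne', mul_one]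
  rw [h5]
  exact (Mem.subp h3 h1).mul (hd.inv hE)

theorem wtF_sound (h1 : Mem x₁ A) (h2 : Mem y₁ B) (h3 : Mem x₂ C) (h4 : Mem y₂ D) (hR : Mem r R)
    (hu : Mem u U) (hv : Mem v V) (h : wtF R U V A B C D = true) {κ c : ℝ} (hκ : 0 < κ)
    (hc : 0 ≤ c) (e1 : κ * (x₁ * r + x₂ * u + y₂ * v) = x₂ - x₁) (e2 : c ^ 2 = 1 - κ * r ^ 2)
    (e3 : 2 * c = y₂ - y₁ + κ * (r * y₁ + (x₂ * v - y₂ * u))) : False := by
  unfold wtF wtF0 wtF1 at h
  rw [Bool.and_eq_true] at h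
  have hE := ((h1.mul hR).add (h3.mul hu)).add (h4.mul hv)
  have hκK := WallT_kap h1 h3 hE hκ (hE.pos h.1) e1 h.1
  have hP := h4.add (hκK.mul ((hR.mul h2).add (h3.mul hv)))
  have hQ := h2.add (hκK.mul (h4.mul hu))
  exact wt2_sound hκK hR hP hQ h.2 hc e2 (by rw [e3]; ring)

theorem wtT_sound (h1 : Mem x₁ A) (h2 : Mem y₁ B) (h3 : Mem x₂ C) (h4 : Mem y₂ D) (hR : Mem r R)
    (hu : Mem u U) (hv : Mem v V) (h : wtT R U V A B C D = true) {κ c : ℝ} (hκ : 0 < κ)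
    (hc : 0 ≤ c) (e1 : κ * (x₁ * r + x₂ * u - y₂ * v) = x₂ - x₁) (e2 : c ^ 2 = 1 - κ * r ^ 2)
    (e3 : 2 * c = -y₂ - y₁ + κ * (r * y₁ + (x₂ * v + y₂ * u))) : False := by
  unfold wtT wtT0 wtT1 at h
  rw [Bool.and_eq_true] at h
  have hE := Mem.subp ((h1.mul hR).add (h3.mul hu)) (h4.mul hv)
  have hE0 := hE.pos h.1
  have hE1 : 0 < x₁ * r + x₂ * u - y₂ * v := by
    rcases lt_max_iff.1 hE0 with h5 | h5
    · exact h5
    · exact absurd h5 (lt_irrefl 0)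
  rw [max_eq_left hE1.le] at hE hE0
  have hκK := WallT_kap h1 h3 hE hκ hE0 e1 h.1
  have hP := hκK.mul ((hR.mul h2).add ((h3.mul hv).add (h4.mul hu)))
  exact wt2_sound hκK hR hP (h2.add h4) h.2 hc e2 (by rw [e3]; ring)

end

theorem wt_sound {so : Bool} {r₁ r₂ : Rg} (A B C D : N) (h : wt so r₁ r₂ A B C D = true)
    (x₁ y₁ x₂ y₂ : ℝ) (h1 : Mem x₁ A) (h2 : Mem y₁ B) (h3 : Mem x₂ C) (h4 : Mem y₂ D) :
    InR r₁ x₁ y₁ → InR r₂ x₂ y₂ → y₁ ≤ x₁ → Wp x₁ y₁ x₂ (sgy so y₂) := by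
  intro g₁ g₂ hyx κ c hκ hc e1 e2 e3
  unfold wt at h
  rw [Bool.or_eq_true, Bool.or_eq_true] at h
  rcases h with h | h | h
  · exact inf_sound g₁ h1 h2 h
  · exact inf_sound g₂ h3 h4 h
  have hu0 : y₁ ^ 2 ≤ x₁ ^ 2 := pow_le_pow_left₀ g₁.y0 hyx 2
  have hR := mem_R2 g₁ h1 h2
  have hu := h1.sq.sub h2.sq hu0
  have hv := (h1.mul h2).add (h1.mul h2)
  cases so
  · exact wtF_sound h1 h2 h3 h4 hR hu hv h hκ hc (by rw [← e1]; simp only [sgy, Bool.false_eq_true, if_false]; ring) e2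
      (by rw [e3]; simp only [sgy, Bool.false_eq_true, if_false]; ring)
  · exact wtT_sound h1 h2 h3 h4 hR hu hv h hκ hc (by rw [← e1]; simp only [sgy, if_true]; ring) e2
      (by rw [e3]; simp only [sgy, if_true]; ring)

/-! ### The second part -/

def wu0 (R A B C D : N) : Bool :=
  R.le one || ((R.sub one).mul (R.mul (B.add D))).lt (N.sm 2 (B.mul ((A.mul C).sub (B.mul D))))

/-- The test of the second part (`so = true`). -/
def wu (r₁ r₂ : Rg) (A B C D : N) : Bool :=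
  inf r₁ A B || (inf r₂ C D || wu0 (R2 r₁ A B) A B C D)

theorem wu_sound {r₁ r₂ : Rg} (A B C D : N) (h : wu r₁ r₂ A B C D = true)
    (x₁ y₁ x₂ y₂ : ℝ) (h1 : Mem x₁ A) (h2 : Mem y₁ B) (h3 : Mem x₂ C) (h4 : Mem y₂ D) :
    InR r₁ x₁ y₁ → InR r₂ x₂ y₂ → y₁ * y₂ ≤ x₁ * x₂ → x₁ ^ 2 + y₁ ^ 2 ≤ 1 ∨
      (x₁ ^ 2 + y₁ ^ 2 - 1) * (x₁ ^ 2 + y₁ ^ 2) * (y₁ + y₂) < 2 * y₁ * (x₁ * x₂ - y₁ * y₂) := by
  intro g₁ g₂ he
  unfold wu at h
  rw [Bool.or_eq_true, Bool.or_eq_true] at h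
  rcases h with h | h | h
  · exact absurd h (fun h => inf_sound g₁ h1 h2 h)
  · exact absurd h (fun h => inf_sound g₂ h3 h4 h)
  unfold wu0 at h
  rw [Bool.or_eq_true] at h
  have hR := mem_R2 g₁ h1 h2
  rcases h with h | h
  · exact Or.inl (hR.le mem_one h)
  · rcases le_total (x₁ ^ 2 + y₁ ^ 2) 1 with h5 | h5
    · exact Or.inl h5
    · right
      have h6 := ((hR.sub mem_one h5).mul (hR.mul (h2.add h4))).lt
        (Mem.sm 2 (h2.mul ((h1.mul h3).sub (h2.mul h4) he))) h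
      push_cast at h6
      linarith

end Pool.Agent.S5.E.B2
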